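import Pool.Agent.BW.Can

set_option autoImplicit false

/-!
# Module Grdy: the greedy algorithm and the list of subsets

* `grdy ρ Y C`: foldl over `Y`. Invariant for a prefix `Y'` of `Y`: `T` is a sublist of `Y'`,
  `r (C ∪ T) = r C + |T|` and `r (C ∪ T) = r (C ∪ Y')` (`rank_union_congr` and unit increase), and `T`
  contains no element of `C` (adding such an element does not increase the rank).
* `subs m l`: by induction on `m` (for all `l`): `l = []` is easy (`l.tail = []`, `l.take 1 = []`);
  `l = a :: l'`: a sublist is a sublist of `l'` or `a ::` a sublist of `l'`.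
* `bdry`: `C₀ = grdy ρ (dif E X) X`, `B = grdy ρ (dif E X) C₀`.
-/

namespace Pool.Agent.BW

open Finset
open Pool.Agent.G4 (IsRk lam dualR nor dif word prd)

variable {E X Y C : List ℕ} {r : Finset ℕ → ℤ} {ρ : List ℕ → ℕ}

private theorem Grdy_aux (hr : IsRk r) (hρ : RkS ρ E r) (hC : C ⊆ E) :
    ∀ (Y₂ Y₁ T : List ℕ), Y₁ ++ Y₂ ⊆ E → T.Sublist Y₁ →
      r (C.toFinset ∪ T.toFinset) = r C.toFinset + (T.length : ℤ) →
      r (C.toFinset ∪ T.toFinset) = r (C.toFinset ∪ Y₁.toFinset) →
      Disjoint C.toFinset T.toFinset →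
      (Y₂.foldl (fun T y => if ρ (C ++ T) < ρ (y :: (C ++ T)) then T ++ [y] else T) T).Sublist
        (Y₁ ++ Y₂) ∧
      r (C.toFinset ∪ (Y₂.foldl (fun T y => if ρ (C ++ T) < ρ (y :: (C ++ T)) then T ++ [y]
        else T) T).toFinset) = r C.toFinset + ((Y₂.foldl (fun T y => if ρ (C ++ T) <
        ρ (y :: (C ++ T)) then T ++ [y] else T) T).length : ℤ) ∧
      r (C.toFinset ∪ (Y₂.foldl (fun T y => if ρ (C ++ T) < ρ (y :: (C ++ T)) then T ++ [y]
        else T) T).toFinset) = r (C.toFinset ∪ (Y₁ ++ Y₂).toFinset) ∧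
      Disjoint C.toFinset (Y₂.foldl (fun T y => if ρ (C ++ T) < ρ (y :: (C ++ T)) then T ++ [y]
        else T) T).toFinset := by
  intro Y₂
  induction Y₂ with
  | nil =>
    intro Y₁ T hY hT h1 h2 h3
    rw [List.append_nil]
    exact ⟨hT, h1, h2, h3⟩
  | cons y Y₂ ih =>
    intro Y₁ T hY hT h1 h2 h3
    have hyE : y ∈ E := hY (by simp)
    have hTE : ∀ t ∈ T, t ∈ E := fun t ht => hY (List.mem_append_left _ (hT.subset ht))
    have hCT : ∀ t ∈ C ++ T, t ∈ E := by
      intro t ht
      rcases List.mem_append.1 ht with h4 | h4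
      · exact hC h4
      · exact hTE t h4
    have r1 : (ρ (C ++ T) : ℤ) = r (C.toFinset ∪ T.toFinset) := by
      rw [hρ _ hCT, List.toFinset_append]
    have r2 : (ρ (y :: (C ++ T)) : ℤ) = r (insert y (C.toFinset ∪ T.toFinset)) := by
      rw [hρ _ (by
        intro t ht
        rcases List.mem_cons.1 ht with h4 | h4
        · rw [h4]; exact hyE
        · exact hCT t h4), List.toFinset_cons, List.toFinset_append]
    have hmono := hr.mono (C.toFinset ∪ T.toFinset) y
    have hunit := hr.unit (C.toFinset ∪ T.toFinset) y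
    have e1 : Y₁ ++ y :: Y₂ = (Y₁ ++ [y]) ++ Y₂ := by simp
    have hsubset : C.toFinset ∪ T.toFinset ⊆ C.toFinset ∪ Y₁.toFinset := by
      refine Finset.union_subset_union_right ?_
      intro t ht
      rw [List.mem_toFinset] at ht ⊢
      exact hT.subset ht
    have e2 : C.toFinset ∪ (Y₁ ++ [y]).toFinset = insert y (C.toFinset ∪ Y₁.toFinset) := by
      rw [List.toFinset_append, List.toFinset_cons, List.toFinset_nil]
      ext x
      simp only [Finset.mem_union, Finset.mem_insert, Finset.notMem_empty, or_false]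
      tauto
    have hmono2 : r (insert y (C.toFinset ∪ T.toFinset)) ≤
        r (insert y (C.toFinset ∪ Y₁.toFinset)) := hr.mono' (Finset.insert_subset_insert y hsubset)
    have hunit2 := hr.unit (C.toFinset ∪ Y₁.toFinset) y
    have hmono3 := hr.mono (C.toFinset ∪ Y₁.toFinset) y
    rw [List.foldl_cons, e1]
    by_cases hc : ρ (C ++ T) < ρ (y :: (C ++ T))
    · rw [if_pos hc]
      have hc' : (ρ (C ++ T) : ℤ) < (ρ (y :: (C ++ T)) : ℤ) := by exact_mod_cast hc
      have e3 : C.toFinset ∪ (T ++ [y]).toFinset = insert y (C.toFinset ∪ T.toFinset) := by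
        rw [List.toFinset_append, List.toFinset_cons, List.toFinset_nil]
        ext x
        simp only [Finset.mem_union, Finset.mem_insert, Finset.notMem_empty, or_false]
        tauto
      refine ih (Y₁ ++ [y]) (T ++ [y]) (by rw [← e1]; exact hY)
        (hT.append (List.Sublist.refl [y])) ?_ ?_ ?_
      · rw [e3, List.length_append, List.length_singleton]
        push_cast
        omega
      · rw [e3, e2]
        omega
      · rw [List.toFinset_append, Finset.disjoint_union_right]
        refine ⟨h3, ?_⟩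
        rw [List.toFinset_cons, List.toFinset_nil, Finset.disjoint_right]
        intro x hx hxC
        rw [Finset.mem_insert] at hx
        rcases hx with hx | hx
        · rw [hx] at hxC
          rw [Finset.insert_eq_of_mem (Finset.mem_union_left _ hxC)] at r2
          omega
        · exact absurd hx (Finset.notMem_empty x)
    · rw [if_neg hc]
      have hc' : (ρ (y :: (C ++ T)) : ℤ) ≤ (ρ (C ++ T) : ℤ) := by exact_mod_cast not_lt.1 hc
      refine ih (Y₁ ++ [y]) T (by rw [← e1]; exact hY)
        (hT.trans (List.sublist_append_left Y₁ [y])) h1 ?_ h3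
      rw [e2]
      have h5 := hr.sub (C.toFinset ∪ Y₁.toFinset) (insert y (C.toFinset ∪ T.toFinset))
      have e4 : (C.toFinset ∪ Y₁.toFinset) ∪ insert y (C.toFinset ∪ T.toFinset) =
          insert y (C.toFinset ∪ Y₁.toFinset) := by
        rw [Finset.union_insert, Finset.union_eq_left.2 hsubset]
      rw [e4] at h5
      have h6 : r (C.toFinset ∪ T.toFinset) ≤
          r ((C.toFinset ∪ Y₁.toFinset) ∩ insert y (C.toFinset ∪ T.toFinset)) :=
        hr.mono' (Finset.subset_inter hsubset (Finset.subset_insert _ _))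
      omega

theorem grdy_spec (hr : IsRk r) (hρ : RkS ρ E r) (hY : Y ⊆ E) (hYn : Y.Nodup) (hC : C ⊆ E) :
    (grdy ρ Y C).Sublist Y ∧
    r (C.toFinset ∪ (grdy ρ Y C).toFinset) = r C.toFinset + ((grdy ρ Y C).length : ℤ) ∧
    r (C.toFinset ∪ (grdy ρ Y C).toFinset) = r (C.toFinset ∪ Y.toFinset) ∧
    Disjoint C.toFinset (grdy ρ Y C).toFinset := by
  have _ := hYn
  have h := Grdy_aux hr hρ hC Y [] [] (by rw [List.nil_append]; exact hY) (List.Sublist.refl [])
    (by rw [List.toFinset_nil, Finset.union_empty]; simp) rfl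
    (by rw [List.toFinset_nil]; exact Finset.disjoint_empty_right _)
  rw [List.nil_append] at h
  exact h

theorem mem_subs (m : ℕ) (l T : List ℕ) (hl : l.length ≤ m) (hT : T.Sublist l) :
    T ∈ subs m l := by
  induction m generalizing l T with
  | zero =>
    have h1 : l = [] := List.eq_nil_of_length_eq_zero (Nat.le_zero.1 hl)
    rw [h1] at hT
    rw [List.eq_nil_of_sublist_nil hT]
    exact List.mem_singleton.2 rfl
  | succ m ih =>
    show T ∈ subs m l.tail ++ (subs m l.tail).map fun s => l.take 1 ++ s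
    cases l with
    | nil =>
      exact List.mem_append_left _ (ih [] T (Nat.zero_le _) hT)
    | cons a l' =>
      have hl' : l'.length ≤ m := by
        rw [List.length_cons] at hl
        omega
      cases hT with
      | cons _ h => exact List.mem_append_left _ (ih l' T hl' h)
      | cons_cons _ h =>
        exact List.mem_append_right _ (List.mem_map.2 ⟨_, ih l' _ hl' h, rfl⟩)

theorem subs_sub (m : ℕ) (l T : List ℕ) (hT : T ∈ subs m l) : T.Sublist l := by
  induction m generalizing l T with
  | zero =>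
    rw [List.mem_singleton.1 hT]
    exact List.nil_sublist l
  | succ m ih =>
    have hT' : T ∈ subs m l.tail ++ (subs m l.tail).map fun s => l.take 1 ++ s := hT
    rcases List.mem_append.1 hT' with h1 | h1
    · exact (ih l.tail T h1).trans (List.tail_sublist l)
    · obtain ⟨s, hs, hse⟩ := List.mem_map.1 h1
      rw [← hse]
      have h2 := ih l.tail s hs
      cases l with
      | nil => exact h2
      | cons a l' => exact h2.cons_cons a

/-- the boundary set of `X` -/
theorem bdry_spec (hr : IsRk r) (hE : E.Nodup) (hρ : RkS ρ E r) (hX : X.Sublist E) :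
    (bdry ρ E X).Sublist (dif E X) ∧
    ∃ C₀ : Finset ℕ, C₀ ⊆ E.toFinset \ X.toFinset ∧
      r (X.toFinset ∪ C₀) = r X.toFinset + (C₀.card : ℤ) ∧
      r (X.toFinset ∪ C₀) = r E.toFinset ∧
      r (C₀ ∪ (bdry ρ E X).toFinset) = (C₀.card : ℤ) + ((bdry ρ E X).length : ℤ) ∧
      r (C₀ ∪ (bdry ρ E X).toFinset) = r (E.toFinset \ X.toFinset) ∧
      Disjoint C₀ (bdry ρ E X).toFinset := by
  have hXE : X ⊆ E := hX.subset
  have hN : (dif E X).Sublist E := dif_sub
  have hNn : (dif E X).Nodup := hE.sublist hN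
  obtain ⟨a1, a2, a3, a4⟩ := grdy_spec (Y := dif E X) (C := X) hr hρ hN.subset hNn hXE
  have hCE : grdy ρ (dif E X) X ⊆ E := (a1.trans hN).subset
  obtain ⟨b1, b2, b3, b4⟩ := grdy_spec (Y := dif E X) (C := grdy ρ (dif E X) X) hr hρ
    hN.subset hNn hCE
  have hcard : (grdy ρ (dif E X) X).toFinset.card = (grdy ρ (dif E X) X).length :=
    List.toFinset_card_of_nodup (hNn.sublist a1)
  have hsub : (grdy ρ (dif E X) X).toFinset ⊆ E.toFinset \ X.toFinset := by
    intro x hx
    rw [← toF_dif]
    rw [List.mem_toFinset] at hx ⊢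
    exact a1.subset hx
  have hXF : X.toFinset ⊆ E.toFinset := by
    intro x hx
    rw [List.mem_toFinset] at hx ⊢
    exact hXE hx
  refine ⟨b1, (grdy ρ (dif E X) X).toFinset, hsub, ?_, ?_, ?_, ?_, b4⟩
  · rw [a2, hcard]
  · rw [a3, toF_dif, Finset.union_sdiff_of_subset hXF]
  · show r ((grdy ρ (dif E X) X).toFinset ∪ (grdy ρ (dif E X) (grdy ρ (dif E X) X)).toFinset) =
      ((grdy ρ (dif E X) X).toFinset.card : ℤ) +
        ((grdy ρ (dif E X) (grdy ρ (dif E X) X)).length : ℤ)
    rw [b2]
    have h1 := hr.le_card (grdy ρ (dif E X) X).toFinset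
    have h2 := hr.sub X.toFinset (grdy ρ (dif E X) X).toFinset
    have h3 := hr.nonneg (X.toFinset ∩ (grdy ρ (dif E X) X).toFinset)
    rw [a2, ← hcard] at h2
    omega
  · show r ((grdy ρ (dif E X) X).toFinset ∪ (grdy ρ (dif E X) (grdy ρ (dif E X) X)).toFinset) =
      r (E.toFinset \ X.toFinset)
    rw [b3, toF_dif, Finset.union_eq_right.2 hsub]

end Pool.Agent.BW
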