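import Pool.Agent.BW.Sub

set_option autoImplicit false

/-!
# Module Can: sets as lists

The sets of the algorithm are sublists of the ground set (a list without repetitions).
-/

namespace Pool.Agent.BW

open Finset
open Pool.Agent.G4 (IsRk lam dualR nor dif word prd)

variable {E A B S T T' I : List ℕ} {e u : ℕ} {r : Finset ℕ → ℤ} {ρ : List ℕ → ℕ}

theorem mem_uni : e ∈ uni E A B ↔ e ∈ E ∧ (e ∈ A ∨ e ∈ B) := by
  unfold uni
  simp [List.mem_filter]

theorem mem_nor : e ∈ nor S T ↔ e ∈ S ∧ e ∈ T := by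
  unfold nor
  simp [List.mem_filter]

theorem mem_dif : e ∈ dif S T ↔ e ∈ S ∧ e ∉ T := by
  unfold dif
  simp [List.mem_filter]

theorem mem_rmv : e ∈ rmv I u ↔ e ∈ I ∧ e ≠ u := by
  unfold rmv
  simp [List.mem_filter]

theorem uni_sub : (uni E A B).Sublist E := by
  unfold uni
  exact List.filter_sublist

theorem nor_sub : (nor S T).Sublist S := by
  unfold nor
  exact List.filter_sublist

theorem dif_sub : (dif S T).Sublist S := by
  unfold dif
  exact List.filter_sublist

theorem toF_uni (hA : A ⊆ E) (hB : B ⊆ E) :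
    (uni E A B).toFinset = A.toFinset ∪ B.toFinset := by
  ext x
  rw [List.mem_toFinset, mem_uni, Finset.mem_union, List.mem_toFinset, List.mem_toFinset]
  constructor
  · exact fun h => h.2
  · intro h
    refine ⟨?_, h⟩
    rcases h with h | h
    · exact hA h
    · exact hB h

theorem toF_nor : (nor S T).toFinset = S.toFinset ∩ T.toFinset := by
  ext x
  rw [List.mem_toFinset, mem_nor, Finset.mem_inter, List.mem_toFinset, List.mem_toFinset]

theorem toF_dif : (dif S T).toFinset = S.toFinset \ T.toFinset := by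
  ext x
  rw [List.mem_toFinset, mem_dif, Finset.mem_sdiff, List.mem_toFinset, List.mem_toFinset]

theorem toF_rmv : (rmv I u).toFinset = I.toFinset.erase u := by
  ext x
  rw [List.mem_toFinset, mem_rmv, Finset.mem_erase, List.mem_toFinset]
  exact and_comm

private theorem can_filter (hE : E.Nodup) (hT : T.Sublist E) :
    T = E.filter fun e => decide (e ∈ T) := by
  induction hT with
  | slnil => rfl
  | @cons l₁ l₂ a h ih =>
    have h1 := List.nodup_cons.1 hE
    have h2 : a ∉ l₁ := fun h3 => h1.1 (h.subset h3)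
    rw [List.filter_cons_of_neg (by simpa using h2)]
    exact ih h1.2
  | @cons_cons l₁ l₂ a h ih =>
    have h1 := List.nodup_cons.1 hE
    rw [List.filter_cons_of_pos (by simp)]
    congr 1
    refine (ih h1.2).trans ?_
    apply List.filter_congr
    intro x hx
    have h2 : x ≠ a := fun h3 => h1.1 (h3 ▸ hx)
    simp [h2]

theorem can_ext (hE : E.Nodup) (hT : T.Sublist E) (hT' : T'.Sublist E)
    (h : T.toFinset = T'.toFinset) : T = T' := by
  rw [can_filter hE hT, can_filter hE hT']
  apply List.filter_congr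
  intro x _
  have h1 : x ∈ T ↔ x ∈ T' := by
    rw [← List.mem_toFinset, h, List.mem_toFinset]
  simp [h1]

theorem can_card (hE : E.Nodup) (hT : T.Sublist E) : T.toFinset.card = T.length :=
  List.toFinset_card_of_nodup (hT.nodup hE)

theorem leB_iff : leB A B = true ↔ A.toFinset ⊆ B.toFinset := by
  unfold leB
  rw [List.all_eq_true]
  constructor
  · intro h x hx
    rw [List.mem_toFinset] at hx ⊢
    exact of_decide_eq_true (h x hx)
  · intro h x hx
    have := h (List.mem_toFinset.2 hx)
    rw [List.mem_toFinset] at this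
    exact decide_eq_true this

theorem djB_iff : djB A B = true ↔ Disjoint A.toFinset B.toFinset := by
  unfold djB
  rw [List.all_eq_true, Finset.disjoint_left]
  constructor
  · intro h x hx
    rw [List.mem_toFinset] at hx ⊢
    have := h x hx
    simpa using this
  · intro h x hx
    have := h (List.mem_toFinset.2 hx)
    rw [List.mem_toFinset] at this
    simpa using this

/-- every subset of `E` is given by a sublist of `E` -/
theorem exists_can (hE : E.Nodup) (F : Finset ℕ) (hF : F ⊆ E.toFinset) :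
    ∃ T : List ℕ, T.Sublist E ∧ T.toFinset = F := by
  refine ⟨E.filter fun e => decide (e ∈ F), List.filter_sublist, ?_⟩
  ext x
  rw [List.mem_toFinset, List.mem_filter]
  constructor
  · intro h
    exact of_decide_eq_true h.2
  · intro h
    exact ⟨List.mem_toFinset.1 (hF h), decide_eq_true h⟩

theorem lamL_spec (hr : IsRk r) (hρ : RkS ρ E r) (hT : T ⊆ E) :
    (lamL ρ E T : ℤ) = lam r E.toFinset T.toFinset := by
  have h1 : (ρ T : ℤ) = r T.toFinset := hρ T fun t ht => hT ht
  have h2 : (ρ (dif E T) : ℤ) = r (E.toFinset \ T.toFinset) := by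
    rw [hρ (dif E T) fun t ht => (mem_dif.1 ht).1, toF_dif]
  have h3 : (ρ E : ℤ) = r E.toFinset := hρ E fun t ht => ht
  have h4 : T.toFinset ⊆ E.toFinset := by
    intro x hx
    rw [List.mem_toFinset] at hx ⊢
    exact hT hx
  have h5 := Pool.Agent.G4.lam_nonneg hr h4
  unfold lamL
  unfold lam at h5 ⊢
  omega

theorem mem_famF {F : List (List ℕ)} {X : Finset ℕ} : X ∈ famF F ↔ ∃ B ∈ F, B.toFinset = X := by
  unfold famF
  rw [List.mem_toFinset, List.mem_map]

theorem mem_prd {α β : Type} {l : List α} {l' : List β} {p : α × β} :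
    p ∈ prd l l' ↔ p.1 ∈ l ∧ p.2 ∈ l' := by
  unfold prd
  rw [List.mem_flatMap]
  constructor
  · rintro ⟨a, ha, hp⟩
    obtain ⟨b, hb, rfl⟩ := List.mem_map.1 hp
    exact ⟨ha, hb⟩
  · rintro ⟨h1, h2⟩
    exact ⟨p.1, h1, List.mem_map.2 ⟨p.2, h2, rfl⟩⟩

theorem mem_chl (hE : E.Nodup) {F : List (List ℕ)} (hF : ∀ B ∈ F, B.Sublist E) (hA : A.Sublist E)
    {p : List ℕ × List ℕ} : p ∈ chl E F A ↔ (p.1 ∈ F ∧ p.2 ∈ F) ∧
      Disjoint p.1.toFinset p.2.toFinset ∧ p.1.toFinset ∪ p.2.toFinset = A.toFinset := by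
  unfold chl
  rw [List.mem_filter, mem_prd, Bool.and_eq_true, djB_iff, decide_eq_true_iff]
  constructor
  · rintro ⟨h1, h2, h3⟩
    refine ⟨h1, h2, ?_⟩
    rw [← toF_uni (hF _ h1.1).subset (hF _ h1.2).subset, h3]
  · rintro ⟨h1, h2, h3⟩
    refine ⟨h1, h2, ?_⟩
    refine can_ext hE uni_sub hA ?_
    rw [toF_uni (hF _ h1.1).subset (hF _ h1.2).subset, h3]

end Pool.Agent.BW
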