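import Pool.Agent.BW.Defs

set_option autoImplicit false

/-!
# Module Tr1: traces

`sp K v F` = span of the vectors `v e`, `e ∈ F`; `gut K v E D = sp D ⊓ sp (E \ D)`;
`tr K v E D F = sp F ⊓ gut D`.

* `sp_union`: `Submodule.span_union`, `Set.image_union`. `isRk_rkV`: rank function (compare
  `Pool/Agent/G4/Br1.lean`, `isRk_rkv`; every `sp` is finite dimensional because it is spanned by
  finitely many vectors).
* `finrank_gut`: `finrank (S ⊓ T) = finrank S + finrank T - finrank (S ⊔ T)`,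
  `sp D ⊔ sp (E \ D) = sp E`.
* `rkV_union`: `F ⊆ D`, `H ⊆ E \ D`: `sp F ⊓ sp H ≤ gut D`, so `sp F ⊓ sp H = tr D F ⊓ tr' H` where
  `tr' H = sp H ⊓ gut D`.
* `tr_link`: `F ⊆ A ⊆ C ⊆ E`, `I ⊆ C \ A`. If `x = f + i ∈ gut C`, `f ∈ sp F`, `i ∈ sp I`, then
  `f = x - i ∈ sp (E \ C) ⊔ sp (C \ A) = sp (E \ A)` and `f ∈ sp A`, so `f ∈ tr A F`.
* `tr_union`: `A = A₁ ∪ A₂` disjoint, `Fᵢ ⊆ Aᵢ`: if `x = x₁ + x₂ ∈ gut A`, `xᵢ ∈ sp Fᵢ`, then
  `x₁ = x - x₂ ∈ sp (E \ A) ⊔ sp A₂ = sp (E \ A₁)`, so `x₁ ∈ tr A₁ F₁ = tr A₁ G₁ ≤ sp G₁`.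
-/

namespace Pool.Agent.BW

open Finset Module
open Pool.Agent.G4 (IsRk lam dualR)

variable {K V : Type} [Field K] [AddCommGroup V] [Module K V] {v : ℕ → V}
variable {E A C D F G H I A₁ A₂ F₁ F₂ G₁ G₂ : Finset ℕ}

private theorem spDef (v : ℕ → V) (F : Finset ℕ) :
    sp K v F = Submodule.span K (v '' (F : Set ℕ)) := rfl

theorem sp_union (v : ℕ → V) (F G : Finset ℕ) : sp K v (F ∪ G) = sp K v F ⊔ sp K v G := by
  rw [spDef, spDef, spDef, Finset.coe_union, Set.image_union, Submodule.span_union]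

theorem sp_mono (v : ℕ → V) (h : F ⊆ G) : sp K v F ≤ sp K v G := by
  rw [spDef, spDef]
  exact Submodule.span_mono (Set.image_mono (Finset.coe_subset.2 h))

instance sp_fin (v : ℕ → V) (F : Finset ℕ) : FiniteDimensional K (sp K v F) := by
  rw [spDef]
  exact FiniteDimensional.span_of_finite K (F.finite_toSet.image v)

theorem isRk_rkV (v : ℕ → V) : IsRk (rkV K v) := by
  refine ⟨?_, ?_, ?_, ?_⟩
  · unfold rkV
    rw [spDef, Finset.coe_empty, Set.image_empty, Submodule.span_empty, finrank_bot]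
    rfl
  · intro A e
    unfold rkV
    exact_mod_cast Submodule.finrank_mono (sp_mono (K := K) v (Finset.subset_insert e A))
  · intro A e
    have : FiniteDimensional K (Submodule.span K ({v e} : Set V)) :=
      FiniteDimensional.span_of_finite K (Set.finite_singleton _)
    have e1 : sp K v (insert e A) = Submodule.span K {v e} ⊔ sp K v A := by
      rw [spDef, spDef, Finset.coe_insert, Set.image_insert_eq, Set.insert_eq,
        Submodule.span_union]
    unfold rkV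
    rw [e1]
    have h1 := Submodule.finrank_add_le_finrank_add_finrank (Submodule.span K {v e})
      (sp K v A)
    have h2 : Module.finrank K (Submodule.span K ({v e} : Set V)) ≤ 1 := by
      have := finrank_span_le_card (R := K) ({v e} : Set V)
      simpa using this
    omega
  · intro A B
    have h1 := Submodule.finrank_sup_add_finrank_inf_eq (sp K v A) (sp K v B)
    have h2 : sp K v (A ∪ B) = sp K v A ⊔ sp K v B := sp_union v A B
    have h3 : sp K v (A ∩ B) ≤ sp K v A ⊓ sp K v B :=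
      le_inf (sp_mono v Finset.inter_subset_left) (sp_mono v Finset.inter_subset_right)
    have h4 := Submodule.finrank_mono h3
    unfold rkV
    rw [h2]
    omega

theorem finrank_gut (v : ℕ → V) (hD : D ⊆ E) : (finrank K (gut K v E D) : ℤ) = lam (rkV K v) E D := by
  have h1 := Submodule.finrank_sup_add_finrank_inf_eq (sp K v D) (sp K v (E \ D))
  have h2 : sp K v E = sp K v D ⊔ sp K v (E \ D) := by
    rw [← sp_union, Finset.union_sdiff_of_subset hD]
  unfold lam rkV gut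
  rw [h2]
  omega

theorem rkV_union (v : ℕ → V) (hF : F ⊆ D) (hD : D ⊆ E) (hH : H ⊆ E \ D) :
    rkV K v (F ∪ H) = rkV K v F + rkV K v H -
      (finrank K (tr K v E D F ⊓ (sp K v H ⊓ gut K v E D) : Submodule K V) : ℤ) := by
  have h1 := Submodule.finrank_sup_add_finrank_inf_eq (sp K v F) (sp K v H)
  have h2 : sp K v (F ∪ H) = sp K v F ⊔ sp K v H := sp_union v F H
  have h3 : (tr K v E D F ⊓ (sp K v H ⊓ gut K v E D) : Submodule K V) = sp K v F ⊓ sp K v H := by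
    have hg : sp K v F ⊓ sp K v H ≤ gut K v E D := by
      unfold gut
      exact inf_le_inf (sp_mono v hF) (sp_mono v hH)
    unfold tr
    apply le_antisymm
    · exact le_inf (inf_le_left.trans inf_le_left) (inf_le_right.trans inf_le_left)
    · exact le_inf (le_inf inf_le_left hg) (le_inf inf_le_right hg)
  rw [h3]
  unfold rkV
  rw [h2]
  omega

/-- a subset with the same trace is equivalent -/
theorem rkV_congr (v : ℕ → V) (hF : F ⊆ D) (hG : G ⊆ D) (hD : D ⊆ E)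
    (h : tr K v E D F = tr K v E D G) (hH : H ⊆ E \ D) :
    rkV K v (F ∪ H) - rkV K v F = rkV K v (G ∪ H) - rkV K v G := by
  rw [rkV_union v hF hD hH, rkV_union v hG hD hH, h]
  ring

theorem tr_link (v : ℕ → V) (hF : F ⊆ A) (hA : A ⊆ C) (hC : C ⊆ E) (hI : I ⊆ C \ A) :
    tr K v E C (F ∪ I) = (tr K v E A F ⊔ sp K v I) ⊓ gut K v E C := by
  apply le_antisymm
  · intro x hx
    unfold tr at hx
    rw [sp_union] at hx
    obtain ⟨hx1, hx2⟩ := Submodule.mem_inf.mp hx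
    obtain ⟨f, hf, i, hi, rfl⟩ := Submodule.mem_sup.mp hx1
    refine Submodule.mem_inf.mpr ⟨?_, hx2⟩
    refine Submodule.add_mem_sup ?_ hi
    unfold tr gut
    refine Submodule.mem_inf.mpr ⟨hf, Submodule.mem_inf.mpr ⟨sp_mono v hF hf, ?_⟩⟩
    have hi' : i ∈ sp K v (E \ A) :=
      sp_mono v (hI.trans (Finset.sdiff_subset_sdiff hC (Finset.Subset.refl A))) hi
    have hx' : f + i ∈ sp K v (E \ A) := by
      unfold gut at hx2
      exact sp_mono v (Finset.sdiff_subset_sdiff (Finset.Subset.refl E) hA)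
        (Submodule.mem_inf.mp hx2).2
    have := Submodule.sub_mem _ hx' hi'
    rwa [add_sub_cancel_right] at this
  · unfold tr
    refine inf_le_inf ?_ le_rfl
    rw [sp_union]
    exact sup_le_sup inf_le_left le_rfl

private theorem tr_half (v : ℕ → V) (hA : A ⊆ E) (hd : Disjoint A₁ A₂) (hu : A₁ ∪ A₂ = A)
    (h1 : F₁ ⊆ A₁) (h2 : F₂ ⊆ A₂) (h5 : tr K v E A₁ F₁ = tr K v E A₁ G₁)
    (h6 : tr K v E A₂ F₂ = tr K v E A₂ G₂) :
    tr K v E A (F₁ ∪ F₂) ≤ tr K v E A (G₁ ∪ G₂) := by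
  have a1 : A₁ ⊆ A := by rw [← hu]; exact Finset.subset_union_left
  have a2 : A₂ ⊆ A := by rw [← hu]; exact Finset.subset_union_right
  have b1 : A₂ ⊆ E \ A₁ := fun x hx =>
    Finset.mem_sdiff.mpr ⟨hA (a2 hx), fun h => (Finset.disjoint_left.mp hd h) hx⟩
  have b2 : A₁ ⊆ E \ A₂ := fun x hx =>
    Finset.mem_sdiff.mpr ⟨hA (a1 hx), fun h => (Finset.disjoint_left.mp hd hx) h⟩
  intro x hx
  unfold tr at hx
  rw [sp_union] at hx
  obtain ⟨hx1, hx2⟩ := Submodule.mem_inf.mp hx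
  obtain ⟨f, hf, i, hi, rfl⟩ := Submodule.mem_sup.mp hx1
  have hx3 := (Submodule.mem_inf.mp (show f + i ∈ sp K v A ⊓ sp K v (E \ A) from hx2)).2
  have c1 : f + i ∈ sp K v (E \ A₁) :=
    sp_mono v (Finset.sdiff_subset_sdiff (Finset.Subset.refl E) a1) hx3
  have c2 : f + i ∈ sp K v (E \ A₂) :=
    sp_mono v (Finset.sdiff_subset_sdiff (Finset.Subset.refl E) a2) hx3
  have hf' : f ∈ sp K v (E \ A₁) := by
    have := Submodule.sub_mem _ c1 (sp_mono v (h2.trans b1) hi)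
    rwa [add_sub_cancel_right] at this
  have hi' : i ∈ sp K v (E \ A₂) := by
    have := Submodule.sub_mem _ c2 (sp_mono v (h1.trans b2) hf)
    rwa [add_sub_cancel_left] at this
  have d1 : f ∈ tr K v E A₁ F₁ := by
    unfold tr gut
    exact Submodule.mem_inf.mpr ⟨hf, Submodule.mem_inf.mpr ⟨sp_mono v h1 hf, hf'⟩⟩
  have d2 : i ∈ tr K v E A₂ F₂ := by
    unfold tr gut
    exact Submodule.mem_inf.mpr ⟨hi, Submodule.mem_inf.mpr ⟨sp_mono v h2 hi, hi'⟩⟩
  rw [h5] at d1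
  rw [h6] at d2
  unfold tr at d1 d2 ⊢
  rw [sp_union]
  exact Submodule.mem_inf.mpr ⟨Submodule.add_mem_sup (Submodule.mem_inf.mp d1).1
    (Submodule.mem_inf.mp d2).1, hx2⟩

theorem tr_union (v : ℕ → V) (hA : A ⊆ E) (hd : Disjoint A₁ A₂) (hu : A₁ ∪ A₂ = A) (h1 : F₁ ⊆ A₁)
    (h2 : F₂ ⊆ A₂) (h3 : G₁ ⊆ A₁) (h4 : G₂ ⊆ A₂) (h5 : tr K v E A₁ F₁ = tr K v E A₁ G₁)
    (h6 : tr K v E A₂ F₂ = tr K v E A₂ G₂) : tr K v E A (F₁ ∪ F₂) = tr K v E A (G₁ ∪ G₂) :=
  le_antisymm (tr_half v hA hd hu h1 h2 h5 h6) (tr_half v hA hd hu h3 h4 h5.symm h6.symm)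

end Pool.Agent.BW
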