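import Pool.Agent.BW.DimL
import Pool.Agent.BW.Tr1

set_option autoImplicit false

/-!
# Module QuoV: the quotient representation

`quoV Rel e` = class of the unit vector of `e` in `K ^ n / Rel` (`0` for `e ≥ n`). For `F ⊆ range n` the
span of these vectors is the image of `KS F` under `mkQ`; its dimension is
`finrank (KS F ⊔ Rel) - finrank Rel` (`Submodule.finrank_map...`, kernel of `mkQ` is `Rel`).
-/

namespace Pool.Agent.BW

open Finset Module

variable {K : Type} [Field K] {n : ℕ}

/-- the vectors -/
noncomputable def quoV (Rel : Submodule K (Fin n → K)) (e : ℕ) : (Fin n → K) ⧸ Rel :=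
  if h : e < n then Rel.mkQ (Pi.single (⟨e, h⟩ : Fin n) (1 : K)) else 0

/-- dimension of the image of a subspace in the quotient -/
private theorem finrank_map_mkQ (Rel A : Submodule K (Fin n → K)) :
    finrank K (Submodule.map Rel.mkQ A) + finrank K Rel = finrank K (A ⊔ Rel : Submodule K _) := by
  have h0 : Submodule.map Rel.mkQ A = Submodule.map Rel.mkQ (A ⊔ Rel) := by
    rw [Submodule.map_sup]
    have h1 : Submodule.map Rel.mkQ Rel = ⊥ := by
      rw [← le_bot_iff, Submodule.map_le_iff_le_comap]
      intro x hx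
      rw [Submodule.mem_comap, Submodule.mem_bot, Submodule.mkQ_apply, Submodule.Quotient.mk_eq_zero]
      exact hx
    rw [h1, sup_bot_eq]
  have h2 := LinearMap.finrank_range_add_finrank_ker (Rel.mkQ.domRestrict (A ⊔ Rel))
  have h3 : LinearMap.range (Rel.mkQ.domRestrict (A ⊔ Rel)) = Submodule.map Rel.mkQ (A ⊔ Rel) := by
    rw [LinearMap.range_domRestrict]
  have h4 : LinearMap.ker (Rel.mkQ.domRestrict (A ⊔ Rel)) = Submodule.comap (A ⊔ Rel).subtype Rel := by
    ext x
    rw [LinearMap.mem_ker, LinearMap.domRestrict_apply, Submodule.mkQ_apply, Submodule.Quotient.mk_eq_zero,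
      Submodule.mem_comap, Submodule.subtype_apply]
  have h5 : finrank K (Submodule.comap (A ⊔ Rel).subtype Rel) = finrank K Rel :=
    (Submodule.comapSubtypeEquivOfLe (le_sup_right : Rel ≤ A ⊔ Rel)).finrank_eq
  rw [h3, h4, h5, ← h0] at h2
  exact h2

/-- the coordinate space is spanned by unit vectors -/
private theorem sp_quoV (Rel : Submodule K (Fin n → K)) (F : Finset ℕ) :
    sp K (quoV Rel) F = Submodule.map Rel.mkQ (KS K n F) := by
  classical
  have hq : ∀ i : Fin n, quoV Rel (i : ℕ) = Rel.mkQ (Pi.single i (1 : K)) := by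
    intro i
    unfold quoV
    rw [dif_pos i.2]
  apply le_antisymm
  · unfold sp
    rw [Submodule.span_le]
    rintro _ ⟨e, he, rfl⟩
    by_cases h : e < n
    · have h1 : quoV Rel e = Rel.mkQ (Pi.single (⟨e, h⟩ : Fin n) (1 : K)) := hq ⟨e, h⟩
      rw [h1]
      refine Submodule.mem_map_of_mem ?_
      intro i hi
      refine Pi.single_eq_of_ne ?_ _
      rintro rfl
      exact hi he
    · have h1 : quoV Rel e = 0 := by
        unfold quoV
        rw [dif_neg h]
      rw [h1]
      exact Submodule.zero_mem _
  · rw [Submodule.map_le_iff_le_comap]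
    intro x hx
    rw [Submodule.mem_comap]
    have h1 : x = ∑ i : Fin n, x i • Pi.single i (1 : K) := by
      funext j
      rw [Finset.sum_apply, Finset.sum_eq_single j]
      · rw [Pi.smul_apply, Pi.single_eq_same, smul_eq_mul, mul_one]
      · intro i _ hij
        rw [Pi.smul_apply, Pi.single_eq_of_ne (Ne.symm hij), smul_zero]
      · intro hj
        exact absurd (Finset.mem_univ j) hj
    rw [h1, map_sum]
    refine Submodule.sum_mem _ fun i _ => ?_
    rw [map_smul]
    by_cases hi : (i : ℕ) ∈ F
    · refine Submodule.smul_mem _ _ ?_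
      rw [← hq i]
      exact Submodule.subset_span ⟨(i : ℕ), hi, rfl⟩
    · rw [hx i hi, zero_smul]
      exact Submodule.zero_mem _

theorem rkV_quoV (Rel : Submodule K (Fin n → K)) (F : Finset ℕ) (hF : F ⊆ range n) :
    rkV K (quoV Rel) F = (finrank K (KS K n F ⊔ Rel : Submodule K _) : ℤ) - finrank K Rel := by
  have h1 := finrank_map_mkQ Rel (KS K n F)
  unfold rkV
  rw [sp_quoV, ← h1]
  push_cast
  ring

end Pool.Agent.BW
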