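import Pool.Agent.BW.RowM
import Pool.Agent.BW.QuoV
import Pool.Agent.BW.Can

set_option autoImplicit false

/-!
# Module Orc: the rank function of the dual matroid from the independence oracle

`E = List.range n`, `X` an independence oracle for the columns of `A`: the greedy algorithm computes the ranks.
-/

namespace Pool.Agent.BW

open Finset Module Pool.Agent.Helper22
open Pool.Agent.G4 (IsRk lam dualR nor dif word prd)

variable {K : Type} [Field K] {a n : ℕ} {X : Oracle}

private def orcS (A : Matrix (Fin a) (Fin n) K) (F : Finset ℕ) : Submodule K (Fin a → K) :=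
  Submodule.span K {w : Fin a → K | ∃ j : Fin n, (j : ℕ) ∈ F ∧ (fun i => A i j) = w}

private theorem orc_crk (A : Matrix (Fin a) (Fin n) K) (F : Finset ℕ) :
    crk A F = (finrank K (orcS A F) : ℤ) := rfl

private theorem orc_union (A : Matrix (Fin a) (Fin n) K) (F G : Finset ℕ) :
    orcS A (F ∪ G) = orcS A F ⊔ orcS A G := by
  unfold orcS
  rw [← Submodule.span_union]
  congr 1
  ext w
  constructor
  · rintro ⟨j, hj, hw⟩
    rcases Finset.mem_union.1 hj with h | h
    · exact Or.inl ⟨j, h, hw⟩
    · exact Or.inr ⟨j, h, hw⟩
  · rintro (⟨j, hj, hw⟩ | ⟨j, hj, hw⟩)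
    · exact ⟨j, Finset.mem_union_left _ hj, hw⟩
    · exact ⟨j, Finset.mem_union_right _ hj, hw⟩

private theorem orc_single (A : Matrix (Fin a) (Fin n) K) (e : ℕ) : finrank K (orcS A {e}) ≤ 1 := by
  by_cases h : ∃ j : Fin n, (j : ℕ) = e
  · obtain ⟨j, hj⟩ := h
    have h1 : orcS A {e} ≤ Submodule.span K (Set.range fun _ : Fin 1 => fun i => A i j) := by
      unfold orcS
      apply Submodule.span_mono
      rintro w ⟨j', hj', hw⟩
      have h2 : j' = j := by
        apply Fin.ext
        rw [hj]
        exact Finset.mem_singleton.1 hj'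
      rw [h2] at hw
      exact ⟨0, hw⟩
    have h3 := finrank_range_le_card (R := K) (fun _ : Fin 1 => fun i => A i j)
    exact (Submodule.finrank_mono h1).trans (h3.trans (le_of_eq (Fintype.card_fin 1)))
  · have h1 : orcS A {e} ≤ ⊥ := by
      unfold orcS
      rw [Submodule.span_le]
      rintro w ⟨j', hj', _⟩
      exact absurd ⟨j', Finset.mem_singleton.1 hj'⟩ h
    have h2 := Submodule.finrank_mono h1
    rw [finrank_bot] at h2
    omega

private theorem orc_le (A : Matrix (Fin a) (Fin n) K) (F G : Finset ℕ) :
    finrank K (orcS A F) ≤ finrank K (orcS A (F ∪ G)) := by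
  rw [orc_union]
  exact Submodule.finrank_mono le_sup_left

private theorem orc_ins (A : Matrix (Fin a) (Fin n) K) (F : Finset ℕ) (e : ℕ) :
    finrank K (orcS A (F ∪ {e})) ≤ finrank K (orcS A F) + 1 := by
  rw [orc_union]
  have h1 := Submodule.finrank_add_le_finrank_add_finrank (orcS A F) (orcS A {e})
  have h2 := orc_single A e
  omega

/-- the oracle for a list without repetitions -/
private theorem orc_word (A : Matrix (Fin a) (Fin n) K)
    (hX : ∀ J : Finset (Fin n), X (List.ofFn fun i => decide (i ∈ J)) = true ↔
      LinearIndependent K fun j : J => fun i => A i j) (I : List ℕ) (hI : ∀ t ∈ I, t < n) (hn : I.Nodup) :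
    X (word (List.range n) I) = true ↔ finrank K (orcS A I.toFinset) = I.length := by
  have h1 : word (List.range n) I =
      List.ofFn fun i : Fin n => decide (i ∈ (Finset.univ.filter fun i : Fin n => (i : ℕ) ∈ I)) := by
    unfold word
    apply List.ext_getElem
    · rw [List.length_map, List.length_range, List.length_ofFn]
    · intro i h h'
      rw [List.getElem_map, List.getElem_range, List.getElem_ofFn]
      simp
  have h2 : (Finset.univ.filter fun i : Fin n => (i : ℕ) ∈ I).image (fun j : Fin n => (j : ℕ)) = I.toFinset := by
    ext x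
    rw [Finset.mem_image, List.mem_toFinset]
    constructor
    · rintro ⟨j, hj, rfl⟩
      exact (Finset.mem_filter.1 hj).2
    · intro hx
      exact ⟨⟨x, hI x hx⟩, Finset.mem_filter.2 ⟨Finset.mem_univ _, hx⟩, rfl⟩
  have h3 : (Finset.univ.filter fun i : Fin n => (i : ℕ) ∈ I).card = I.length := by
    rw [← Finset.card_image_of_injective _ Fin.val_injective, h2, List.toFinset_card_of_nodup hn]
  rw [h1, hX, indep_iff_crk, h2, h3, orc_crk]
  exact Nat.cast_inj

private theorem orc_fold (A : Matrix (Fin a) (Fin n) K)
    (hX : ∀ J : Finset (Fin n), X (List.ofFn fun i => decide (i ∈ J)) = true ↔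
      LinearIndependent K fun j : J => fun i => A i j) (l : List ℕ) :
    ∀ I : List ℕ, (∀ t ∈ I ++ l, t < n) → (I ++ l).Nodup → finrank K (orcS A I.toFinset) = I.length →
      (l.foldl (fun I e => if X (word (List.range n) (I ++ [e])) then I ++ [e] else I) I).length =
        finrank K (orcS A (I ++ l).toFinset) := by
  induction l with
  | nil =>
    intro I _ _ h
    rw [List.append_nil, h]
    rfl
  | cons e l ih =>
    intro I h1 h2 h3
    rw [List.foldl_cons]
    have e1 : I ++ e :: l = (I ++ [e]) ++ l := by rw [List.append_assoc]; rfl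
    have h4 : (I ++ [e]).Nodup := by
      rw [e1] at h2
      exact (List.nodup_append.1 h2).1
    have h5 : ∀ t ∈ I ++ [e], t < n := by
      intro t ht
      apply h1
      rw [e1]
      exact List.mem_append_left _ ht
    have h6 := orc_word A hX (I ++ [e]) h5 h4
    by_cases hc : X (word (List.range n) (I ++ [e])) = true
    · rw [if_pos hc, e1]
      apply ih
      · rw [← e1]; exact h1
      · rw [← e1]; exact h2
      · exact h6.1 hc
    · rw [if_neg hc]
      have h7 : finrank K (orcS A (I ++ [e]).toFinset) ≠ (I ++ [e]).length := fun h => hc (h6.2 h)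
      have h8 : (I ++ [e]).toFinset = I.toFinset ∪ {e} := by
        rw [List.toFinset_append]
        rfl
      rw [h8, List.length_append, List.length_singleton] at h7
      have h9 := orc_ins A I.toFinset e
      have h10 := orc_le A I.toFinset {e}
      have h11 : finrank K (orcS A (I.toFinset ∪ {e})) ≤ finrank K (orcS A I.toFinset) := by omega
      have h12 : orcS A I.toFinset = orcS A (I.toFinset ∪ {e}) := by
        apply Submodule.eq_of_le_of_finrank_le _ h11
        rw [orc_union]
        exact le_sup_left
      rw [ih I (fun t ht => h1 t (by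
        rcases List.mem_append.1 ht with h | h
        · exact List.mem_append_left _ h
        · exact List.mem_append_right _ (List.mem_cons_of_mem _ h))) (by
          exact h2.sublist (List.Sublist.append_left (List.sublist_cons_self e l) I)) h3]
      have h13 : (I ++ e :: l).toFinset = (I.toFinset ∪ {e}) ∪ l.toFinset := by
        rw [e1, List.toFinset_append, h8]
      rw [h13, List.toFinset_append, orc_union A I.toFinset l.toFinset, orc_union A (I.toFinset ∪ {e}) l.toFinset, h12]

theorem rkX_spec (A : Matrix (Fin a) (Fin n) K)
    (hX : ∀ J : Finset (Fin n), X (List.ofFn fun i => decide (i ∈ J)) = true ↔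
      LinearIndependent K fun j : J => fun i => A i j) (T : List ℕ)
    (hT : ∀ t ∈ T, t ∈ List.range n) :
    (rkX X (List.range n) T : ℤ) = crk A T.toFinset := by
  have h1 : (nor (List.range n) T).toFinset = T.toFinset := by
    rw [toF_nor]
    apply Finset.inter_eq_right.2
    intro x hx
    rw [List.mem_toFinset] at hx ⊢
    exact hT x hx
  have h2 := orc_fold A hX (nor (List.range n) T) [] (fun t ht => by
      rw [List.nil_append] at ht
      exact List.mem_range.1 (mem_nor.1 ht).1) (by
      rw [List.nil_append]
      exact (nor_sub (T := T)).nodup List.nodup_range) (by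
      have h3 : orcS A ([] : List ℕ).toFinset ≤ ⊥ := by
        unfold orcS
        rw [Submodule.span_le]
        rintro w ⟨j, hj, _⟩
        exact absurd hj (by simp)
      have h4 := Submodule.finrank_mono h3
      rw [finrank_bot] at h4
      rw [List.length_nil]
      omega)
  rw [List.nil_append, h1] at h2
  rw [orc_crk, ← h2]
  rfl

theorem rkD_spec (A : Matrix (Fin a) (Fin n) K)
    (hX : ∀ J : Finset (Fin n), X (List.ofFn fun i => decide (i ∈ J)) = true ↔
      LinearIndependent K fun j : J => fun i => A i j) :
    RkS (fun T => rkD X (List.range n) T) (List.range n) (rkV K (quoV (rowS A))) := by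
  intro T hT
  have h0 : T.toFinset ⊆ range n := by
    intro x hx
    rw [List.mem_toFinset] at hx
    exact Finset.mem_range.2 (List.mem_range.1 (hT x hx))
  have h1 : ((nor (List.range n) T).length : ℤ) = (T.toFinset.card : ℤ) := by
    rw [← can_card List.nodup_range nor_sub, toF_nor, List.toFinset_range, Finset.inter_eq_right.2 h0]
  have h2 : (rkX X (List.range n) (dif (List.range n) T) : ℤ) = crk A (range n \ T.toFinset) := by
    rw [rkX_spec A hX _ (fun t ht => (mem_dif.1 ht).1), toF_dif, List.toFinset_range]
  have h3 : (rkX X (List.range n) (List.range n) : ℤ) = (finrank K (rowS A) : ℤ) := by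
    rw [rkX_spec A hX _ (fun t ht => ht), List.toFinset_range, crk_top]
  have h4 := rkV_quoV (rowS A) T.toFinset h0
  rw [crk_compl A _ h0, ← h1, ← h2, ← h3] at h4
  have h5 : 0 ≤ rkV K (quoV (rowS A)) T.toFinset := by
    unfold rkV
    exact Int.natCast_nonneg _
  show (((nor (List.range n) T).length + rkX X (List.range n) (dif (List.range n) T) -
    rkX X (List.range n) (List.range n) : ℕ) : ℤ) = _
  omega

end Pool.Agent.BW
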