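import Pool.Agent.BW.Main

set_option autoImplicit false

/-! # Module MatR: ranks in the matroid -/

namespace Pool.Agent.BW

open Finset Module

variable {K : Type} [Field K] {a n : ℕ}

theorem crk_nonneg (A : Matrix (Fin a) (Fin n) K) (F : Finset ℕ) : 0 ≤ crk A F :=
  Int.natCast_nonneg _

theorem compl_image (J : Finset (Fin n)) :
    range n \ J.image (fun j : Fin n => (j : ℕ)) = Jᶜ.image fun j : Fin n => (j : ℕ) := by
  ext x
  rw [Finset.mem_sdiff, Finset.mem_range, Finset.mem_image]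
  constructor
  · rintro ⟨h1, h2⟩
    exact Finset.mem_image.2 ⟨⟨x, h1⟩, Finset.mem_compl.2 fun h3 => h2 ⟨⟨x, h1⟩, h3, rfl⟩, rfl⟩
  · intro h
    obtain ⟨j, hj, rfl⟩ := Finset.mem_image.1 h
    refine ⟨j.2, ?_⟩
    rintro ⟨i, hi, h1⟩
    have h2 : i = j := Fin.ext h1
    rw [h2] at hi
    exact Finset.mem_compl.1 hj hi

theorem image_univ' : (Finset.univ : Finset (Fin n)).image (fun j : Fin n => (j : ℕ)) = range n := by
  ext x
  rw [Finset.mem_image, Finset.mem_range]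
  constructor
  · rintro ⟨j, _, rfl⟩
    exact j.2
  · intro h
    exact ⟨⟨x, h⟩, Finset.mem_univ _, rfl⟩

private theorem mat_mono (A : Matrix (Fin a) (Fin n) K) {F G : Finset ℕ} (h : F ⊆ G) :
    crk A F ≤ crk A G := by
  unfold crk
  refine Int.ofNat_le.2 (Submodule.finrank_mono (Submodule.span_mono ?_))
  rintro _ ⟨j, hj, rfl⟩
  exact ⟨j, h hj, rfl⟩

private theorem mat_ex (A : Matrix (Fin a) (Fin n) K) (J : Finset (Fin n)) :
    ∃ I ⊆ J, LinearIndependent K (fun j : I => fun i => A i j) ∧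
      crk A (J.image fun j : Fin n => (j : ℕ)) ≤ (I.card : ℤ) := by
  classical
  obtain ⟨b, hbJ, _, hsp, hb⟩ := exists_linearIndepOn_extension (K := K)
    (v := fun j : Fin n => fun i => A i j) (linearIndepOn_empty K _) (Set.empty_subset (J : Set (Fin n)))
  obtain ⟨I, rfl⟩ : ∃ I : Finset (Fin n), (I : Set (Fin n)) = b := ⟨(Set.toFinite b).toFinset, (Set.toFinite b).coe_toFinset⟩
  have hI : LinearIndependent K (fun j : I => fun i => A i j) := hb
  refine ⟨I, Finset.coe_subset.1 hbJ, hI, ?_⟩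
  rw [← (indep_iff_crk A I).1 hI]
  unfold crk
  refine Int.ofNat_le.2 (Submodule.finrank_mono (Submodule.span_le.2 ?_))
  rintro _ ⟨j, hj, rfl⟩
  obtain ⟨j', hj', h2⟩ := Finset.mem_image.1 hj
  have h3 : j' = j := Fin.ext h2
  subst h3
  have h4 := hsp (Set.mem_image_of_mem _ (Finset.mem_coe.2 hj'))
  refine Submodule.span_mono ?_ h4
  rintro _ ⟨i, hi, rfl⟩
  exact ⟨i, Finset.mem_image.2 ⟨i, Finset.mem_coe.1 hi, rfl⟩, rfl⟩

theorem eRk_eq {M : Matroid (Fin n)} (A : Matrix (Fin a) (Fin n) K)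
    (h : ∀ J : Finset (Fin n), M.Indep (J : Set (Fin n)) ↔
      LinearIndependent K fun j : J => fun i => A i j) (J : Finset (Fin n)) :
    M.eRk (J : Set (Fin n)) = ((crk A (J.image fun j : Fin n => (j : ℕ))).toNat : ℕ∞) := by
  classical
  refine le_antisymm ?_ ?_
  · rw [Matroid.eRk_le_iff]
    intro b hb hbi
    obtain ⟨I, rfl⟩ : ∃ I : Finset (Fin n), (I : Set (Fin n)) = b :=
      ⟨(Set.toFinite b).toFinset, (Set.toFinite b).coe_toFinset⟩
    have h1 := (indep_iff_crk A I).1 ((h I).1 hbi)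
    have h2 := mat_mono A (Finset.image_subset_image (f := fun j : Fin n => (j : ℕ))
      (Finset.coe_subset.1 hb))
    rw [h1] at h2
    rw [Set.encard_coe_eq_coe_finsetCard]
    exact Nat.cast_le.2 (by omega)
  · obtain ⟨I, hIJ, hI, hc⟩ := mat_ex A J
    have h1 := ((h I).2 hI).encard_le_eRk_of_subset (Finset.coe_subset.2 hIJ)
    rw [Set.encard_coe_eq_coe_finsetCard] at h1
    exact le_trans (Nat.cast_le.2 (by omega)) h1

private theorem mat_cast (x y z : ℤ) (k : ℕ) (hx : 0 ≤ x) (hy : 0 ≤ y) (hz : 0 ≤ z) :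
    ((x.toNat : ℕ∞) + (y.toNat : ℕ∞) ≤ (z.toNat : ℕ∞) + (k : ℕ∞)) ↔ x + y ≤ z + k := by
  rw [← Nat.cast_add, ← Nat.cast_add, Nat.cast_le]
  omega

theorem conn_iff {M : Matroid (Fin n)} (A : Matrix (Fin a) (Fin n) K)
    (h : ∀ J : Finset (Fin n), M.Indep (J : Set (Fin n)) ↔
      LinearIndependent K fun j : J => fun i => A i j) (J : Finset (Fin n)) (k : ℕ) :
    M.eRk (J : Set (Fin n)) + M.eRk ((J : Set (Fin n))ᶜ) ≤ M.eRk Set.univ + (k : ℕ∞) ↔
      crk A (J.image fun j : Fin n => (j : ℕ)) +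
        crk A (range n \ J.image fun j : Fin n => (j : ℕ)) ≤ crk A (range n) + k := by
  rw [← Finset.coe_compl, ← Finset.coe_univ, eRk_eq A h, eRk_eq A h, eRk_eq A h, compl_image,
    image_univ']
  exact mat_cast _ _ _ k (crk_nonneg _ _) (crk_nonneg _ _) (crk_nonneg _ _)

end Pool.Agent.BW
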