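import Pool.Agent.BW.DpDefs

set_option autoImplicit false

/-!
# Module Cod: codes of vectors, linear combinations
-/

namespace Pool.Agent.BW

open Finset Module

variable {K : Type} [Field K] [Fintype K] (e : Fin (Fintype.card K) ≃ K) {m s n : ℕ}

theorem dcd_cod (a : K) : dcd e (cod e a) = a := by
  unfold dcd cod
  rw [dif_pos (e.symm a).2]
  exact e.apply_symm_apply a

theorem cod_lt (a : K) : cod e a < Fintype.card K := by
  exact (e.symm a).2

theorem codP_length (z : (Fin m → K) × (Fin m → K)) : (codP e z).length = m + m := by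
  unfold codP
  rw [List.length_append, List.length_ofFn, List.length_ofFn]

private theorem cd_add_lt (i j : ℕ) : (prmK e m s).add i j < Fintype.card K := by
  show (if i < Fintype.card K ∧ j < Fintype.card K then cod e (dcd e i + dcd e j) else 0) <
    Fintype.card K
  split_ifs
  · exact cod_lt e _
  · exact Fintype.card_pos

private theorem cd_mul_lt (i j : ℕ) : (prmK e m s).mul i j < Fintype.card K := by
  show (if i < Fintype.card K ∧ j < Fintype.card K then cod e (dcd e i * dcd e j) else 0) <
    Fintype.card K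
  split_ifs
  · exact cod_lt e _
  · exact Fintype.card_pos

private theorem cd_add {i j : ℕ} (hi : i < Fintype.card K) (hj : j < Fintype.card K) :
    dcd e ((prmK e m s).add i j) = dcd e i + dcd e j := by
  have h : (prmK e m s).add i j = cod e (dcd e i + dcd e j) := if_pos ⟨hi, hj⟩
  rw [h, dcd_cod]

private theorem cd_mul {i j : ℕ} (hi : i < Fintype.card K) (hj : j < Fintype.card K) :
    dcd e ((prmK e m s).mul i j) = dcd e i * dcd e j := by
  have h : (prmK e m s).mul i j = cod e (dcd e i * dcd e j) := if_pos ⟨hi, hj⟩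
  rw [h, dcd_cod]

private theorem cd_stepok {q a : ℕ} {u v : List ℕ} (hu : VOK (Fintype.card K) q u)
    (hv : VOK (Fintype.card K) q v) :
    VOK (Fintype.card K) q
      (List.zipWith (fun x y => (prmK e m s).add x ((prmK e m s).mul a y)) u v) := by
  refine ⟨?_, fun b hb => ?_⟩
  · rw [List.length_zipWith, hu.1, hv.1, min_self]
  · obtain ⟨i, hi, rfl⟩ := List.mem_iff_getElem.1 hb
    rw [List.getElem_zipWith]
    exact cd_add_lt e _ _

private theorem cd_get {q : ℕ} {u : List ℕ} (hu : VOK (Fintype.card K) q u) (j : Fin q) :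
    u.getD (j : ℕ) 0 < Fintype.card K := by
  have hj : (j : ℕ) < u.length := by
    rw [hu.1]
    exact j.2
  rw [List.getD_eq_getElem _ _ hj]
  exact hu.2 _ (List.getElem_mem hj)

private theorem cd_step {q a : ℕ} {u v : List ℕ} (ha : a < Fintype.card K)
    (hu : VOK (Fintype.card K) q u) (hv : VOK (Fintype.card K) q v) :
    decV e q (List.zipWith (fun x y => (prmK e m s).add x ((prmK e m s).mul a y)) u v) =
      decV e q u + dcd e a • decV e q v := by
  funext j
  have h1 := cd_get hu j
  have h2 := cd_get hv j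
  have h3 := cd_stepok (m := m) (s := s) (a := a) e hu hv
  have hj1 : (j : ℕ) < u.length := by
    rw [hu.1]
    exact j.2
  have hj2 : (j : ℕ) < v.length := by
    rw [hv.1]
    exact j.2
  have hj3 : (j : ℕ) <
      (List.zipWith (fun x y => (prmK e m s).add x ((prmK e m s).mul a y)) u v).length := by
    rw [h3.1]
    exact j.2
  rw [Pi.add_apply, Pi.smul_apply, smul_eq_mul]
  unfold decV
  rw [List.getD_eq_getElem _ _ hj1] at h1 ⊢
  rw [List.getD_eq_getElem _ _ hj2] at h2 ⊢
  rw [List.getD_eq_getElem _ _ hj3, List.getElem_zipWith, cd_add e h1 (cd_mul_lt e _ _),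
    cd_mul e ha h2]

private theorem cd_foldok {q : ℕ} (L : List (ℕ × List ℕ)) :
    ∀ u : List ℕ, VOK (Fintype.card K) q u → (∀ p ∈ L, VOK (Fintype.card K) q p.2) →
    VOK (Fintype.card K) q (L.foldl (fun s' p =>
      List.zipWith (fun a b => (prmK e m s).add a ((prmK e m s).mul p.1 b)) s' p.2) u) := by
  induction L with
  | nil => exact fun u hu _ => hu
  | cons p L ih =>
    intro u hu hL
    rw [List.foldl_cons]
    exact ih _ (cd_stepok e hu (hL p (List.mem_cons_self))) fun p' hp' =>
      hL p' (List.mem_cons_of_mem _ hp')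

private theorem cd_fold {q : ℕ} (L : List (ℕ × List ℕ)) :
    ∀ u : List ℕ, VOK (Fintype.card K) q u → (∀ p ∈ L, VOK (Fintype.card K) q p.2) →
    (∀ p ∈ L, p.1 < Fintype.card K) →
    decV e q (L.foldl (fun s' p =>
      List.zipWith (fun a b => (prmK e m s).add a ((prmK e m s).mul p.1 b)) s' p.2) u) =
      decV e q u + (L.map fun p => dcd e p.1 • decV e q p.2).sum := by
  induction L with
  | nil =>
    intro u _ _ _
    simp
  | cons p L ih =>
    intro u hu hL hc
    rw [List.foldl_cons, ih _ (cd_stepok e hu (hL p (List.mem_cons_self)))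
      (fun p' hp' => hL p' (List.mem_cons_of_mem _ hp'))
      (fun p' hp' => hc p' (List.mem_cons_of_mem _ hp')),
      cd_step e (hc p (List.mem_cons_self)) hu (hL p (List.mem_cons_self)), List.map_cons,
      List.sum_cons, add_assoc]

private theorem cd_zerok (E : List ℕ) :
    VOK (Fintype.card K) E.length (E.map fun _ => (prmK e m s).zer) := by
  refine ⟨List.length_map _, fun a ha => ?_⟩
  obtain ⟨_, _, rfl⟩ := List.mem_map.1 ha
  exact cod_lt e 0

private theorem cd_zer (E : List ℕ) :
    decV e E.length (E.map fun _ => (prmK e m s).zer) = 0 := by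
  funext j
  have hj : (j : ℕ) < (E.map fun _ => (prmK e m s).zer).length := by
    rw [List.length_map]
    exact j.2
  unfold decV
  rw [List.getD_eq_getElem _ _ hj, List.getElem_map]
  exact dcd_cod e 0

private theorem cd_sum (f : Fin m → K) {l : List (List ℕ)} (hl : l.length = m) (q : ℕ) :
    ((((List.ofFn fun i => cod e (f i)).zip l).map fun p => dcd e p.1 • decV e q p.2)).sum =
      ∑ i : Fin m, f i • decV e q (l.getD (i : ℕ) []) := by
  have h1 : (List.ofFn fun i => cod e (f i)).zip l =
      List.ofFn fun i : Fin m => (cod e (f i), l.getD (i : ℕ) []) := by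
    apply List.ext_getElem
    · rw [List.length_zip, List.length_ofFn, List.length_ofFn, hl, min_self]
    · intro i h2 h3
      have h4 : i < l.length := by
        rw [List.length_ofFn] at h3
        omega
      rw [List.getElem_zip, List.getElem_ofFn, List.getElem_ofFn]
      simp only [List.getD_eq_getElem _ _ h4]
  rw [h1, List.map_ofFn, List.sum_ofFn]
  refine Finset.sum_congr rfl fun i _ => ?_
  show dcd e (cod e (f i)) • decV e q (l.getD (i : ℕ) []) = _
  rw [dcd_cod]

theorem lcL_ok {E c : List ℕ} {vs : List (List ℕ)} (hc : ∀ a ∈ c, a < Fintype.card K)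
    (hv : ∀ v ∈ vs, VOK (Fintype.card K) E.length v) :
    VOK (Fintype.card K) E.length (lcL (prmK e m s) E c vs) := by
  unfold lcL
  refine cd_foldok e _ _ (cd_zerok e E) fun p hp => ?_
  exact hv p.2 (List.of_mem_zip hp).2

/-- linear combination with one vector -/
theorem lcL_one {E v : List ℕ} (a : K) (hv : VOK (Fintype.card K) E.length v) :
    decV e E.length (lcL (prmK e m s) E [cod e a] [v]) = a • decV e E.length v := by
  unfold lcL
  rw [cd_fold e _ _ (cd_zerok e E) _ _, cd_zer, zero_add]
  · simp [dcd_cod]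
  · intro p hp
    simp only [List.zip_cons_cons, List.zip_nil_right, List.mem_singleton] at hp
    rw [hp]
    exact hv
  · intro p hp
    simp only [List.zip_cons_cons, List.zip_nil_right, List.mem_singleton] at hp
    rw [hp]
    exact cod_lt e a

theorem lcL_cod {E : List ℕ} {l₁ l₂ : List (List ℕ)} (z : (Fin m → K) × (Fin m → K))
    (h1 : l₁.length = m) (h2 : l₂.length = m) (hv₁ : ∀ v ∈ l₁, VOK (Fintype.card K) E.length v)
    (hv₂ : ∀ v ∈ l₂, VOK (Fintype.card K) E.length v) :
    decV e E.length (lcL (prmK e m s) E (codP e z) (l₁ ++ l₂)) =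
      (∑ i : Fin m, z.1 i • decV e E.length (l₁.getD (i : ℕ) [])) +
      ∑ i : Fin m, z.2 i • decV e E.length (l₂.getD (i : ℕ) []) := by
  have h3 : (codP e z).zip (l₁ ++ l₂) = (List.ofFn fun i => cod e (z.1 i)).zip l₁ ++
      (List.ofFn fun i => cod e (z.2 i)).zip l₂ := by
    unfold codP
    refine List.zip_append ?_
    rw [List.length_ofFn, h1]
  unfold lcL
  rw [cd_fold e _ _ (cd_zerok e E) _ _, cd_zer, zero_add, h3, List.map_append, List.sum_append,
    cd_sum e _ h1, cd_sum e _ h2]
  · intro p hp
    rcases List.mem_append.1 (List.of_mem_zip hp).2 with h | h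
    · exact hv₁ _ h
    · exact hv₂ _ h
  · intro p hp
    have h4 := (List.of_mem_zip hp).1
    unfold codP at h4
    rcases List.mem_append.1 h4 with h | h
    · obtain ⟨i, hi⟩ := (List.mem_ofFn' _ _).1 h
      rw [← hi]
      exact cod_lt e _
    · obtain ⟨i, hi⟩ := (List.mem_ofFn' _ _).1 h
      rw [← hi]
      exact cod_lt e _

theorem unitL_ok (E t : List ℕ) : VOK (Fintype.card K) E.length (unitL (prmK e m s) E t) := by
  unfold unitL
  refine ⟨List.length_map _, fun a ha => ?_⟩
  obtain ⟨x, _, rfl⟩ := List.mem_map.1 ha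
  split_ifs
  · exact cod_lt e 1
  · exact cod_lt e 0

theorem unitL_dec {x : ℕ} (hx : x < n) :
    decV e n (unitL (prmK e m s) (List.range n) [x]) = Pi.single (⟨x, hx⟩ : Fin n) (1 : K) := by
  funext j
  have hj : (j : ℕ) < (unitL (prmK e m s) (List.range n) [x]).length := by
    unfold unitL
    rw [List.length_map, List.length_range]
    exact j.2
  unfold decV
  rw [List.getD_eq_getElem _ _ hj]
  unfold unitL
  rw [List.getElem_map, List.getElem_range]
  by_cases hjx : (j : ℕ) = x
  · have h1 : j = ⟨x, hx⟩ := Fin.ext hjx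
    rw [if_pos (by rw [hjx]; exact List.mem_singleton_self x), h1, Pi.single_eq_same]
    exact dcd_cod e 1
  · have h1 : j ≠ ⟨x, hx⟩ := fun h => hjx (congrArg Fin.val h)
    rw [if_neg (fun h => hjx (List.mem_singleton.1 h)), Pi.single_eq_of_ne h1]
    exact dcd_cod e 0

end Pool.Agent.BW
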