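import Pool.Agent.BW.UD

set_option autoImplicit false

/-!
# Module UE: the decomposition of bounded width is polynomial

`UP.foldA`, `UP.iterA`; sizes of the states by the total length of the frontier.
-/

namespace Pool.Agent.BW

open Turing Function N487b59b3 N68a2faeb Pool.Agent.Helper22 Pool.Agent.Helper49.Cons
open Pool.Agent.Helper6.WB
open Pool.Agent.G4 (nor dif word prd UP)

private theorem ue_fst {β γ : Type} [N487b59b3 β] [N487b59b3 γ] {f : Oracle → β → List ℕ} (hf : UP f) :
    UP fun X (p : β × γ) => f X p.1 := hf.pre (f := fun p : β × γ => p.1) (by fun_prop)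

private theorem ue_app {β : Type} [N487b59b3 β] {f g : Oracle → β → List ℕ} (hf : UP f)
    (hg : UP g) : UP fun X x => f X x ++ g X x :=
  UP.fp2 (h := fun u v : List ℕ => u ++ v) (by fun_prop) hf hg

private theorem ue_dif {β : Type} [N487b59b3 β] {f g : Oracle → β → List ℕ} (hf : UP f)
    (hg : UP g) : UP fun X x => dif (f X x) (g X x) :=
  UP.fp2 (h := fun u v : List ℕ => dif u v) (by fun_prop) hf hg

private theorem ue_nor {β : Type} [N487b59b3 β] {f g : Oracle → β → List ℕ} (hf : UP f)
    (hg : UP g) : UP fun X x => nor (f X x) (g X x) :=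
  UP.fp2 (h := fun u v : List ℕ => nor u v) (by fun_prop) hf hg

section

variable {α : Type} [N487b59b3 α] {E Y C D S : Oracle → α → List ℕ}

theorem up_grdy (hE : UP E) (hY : UP Y) (hC : UP C) :
    UP fun X x => grdy (fun T => rkD X (E X x) T) (Y X x) (C X x) := by
  obtain ⟨B, hB, -, hBle⟩ := hY.bound
  have hE' : UP fun X (p : α × (List ℕ × ℕ)) => E X p.1 := ue_fst hE
  have hA : UP fun X (p : α × (List ℕ × ℕ)) => C X p.1 ++ p.2.1 :=
    ue_app (ue_fst hC) (UP.of_FP (by fun_prop))
  have hA' : UP fun X (p : α × (List ℕ × ℕ)) => p.2.2 :: (C X p.1 ++ p.2.1) :=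
    UP.fp2 (h := fun (a : ℕ) (u : List ℕ) => a :: u) (by fun_prop) (UP.of_FP (by fun_prop)) hA
  have hc : UP fun X (p : α × (List ℕ × ℕ)) => decide (rkD X (E X p.1) (C X p.1 ++ p.2.1) <
      rkD X (E X p.1) (p.2.2 :: (C X p.1 ++ p.2.1))) :=
    UP.fp2 (h := fun a b : ℕ => decide (a < b)) (by fun_prop) (up_rkD hE' hA) (up_rkD hE' hA')
  have hg : UP fun X (p : α × (List ℕ × ℕ)) =>
      if decide (rkD X (E X p.1) (C X p.1 ++ p.2.1) <
        rkD X (E X p.1) (p.2.2 :: (C X p.1 ++ p.2.1))) then p.2.1 ++ [p.2.2] else p.2.1 :=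
    UP.ite hc (UP.of_FP (by fun_prop)) (UP.of_FP (by fun_prop))
  have h := UP.foldA (g := fun X (x : α) (T : List ℕ) (y : ℕ) =>
      if decide (rkD X (E X x) (C X x ++ T) < rkD X (E X x) (y :: (C X x ++ T))) then T ++ [y]
      else T) (l := Y) (x := fun _ _ => []) hg (B := fun n => B n * (2 * B n + 1)) (by fun_prop)
    hY (UP.const []) (by
      intro X a i hi
      have h2 := Pool.Agent.G4.foldl_take_ind (P := fun i s => sz s ≤ i * (2 * sz (Y X a) + 1))
        (g := fun (T : List ℕ) (y : ℕ) =>
          if decide (rkD X (E X a) (C X a ++ T) < rkD X (E X a) (y :: (C X a ++ T))) then T ++ [y]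
          else T) (l := Y X a) (x := []) (by simp) (by
          intro i s e he hs
          have h3 := sz_mem_le he
          have h5 : (i + 1) * (2 * sz (Y X a) + 1) =
            i * (2 * sz (Y X a) + 1) + (2 * sz (Y X a) + 1) := by ring
          split
          · rw [sz_append, sz_cons, sz_nil]
            omega
          · omega) i hi
      have h6 := hBle X a
      have h7 : i ≤ B (sz a) := (hi.trans (length_le_sz _)).trans h6
      refine h2.trans (Nat.mul_le_mul h7 ?_)
      omega)
  unfold grdy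
  refine h.congr fun X x => ?_
  simp only [decide_eq_true_eq]

theorem up_bdry (hE : UP E) (hS : UP S) :
    UP fun X x => bdry (fun T => rkD X (E X x) T) (E X x) (S X x) := by
  unfold bdry
  exact up_grdy hE (ue_dif hE hS) (up_grdy hE (ue_dif hE hS) hS)

theorem up_cands (k : ℕ) (hE : UP E) (hS : UP S) :
    UP fun X x => cands (fun T => rkD X (E X x) T) (E X x) k (S X x) := by
  have hl : UP fun X x => subs (3 * k + 1) (bdry (fun T => rkD X (E X x) T) (E X x) (S X x)) :=
    (up_bdry hE hS).fp (g := fun l : List ℕ => subs (3 * k + 1) l) (by fun_prop)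
  have hb : UP fun X (p : α × List ℕ) =>
      bdry (fun T => rkD X (E X p.1) T) (E X p.1) (S X p.1) := up_bdry (ue_fst hE) (ue_fst hS)
  have hm : UP fun X x => (subs (3 * k + 1) (bdry (fun T => rkD X (E X x) T) (E X x) (S X x))).map
      fun B₁ => (B₁, cutZ (fun T => rkD X (E X x) T) (E X x) B₁
        (dif (bdry (fun T => rkD X (E X x) T) (E X x) (S X x)) B₁)) :=
    UP.mapA (h := fun X (x : α) (B₁ : List ℕ) => (B₁, cutZ (fun T => rkD X (E X x) T) (E X x) B₁
        (dif (bdry (fun T => rkD X (E X x) T) (E X x) (S X x)) B₁)))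
      (UP.pair UP.snd (up_cutZ (ue_fst hE) UP.snd (ue_dif hb UP.snd))) hl
  have hb2 : UP fun X (p : α × (List ℕ × List ℕ)) =>
      bdry (fun T => rkD X (E X p.1) T) (E X p.1) (S X p.1) := up_bdry (ue_fst hE) (ue_fst hS)
  have h1 : UP fun X (p : α × (List ℕ × List ℕ)) =>
      lamL (fun T => rkD X (E X p.1) T) (E X p.1) p.2.2 :=
    up_lamL (ue_fst hE) (UP.of_FP (f := fun p : α × (List ℕ × List ℕ) => p.2.2) (by fun_prop))
  have h2 : UP fun _ (p : α × (List ℕ × List ℕ)) => p.2.1.length :=
    UP.of_FP (f := fun p : α × (List ℕ × List ℕ) => p.2.1.length) (by fun_prop)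
  have h3 : UP fun X (p : α × (List ℕ × List ℕ)) =>
      (dif (bdry (fun T => rkD X (E X p.1) T) (E X p.1) (S X p.1)) p.2.1).length :=
    (ue_dif hb2 (UP.of_FP (f := fun p : α × (List ℕ × List ℕ) => p.2.1) (by fun_prop))).fp
      (g := fun l : List ℕ => l.length) (by fun_prop)
  unfold cands
  exact UP.filterA (h := fun X (x : α) (c : List ℕ × List ℕ) =>
      decide (lamL (fun T => rkD X (E X x) T) (E X x) c.2 < c.1.length) &&
      decide (lamL (fun T => rkD X (E X x) T) (E X x) c.2 <
        (dif (bdry (fun T => rkD X (E X x) T) (E X x) (S X x)) c.1).length))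
    (UP.and (UP.fp2 (h := fun a b : ℕ => decide (a < b)) (by fun_prop) h1 h2)
      (UP.fp2 (h := fun a b : ℕ => decide (a < b)) (by fun_prop) h1 h3)) hm

theorem up_splt (k : ℕ) (hE : UP E) (hS : UP S) :
    UP fun X x => splt (fun T => rkD X (E X x) T) (E X x) k (S X x) := by
  have hc : UP fun X x => decide (lamL (fun T => rkD X (E X x) T) (E X x) (S X x) ≤ 3 * k) :=
    (up_lamL hE hS).fp (g := fun a : ℕ => decide (a ≤ 3 * k))
      (Pool.Agent.Helper47.TR.FP.natLe FP.id (FP.const _))
  have h1 : UP fun X x => ((S X x).take 1, (S X x).drop 1) := by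
    have h2 : UP fun X x => ((S X x).take 1, (S X x).tail) :=
      hS.fp (g := fun l : List ℕ => (l.take 1, l.tail)) (by fun_prop)
    exact h2.congr fun X x => by rw [List.drop_one]
  have h3 : UP fun X x =>
      ((cands (fun T => rkD X (E X x) T) (E X x) k (S X x)).headD ([], [])).2 :=
    (up_cands k hE hS).fp (g := fun l : List (List ℕ × List ℕ) => (l.headD ([], [])).2)
      (by fun_prop)
  have h4 := UP.ite hc h1 (UP.pair (ue_nor hS h3) (ue_dif hS h3))
  unfold splt
  refine h4.congr fun X x => ?_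
  simp only [decide_eq_true_eq]

end

/-! ### sizes -/

private theorem splt_len (ρ : List ℕ → ℕ) (E : List ℕ) (k : ℕ) (X : List ℕ) :
    (splt ρ E k X).1.length + (splt ρ E k X).2.length = X.length := by
  unfold splt
  split_ifs
  · show (X.take 1).length + (X.drop 1).length = X.length
    rw [List.length_take, List.length_drop]
    omega
  · show (nor X _).length + (dif X _).length = X.length
    unfold nor dif
    exact (List.length_eq_length_filter_add _).symm

private theorem splt_mem (ρ : List ℕ → ℕ) (E : List ℕ) (k : ℕ) (X : List ℕ) (a : ℕ)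
    (h : a ∈ (splt ρ E k X).1 ∨ a ∈ (splt ρ E k X).2) : a ∈ X := by
  unfold splt at h
  split_ifs at h
  · rcases h with h | h
    · exact List.mem_of_mem_take h
    · exact List.mem_of_mem_drop h
  · unfold nor dif at h
    rcases h with h | h
    · exact (List.mem_filter.1 h).1
    · exact (List.mem_filter.1 h).1

private def tl (l : List (List ℕ)) : ℕ := (l.map List.length).sum

private theorem tl_cons (a : List ℕ) (l : List (List ℕ)) : tl (a :: l) = a.length + tl l := by
  unfold tl
  rw [List.map_cons, List.sum_cons]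

private theorem len_le_tl {X : List ℕ} {l : List (List ℕ)} (h : X ∈ l) : X.length ≤ tl l := by
  induction l with
  | nil => cases h
  | cons a l ih =>
    rw [tl_cons]
    rcases List.mem_cons.1 h with h1 | h1
    · rw [h1]; omega
    · have := ih h1; omega

private theorem front (ρ : List ℕ → ℕ) (E : List ℕ) (k : ℕ) (l : List (List ℕ)) :
    tl (l.flatMap fun X => if X.length ≤ 1 then [] else [(splt ρ E k X).1, (splt ρ E k X).2]) ≤
      tl l ∧
    (l.flatMap fun X => if X.length ≤ 1 then [] else
      [(splt ρ E k X).1, (splt ρ E k X).2]).length ≤ tl l := by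
  induction l with
  | nil => exact ⟨le_rfl, Nat.zero_le _⟩
  | cons X l ih =>
    obtain ⟨h1, h2⟩ := ih
    rw [List.flatMap_cons, tl_cons]
    by_cases h : X.length ≤ 1
    · rw [if_pos h, List.nil_append]
      exact ⟨by omega, by omega⟩
    · rw [if_neg h]
      have h3 := splt_len ρ E k X
      rw [List.cons_append, List.cons_append, List.nil_append, tl_cons, tl_cons, List.length_cons,
        List.length_cons]
      exact ⟨by omega, by omega⟩

private theorem os_inv (ρ : List ℕ → ℕ) (E : List ℕ) (k : ℕ) (D : List ℕ) (i : ℕ) :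
    sz ((osStep ρ E k)^[i] ([D], [])).1 ≤
      (sz D + 1) * (2 * (sz D * (2 * sz D + 1)) + 1) ∧
    sz ((osStep ρ E k)^[i] ([D], [])).2 ≤
      i * ((sz D + 1) * (2 * (sz D * (2 * sz D + 1)) + 1)) := by
  have hsz : ∀ l : List (List ℕ), (∀ X ∈ l, ∀ a ∈ X, a ∈ D) → tl l ≤ D.length →
      l.length ≤ D.length + 1 → sz l ≤ (sz D + 1) * (2 * (sz D * (2 * sz D + 1)) + 1) := by
    intro l h1 h2 h3
    have hD := length_le_sz D
    refine (Pool.Agent.G4.sz_le_length_mul (C := sz D * (2 * sz D + 1)) ?_).trans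
      (Nat.mul_le_mul_right _ (by omega))
    intro X hX
    have h4 := len_le_tl hX
    refine (Pool.Agent.G4.sz_le_length_mul (C := sz D) fun a ha => sz_mem_le (h1 X hX a ha)).trans
      (Nat.mul_le_mul_right _ (by omega))
  have h := Pool.Agent.G4.iterate_ind (P := fun i (s : List (List ℕ) × List (List ℕ)) =>
      (∀ X ∈ s.1, ∀ a ∈ X, a ∈ D) ∧ tl s.1 ≤ D.length ∧ s.1.length ≤ D.length + 1 ∧
        sz s.2 ≤ i * ((sz D + 1) * (2 * (sz D * (2 * sz D + 1)) + 1)))
    (f := osStep ρ E k) (x := ([D], [])) ?_ ?_ i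
  · exact ⟨hsz _ h.1 h.2.1 h.2.2.1, h.2.2.2⟩
  · refine ⟨?_, ?_, ?_, ?_⟩
    · intro X hX a ha
      rw [List.mem_singleton] at hX
      rw [hX] at ha
      exact ha
    · show tl [D] ≤ D.length
      rw [tl_cons]
      exact le_of_eq (Nat.add_zero _)
    · simp
    · simp
  · rintro j ⟨l, m⟩ ⟨h1, h2, h3, h4⟩
    obtain ⟨h5, h6⟩ := front ρ E k l
    refine ⟨?_, h5.trans h2, by
      show (l.flatMap fun X => if X.length ≤ 1 then [] else
        [(splt ρ E k X).1, (splt ρ E k X).2]).length ≤ D.length + 1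
      have h7 : tl l ≤ D.length := h2
      omega, ?_⟩
    · intro X hX a ha
      have hX' : X ∈ l.flatMap fun X => if X.length ≤ 1 then [] else
        [(splt ρ E k X).1, (splt ρ E k X).2] := hX
      obtain ⟨Y, hY, hXY⟩ := List.mem_flatMap.1 hX'
      by_cases hY1 : Y.length ≤ 1
      · rw [if_pos hY1] at hXY
        cases hXY
      · rw [if_neg hY1] at hXY
        refine h1 Y hY a (splt_mem ρ E k Y a ?_)
        rcases List.mem_cons.1 hXY with h7 | h7
        · rw [h7] at ha
          exact Or.inl ha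
        · rw [List.mem_singleton] at h7
          rw [h7] at ha
          exact Or.inr ha
    · show sz (m ++ l) ≤ _
      rw [sz_append]
      have h7 := hsz l h1 h2 h3
      have h8 : (j + 1) * ((sz D + 1) * (2 * (sz D * (2 * sz D + 1)) + 1)) =
        j * ((sz D + 1) * (2 * (sz D * (2 * sz D + 1)) + 1)) +
          (sz D + 1) * (2 * (sz D * (2 * sz D + 1)) + 1) := by ring
      rw [h8]
      exact Nat.add_le_add h4 h7

section

variable {α : Type} [N487b59b3 α] {E Y C D S : Oracle → α → List ℕ}

theorem up_osFam (k : ℕ) (hE : UP E) (hD : UP D) :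
    UP fun X x => osFam (fun T => rkD X (E X x) T) (E X x) k (D X x) := by
  obtain ⟨B, hB, -, hBle⟩ := hD.bound
  have h1 : UP fun X (q : (α × (List (List ℕ) × List (List ℕ))) × List ℕ) =>
      splt (fun T => rkD X (E X q.1.1) T) (E X q.1.1) k q.2 :=
    up_splt k (ue_fst (ue_fst hE)) UP.snd
  have h2 : UP fun X (q : (α × (List (List ℕ) × List (List ℕ))) × List ℕ) =>
      if decide (q.2.length ≤ 1) then [] else
        [(splt (fun T => rkD X (E X q.1.1) T) (E X q.1.1) k q.2).1,
          (splt (fun T => rkD X (E X q.1.1) T) (E X q.1.1) k q.2).2] :=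
    UP.ite (UP.of_FP (by fun_prop)) (UP.const [])
      (h1.fp (g := fun r : List ℕ × List ℕ => [r.1, r.2]) (by fun_prop))
  have h3 := UP.flatMap_ctx
    (h := fun X (q : α × (List (List ℕ) × List (List ℕ))) (Y : List ℕ) =>
      if decide (Y.length ≤ 1) then [] else
        [(splt (fun T => rkD X (E X q.1) T) (E X q.1) k Y).1,
          (splt (fun T => rkD X (E X q.1) T) (E X q.1) k Y).2]) h2
    (c := fun _ q => q) (l := fun _ q => q.2.1) UP.id (UP.of_FP (by fun_prop))
  have hf : UP fun X (p : α × (List (List ℕ) × List (List ℕ))) =>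
      osStep (fun T => rkD X (E X p.1) T) (E X p.1) k p.2 := by
    refine (UP.pair h3 (UP.of_FP (f := fun q : α × (List (List ℕ) × List (List ℕ)) =>
      q.2.2 ++ q.2.1) (by fun_prop))).congr fun X p => ?_
    unfold osStep
    simp only [decide_eq_true_eq]
  have h4 := UP.iterA (f := fun X (x : α) (s : List (List ℕ) × List (List ℕ)) =>
      osStep (fun T => rkD X (E X x) T) (E X x) k s) hf
    (B := fun n => 2 * ((B n + 1) * (2 * (B n * (2 * B n + 1)) + 1)) + 1 +
      B n * ((B n + 1) * (2 * (B n * (2 * B n + 1)) + 1))) (by fun_prop)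
    (l := D) (x := fun X x => ([D X x], [])) hD
    (UP.pair (hD.fp (g := fun l : List ℕ => [l]) (by fun_prop)) (UP.const [])) (by
      intro X a i hi
      obtain ⟨h5, h6⟩ := os_inv (fun T => rkD X (E X a) T) (E X a) k (D X a) i
      have h7 := hBle X a
      have h8 : i ≤ B (sz a) := (hi.trans (length_le_sz _)).trans h7
      have h9 : (sz (D X a) + 1) * (2 * (sz (D X a) * (2 * sz (D X a) + 1)) + 1) ≤
          (B (sz a) + 1) * (2 * (B (sz a) * (2 * B (sz a) + 1)) + 1) := by gcongr
      generalize ((osStep (fun T => rkD X (E X a) T) (E X a) k)^[i] ([D X a], [])) = s at h5 h6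
      obtain ⟨s1, s2⟩ := s
      rw [sz_pair]
      have h10 : sz s2 ≤ B (sz a) * ((B (sz a) + 1) * (2 * (B (sz a) * (2 * B (sz a) + 1)) + 1)) :=
        h6.trans (Nat.mul_le_mul h8 h9)
      have h11 : sz s1 ≤ (B (sz a) + 1) * (2 * (B (sz a) * (2 * B (sz a) + 1)) + 1) := h5.trans h9
      omega)
  exact h4.snd'

end

end Pool.Agent.BW
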