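import Pool.Agent.BW.ClsL

set_option autoImplicit false

/-!
# Definitions for the dynamic program

`Fin n → K`: coordinate space with the unit vectors of the elements `0, .., n - 1`; `KS K n F`: the
vectors supported in `F`. A representation of a matroid with rank function `r` on `{0, .., n - 1}` by
the quotient of `K ^ n` by a subspace `Rel`: `r F = finrank (KS F ⊔ Rel) - finrank Rel`.

States (`m` = bound for the connectivity, `s` = number of classes): a pair (kernel, set of pairs
(class of `F`, trace of `F` in the interface space `K ^ m`)).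
-/

namespace Pool.Agent.BW

open Finset Module
open Pool.Agent.G4 (IsRk lam dualR nor dif word prd)

/-- vectors supported in `F` -/
def KS (K : Type) [Field K] (n : ℕ) (F : Finset ℕ) : Submodule K (Fin n → K) where
  carrier := {x | ∀ i : Fin n, (i : ℕ) ∉ F → x i = 0}
  add_mem' := by
    intro a b ha hb i hi
    rw [Pi.add_apply, ha i hi, hb i hi, add_zero]
  zero_mem' := fun _ _ => rfl
  smul_mem' := by
    intro c x hx i hi
    rw [Pi.smul_apply, hx i hi, smul_zero]

/-- states -/
abbrev StS (K : Type) [Field K] (m s : ℕ) : Type :=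
  Submodule K (Fin m → K) × Set (Fin s × Submodule K (Fin m → K))

/-- configurations: identifications of the two interface spaces, and the new interface space -/
abbrev Cfg (K : Type) [Field K] (m : ℕ) : Type :=
  Submodule K ((Fin m → K) × (Fin m → K)) × ((Fin m → K) →ₗ[K] (Fin m → K) × (Fin m → K))

section

variable {K : Type} [Field K] {m s : ℕ}

/-- the configuration is compatible with the ranks; `J i j` is the defect
`r F₁ + r F₂ - r (F₁ ∪ F₂)` for sets of the classes `i`, `j` -/
def Vld (J : ℕ → ℕ → ℕ) (σ₁ σ₂ : StS K m s) (g : Cfg K m) : Prop :=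
  ∀ p ∈ σ₁.2, ∀ q ∈ σ₂.2, finrank K (g.1 ⊓ p.2.prod q.2 : Submodule K _) =
    J p.1 q.1 + finrank K (g.1 ⊓ σ₁.1.prod σ₂.1 : Submodule K _)

/-- the new state; `δ i j` is the class of `F₁ ∪ F₂` -/
def nxt (δ : ℕ → ℕ → ℕ) (σ₁ σ₂ : StS K m s) (g : Cfg K m) : StS K m s :=
  (Submodule.comap g.2 (σ₁.1.prod σ₂.1 ⊔ g.1),
    {x | ∃ p ∈ σ₁.2, ∃ q ∈ σ₂.2, (x.1 : ℕ) = δ p.1 q.1 ∧
      x.2 = Submodule.comap g.2 (p.2.prod q.2 ⊔ g.1)})

/-- soundness: the relations `Rel` and the interface map `c` represent the matroid with rank function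
`r` restricted to `X`, and `σ` is their state; `cl F` is the class of `F` -/
structure Snd (n : ℕ) (r : Finset ℕ → ℤ) (cl : Finset ℕ → ℕ) (X : Finset ℕ)
    (Rel : Submodule K (Fin n → K)) (c : (Fin m → K) →ₗ[K] (Fin n → K)) (σ : StS K m s) :
    Prop where
  relX : Rel ≤ KS K n X
  cX : ∀ x, c x ∈ KS K n X
  ker : σ.1 = Submodule.comap c Rel
  tr : ∀ F ⊆ X, ∃ p ∈ σ.2, (p.1 : ℕ) = cl F ∧ p.2 = Submodule.comap c (KS K n F ⊔ Rel)
  rk : ∀ F ⊆ X, (finrank K (KS K n F ⊔ Rel : Submodule K _) : ℤ) = r F + (finrank K Rel : ℤ)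

/-- the state `σ` is the state of the set `X` in the representation by `K ^ n / Rel`, for some
parametrisation `c` of the interface space -/
def Adm (n : ℕ) (Rel : Submodule K (Fin n → K)) (cl : Finset ℕ → ℕ) (X : Finset ℕ)
    (σ : StS K m s) : Prop :=
  ∃ c : (Fin m → K) →ₗ[K] (Fin n → K),
    (∀ x, c x ∈ KS K n X ⊓ (KS K n (range n \ X) ⊔ Rel)) ∧
    KS K n X ⊓ (KS K n (range n \ X) ⊔ Rel) ≤ LinearMap.range c ⊔ Rel ∧
    σ.1 = Submodule.comap c Rel ∧
    σ.2 = {p | ∃ F ⊆ X, (p.1 : ℕ) = cl F ∧ p.2 = Submodule.comap c (KS K n F ⊔ Rel)}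

/-- states of a leaf: loop -/
def lst0 (K : Type) [Field K] (m s : ℕ) (a b : ℕ) : StS K m s :=
  (⊤, {p | ((p.1 : ℕ) = a ∨ (p.1 : ℕ) = b) ∧ p.2 = ⊤})

/-- states of a leaf: not a loop, the interface map is the linear form `φ` -/
def lst1 (K : Type) [Field K] (m s : ℕ) (a b : ℕ) (φ : (Fin m → K) →ₗ[K] K) : StS K m s :=
  (LinearMap.ker φ, {p | ((p.1 : ℕ) = a ∧ p.2 = LinearMap.ker φ) ∨ ((p.1 : ℕ) = b ∧ p.2 = ⊤)})

end

/-! ## Codes -/

section code

variable {K : Type} [Field K] [Fintype K] (e : Fin (Fintype.card K) ≃ K)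

/-- decode an element of the field -/
def dcd (i : ℕ) : K := if h : i < Fintype.card K then e ⟨i, h⟩ else 0

/-- the code of an element -/
def cod (a : K) : ℕ := (e.symm a : ℕ)

/-- decode a vector -/
def decV (n : ℕ) (l : List ℕ) : Fin n → K := fun j => dcd e (l.getD (j : ℕ) 0)

/-- the code of a pair of vectors -/
def codP {m : ℕ} (z : (Fin m → K) × (Fin m → K)) : List ℕ :=
  (List.ofFn fun i => cod e (z.1 i)) ++ List.ofFn fun i => cod e (z.2 i)

/-- entries of the type of a node -/
def lkT (τ : List (List (ℕ × ℕ))) (i j : ℕ) : ℕ × ℕ := (τ.getD i []).getD j (0, 0)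

noncomputable instance finStS (m s : ℕ) : Finite (StS K m s) := by
  unfold StS
  infer_instance

/-- the number of states -/
noncomputable def nSt (K : Type) [Field K] (m s : ℕ) : ℕ := Nat.card (StS K m s)

/-- the code of a state -/
noncomputable def codS {m s : ℕ} (σ : StS K m s) : ℕ := (Finite.equivFin (StS K m s) σ : ℕ)

/-- decode a state -/
noncomputable def decS (K : Type) [Field K] [Fintype K] (m s : ℕ) (a : ℕ) : StS K m s :=
  if h : a < nSt K m s then (Finite.equivFin (StS K m s)).symm ⟨a, h⟩ else (⊤, ∅)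

/-- the admissible inputs of the table of the dynamic program -/
def okT (m s N : ℕ) : Set (List (List (ℕ × ℕ)) × (ℕ × ℕ)) :=
  {x | (x.1.length ≤ s ∧ ∀ w ∈ x.1, w.length ≤ s ∧ ∀ p ∈ w, p.1 < s ∧ p.2 ≤ m) ∧
    x.2.1 < N ∧ x.2.2 < N}

/-- coefficients of the relations of a configuration -/
noncomputable def relC {m : ℕ} (g : Cfg K m) : List (List ℕ) := by
  classical
  exact ((Finset.univ.filter fun z : (Fin m → K) × (Fin m → K) => z ∈ g.1).toList).map (codP e)

/-- coefficients of the new interface vectors -/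
noncomputable def cofC {m : ℕ} (g : Cfg K m) : List (List ℕ) :=
  List.ofFn fun i : Fin m => codP e (g.2 (Pi.single i 1))

noncomputable instance fintCfg (m : ℕ) : Fintype (Cfg K m) :=
  haveI : Finite ((Fin m → K) →ₗ[K] (Fin m → K) × (Fin m → K)) :=
    Finite.of_injective (fun f => (f : (Fin m → K) → (Fin m → K) × (Fin m → K)))
      DFunLike.coe_injective
  Fintype.ofFinite _

noncomputable instance fintForm (m : ℕ) : Fintype ((Fin m → K) →ₗ[K] K) :=
  haveI : Finite ((Fin m → K) →ₗ[K] K) :=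
    Finite.of_injective (fun f => (f : (Fin m → K) → K)) DFunLike.coe_injective
  Fintype.ofFinite _

/-- the outcomes at a node -/
noncomputable def outs {m s : ℕ} (τ : List (List (ℕ × ℕ))) (σ₁ σ₂ : StS K m s) : List Outc := by
  classical
  exact ((Finset.univ.filter fun g : Cfg K m => Vld (fun i j => (lkT τ i j).2) σ₁ σ₂ g).toList).map
    fun g => (codS (nxt (fun i j => (lkT τ i j).1) σ₁ σ₂ g), (relC e g, cofC e g))

/-- the table of the nodes -/
noncomputable def mrgK (m s : ℕ) (x : List (List (ℕ × ℕ)) × (ℕ × ℕ)) : List Outc := by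
  classical
  exact if x ∈ okT m s (nSt K m s) then
    outs e x.1 (decS K m s x.2.1) (decS K m s x.2.2) else []

/-- the outcomes at a leaf -/
noncomputable def lefO (m s : ℕ) (x : ℕ × (ℕ × ℕ)) : List Outc :=
  if x.2.2 = 0 then
    [(codS (lst0 K m s x.1 x.2.1), ([[cod e 1]], List.ofFn fun _ : Fin m => [cod e 0]))]
  else (Finset.univ : Finset ((Fin m → K) →ₗ[K] K)).toList.map fun φ =>
    (codS (lst1 K m s x.1 x.2.1 φ), ([], List.ofFn fun i : Fin m => [cod e (φ (Pi.single i 1))]))

/-- the table of the leaves -/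
noncomputable def lefK (m s : ℕ) (x : ℕ × (ℕ × ℕ)) : List Outc :=
  if x.1 < s ∧ x.2.1 < s ∧ x.2.2 ≤ 1 then lefO e m s x else []

/-- the constants of the dynamic program -/
noncomputable def prmK (m s : ℕ) : Prm where
  add := fun i j => if i < Fintype.card K ∧ j < Fintype.card K then cod e (dcd e i + dcd e j) else 0
  mul := fun i j => if i < Fintype.card K ∧ j < Fintype.card K then cod e (dcd e i * dcd e j) else 0
  zer := cod e 0
  one := cod e 1
  nst := nSt K m s
  cap := Fintype.card K ^ (2 * m) + 1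
  mrg := mrgK e m s
  lef := lefK e m s

/-- the relations of an entry -/
def eRel (n : ℕ) (en : Entry) : Submodule K (Fin n → K) :=
  Submodule.span K {v | ∃ l ∈ en.2.2, decV e n l = v}

/-- the interface map of an entry -/
def eMap (n m : ℕ) (en : Entry) : (Fin m → K) →ₗ[K] (Fin n → K) :=
  ∑ i : Fin m, (LinearMap.proj i).smulRight (decV e n (en.2.1.getD (i : ℕ) []))

end code

/-- a vector of length `n` with entries less than `q` -/
def VOK (q n : ℕ) (l : List ℕ) : Prop := l.length = n ∧ ∀ a ∈ l, a < q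

end Pool.Agent.BW
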