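import Pool.Agent.BW.UA
import Pool.Agent.BW.DpDefs

set_option autoImplicit false

/-!
# Module UT: functions given by a finite table are polynomial

A function that is constant outside a finite set is computed by searching a constant association list;
the tables of the dynamic program are constant outside finite sets.
-/

namespace Pool.Agent.BW

open Turing Function N487b59b3 N68a2faeb Pool.Agent.Helper22 Pool.Agent.Helper49.Cons
open Pool.Agent.Helper6.WB
open Pool.Agent.G4 (nor dif word prd UP)

theorem fp_table {α β : Type} [N487b59b3 α] [N487b59b3 β] [Inhabited α] [Inhabited β]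
    (S : Set α) (hS : S.Finite) (g : α → β) (d : β) (hg : ∀ x, x ∉ S → g x = d) : FP g := by
  classical
  obtain ⟨l, hl⟩ : ∃ l : List (α × β), l = hS.toFinset.toList.map fun x => (x, g x) := ⟨_, rfl⟩
  have h1 : FP fun x : α => ((l.filter fun p => decide (p.1 = x)).headD (default, d)).2 := by
    fun_prop
  refine (congrArg FP (funext fun x => ?_)).mp h1
  have hf : ∀ p ∈ l.filter (fun p => decide (p.1 = x)), p.1 = x ∧ p.2 = g p.1 := by
    intro p hp
    have h2 := List.mem_filter.mp hp
    refine ⟨of_decide_eq_true h2.2, ?_⟩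
    have h3 := h2.1
    rw [hl] at h3
    obtain ⟨y, _, hy⟩ := List.mem_map.mp h3
    rw [← hy]
  by_cases hx : x ∈ S
  · have hm : (x, g x) ∈ l.filter (fun p => decide (p.1 = x)) := by
      refine List.mem_filter.mpr ⟨?_, decide_eq_true rfl⟩
      rw [hl]
      exact List.mem_map.mpr ⟨x, Finset.mem_toList.mpr (hS.mem_toFinset.mpr hx), rfl⟩
    rcases hq : l.filter (fun p => decide (p.1 = x)) with _ | ⟨p, t⟩
    · rw [hq] at hm
      exact absurd hm List.not_mem_nil
    · rw [hq] at hf
      have h4 := hf p List.mem_cons_self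
      rw [hq, List.headD_cons, h4.2, h4.1]
  · rcases hq : l.filter (fun p => decide (p.1 = x)) with _ | ⟨p, t⟩
    · rw [hq]
      exact (hg x hx).symm
    · exfalso
      have hp : p ∈ l.filter (fun p => decide (p.1 = x)) := by
        rw [hq]
        exact List.mem_cons_self
      have h5 := (hf p hp).1
      have h6 := (List.mem_filter.mp hp).1
      rw [hl] at h6
      obtain ⟨y, hy, hy'⟩ := List.mem_map.mp h6
      apply hx
      have h7 : y = x := by rw [← h5, ← hy']
      rw [← h7]
      exact hS.mem_toFinset.mp (Finset.mem_toList.mp hy)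

private theorem lists_fin {A : Type} {S : Set A} (hS : S.Finite) (s : ℕ) :
    {l : List A | l.length ≤ s ∧ ∀ a ∈ l, a ∈ S}.Finite := by
  induction s with
  | zero =>
    refine Set.Finite.subset (Set.finite_singleton []) fun l hl => ?_
    exact List.length_eq_zero_iff.mp (Nat.le_zero.mp hl.1)
  | succ s ih =>
    refine Set.Finite.subset ((Set.finite_singleton []).union (Set.Finite.image2 List.cons hS ih)) ?_
    rintro l ⟨h1, h2⟩
    rcases l with _ | ⟨a, l⟩
    · exact Or.inl rfl
    · refine Or.inr ⟨a, h2 a List.mem_cons_self, l, ⟨?_, fun b hb => h2 b (List.mem_cons_of_mem _ hb)⟩, rfl⟩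
      rw [List.length_cons] at h1
      omega

private theorem pairs_fin (s m : ℕ) : {p : ℕ × ℕ | p.1 < s ∧ p.2 ≤ m}.Finite :=
  (Set.finite_lt_nat s).prod (Set.finite_le_nat m)

theorem okT_finite (m s N : ℕ) : (okT m s N).Finite := by
  have h1 := lists_fin (pairs_fin s m) s
  have h2 := lists_fin h1 s
  refine Set.Finite.subset (h2.prod ((Set.finite_lt_nat N).prod (Set.finite_lt_nat N))) ?_
  intro x hx
  obtain ⟨⟨h3, h4⟩, h5, h6⟩ := hx
  exact ⟨⟨h3, fun w hw => ⟨(h4 w hw).1, fun p hp => (h4 w hw).2 p hp⟩⟩, h5, h6⟩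

variable {K : Type} [Field K] [Fintype K] (e : Fin (Fintype.card K) ≃ K) (m s : ℕ)

theorem prm_add : FP fun p : ℕ × ℕ => (prmK e m s).add p.1 p.2 := by
  refine fp_table {p : ℕ × ℕ | p.1 < Fintype.card K ∧ p.2 < Fintype.card K} ?_ _ 0 ?_
  · exact (Set.finite_lt_nat _).prod (Set.finite_lt_nat _)
  · intro x hx
    exact if_neg hx

theorem prm_mul : FP fun p : ℕ × ℕ => (prmK e m s).mul p.1 p.2 := by
  refine fp_table {p : ℕ × ℕ | p.1 < Fintype.card K ∧ p.2 < Fintype.card K} ?_ _ 0 ?_
  · exact (Set.finite_lt_nat _).prod (Set.finite_lt_nat _)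
  · intro x hx
    exact if_neg hx

theorem prm_mrg : FP (prmK e m s).mrg := by
  refine fp_table (okT m s (nSt K m s)) (okT_finite _ _ _) _ [] ?_
  intro x hx
  show mrgK e m s x = []
  unfold mrgK
  exact if_neg hx

theorem prm_lef : FP (prmK e m s).lef := by
  refine fp_table {x : ℕ × (ℕ × ℕ) | x.1 < s ∧ x.2.1 < s ∧ x.2.2 ≤ 1} ?_ _ [] ?_
  · exact (Set.finite_lt_nat _).prod ((Set.finite_lt_nat _).prod (Set.finite_le_nat _))
  · intro x hx
    show lefK e m s x = []
    unfold lefK
    exact if_neg hx

theorem prm_add_lt (i j : ℕ) : (prmK e m s).add i j < Fintype.card K := by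
  show (if i < Fintype.card K ∧ j < Fintype.card K then cod e (dcd e i + dcd e j) else 0) < _
  split_ifs
  · exact (e.symm _).isLt
  · exact Fintype.card_pos

theorem prm_mul_lt (i j : ℕ) : (prmK e m s).mul i j < Fintype.card K := by
  show (if i < Fintype.card K ∧ j < Fintype.card K then cod e (dcd e i * dcd e j) else 0) < _
  split_ifs
  · exact (e.symm _).isLt
  · exact Fintype.card_pos

end Pool.Agent.BW
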