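import Pool.Agent.BW.DimL

set_option autoImplicit false

/-!
# Module AdmE: every set of connectivity at most `m` has a state

The interface space of `X` modulo the relations has dimension `lam X ≤ m`, so it is the image of a
linear map on `K ^ m`.
-/

namespace Pool.Agent.BW

open Finset Module
open Pool.Agent.G4 (IsRk lam)

/-- a complement of small dimension -/
private theorem adme_map {K : Type} [Field K] {m n : ℕ} (U₀ U : Submodule K (Fin n → K))
    (h : U₀ ≤ U) (hd : finrank K U ≤ finrank K U₀ + m) :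
    ∃ c : (Fin m → K) →ₗ[K] (Fin n → K), LinearMap.range c ≤ U ∧ U ≤ LinearMap.range c ⊔ U₀ := by
  obtain ⟨W', hW'⟩ := exists_isCompl U₀
  have h1 : U₀ ⊔ W' ⊓ U = U := by
    rw [← sup_inf_assoc_of_le W' h, hW'.sup_eq_top, top_inf_eq]
  have h2 : U₀ ⊓ (W' ⊓ U) = ⊥ := by
    rw [← inf_assoc, hW'.inf_eq_bot, bot_inf_eq]
  have h3 := Submodule.finrank_sup_add_finrank_inf_eq U₀ (W' ⊓ U)
  rw [h1, h2, finrank_bot, add_zero] at h3
  have h4 : finrank K (W' ⊓ U : Submodule K (Fin n → K)) ≤ finrank K (Fin m → K) := by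
    rw [Module.finrank_fin_fun]
    omega
  obtain ⟨f, hf⟩ := finrank_le_iff_exists_linearMap.mp h4
  obtain ⟨g, hg⟩ := LinearMap.exists_leftInverse_of_injective f (LinearMap.ker_eq_bot.2 hf)
  refine ⟨(W' ⊓ U).subtype.comp g, ?_, ?_⟩
  · rintro _ ⟨x, rfl⟩
    exact (Submodule.mem_inf.1 (g x).2).2
  · have h5 : W' ⊓ U ≤ LinearMap.range ((W' ⊓ U).subtype.comp g) := by
      intro y hy
      refine ⟨f ⟨y, hy⟩, ?_⟩
      have h6 : g (f ⟨y, hy⟩) = ⟨y, hy⟩ := LinearMap.congr_fun hg ⟨y, hy⟩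
      rw [LinearMap.comp_apply, h6]
      rfl
    calc U = U₀ ⊔ W' ⊓ U := h1.symm
      _ ≤ LinearMap.range ((W' ⊓ U).subtype.comp g) ⊔ U₀ :=
        sup_le le_sup_right (h5.trans le_sup_left)

theorem adm_exists {K : Type} [Field K] {m s n : ℕ} {r : Finset ℕ → ℤ}
    {Rel : Submodule K (Fin n → K)} (cl : Finset ℕ → ℕ) {X : Finset ℕ} (hX : X ⊆ range n)
    (hr : ∀ F ⊆ range n, r F = (finrank K (KS K n F ⊔ Rel : Submodule K _) : ℤ) - finrank K Rel)
    (hl : lam r (range n) X ≤ m) : ∃ σ : StS K m s, Adm n Rel cl X σ := by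
  have hle : KS K n X ⊓ Rel ≤ KS K n X ⊓ (KS K n (range n \ X) ⊔ Rel) :=
    inf_le_inf le_rfl le_sup_right
  have e1 := Submodule.finrank_sup_add_finrank_inf_eq (KS K n X) (KS K n (range n \ X) ⊔ Rel)
  have e2 := Submodule.finrank_sup_add_finrank_inf_eq (KS K n X) Rel
  have e3 : KS K n X ⊔ (KS K n (range n \ X) ⊔ Rel) = ⊤ := by
    rw [← sup_assoc, ← ks_union, Finset.union_sdiff_of_subset hX, ks_top, top_sup_eq]
  rw [e3, finrank_top, Module.finrank_fin_fun] at e1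
  have r1 := hr X hX
  have r2 := hr (range n \ X) Finset.sdiff_subset
  have r3 := hr (range n) (Finset.Subset.refl _)
  rw [ks_top, top_sup_eq, finrank_top, Module.finrank_fin_fun] at r3
  unfold lam at hl
  obtain ⟨c, hc1, hc2⟩ := adme_map (m := m) _ _ hle (by omega)
  refine ⟨(Submodule.comap c Rel,
    {p | ∃ F ⊆ X, (p.1 : ℕ) = cl F ∧ p.2 = Submodule.comap c (KS K n F ⊔ Rel)}), c, ?_, ?_, rfl, rfl⟩
  · intro x
    exact hc1 ⟨x, rfl⟩
  · exact hc2.trans (sup_le_sup le_rfl inf_le_right)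

end Pool.Agent.BW
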