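import Pool.Agent.BW.DimL

set_option autoImplicit false

/-!
# Module AdmS: the dynamic program is complete, one step

`Yᵢ = range n \ Xᵢ`, `X = X₁ ∪ X₂`, `Uᵢ = KS Xᵢ ⊓ (KS Yᵢ ⊔ Rel)`, `U` for `X`. Let `c₁`, `c₂`, `c` be the
maps of the three states. Configuration: `g.1 = N = {(a, b) : c₁ a + c₂ b ∈ Rel} =
comap (coprod c₁ c₂) Rel`.

(1) Decomposition: if `u ∈ KS X`, `u = u₁ + u₂`, `uᵢ ∈ KS Xᵢ`, and `u ∈ KS (range n \ X) ⊔ Rel`, then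
`u₁ = -u₂ + u ∈ KS Y₁ ⊔ Rel` (`X₂ ⊆ Y₁`, `range n \ X ⊆ Y₁`), so `u₁ ∈ U₁ ≤ range c₁ ⊔ Rel`; the same
for `u₂`. So there are `a, b` with `u - (c₁ a + c₂ b) ∈ Rel`.
(2) `g.2`: for every unit vector `x` of `K ^ m` choose `(a, b)` by (1) for `u = c x ∈ U`, and extend
linearly; then `c x - C (g.2 x) ∈ Rel` for all `x` (`C = coprod c₁ c₂`).
(3) For `Fᵢ ⊆ Xᵢ`, `F = F₁ ∪ F₂`, `Tᵢ = comap cᵢ (KS Fᵢ ⊔ Rel)`: `C (a, b) ∈ KS F ⊔ Rel` iff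
`(a, b) ∈ T₁.prod T₂ ⊔ N`. `⇐` is clear. `⇒`: `c₁ a + c₂ b = f₁ + f₂ + ρ`; `u₁ = c₁ a - f₁ ∈ KS X₁`
equals `-(c₂ b - f₂) + ρ ∈ KS Y₁ ⊔ Rel`, so `u₁ ∈ U₁`, `u₁ = c₁ a' + ρ₁`; in the same way
`u₂ = c₂ b - f₂ = c₂ b' + ρ₂`. Then `(a - a', b - b') ∈ T₁.prod T₂`, `(a', b') ∈ N`.
The case `F = ∅` gives: `C (a, b) ∈ Rel` iff `(a, b) ∈ σ₁.1.prod σ₂.1 ⊔ N`.
(4) So `comap g.2 (T₁.prod T₂ ⊔ N) = comap c (KS F ⊔ Rel)` and `nxt δ σ₁ σ₂ g = σ` (every `F ⊆ X` is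
`F₁ ∪ F₂` with `Fᵢ = F ∩ Xᵢ`; `δ (cl₁ F₁) (cl₂ F₂) = cl F`; the pairs `(cl₁ F₁, T₁)` are in `σ₁.2`
because `cl₁ F₁ < s`).
(5) `Vld`: let `Aᵢ = KS Fᵢ ⊔ Rel`. `r F₁ + r F₂ - r F = finrank (A₁ ⊓ A₂) - finrank Rel`
(`A₁ ⊔ A₂ = KS F ⊔ Rel`). The linear map `N ⊓ T₁.prod T₂ → (A₁ ⊓ A₂) / Rel`, `(a, b) ↦ c₁ a` is well
defined (`c₁ a ≡ -c₂ b`), its kernel is `N ⊓ σ₁.1.prod σ₂.1`, and it is surjective: `y = f₁ + ρ₁ =
f₂ + ρ₂`: `f₁ = f₂ + ρ₂ - ρ₁ ∈ KS Y₁ ⊔ Rel`, so `f₁ ∈ U₁`, `f₁ = c₁ a + ρ'`, and `-f₂ ∈ U₂`,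
`-f₂ = c₂ b + ρ''`; `(a, b) ∈ N ⊓ T₁.prod T₂` and `c₁ a ≡ y`. Hence
`finrank (N ⊓ T₁.prod T₂) = finrank (A₁ ⊓ A₂) - finrank Rel + finrank (N ⊓ σ₁.1.prod σ₂.1)`.
-/

namespace Pool.Agent.BW

open Finset Module

private theorem rank_null {K V W : Type} [Field K] [AddCommGroup V] [Module K V] [AddCommGroup W]
    [Module K W] [FiniteDimensional K V] (L : V →ₗ[K] W) (P : Submodule K V) :
    finrank K (Submodule.map L P) + finrank K (P ⊓ LinearMap.ker L : Submodule K V) =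
      finrank K P := by
  have h := LinearMap.finrank_range_add_finrank_ker (L.domRestrict P)
  rw [LinearMap.range_domRestrict, LinearMap.ker_domRestrict] at h
  rw [← h, ← Submodule.map_comap_subtype, Submodule.finrank_map_subtype_eq]

private theorem lift_of {K V W : Type} [Field K] [AddCommGroup V] [Module K V] [AddCommGroup W]
    [Module K W] {m : ℕ} {c : (Fin m → K) →ₗ[K] W} {C : V →ₗ[K] W} {Rel : Submodule K W}
    (h : ∀ x, ∃ y, c x - C y ∈ Rel) :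
    ∃ g : (Fin m → K) →ₗ[K] V, ∀ x, c x - C (g x) ∈ Rel := by
  choose f hf using fun i : Fin m => h (Pi.single i 1)
  refine ⟨(Pi.basisFun K (Fin m)).constr K f, fun x => ?_⟩
  have h1 : Rel.mkQ ∘ₗ c = Rel.mkQ ∘ₗ C ∘ₗ (Pi.basisFun K (Fin m)).constr K f := by
    refine (Pi.basisFun K (Fin m)).ext fun i => ?_
    rw [LinearMap.comp_apply, LinearMap.comp_apply, LinearMap.comp_apply, Module.Basis.constr_basis,
      Pi.basisFun_apply, Submodule.mkQ_apply, Submodule.mkQ_apply, Submodule.Quotient.eq]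
    exact hf i
  have h2 := DFunLike.congr_fun h1 x
  rw [LinearMap.comp_apply, LinearMap.comp_apply, LinearMap.comp_apply, Submodule.mkQ_apply,
    Submodule.mkQ_apply, Submodule.Quotient.eq] at h2
  exact h2

section

variable {K : Type} [Field K] {m n : ℕ} {X₁ X₂ F₁ F₂ : Finset ℕ}
  {Rel : Submodule K (Fin n → K)} {c₁ c₂ : (Fin m → K) →ₗ[K] (Fin n → K)}

private theorem comap_aux
    (hU₁ : ∀ u ∈ KS K n X₁, ∀ w ∈ KS K n X₂, u + w ∈ Rel → ∃ a, u - c₁ a ∈ Rel)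
    (hU₂ : ∀ u ∈ KS K n X₂, ∀ w ∈ KS K n X₁, u + w ∈ Rel → ∃ b, u - c₂ b ∈ Rel)
    (hc₁ : ∀ a, c₁ a ∈ KS K n X₁) (hc₂ : ∀ b, c₂ b ∈ KS K n X₂) (hF₁ : F₁ ⊆ X₁) (hF₂ : F₂ ⊆ X₂) :
    Submodule.comap (c₁.coprod c₂) (KS K n (F₁ ∪ F₂) ⊔ Rel) =
      (Submodule.comap c₁ (KS K n F₁ ⊔ Rel)).prod (Submodule.comap c₂ (KS K n F₂ ⊔ Rel)) ⊔
        Submodule.comap (c₁.coprod c₂) Rel := by
  apply le_antisymm
  · rintro ⟨a, b⟩ h
    rw [Submodule.mem_comap, LinearMap.coprod_apply, Submodule.mem_sup] at h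
    obtain ⟨f, hf, ρ, hρ, he⟩ := h
    rw [ks_union, Submodule.mem_sup] at hf
    obtain ⟨f₁, hf₁, f₂, hf₂, rfl⟩ := hf
    have h1 : c₁ a - f₁ ∈ KS K n X₁ := Submodule.sub_mem _ (hc₁ a) (ks_mono hF₁ hf₁)
    have h2 : c₂ b - f₂ ∈ KS K n X₂ := Submodule.sub_mem _ (hc₂ b) (ks_mono hF₂ hf₂)
    have h3 : (c₁ a - f₁) + (c₂ b - f₂) = ρ := by
      have : (c₁ a - f₁) + (c₂ b - f₂) = (c₁ a + c₂ b) - (f₁ + f₂) := by abel
      rw [this, ← he]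
      abel
    obtain ⟨a', ha'⟩ := hU₁ _ h1 _ h2 (by rw [h3]; exact hρ)
    obtain ⟨b', hb'⟩ := hU₂ _ h2 _ h1 (by rw [add_comm, h3]; exact hρ)
    rw [Submodule.mem_sup]
    refine ⟨(a - a', b - b'), ?_, (a', b'), ?_, by simp⟩
    · refine Submodule.mem_prod.2 ⟨?_, ?_⟩
      · show c₁ (a - a') ∈ KS K n F₁ ⊔ Rel
        have h4 : c₁ (a - a') = f₁ + (c₁ a - f₁ - c₁ a') := by
          rw [map_sub]
          abel
        rw [h4]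
        exact Submodule.add_mem_sup hf₁ ha'
      · show c₂ (b - b') ∈ KS K n F₂ ⊔ Rel
        have h4 : c₂ (b - b') = f₂ + (c₂ b - f₂ - c₂ b') := by
          rw [map_sub]
          abel
        rw [h4]
        exact Submodule.add_mem_sup hf₂ hb'
    · rw [Submodule.mem_comap, LinearMap.coprod_apply]
      have h4 : c₁ a' + c₂ b' = ρ - (c₁ a - f₁ - c₁ a') - (c₂ b - f₂ - c₂ b') := by
        rw [← h3]
        abel
      show c₁ a' + c₂ b' ∈ Rel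
      rw [h4]
      exact Submodule.sub_mem _ (Submodule.sub_mem _ hρ ha') hb'
  · refine sup_le ?_ (Submodule.comap_mono le_sup_right)
    rintro ⟨a, b⟩ h
    obtain ⟨h1, h2⟩ := Submodule.mem_prod.1 h
    rw [Submodule.mem_comap, LinearMap.coprod_apply]
    rw [Submodule.mem_comap] at h1 h2
    refine Submodule.add_mem _ ?_ ?_
    · exact sup_le_sup_right (ks_mono Finset.subset_union_left) Rel h1
    · exact sup_le_sup_right (ks_mono Finset.subset_union_right) Rel h2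

private theorem dim_aux
    (hU₁ : ∀ u ∈ KS K n X₁, ∀ w ∈ KS K n X₂, u + w ∈ Rel → ∃ a, u - c₁ a ∈ Rel)
    (hU₂ : ∀ u ∈ KS K n X₂, ∀ w ∈ KS K n X₁, u + w ∈ Rel → ∃ b, u - c₂ b ∈ Rel)
    (hF₁ : F₁ ⊆ X₁) (hF₂ : F₂ ⊆ X₂) :
    finrank K (Submodule.comap (c₁.coprod c₂) Rel ⊓
      (Submodule.comap c₁ (KS K n F₁ ⊔ Rel)).prod (Submodule.comap c₂ (KS K n F₂ ⊔ Rel)) :
        Submodule K _) + finrank K Rel =
    finrank K ((KS K n F₁ ⊔ Rel) ⊓ (KS K n F₂ ⊔ Rel) : Submodule K (Fin n → K)) +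
      finrank K (Submodule.comap (c₁.coprod c₂) Rel ⊓
        (Submodule.comap c₁ Rel).prod (Submodule.comap c₂ Rel) : Submodule K _) := by
  obtain ⟨P, hP⟩ : ∃ P : Submodule K ((Fin m → K) × (Fin m → K)),
      P = Submodule.comap (c₁.coprod c₂) Rel ⊓
      (Submodule.comap c₁ (KS K n F₁ ⊔ Rel)).prod (Submodule.comap c₂ (KS K n F₂ ⊔ Rel)) := ⟨_, rfl⟩
  have hPm : ∀ a b, (a, b) ∈ P ↔ c₁ a + c₂ b ∈ Rel ∧ c₁ a ∈ KS K n F₁ ⊔ Rel ∧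
      c₂ b ∈ KS K n F₂ ⊔ Rel := by
    intro a b
    rw [hP, Submodule.mem_inf, Submodule.mem_comap, LinearMap.coprod_apply, Submodule.mem_prod,
      Submodule.mem_comap, Submodule.mem_comap]
  obtain ⟨Q, hQ⟩ : ∃ Q : Submodule K (Fin n → K),
      Q = (KS K n F₁ ⊔ Rel) ⊓ (KS K n F₂ ⊔ Rel) := ⟨_, rfl⟩
  have hQR : Rel ≤ Q := by
    rw [hQ]
    exact le_inf le_sup_right le_sup_right
  have e1 := rank_null (Rel.mkQ ∘ₗ c₁ ∘ₗ LinearMap.fst K (Fin m → K) (Fin m → K)) P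
  have e2 := rank_null Rel.mkQ Q
  have h2 : Q ⊓ LinearMap.ker Rel.mkQ = Rel := by
    rw [Submodule.ker_mkQ]
    exact inf_eq_right.2 hQR
  have h1 : P ⊓ LinearMap.ker (Rel.mkQ ∘ₗ c₁ ∘ₗ LinearMap.fst K (Fin m → K) (Fin m → K)) =
      Submodule.comap (c₁.coprod c₂) Rel ⊓
        (Submodule.comap c₁ Rel).prod (Submodule.comap c₂ Rel) := by
    ext ⟨a, b⟩
    rw [Submodule.mem_inf, hPm, LinearMap.mem_ker, LinearMap.comp_apply, LinearMap.comp_apply,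
      LinearMap.fst_apply, Submodule.mkQ_apply, Submodule.Quotient.mk_eq_zero, Submodule.mem_inf,
      Submodule.mem_comap, LinearMap.coprod_apply, Submodule.mem_prod, Submodule.mem_comap,
      Submodule.mem_comap]
    constructor
    · rintro ⟨⟨h3, h4, h5⟩, h6⟩
      refine ⟨h3, h6, ?_⟩
      have h7 := Submodule.sub_mem _ h3 h6
      rwa [add_sub_cancel_left] at h7
    · rintro ⟨h3, h4, h5⟩
      exact ⟨⟨h3, Submodule.mem_sup_right h4, Submodule.mem_sup_right h5⟩, h4⟩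
  have h3 : Submodule.map (Rel.mkQ ∘ₗ c₁ ∘ₗ LinearMap.fst K (Fin m → K) (Fin m → K)) P =
      Submodule.map Rel.mkQ Q := by
    apply le_antisymm
    · rintro _ ⟨⟨a, b⟩, hab, rfl⟩
      obtain ⟨h4, h5, h6⟩ := (hPm a b).1 hab
      refine ⟨c₁ a, ?_, rfl⟩
      rw [hQ]
      refine Submodule.mem_inf.2 ⟨h5, ?_⟩
      have h7 := Submodule.sub_mem _ (Submodule.mem_sup_right (S := KS K n F₂) h4) h6
      rwa [add_sub_cancel_right] at h7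
    · rintro _ ⟨y, hy, rfl⟩
      have hy' : y ∈ (KS K n F₁ ⊔ Rel) ⊓ (KS K n F₂ ⊔ Rel) := by
        rw [← hQ]
        exact hy
      obtain ⟨hy1, hy2⟩ := Submodule.mem_inf.1 hy'
      obtain ⟨f₁, hf₁, ρ₁, hρ₁, he₁⟩ := Submodule.mem_sup.1 hy1
      obtain ⟨f₂, hf₂, ρ₂, hρ₂, he₂⟩ := Submodule.mem_sup.1 hy2
      have h4 : f₁ + -f₂ = ρ₂ - ρ₁ := by
        have h5 : f₁ + ρ₁ = f₂ + ρ₂ := he₁.trans he₂.symm
        have h6 : f₁ = f₂ + ρ₂ - ρ₁ := eq_sub_of_add_eq h5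
        rw [h6]
        abel
      have h5 : f₁ + -f₂ ∈ Rel := by
        rw [h4]
        exact Submodule.sub_mem _ hρ₂ hρ₁
      obtain ⟨a, ha⟩ := hU₁ f₁ (ks_mono hF₁ hf₁) (-f₂) (Submodule.neg_mem _ (ks_mono hF₂ hf₂)) h5
      obtain ⟨b, hb⟩ := hU₂ (-f₂) (Submodule.neg_mem _ (ks_mono hF₂ hf₂)) f₁ (ks_mono hF₁ hf₁)
        (by rw [add_comm]; exact h5)
      refine ⟨(a, b), (hPm a b).2 ⟨?_, ?_, ?_⟩, ?_⟩
      · have h6 : c₁ a + c₂ b = (f₁ + -f₂) - (f₁ - c₁ a) - (-f₂ - c₂ b) := by abel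
        rw [h6]
        exact Submodule.sub_mem _ (Submodule.sub_mem _ h5 ha) hb
      · have h6 : c₁ a = f₁ - (f₁ - c₁ a) := by abel
        rw [h6]
        exact Submodule.sub_mem _ (Submodule.mem_sup_left hf₁) (Submodule.mem_sup_right ha)
      · have h6 : c₂ b = -f₂ - (-f₂ - c₂ b) := by abel
        rw [h6]
        exact Submodule.sub_mem _ (Submodule.mem_sup_left (Submodule.neg_mem _ hf₂))
          (Submodule.mem_sup_right hb)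
      · rw [LinearMap.comp_apply, LinearMap.comp_apply, LinearMap.fst_apply, Submodule.mkQ_apply,
          Submodule.mkQ_apply, Submodule.Quotient.eq]
        have h6 : c₁ a - y = -(f₁ - c₁ a) - ρ₁ := by
          rw [← he₁]
          abel
        show c₁ a - y ∈ Rel
        rw [h6]
        exact Submodule.sub_mem _ (Submodule.neg_mem _ ha) hρ₁
  rw [h1, h3] at e1
  rw [h2] at e2
  rw [← hP, ← hQ]
  omega

end

theorem adm_step {K : Type} [Field K] {m s n : ℕ} {r : Finset ℕ → ℤ} {cl₁ cl₂ cl : Finset ℕ → ℕ}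
    {X₁ X₂ : Finset ℕ} {Rel : Submodule K (Fin n → K)} {σ₁ σ₂ σ : StS K m s} {δ J : ℕ → ℕ → ℕ}
    (hX : X₁ ∪ X₂ ⊆ range n) (hd : Disjoint X₁ X₂)
    (hr : ∀ F ⊆ range n, r F = (finrank K (KS K n F ⊔ Rel : Submodule K _) : ℤ) - finrank K Rel)
    (hδ : ∀ F₁ ⊆ X₁, ∀ F₂ ⊆ X₂, δ (cl₁ F₁) (cl₂ F₂) = cl (F₁ ∪ F₂))
    (hJ : ∀ F₁ ⊆ X₁, ∀ F₂ ⊆ X₂, (J (cl₁ F₁) (cl₂ F₂) : ℤ) = r F₁ + r F₂ - r (F₁ ∪ F₂))
    (hs₁ : ∀ F ⊆ X₁, cl₁ F < s) (hs₂ : ∀ F ⊆ X₂, cl₂ F < s)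
    (h1 : Adm n Rel cl₁ X₁ σ₁) (h2 : Adm n Rel cl₂ X₂ σ₂) (h : Adm n Rel cl (X₁ ∪ X₂) σ) :
    ∃ g : Cfg K m, Vld J σ₁ σ₂ g ∧ nxt δ σ₁ σ₂ g = σ := by
  obtain ⟨c₁, hc₁, hr₁, hk₁, ht₁⟩ := h1
  obtain ⟨c₂, hc₂, hr₂, hk₂, ht₂⟩ := h2
  obtain ⟨c, hc, hrc, hk, ht⟩ := h
  have hXs₁ : X₁ ⊆ range n := Finset.subset_union_left.trans hX
  have hXs₂ : X₂ ⊆ range n := Finset.subset_union_right.trans hX
  have hsub₂ : X₂ ⊆ range n \ X₁ := fun x hx =>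
    Finset.mem_sdiff.2 ⟨hXs₂ hx, fun h => Finset.disjoint_left.1 hd h hx⟩
  have hsub₁ : X₁ ⊆ range n \ X₂ := fun x hx =>
    Finset.mem_sdiff.2 ⟨hXs₁ hx, fun h => Finset.disjoint_left.1 hd hx h⟩
  have hV₁ : ∀ u ∈ KS K n X₁, u ∈ KS K n (range n \ X₁) ⊔ Rel → ∃ a, u - c₁ a ∈ Rel := by
    intro u hu hu'
    obtain ⟨y, ⟨a, rfl⟩, z, hz, he⟩ := Submodule.mem_sup.1 (hr₁ (Submodule.mem_inf.2 ⟨hu, hu'⟩))
    refine ⟨a, ?_⟩
    rw [← he, add_sub_cancel_left]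
    exact hz
  have hV₂ : ∀ u ∈ KS K n X₂, u ∈ KS K n (range n \ X₂) ⊔ Rel → ∃ a, u - c₂ a ∈ Rel := by
    intro u hu hu'
    obtain ⟨y, ⟨a, rfl⟩, z, hz, he⟩ := Submodule.mem_sup.1 (hr₂ (Submodule.mem_inf.2 ⟨hu, hu'⟩))
    refine ⟨a, ?_⟩
    rw [← he, add_sub_cancel_left]
    exact hz
  have hU₁ : ∀ u ∈ KS K n X₁, ∀ w ∈ KS K n X₂, u + w ∈ Rel → ∃ a, u - c₁ a ∈ Rel := by
    intro u hu w hw huw
    refine hV₁ u hu (Submodule.mem_sup.2 ⟨-w, Submodule.neg_mem _ (ks_mono hsub₂ hw), u + w, huw,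
      by abel⟩)
  have hU₂ : ∀ u ∈ KS K n X₂, ∀ w ∈ KS K n X₁, u + w ∈ Rel → ∃ a, u - c₂ a ∈ Rel := by
    intro u hu w hw huw
    refine hV₂ u hu (Submodule.mem_sup.2 ⟨-w, Submodule.neg_mem _ (ks_mono hsub₁ hw), u + w, huw,
      by abel⟩)
  have hcX₁ : ∀ a, c₁ a ∈ KS K n X₁ := fun a => (Submodule.mem_inf.1 (hc₁ a)).1
  have hcX₂ : ∀ a, c₂ a ∈ KS K n X₂ := fun a => (Submodule.mem_inf.1 (hc₂ a)).1
  have hlift : ∀ x, ∃ y, c x - (c₁.coprod c₂) y ∈ Rel := by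
    intro x
    obtain ⟨hx1, hx2⟩ := Submodule.mem_inf.1 (hc x)
    obtain ⟨v, hv, ρ, hρ, he⟩ := Submodule.mem_sup.1 hx2
    rw [ks_union] at hx1
    obtain ⟨u₁, hu₁, u₂, hu₂, hu⟩ := Submodule.mem_sup.1 hx1
    have hv₁ : v ∈ KS K n (range n \ X₁) :=
      ks_mono (Finset.sdiff_subset_sdiff (Finset.Subset.refl _) Finset.subset_union_left) hv
    have hv₂ : v ∈ KS K n (range n \ X₂) :=
      ks_mono (Finset.sdiff_subset_sdiff (Finset.Subset.refl _) Finset.subset_union_right) hv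
    obtain ⟨a, ha⟩ := hV₁ u₁ hu₁ (Submodule.mem_sup.2 ⟨v - u₂,
      Submodule.sub_mem _ hv₁ (ks_mono hsub₂ hu₂), ρ, hρ, by
        rw [sub_add_eq_add_sub, he, ← hu]
        abel⟩)
    obtain ⟨b, hb⟩ := hV₂ u₂ hu₂ (Submodule.mem_sup.2 ⟨v - u₁,
      Submodule.sub_mem _ hv₂ (ks_mono hsub₁ hu₁), ρ, hρ, by
        rw [sub_add_eq_add_sub, he, ← hu]
        abel⟩)
    refine ⟨(a, b), ?_⟩
    rw [LinearMap.coprod_apply, ← hu]
    have h3 : u₁ + u₂ - (c₁ a + c₂ b) = (u₁ - c₁ a) + (u₂ - c₂ b) := by abel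
    show u₁ + u₂ - (c₁ a + c₂ b) ∈ Rel
    rw [h3]
    exact Submodule.add_mem _ ha hb
  obtain ⟨g₂, hg₂⟩ := lift_of hlift
  have hcm : ∀ A : Submodule K (Fin n → K), Rel ≤ A →
      Submodule.comap g₂ (Submodule.comap (c₁.coprod c₂) A) = Submodule.comap c A := by
    intro A hA
    ext x
    rw [Submodule.mem_comap, Submodule.mem_comap, Submodule.mem_comap]
    constructor
    · intro h3
      have h4 := Submodule.add_mem _ (hA (hg₂ x)) h3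
      rwa [sub_add_cancel] at h4
    · intro h3
      have h4 := Submodule.sub_mem _ h3 (hA (hg₂ x))
      rwa [sub_sub_cancel] at h4
  have hfin : ∀ F₁ ⊆ X₁, ∀ F₂ ⊆ X₂,
      Submodule.comap g₂ ((Submodule.comap c₁ (KS K n F₁ ⊔ Rel)).prod
        (Submodule.comap c₂ (KS K n F₂ ⊔ Rel)) ⊔ Submodule.comap (c₁.coprod c₂) Rel) =
      Submodule.comap c (KS K n (F₁ ∪ F₂) ⊔ Rel) := by
    intro F₁ hF₁ F₂ hF₂
    rw [← comap_aux hU₁ hU₂ hcX₁ hcX₂ hF₁ hF₂, hcm _ le_sup_right]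
  refine ⟨(Submodule.comap (c₁.coprod c₂) Rel, g₂), ?_, ?_⟩
  · intro p hp q hq
    rw [ht₁] at hp
    rw [ht₂] at hq
    obtain ⟨F₁, hF₁, hp1, hp2⟩ := hp
    obtain ⟨F₂, hF₂, hq1, hq2⟩ := hq
    have e1 := dim_aux (Rel := Rel) (c₁ := c₁) (c₂ := c₂) hU₁ hU₂ hF₁ hF₂
    have e2 := hJ F₁ hF₁ F₂ hF₂
    have e3 := hr F₁ (hF₁.trans hXs₁)
    have e4 := hr F₂ (hF₂.trans hXs₂)
    have e5 := hr (F₁ ∪ F₂) (Finset.union_subset (hF₁.trans hXs₁) (hF₂.trans hXs₂))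
    have e6 := Submodule.finrank_sup_add_finrank_inf_eq (KS K n F₁ ⊔ Rel) (KS K n F₂ ⊔ Rel)
    have e7 : (KS K n F₁ ⊔ Rel) ⊔ (KS K n F₂ ⊔ Rel) = KS K n (F₁ ∪ F₂) ⊔ Rel := by
      rw [ks_union, sup_sup_sup_comm, sup_idem]
    rw [e7] at e6
    rw [hp1, hq1, hp2, hq2, hk₁, hk₂]
    show finrank K (Submodule.comap (c₁.coprod c₂) Rel ⊓
      (Submodule.comap c₁ (KS K n F₁ ⊔ Rel)).prod (Submodule.comap c₂ (KS K n F₂ ⊔ Rel)) :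
        Submodule K _) = J (cl₁ F₁) (cl₂ F₂) + finrank K (Submodule.comap (c₁.coprod c₂) Rel ⊓
        (Submodule.comap c₁ Rel).prod (Submodule.comap c₂ Rel) : Submodule K _)
    omega
  · refine Prod.ext ?_ ?_
    · show Submodule.comap g₂ (σ₁.1.prod σ₂.1 ⊔ Submodule.comap (c₁.coprod c₂) Rel) = σ.1
      have h3 := hfin ∅ (Finset.empty_subset _) ∅ (Finset.empty_subset _)
      rw [Finset.empty_union, ks_empty, bot_sup_eq] at h3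
      rw [hk₁, hk₂, hk, h3]
    · show {x : Fin s × Submodule K (Fin m → K) | ∃ p ∈ σ₁.2, ∃ q ∈ σ₂.2,
        (x.1 : ℕ) = δ p.1 q.1 ∧ x.2 = Submodule.comap g₂ (p.2.prod q.2 ⊔
          Submodule.comap (c₁.coprod c₂) Rel)} = σ.2
      rw [ht]
      ext x
      constructor
      · rintro ⟨p, hp, q, hq, hx1, hx2⟩
        rw [ht₁] at hp
        rw [ht₂] at hq
        obtain ⟨F₁, hF₁, hp1, hp2⟩ := hp
        obtain ⟨F₂, hF₂, hq1, hq2⟩ := hq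
        refine ⟨F₁ ∪ F₂, Finset.union_subset_union hF₁ hF₂, ?_, ?_⟩
        · rw [hx1, hp1, hq1, hδ F₁ hF₁ F₂ hF₂]
        · rw [hx2, hp2, hq2, hfin F₁ hF₁ F₂ hF₂]
      · rintro ⟨F, hF, hx1, hx2⟩
        have hFe : F ∩ X₁ ∪ F ∩ X₂ = F := by
          rw [← Finset.inter_union_distrib_left]
          exact Finset.inter_eq_left.2 hF
        refine ⟨(⟨cl₁ (F ∩ X₁), hs₁ _ Finset.inter_subset_right⟩,
          Submodule.comap c₁ (KS K n (F ∩ X₁) ⊔ Rel)), ?_,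
          (⟨cl₂ (F ∩ X₂), hs₂ _ Finset.inter_subset_right⟩,
          Submodule.comap c₂ (KS K n (F ∩ X₂) ⊔ Rel)), ?_, ?_, ?_⟩
        · rw [ht₁]
          exact ⟨F ∩ X₁, Finset.inter_subset_right, rfl, rfl⟩
        · rw [ht₂]
          exact ⟨F ∩ X₂, Finset.inter_subset_right, rfl, rfl⟩
        · show (x.1 : ℕ) = δ (cl₁ (F ∩ X₁)) (cl₂ (F ∩ X₂))
          rw [hδ _ Finset.inter_subset_right _ Finset.inter_subset_right, hFe, hx1]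
        · show x.2 = Submodule.comap g₂ ((Submodule.comap c₁ (KS K n (F ∩ X₁) ⊔ Rel)).prod
            (Submodule.comap c₂ (KS K n (F ∩ X₂) ⊔ Rel)) ⊔ Submodule.comap (c₁.coprod c₂) Rel)
          rw [hfin _ Finset.inter_subset_right _ Finset.inter_subset_right, hFe, hx2]

end Pool.Agent.BW
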