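import Pool.Agent.G4.Alg

set_option autoImplicit false

/-!
# The algorithm: representations of matroids of bounded branch-width

Elements are natural numbers, sets are lists of elements (in the order of the ground set `E`).
`ρ : List ℕ → ℕ` is a rank function on lists (computed with the independence oracle).
-/

namespace Pool.Agent.BW

open N487b59b3 Pool.Agent.Helper22
open Pool.Agent.G4 (nor dif word prd)

/-! ## Sets as lists -/

/-- `A ∪ B`, in the order of `E` -/
def uni (E A B : List ℕ) : List ℕ := E.filter fun e => decide (e ∈ A) || decide (e ∈ B)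

/-- `A ⊆ B` -/
def leB (A B : List ℕ) : Bool := A.all fun a => decide (a ∈ B)

/-- `A` and `B` are disjoint -/
def djB (A B : List ℕ) : Bool := A.all fun a => !decide (a ∈ B)

/-- `I - u` -/
def rmv (I : List ℕ) (u : ℕ) : List ℕ := I.filter fun x => !decide (x = u)

/-! ## Rank functions -/

/-- the rank of `T` in the matroid on `E` with independence oracle `X` -/
def rkX (X : Oracle) (E T : List ℕ) : ℕ :=
  ((nor E T).foldl (fun I e => if X (word E (I ++ [e])) then I ++ [e] else I) []).length

/-- the rank of `T` in the dual matroid -/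
def rkD (X : Oracle) (E T : List ℕ) : ℕ := (nor E T).length + rkX X E (dif E T) - rkX X E E

/-- connectivity -/
def lamL (ρ : List ℕ → ℕ) (E T : List ℕ) : ℕ := ρ T + ρ (dif E T) - ρ E

/-! ## Breadth first search -/

/-- one round: add a path `v :: p` for every vertex `v` that is not reached yet and has an edge from
the head of a path `p` -/
def bfsStep (edge : ℕ → ℕ → Bool) (N : List ℕ) (L : List (List ℕ)) : List (List ℕ) :=
  (L ++ (N.filter fun v => !(L.any fun p => decide (p.headD 0 = v))).flatMap fun v =>
    ((L.filter fun p => edge (p.headD 0) v).take 1).map fun p => v :: p).take N.length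

/-- all rounds -/
def bfs (src : ℕ → Bool) (edge : ℕ → ℕ → Bool) (N : List ℕ) : List (List ℕ) :=
  (bfsStep edge N)^[N.length] ((N.filter fun v => src v).map fun v => [v])

/-- the first path with its head in `snk` -/
def pathTo (snk : ℕ → Bool) (L : List (List ℕ)) : List ℕ :=
  (L.filter fun p => snk (p.headD 0)).headD []

/-- the heads -/
def heads (L : List (List ℕ)) : List ℕ := L.map fun p => p.headD 0

/-! ## Matroid intersection -/

/-- `x` is not in `I` and not in the closure of `A ∪ I` -/
def freeB (ρ : List ℕ → ℕ) (A I : List ℕ) (x : ℕ) : Bool :=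
  !decide (x ∈ I) && decide (ρ (A ++ I) < ρ (x :: (A ++ I)))

/-- the edges of the exchange graph: `y → x` if `I - y + x` is independent in `M / A`, `x → y` if it
is independent in `M / B` -/
def edgeB (ρ : List ℕ → ℕ) (A B I : List ℕ) (u v : ℕ) : Bool :=
  if u ∈ I then !decide (v ∈ I) && decide (ρ (v :: (A ++ rmv I u)) = ρ (A ++ I))
  else decide (v ∈ I) && decide (ρ (u :: (B ++ rmv I v)) = ρ (B ++ I))

/-- the shortest paths -/
def reachL (ρ : List ℕ → ℕ) (A B N I : List ℕ) : List (List ℕ) :=
  bfs (freeB ρ A I) (edgeB ρ A B I) N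

/-- one augmentation -/
def augStep (ρ : List ℕ → ℕ) (A B N I : List ℕ) : List ℕ :=
  N.filter fun v => xor (decide (v ∈ I)) (decide (v ∈ pathTo (freeB ρ B I) (reachL ρ A B N I)))

/-- a maximal common independent set of `M / A` and `M / B` -/
def linkI (ρ : List ℕ → ℕ) (E A B : List ℕ) : List ℕ :=
  (augStep ρ A B (dif E (A ++ B)))^[(dif E (A ++ B)).length] []

/-- a minimal cut between `A` and `B` -/
def cutZ (ρ : List ℕ → ℕ) (E A B : List ℕ) : List ℕ :=
  dif E (B ++ heads (reachL ρ A B (dif E (A ++ B)) (linkI ρ E A B)))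

/-! ## A decomposition of bounded width -/

/-- a maximal independent subset of `Y` in `M / C` -/
def grdy (ρ : List ℕ → ℕ) (Y C : List ℕ) : List ℕ :=
  Y.foldl (fun T y => if ρ (C ++ T) < ρ (y :: (C ++ T)) then T ++ [y] else T) []

/-- the subsets of the first `m` elements -/
def subs : ℕ → List ℕ → List (List ℕ)
  | 0, _ => [[]]
  | m + 1, l => subs m l.tail ++ (subs m l.tail).map fun s => l.take 1 ++ s

/-- a set in the boundary of `X` -/
def bdry (ρ : List ℕ → ℕ) (E X : List ℕ) : List ℕ := grdy ρ (dif E X) (grdy ρ (dif E X) X)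

/-- good cuts of the boundary: pairs `(B₁, Z)` -/
def cands (ρ : List ℕ → ℕ) (E : List ℕ) (k : ℕ) (X : List ℕ) : List (List ℕ × List ℕ) :=
  ((subs (3 * k + 1) (bdry ρ E X)).map fun B₁ => (B₁, cutZ ρ E B₁ (dif (bdry ρ E X) B₁))).filter
    fun c => decide (lamL ρ E c.2 < c.1.length) &&
      decide (lamL ρ E c.2 < (dif (bdry ρ E X) c.1).length)

/-- split a set of connectivity at most `3 k + 1` into two -/
def splt (ρ : List ℕ → ℕ) (E : List ℕ) (k : ℕ) (X : List ℕ) : List ℕ × List ℕ :=
  if lamL ρ E X ≤ 3 * k then (X.take 1, X.drop 1)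
  else (nor X ((cands ρ E k X).headD ([], [])).2, dif X ((cands ρ E k X).headD ([], [])).2)

/-- one round -/
def osStep (ρ : List ℕ → ℕ) (E : List ℕ) (k : ℕ) (s : List (List ℕ) × List (List ℕ)) :
    List (List ℕ) × List (List ℕ) :=
  (s.1.flatMap fun X => if X.length ≤ 1 then [] else [(splt ρ E k X).1, (splt ρ E k X).2],
    s.2 ++ s.1)

/-- a decomposition of `D` of width at most `3 k + 1`: the list of the displayed sets -/
def osFam (ρ : List ℕ → ℕ) (E : List ℕ) (k : ℕ) (D : List ℕ) : List (List ℕ) :=
  ((osStep ρ E k)^[D.length] ([D], [])).2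

/-! ## Linked decompositions -/

/-- the members of the family between `A` and `C` -/
def mids (F : List (List ℕ)) (A C : List ℕ) : List (List ℕ) := F.filter fun B => leB A B && leB B C

/-- the pair is not linked -/
def violB (ρ : List ℕ → ℕ) (E : List ℕ) (F : List (List ℕ)) (p : List ℕ × List ℕ) : Bool :=
  leB p.1 p.2 && (mids F p.1 p.2).all fun B =>
    decide (lamL ρ E (cutZ ρ E p.1 (dif E p.2)) < lamL ρ E B)

/-- the cut `Z` can be simplified at `B` -/
def badB (ρ : List ℕ → ℕ) (E A C Z B : List ℕ) : Bool :=
  ((leB B C && djB B A) && (!(djB B Z) && !(leB B Z))) &&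
    (decide (lamL ρ E B ≤ lamL ρ E (nor B Z)) || decide (lamL ρ E B ≤ lamL ρ E (dif B Z)))

/-- simplify the cut `Z` at one set -/
def fixStep (ρ : List ℕ → ℕ) (E : List ℕ) (F : List (List ℕ)) (A C Z : List ℕ) : List ℕ :=
  if (F.filter fun B => badB ρ E A C Z B).isEmpty then Z
  else if lamL ρ E ((F.filter fun B => badB ρ E A C Z B).headD []) ≤
      lamL ρ E (nor ((F.filter fun B => badB ρ E A C Z B).headD []) Z) then
    uni E Z ((F.filter fun B => badB ρ E A C Z B).headD [])
  else dif Z ((F.filter fun B => badB ρ E A C Z B).headD [])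

/-- remove repetitions -/
def ddp (l : List (List ℕ)) : List (List ℕ) :=
  l.foldl (fun s x => if x ∈ s then s else s ++ [x]) []

/-- the sets of the new decomposition -/
def newL (E : List ℕ) (F : List (List ℕ)) (A C Z : List ℕ) : List (List ℕ) :=
  (F.filter fun B => !(leB B C) || leB B A) ++
    (((F.filter fun B => leB B C).map fun B => nor B Z) ++
      (((F.filter fun B => leB B C && djB B A).map fun B => dif B Z) ++
        ((F.filter fun B => leB A B && leB B C).map fun B => uni E B Z)))

/-- the new decomposition -/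
def newFam (E : List ℕ) (F : List (List ℕ)) (A C Z : List ℕ) : List (List ℕ) :=
  (ddp ((newL E F A C Z).filter fun B => !B.isEmpty)).take (E.length + E.length)

/-- the simplified cut -/
def goodCut (ρ : List ℕ → ℕ) (E : List ℕ) (F : List (List ℕ)) (A C : List ℕ) : List ℕ :=
  (fixStep ρ E F A C)^[F.length] (cutZ ρ E A (dif E C))

/-- one step -/
def linkStep (ρ : List ℕ → ℕ) (E : List ℕ) (F : List (List ℕ)) : List (List ℕ) :=
  if ((prd F F).filter fun p => violB ρ E F p).isEmpty then F
  else newFam E F (((prd F F).filter fun p => violB ρ E F p).headD ([], [])).1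
    (((prd F F).filter fun p => violB ρ E F p).headD ([], [])).2
    (goodCut ρ E F (((prd F F).filter fun p => violB ρ E F p).headD ([], [])).1
      (((prd F F).filter fun p => violB ρ E F p).headD ([], [])).2)

/-- the number of steps, in unary -/
def fuel (m : ℕ) (E : List ℕ) : List Bool :=
  List.replicate (((E.length + E.length) * (E.length + E.length) + 1) ^ (m + 1)) true

/-- a linked decomposition -/
def linkL (ρ : List ℕ → ℕ) (E : List ℕ) (m : ℕ) (F : List (List ℕ)) : List (List ℕ) :=
  (linkStep ρ E)^[(fuel m E).length] F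

/-! ## Complete families of subsets -/

/-- the pairs of members of the family that partition `A` -/
def chl (E : List ℕ) (F : List (List ℕ)) (A : List ℕ) : List (List ℕ × List ℕ) :=
  (prd F F).filter fun p => djB p.1 p.2 && decide (uni E p.1 p.2 = A)

/-- subsets of `C` (member of the linked family `F`), rounds -/
def famL (ρ : List ℕ → ℕ) (E : List ℕ) (F : List (List ℕ)) : ℕ → List ℕ → List (List ℕ)
  | 0, _ => [[]]
  | j + 1, C => famL ρ E F j C ++ (F.filter fun A => leB A C).flatMap fun A =>
      ((if A.length ≤ 1 then [[], A] else []) ++ (chl E F A).flatMap fun p =>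
        (famL ρ E F j p.1).flatMap fun G₁ => (famL ρ E F j p.2).map fun G₂ => G₁ ++ G₂).map
          fun G => uni E G (linkI ρ E A (dif E C))

/-- a complete family of subsets of `D`; the parameters are `k` (branch-width) and `c` (number of
rounds) -/
def famD (ρ : List ℕ → ℕ) (E : List ℕ) (k c : ℕ) (D : List ℕ) : List (List ℕ) :=
  if D.isEmpty then [[]] else famL ρ E (linkL ρ E (3 * k + 1) (osFam ρ E k D)) c D

/-! ## Classes -/

/-- the signature of `F` -/
def sig (ρ : List ℕ → ℕ) (G : List (List ℕ)) (F : List ℕ) : List ℕ := G.map fun H => ρ (F ++ H) - ρ F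

/-- representatives of the classes -/
def reps (ρ : List ℕ → ℕ) (G L : List (List ℕ)) : List (List ℕ) :=
  L.foldl (fun R F => if R.any fun F' => decide (sig ρ G F' = sig ρ G F) then R else R ++ [F]) []

/-- the index of the class -/
def clsI (ρ : List ℕ → ℕ) (G R : List (List ℕ)) (F : List ℕ) : ℕ :=
  (((R.zip (List.range R.length)).filter fun p => decide (sig ρ G p.1 = sig ρ G F)).headD ([], 0)).2

/-- the test sets of the node `t` -/
def rgt (ρ : List ℕ → ℕ) (E : List ℕ) (k c : ℕ) (t : List ℕ) : List (List ℕ) :=
  famD ρ E k c (dif E t)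

/-- the representatives at the node `t` (at most `s`) -/
def repN (ρ : List ℕ → ℕ) (E : List ℕ) (k c s : ℕ) (t : List ℕ) : List (List ℕ) :=
  (reps ρ (rgt ρ E k c t) (famD ρ E k c t)).take s

/-- the class of a subset of the node `t` -/
def clsN (ρ : List ℕ → ℕ) (E : List ℕ) (k c s : ℕ) (t F : List ℕ) : ℕ :=
  clsI ρ (rgt ρ E k c t) (repN ρ E k c s t) F

/-- the type of a node `t` with the children `p.1`, `p.2` -/
def typN (ρ : List ℕ → ℕ) (E : List ℕ) (k c s : ℕ) (t : List ℕ) (p : List ℕ × List ℕ) :
    List (List (ℕ × ℕ)) :=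
  (repN ρ E k c s p.1).map fun F₁ => (repN ρ E k c s p.2).map fun F₂ =>
    (clsN ρ E k c s t (uni E F₁ F₂), ρ F₁ + ρ F₂ - ρ (F₁ ++ F₂))

/-- the type of a leaf -/
def typL (ρ : List ℕ → ℕ) (E : List ℕ) (k c s : ℕ) (t : List ℕ) : ℕ × (ℕ × ℕ) :=
  (clsN ρ E k c s t [], (clsN ρ E k c s t t, ρ t))

/-! ## The dynamic program -/

/-- an outcome: state, coefficients of the relations, coefficients of the interface vectors -/
abbrev Outc : Type := ℕ × (List (List ℕ) × List (List ℕ))

/-- an entry of the table: state, interface vectors, relations -/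
abbrev Entry : Type := ℕ × (List (List ℕ) × List (List ℕ))

/-- the constants of the dynamic program: field operations on codes, code of zero and one, the
number of states, the outcomes at a node and at a leaf, a bound for the number of relations -/
structure Prm where
  add : ℕ → ℕ → ℕ
  mul : ℕ → ℕ → ℕ
  zer : ℕ
  one : ℕ
  nst : ℕ
  cap : ℕ
  mrg : List (List (ℕ × ℕ)) × (ℕ × ℕ) → List Outc
  lef : ℕ × (ℕ × ℕ) → List Outc

/-- linear combination of vectors with `E.length` coordinates -/
def lcL (P : Prm) (E c : List ℕ) (vs : List (List ℕ)) : List ℕ :=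
  (c.zip vs).foldl (fun s p => List.zipWith (fun a b => P.add a (P.mul p.1 b)) s p.2)
    (E.map fun _ => P.zer)

/-- the unit vector of the set `t` -/
def unitL (P : Prm) (E t : List ℕ) : List ℕ := E.map fun e => if e ∈ t then P.one else P.zer

/-- the entry given by an outcome -/
def mkE (P : Prm) (E : List ℕ) (vs rl : List (List ℕ)) (o : Outc) : Entry :=
  (o.1, (o.2.2.map fun c => lcL P E c vs,
    (rl ++ o.2.1.map fun c => lcL P E c vs).take (E.flatMap fun _ => List.range P.cap).length))

/-- one entry for each state -/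
def pick (P : Prm) (l : List Entry) : List Entry :=
  (List.range P.nst).flatMap fun c => (l.filter fun e => decide (e.1 = c)).take 1

/-- look up a node -/
def look (tab : List (List ℕ × List Entry)) (t : List ℕ) : List Entry :=
  ((tab.filter fun p => decide (p.1 = t)).headD ([], [])).2

/-- the entries of the node `t`; `F` is the decomposition -/
def entr (P : Prm) (ρ : List ℕ → ℕ) (E : List ℕ) (k c s : ℕ) (F : List (List ℕ))
    (tab : List (List ℕ × List Entry)) (t : List ℕ) : List Entry :=
  pick P (if t.length ≤ 1 then (P.lef (typL ρ E k c s t)).map fun o => mkE P E [unitL P E t] [] o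
    else ((chl E F t).take 1).flatMap fun p => (look tab p.1).flatMap fun e₁ =>
      (look tab p.2).flatMap fun e₂ =>
        (P.mrg (typN ρ E k c s t p, (e₁.1, e₂.1))).map fun o =>
          mkE P E (e₁.2.1 ++ e₂.2.1) (e₁.2.2 ++ e₂.2.2) o)

/-- the table -/
def tabl (P : Prm) (ρ : List ℕ → ℕ) (E : List ℕ) (k c s : ℕ) (F : List (List ℕ)) :
    List (List ℕ × List Entry) :=
  F.reverse.foldl (fun tab t => tab ++ [(t, entr P ρ E k c s F tab t)]) []

/-- the rows of the matrix -/
def rowsL (P : Prm) (ρ : List ℕ → ℕ) (E : List ℕ) (k c s : ℕ) : List (List ℕ) :=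
  ((look (tabl P ρ E k c s (osFam ρ E k E)) E).headD (0, ([], []))).2.2

/-- the algorithm: input in unary, output the rows of a matrix (codes of elements of the field) -/
def algB (P : Prm) (k c s : ℕ) (X : Oracle) (a : List Bool) : List (List ℕ) :=
  rowsL P (fun T => rkD X (List.range a.length) T) (List.range a.length) k c s

end Pool.Agent.BW
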