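import Pool.Agent.BW.Exch

set_option autoImplicit false

/-!
# Augmentation along a path without shortcuts

`r₁`, `r₂` are rank functions, `I` is independent in both, and `v 0, .., v m` is a path without
shortcuts in the exchange graph from a source to a sink. Its symmetric difference with `I` is
independent in both matroids and has one element more than `I`.
-/

namespace Pool.Agent.BW

open Finset
open Pool.Agent.G4 (IsRk lam dualR)

/-- the symmetric difference, written as an exchange followed by the addition of one element -/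
private theorem setEq (I P : Finset ℕ) (x y : ℕ → ℕ) (w l : ℕ)
    (hPI : ∀ z, (z ∈ P ∧ z ∈ I) ↔ z ∈ (range l).image y)
    (hPn : ∀ z, (z ∈ P ∧ z ∉ I) ↔ z = w ∨ z ∈ (range l).image x) :
    (I \ P) ∪ (P \ I) = insert w ((I \ (range l).image y) ∪ (range l).image x) := by
  ext z
  have h1 := hPI z
  have h2 := hPn z
  rw [mem_union, mem_sdiff, mem_sdiff, mem_insert, mem_union, mem_sdiff]
  tauto

/-- the argument for one of the two matroids -/
private theorem side {r : Finset ℕ → ℤ} (hr : IsRk r) (I P : Finset ℕ)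
    (hI : r I = (I.card : ℤ)) (l : ℕ) (x y : ℕ → ℕ) (w : ℕ)
    (hx : ∀ i < l, x i ∉ I) (hy : ∀ i < l, y i ∈ I)
    (hxi : ∀ i < l, ∀ j < l, x i = x j → i = j) (hyi : ∀ i < l, ∀ j < l, y i = y j → i = j)
    (hc : ∀ i < l, ¬ FreeP r I (x i))
    (he : ∀ i < l, r (insert (x i) (I.erase (y i))) = (I.card : ℤ))
    (hn : ∀ i < l, ∀ j < i, r (insert (x j) (I.erase (y i))) ≠ (I.card : ℤ))
    (hw : FreeP r I w) (hwx : ∀ i < l, w ≠ x i)
    (hPI : ∀ z, (z ∈ P ∧ z ∈ I) ↔ z ∈ (range l).image y)
    (hPn : ∀ z, (z ∈ P ∧ z ∉ I) ↔ z = w ∨ z ∈ (range l).image x) :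
    ((I \ P) ∪ (P \ I)).card = I.card + 1 ∧
    r ((I \ P) ∪ (P \ I)) = (I.card : ℤ) + 1 := by
  have hc' : ∀ i < l, r (insert (x i) I) = (I.card : ℤ) := by
    intro i hi
    have h1 : r I ≤ r (insert (x i) I) := hr.mono' (subset_insert _ _)
    have h2 : r (insert (x i) I) ≤ ((insert (x i) I).card : ℤ) := hr.le_card _
    rw [card_insert_of_notMem (hx i hi)] at h2
    push_cast at h2
    have h3 : r (insert (x i) I) ≠ (I.card : ℤ) + 1 := fun h => hc i hi ⟨hx i hi, h⟩
    omega
  have hn' : ∀ i < l, ∀ j < i, r (insert (x j) (I.erase (y i))) < (I.card : ℤ) := by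
    intro i hi j hj
    have h2 : r (insert (x j) (I.erase (y i))) ≤ ((insert (x j) (I.erase (y i))).card : ℤ) :=
      hr.le_card _
    have h4 : x j ∉ I.erase (y i) := fun h => hx j (lt_trans hj hi) (mem_of_mem_erase h)
    have hpos : 0 < I.card := card_pos.mpr ⟨y i, hy i hi⟩
    rw [card_insert_of_notMem h4, card_erase_of_mem (hy i hi)] at h2
    have h3 := hn i hi j hj
    have h5 : ((I.card - 1 + 1 : ℕ) : ℤ) = (I.card : ℤ) := by
      congr 1
      omega
    rw [h5] at h2
    exact lt_of_le_of_ne h2 h3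
  obtain ⟨e1, e2, e3⟩ := exch hr l I x y hI hx hy hxi hyi hc' he hn'
  rw [setEq I P x y w l hPI hPn]
  set J := (I \ (range l).image y) ∪ (range l).image x with hJ
  have hwJ : w ∉ J := by
    intro h
    rw [hJ, mem_union, mem_sdiff] at h
    rcases h with h | h
    · exact hw.1 h.1
    · obtain ⟨i, hi, h⟩ := mem_image.mp h
      exact hwx i (mem_range.mp hi) h.symm
  have hcard : (insert w J).card = I.card + 1 := by
    rw [card_insert_of_notMem hwJ, e2]
  refine ⟨hcard, ?_⟩
  have hJB : J ⊆ I ∪ (range l).image x := by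
    rw [hJ]
    exact union_subset_union sdiff_subset (subset_refl _)
  have hdis : Disjoint {w} (I ∪ (range l).image x) := by
    rw [disjoint_singleton_left, mem_union]
    rintro (h | h)
    · exact hw.1 h
    · obtain ⟨i, hi, h⟩ := mem_image.mp h
      exact hwx i (mem_range.mp hi) h.symm
  have h1 := hr.submod hJB hdis
  have h2 : r (insert w I) ≤ r (I ∪ (range l).image x ∪ {w}) := by
    refine hr.mono' ?_
    intro z hz
    rw [mem_union, mem_union, mem_singleton]
    rcases mem_insert.mp hz with h | h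
    · exact Or.inr h
    · exact Or.inl (Or.inl h)
  have h3 : J ∪ {w} = insert w J := by
    rw [union_comm, insert_eq]
  have h4 : r (insert w J) ≤ ((insert w J).card : ℤ) := hr.le_card _
  rw [hcard] at h4
  push_cast at h4
  rw [h3] at h1
  have h5 := hw.2
  omega

theorem aug {r₁ r₂ : Finset ℕ → ℤ} (h₁ : IsRk r₁) (h₂ : IsRk r₂) (I : Finset ℕ)
    (hI₁ : r₁ I = (I.card : ℤ)) (hI₂ : r₂ I = (I.card : ℤ)) (m : ℕ) (v : ℕ → ℕ)
    (hL : Lay (FreeP r₁ I) (FreeP r₂ I) (EdgeP r₁ r₂ I) m v) (P : Finset ℕ)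
    (hP : P = (range (m + 1)).image v) :
    ((I \ P) ∪ (P \ I)).card = I.card + 1 ∧
    r₁ ((I \ P) ∪ (P \ I)) = (I.card : ℤ) + 1 ∧ r₂ ((I \ P) ∪ (P \ I)) = (I.card : ℤ) + 1 := by
  have hed : ∀ i < m, (v i ∈ I ∧ v (i + 1) ∉ I) ∨ (v i ∉ I ∧ v (i + 1) ∈ I) := by
    intro i hi
    rcases hL.ed i hi with h | h
    · exact Or.inl ⟨h.1, h.2.1⟩
    · exact Or.inr ⟨h.1, h.2.1⟩
  have hpar : ∀ a, (2 * a ≤ m → v (2 * a) ∉ I) ∧ (2 * a + 1 ≤ m → v (2 * a + 1) ∈ I) := by
    intro a
    induction a with
    | zero =>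
      refine ⟨fun _ => hL.s0.1, fun h => ?_⟩
      rcases hed 0 (by omega) with h' | h'
      · exact absurd h'.1 hL.s0.1
      · exact h'.2
    | succ a ih =>
      have h1 : 2 * (a + 1) ≤ m → v (2 * (a + 1)) ∉ I := by
        intro h
        rcases hed (2 * a + 1) (by omega) with h' | h'
        · exact h'.2
        · exact absurd (ih.2 (by omega)) h'.1
      refine ⟨h1, fun h => ?_⟩
      rcases hed (2 * (a + 1)) (by omega) with h' | h'
      · exact absurd h'.1 (h1 (by omega))
      · exact h'.2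
  obtain ⟨l, rfl⟩ : ∃ l, m = 2 * l := by
    rcases Nat.even_or_odd' m with ⟨l, h | h⟩
    · exact ⟨l, h⟩
    · exact absurd (h ▸ (hpar l).2 (by omega)) hL.t0.1
  have hmemP : ∀ z, z ∈ P ↔ ∃ i, i ≤ 2 * l ∧ v i = z := by
    intro z
    rw [hP, mem_image]
    constructor
    · rintro ⟨i, hi, h⟩
      exact ⟨i, by rw [mem_range] at hi; omega, h⟩
    · rintro ⟨i, hi, h⟩
      exact ⟨i, by rw [mem_range]; omega, h⟩
  have hPI : ∀ z, (z ∈ P ∧ z ∈ I) ↔ ∃ a < l, v (2 * a + 1) = z := by
    intro z
    rw [hmemP]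
    constructor
    · rintro ⟨⟨i, hi, rfl⟩, hz⟩
      rcases Nat.even_or_odd' i with ⟨a, h | h⟩
      · subst h
        exact absurd hz ((hpar a).1 hi)
      · exact ⟨a, by omega, by rw [h]⟩
    · rintro ⟨a, ha, rfl⟩
      exact ⟨⟨2 * a + 1, by omega, rfl⟩, (hpar a).2 (by omega)⟩
  have hPn : ∀ z, (z ∈ P ∧ z ∉ I) ↔ ∃ a ≤ l, v (2 * a) = z := by
    intro z
    rw [hmemP]
    constructor
    · rintro ⟨⟨i, hi, rfl⟩, hz⟩
      rcases Nat.even_or_odd' i with ⟨a, h | h⟩
      · exact ⟨a, by omega, by rw [h]⟩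
      · subst h
        exact absurd ((hpar a).2 hi) hz
    · rintro ⟨a, ha, rfl⟩
      exact ⟨⟨2 * a, by omega, rfl⟩, (hpar a).1 (by omega)⟩
  -- the first matroid
  have hside₁ := side h₁ I P hI₁ l (fun i => v (2 * (l - i))) (fun i => v (2 * (l - i) - 1)) (v 0)
    (fun i _ => (hpar (l - i)).1 (by omega))
    (fun i hi => by
      have h := (hpar (l - i - 1)).2 (by omega)
      have e : 2 * (l - i - 1) + 1 = 2 * (l - i) - 1 := by omega
      rw [e] at h
      exact h)
    (fun i hi j hj h => by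
      have := hL.inj (2 * (l - i)) (by omega) (2 * (l - j)) (by omega) h
      omega)
    (fun i hi j hj h => by
      have := hL.inj (2 * (l - i) - 1) (by omega) (2 * (l - j) - 1) (by omega) h
      omega)
    (fun i hi => hL.s1 (2 * (l - i)) (by omega) (by omega))
    (fun i hi => by
      have h := hL.ed (2 * (l - i) - 1) (by omega)
      have e : 2 * (l - i) - 1 + 1 = 2 * (l - i) := by omega
      rw [e] at h
      rcases h with h | h
      · exact h.2.2
      · exact absurd h.2.1 ((hpar (l - i)).1 (by omega)))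
    (fun i hi j hj h => by
      refine hL.ne (2 * (l - i) - 1) (2 * (l - j)) (by omega) (by omega) (Or.inl ⟨?_, ?_, h⟩)
      · have h' := (hpar (l - i - 1)).2 (by omega)
        have e : 2 * (l - i - 1) + 1 = 2 * (l - i) - 1 := by omega
        rw [e] at h'
        exact h'
      · exact (hpar (l - j)).1 (by omega))
    hL.s0
    (fun i hi h => by
      have := hL.inj 0 (by omega) (2 * (l - i)) (by omega) h
      omega)
    (fun z => by
      rw [hPI, mem_image]
      constructor
      · rintro ⟨a, ha, rfl⟩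
        refine ⟨l - 1 - a, mem_range.mpr (by omega), ?_⟩
        show v (2 * (l - (l - 1 - a)) - 1) = v (2 * a + 1)
        congr 1
        omega
      · rintro ⟨i, hi, rfl⟩
        rw [mem_range] at hi
        refine ⟨l - i - 1, by omega, ?_⟩
        show v (2 * (l - i - 1) + 1) = v (2 * (l - i) - 1)
        congr 1
        omega)
    (fun z => by
      rw [hPn, mem_image]
      constructor
      · rintro ⟨a, ha, rfl⟩
        rcases Nat.eq_zero_or_pos a with h | h
        · subst h
          exact Or.inl rfl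
        · refine Or.inr ⟨l - a, mem_range.mpr (by omega), ?_⟩
          show v (2 * (l - (l - a))) = v (2 * a)
          congr 1
          omega
      · rintro (rfl | ⟨i, hi, rfl⟩)
        · exact ⟨0, by omega, rfl⟩
        · exact ⟨l - i, by omega, rfl⟩)
  -- the second matroid
  have hside₂ := side h₂ I P hI₂ l (fun i => v (2 * i)) (fun i => v (2 * i + 1)) (v (2 * l))
    (fun i hi => (hpar i).1 (by omega))
    (fun i hi => (hpar i).2 (by omega))
    (fun i hi j hj h => by
      have := hL.inj (2 * i) (by omega) (2 * j) (by omega) h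
      omega)
    (fun i hi j hj h => by
      have := hL.inj (2 * i + 1) (by omega) (2 * j + 1) (by omega) h
      omega)
    (fun i hi => hL.t1 (2 * i) (by omega))
    (fun i hi => by
      rcases hL.ed (2 * i) (by omega) with h | h
      · exact absurd h.1 ((hpar i).1 (by omega))
      · exact h.2.2)
    (fun i hi j hj h => by
      refine hL.ne (2 * j) (2 * i + 1) (by omega) (by omega) (Or.inr ⟨?_, ?_, h⟩)
      · exact (hpar j).1 (by omega)
      · exact (hpar i).2 (by omega))
    hL.t0
    (fun i hi h => by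
      have := hL.inj (2 * l) (by omega) (2 * i) (by omega) h
      omega)
    (fun z => by
      rw [hPI, mem_image]
      constructor
      · rintro ⟨a, ha, rfl⟩
        exact ⟨a, mem_range.mpr ha, rfl⟩
      · rintro ⟨i, hi, rfl⟩
        exact ⟨i, mem_range.mp hi, rfl⟩)
    (fun z => by
      rw [hPn, mem_image]
      constructor
      · rintro ⟨a, ha, rfl⟩
        rcases Nat.lt_or_ge a l with h | h
        · exact Or.inr ⟨a, mem_range.mpr h, rfl⟩
        · have : a = l := by omega
          subst this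
          exact Or.inl rfl
      · rintro (rfl | ⟨i, hi, rfl⟩)
        · exact ⟨l, le_refl _, rfl⟩
        · rw [mem_range] at hi
          exact ⟨i, by omega, rfl⟩)
  exact ⟨hside₁.1, hside₁.2, hside₂.2⟩

end Pool.Agent.BW
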