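import Pool.Agent.BW.Defs

set_option autoImplicit false

/-!
# Module Bfs: breadth first search (lists)

`bfs src edge N = (bfsStep edge N)^[N.length] ((N.filter src).map fun v => [v])`. Let `L i` be the
list after `i` rounds. Invariants (`N` without repetitions), by induction on `i`:
 (a) every `p ∈ L i` is nonempty, all its elements are in `N`;
 (b) the heads of the elements of `L i` are pairwise different (so `(L i).length ≤ N.length` and the
 `take` in `bfsStep` does nothing);
 (c) every `p ∈ L i` is `[v]` with `src v`, or `p = v :: q` with `q ∈ L i` standing before `p` in the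
 list, `edge (q.headD 0) v`, and `src v` false (because the heads of `L 0` are all the sources); let
 `dist v = p.length - 1` for the head `v` of `p ∈ L i`;
 (d) the lengths of the paths are nondecreasing along the list and at most `i + 1`; the elements of
 length `≤ i` form the list `L (i - 1)`;
 (e) if `p ∈ L i` has length `≤ i` and `edge (p.headD 0) v`, `v ∈ N`, then there is `q ∈ L i` with
 head `v` and `q.length ≤ p.length + 1`.
If a round adds nothing, all later rounds add nothing; each round before adds at least one head, so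
after `N.length` rounds nothing is added: the set of heads of `bfs` is closed under edges
(`bfs_closed`), and in (e) the condition on the length of `p` can be dropped.

`bfs_path`: `p = pathTo snk L`, the first element with its head in `snk`. Write
`p = [v m, v (m-1), .., v 0]`; all the suffixes are in `L` before `p`, so their heads are not sinks;
`dist (v i) = i`; an edge `v i → v j` gives `j = dist (v j) ≤ dist (v i) + 1 = i + 1` by (e);
`v i` is a source iff `dist = 0` iff `i = 0`.
-/

namespace Pool.Agent.BW

open Finset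

variable {src snk : ℕ → Bool} {edge : ℕ → ℕ → Bool} {N : List ℕ}

/-- the new paths -/
private def nw (edge : ℕ → ℕ → Bool) (N : List ℕ) (L : List (List ℕ)) : List (List ℕ) :=
  (N.filter fun v => !(L.any fun p => decide (p.headD 0 = v))).flatMap fun v =>
    ((L.filter fun p => edge (p.headD 0) v).take 1).map fun p => v :: p

private theorem mem_hd (L : List (List ℕ)) (v : ℕ) : v ∈ heads L ↔ ∃ p ∈ L, p.headD 0 = v := by
  unfold heads
  rw [List.mem_map]

private theorem any_iff (L : List (List ℕ)) (v : ℕ) :
    (!(L.any fun p => decide (p.headD 0 = v))) = true ↔ v ∉ heads L := by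
  rw [mem_hd]
  simp

private theorem nw_of (L : List (List ℕ)) (x : List ℕ) (h : x ∈ nw edge N L) :
    ∃ v p, v ∈ N ∧ v ∉ heads L ∧ p ∈ L ∧ edge (p.headD 0) v = true ∧ x = v :: p := by
  unfold nw at h
  rw [List.mem_flatMap] at h
  obtain ⟨v, hv, hx⟩ := h
  rw [List.mem_filter, any_iff] at hv
  rw [List.mem_map] at hx
  obtain ⟨p, hp, rfl⟩ := hx
  have := List.mem_of_mem_take hp
  rw [List.mem_filter] at this
  exact ⟨v, p, hv.1, hv.2, this.1, this.2, rfl⟩

private theorem nw_to (L : List (List ℕ)) (v : ℕ) (hv : v ∈ N) (hv' : v ∉ heads L) (p : List ℕ) (hp : p ∈ L)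
    (he : edge (p.headD 0) v = true) : ∃ q ∈ L, v :: q ∈ nw edge N L := by
  have h : p ∈ L.filter fun p => edge (p.headD 0) v := List.mem_filter.2 ⟨hp, he⟩
  cases hl : L.filter fun p => edge (p.headD 0) v with
  | nil => rw [hl] at h; simp at h
  | cons q t =>
    have hq : q ∈ L.filter fun p => edge (p.headD 0) v := by rw [hl]; simp
    refine ⟨q, (List.mem_filter.1 hq).1, ?_⟩
    unfold nw
    rw [List.mem_flatMap]
    refine ⟨v, List.mem_filter.2 ⟨hv, (any_iff _ _).2 hv'⟩, ?_⟩
    rw [List.mem_map]
    refine ⟨q, ?_, rfl⟩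
    rw [hl]
    simp

private theorem sub_aux (f : ℕ → List (List ℕ)) (hf : ∀ v, f v = [] ∨ ∃ x : List ℕ, f v = [x] ∧ x.headD 0 = v)
    (l : List ℕ) : ((l.flatMap f).map fun p => p.headD 0).Sublist l := by
  induction l with
  | nil => simp
  | cons v l ih =>
    rw [List.flatMap_cons, List.map_append]
    rcases hf v with h | ⟨x, h, hx⟩
    · rw [h]
      simpa using ih.trans (List.sublist_cons_self v l)
    · rw [h, List.map_singleton, hx]
      exact ih.cons_cons v

private theorem nw_sub (L : List (List ℕ)) :
    (heads (nw edge N L)).Sublist (N.filter fun v => !(L.any fun p => decide (p.headD 0 = v))) := by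
  unfold heads nw
  apply sub_aux
  intro v
  cases hl : L.filter fun p => edge (p.headD 0) v with
  | nil => left; simp
  | cons q t => right; exact ⟨v :: q, by simp, rfl⟩

private structure Inv (src : ℕ → Bool) (edge : ℕ → ℕ → Bool) (N : List ℕ) (i : ℕ) (L : List (List ℕ)) : Prop where
  a : ∀ p ∈ L, ∀ x ∈ p, x ∈ N
  ne : ∀ p ∈ L, p ≠ []
  b : (heads L).Nodup
  c : ∀ p ∈ L, (∃ v, p = [v] ∧ src v = true) ∨
    ∃ v q, p = v :: q ∧ q ∈ L ∧ edge (q.headD 0) v = true ∧ src v = false
  c' : ∀ v ∈ N, src v = true → [v] ∈ L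
  d : L.Pairwise fun p q => p.length ≤ q.length
  d' : ∀ p ∈ L, p.length ≤ i + 1
  e : ∀ p ∈ L, p.length ≤ i → ∀ v ∈ N, edge (p.headD 0) v = true → ∃ q ∈ L, q.headD 0 = v ∧ q.length ≤ p.length + 1

private theorem hd_mem {p : List ℕ} (h : p ≠ []) : p.headD 0 ∈ p := by
  cases p with
  | nil => exact absurd rfl h
  | cons a t => simp

private theorem Inv.hsub {i : ℕ} {L : List (List ℕ)} (h : Inv src edge N i L) : ∀ x ∈ heads L, x ∈ N := by
  intro x hx
  obtain ⟨p, hp, rfl⟩ := (mem_hd _ _).1 hx
  exact h.a p hp _ (hd_mem (h.ne p hp))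

private theorem Inv.eqv {i : ℕ} {L : List (List ℕ)} (h : Inv src edge N i L) {p q : List ℕ} (hp : p ∈ L)
    (hq : q ∈ L) (hpq : p.headD 0 = q.headD 0) : p = q :=
  List.inj_on_of_nodup_map h.b hp hq hpq

private theorem heads_append (L L' : List (List ℕ)) : heads (L ++ L') = heads L ++ heads L' := by
  unfold heads
  rw [List.map_append]

private theorem nd_app (hN : N.Nodup) {i : ℕ} {L : List (List ℕ)} (h : Inv src edge N i L) :
    (heads (L ++ nw edge N L)).Nodup := by
  rw [heads_append]
  refine List.Nodup.append h.b ((nw_sub L).nodup (hN.filter _)) ?_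
  intro x hx hx'
  have := (nw_sub L).subset hx'
  rw [List.mem_filter, any_iff] at this
  exact this.2 hx

private theorem step_eq (hN : N.Nodup) {i : ℕ} {L : List (List ℕ)} (h : Inv src edge N i L) :
    bfsStep edge N L = L ++ nw edge N L := by
  unfold bfsStep
  change (L ++ nw edge N L).take N.length = _
  apply List.take_of_length_le
  have h1 := nd_app hN h
  have h2 : heads (L ++ nw edge N L) ⊆ N := by
    rw [heads_append]
    intro x hx
    rcases List.mem_append.1 hx with hx | hx
    · exact h.hsub x hx
    · exact (List.mem_filter.1 ((nw_sub L).subset hx)).1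
  have h3 := (List.Nodup.subperm h1 h2).length_le
  unfold heads at h3
  rwa [List.length_map] at h3

private theorem nw_len {i : ℕ} {L : List (List ℕ)} (h : Inv src edge N i L) (x : List ℕ)
    (hx : x ∈ nw edge N L) : x.length = i + 2 := by
  obtain ⟨v, p, hv, hv', hp, he, rfl⟩ := nw_of L x hx
  have h1 := h.d' p hp
  by_contra hne
  rw [List.length_cons] at hne
  obtain ⟨q, hq, hqv, -⟩ := h.e p hp (by omega) v hv he
  exact hv' ((mem_hd _ _).2 ⟨q, hq, hqv⟩)

private theorem inv_step (hN : N.Nodup) {i : ℕ} {L : List (List ℕ)} (h : Inv src edge N i L) :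
    Inv src edge N (i + 1) (bfsStep edge N L) := by
  rw [step_eq hN h]
  refine ⟨?_, ?_, nd_app hN h, ?_, ?_, ?_, ?_, ?_⟩
  · intro p hp x hx
    rcases List.mem_append.1 hp with hp | hp
    · exact h.a p hp x hx
    · obtain ⟨v, q, hv, -, hq, -, rfl⟩ := nw_of L p hp
      rcases List.mem_cons.1 hx with hx | hx
      · rw [hx]; exact hv
      · exact h.a q hq x hx
  · intro p hp
    rcases List.mem_append.1 hp with hp | hp
    · exact h.ne p hp
    · obtain ⟨v, q, -, -, -, -, rfl⟩ := nw_of L p hp
      simp
  · intro p hp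
    rcases List.mem_append.1 hp with hp | hp
    · rcases h.c p hp with h1 | ⟨v, q, h1, h2, h3, h4⟩
      · exact Or.inl h1
      · exact Or.inr ⟨v, q, h1, List.mem_append_left _ h2, h3, h4⟩
    · obtain ⟨v, q, hv, hv', hq, he, rfl⟩ := nw_of L p hp
      refine Or.inr ⟨v, q, rfl, List.mem_append_left _ hq, he, ?_⟩
      by_contra hs
      rw [Bool.not_eq_false] at hs
      exact hv' ((mem_hd _ _).2 ⟨[v], h.c' v hv hs, rfl⟩)
  · intro v hv hs
    exact List.mem_append_left _ (h.c' v hv hs)
  · rw [List.pairwise_append]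
    refine ⟨h.d, ?_, ?_⟩
    · apply List.pairwise_iff_forall_sublist.2
      intro p q hpq
      have hp : p ∈ nw edge N L := hpq.subset (by simp)
      have hq : q ∈ nw edge N L := hpq.subset (by simp)
      rw [nw_len h p hp, nw_len h q hq]
    · intro p hp q hq
      have := h.d' p hp
      rw [nw_len h q hq]
      omega
  · intro p hp
    rcases List.mem_append.1 hp with hp | hp
    · have := h.d' p hp
      omega
    · rw [nw_len h p hp]
  · intro p hp hl v hv he
    rcases List.mem_append.1 hp with hp | hp
    · by_cases hl' : p.length ≤ i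
      · obtain ⟨q, hq, h1, h2⟩ := h.e p hp hl' v hv he
        exact ⟨q, List.mem_append_left _ hq, h1, h2⟩
      · by_cases hvL : v ∈ heads L
        · obtain ⟨q, hq, hqv⟩ := (mem_hd _ _).1 hvL
          have := h.d' q hq
          exact ⟨q, List.mem_append_left _ hq, hqv, by omega⟩
        · obtain ⟨q, hq, hq'⟩ := nw_to L v hv hvL p hp he
          have := h.d' q hq
          refine ⟨v :: q, List.mem_append_right _ hq', rfl, ?_⟩
          rw [List.length_cons]
          omega
    · rw [nw_len h p hp] at hl
      omega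

private theorem inv_zero (hN : N.Nodup) : Inv src edge N 0 ((N.filter fun v => src v).map fun v => [v]) := by
  refine ⟨?_, ?_, ?_, ?_, ?_, ?_, ?_, ?_⟩
  · intro p hp x hx
    obtain ⟨v, hv, rfl⟩ := List.mem_map.1 hp
    rw [List.mem_singleton] at hx
    rw [hx]
    exact (List.mem_filter.1 hv).1
  · intro p hp
    obtain ⟨v, hv, rfl⟩ := List.mem_map.1 hp
    simp
  · unfold heads
    rw [List.map_map]
    have : ((fun p : List ℕ => p.headD 0) ∘ fun v => [v]) = id := by
      funext v
      rfl
    rw [this, List.map_id]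
    exact hN.filter _
  · intro p hp
    obtain ⟨v, hv, rfl⟩ := List.mem_map.1 hp
    exact Or.inl ⟨v, rfl, (List.mem_filter.1 hv).2⟩
  · intro v hv hs
    exact List.mem_map.2 ⟨v, List.mem_filter.2 ⟨hv, hs⟩, rfl⟩
  · apply List.pairwise_iff_forall_sublist.2
    intro p q hpq
    have hp := hpq.subset (List.mem_cons_self)
    have hq := hpq.subset (List.mem_cons_of_mem p List.mem_cons_self)
    obtain ⟨v, -, rfl⟩ := List.mem_map.1 hp
    obtain ⟨w, -, rfl⟩ := List.mem_map.1 hq
    simp
  · intro p hp
    obtain ⟨v, hv, rfl⟩ := List.mem_map.1 hp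
    simp
  · intro p hp hl
    obtain ⟨v, hv, rfl⟩ := List.mem_map.1 hp
    simp at hl

private theorem inv_iter (hN : N.Nodup) (i : ℕ) :
    Inv src edge N i ((bfsStep edge N)^[i] ((N.filter fun v => src v).map fun v => [v])) := by
  induction i with
  | zero => exact inv_zero hN
  | succ i ih =>
    rw [Function.iterate_succ_apply']
    exact inv_step hN ih

private theorem fixed (hN : N.Nodup) : bfsStep edge N (bfs src edge N) = bfs src edge N := by
  set L : ℕ → List (List ℕ) := fun i => (bfsStep edge N)^[i] ((N.filter fun v => src v).map fun v => [v]) with hL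
  have hs : ∀ i, L (i + 1) = bfsStep edge N (L i) := fun i => Function.iterate_succ_apply' _ _ _
  have hlen : ∀ i, (L i).length ≤ N.length := by
    intro i
    have h := inv_iter (src := src) (edge := edge) hN i
    have h3 := (List.Nodup.subperm h.b (fun x hx => h.hsub x hx)).length_le
    unfold heads at h3
    rwa [List.length_map] at h3
  have hex : ∃ k ≤ N.length, bfsStep edge N (L k) = L k := by
    by_contra hne
    push Not at hne
    have hgrow : ∀ k ≤ N.length + 1, k ≤ (L k).length := by
      intro k
      induction k with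
      | zero => intro _; omega
      | succ k ih =>
        intro hk
        have h1 := ih (by omega)
        have h2 := hne k (by omega)
        have h := inv_iter (src := src) (edge := edge) hN k
        rw [hs]
        rw [step_eq hN h] at h2 ⊢
        rw [List.length_append]
        have h3 : nw edge N (L k) ≠ [] := by
          intro h4
          apply h2
          change L k ++ nw edge N (L k) = L k
          rw [h4, List.append_nil]
        have h4 := List.length_pos_iff.2 h3
        have h5 : k ≤ (L k).length := h1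
        change k + 1 ≤ (L k).length + (nw edge N (L k)).length
        omega
    have h1 := hgrow (N.length + 1) (le_refl _)
    have h2 := hlen (N.length + 1)
    omega
  obtain ⟨k, hk, hfix⟩ := hex
  have hst : ∀ j, L (k + j) = L k := by
    intro j
    induction j with
    | zero => rfl
    | succ j ih => rw [← add_assoc, hs, ih, hfix]
  have h1 : bfs src edge N = L N.length := rfl
  have h2 : L N.length = L k := by
    have := hst (N.length - k)
    rwa [Nat.add_sub_cancel' hk] at this
  rw [h1, h2, hfix]

private theorem inv_big (hN : N.Nodup) (j : ℕ) : Inv src edge N (N.length + j) (bfs src edge N) := by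
  have h := inv_iter (src := src) (edge := edge) hN (N.length + j)
  have h1 : ∀ j, (bfsStep edge N)^[j] (bfs src edge N) = bfs src edge N := by
    intro j
    induction j with
    | zero => rfl
    | succ j ih => rw [Function.iterate_succ_apply, fixed hN, ih]
  rw [add_comm, Function.iterate_add_apply] at h
  have h2 : (bfsStep edge N)^[N.length] ((N.filter fun v => src v).map fun v => [v]) = bfs src edge N := rfl
  rw [h2, h1] at h
  rwa [add_comm] at h

theorem heads_sub (hN : N.Nodup) : ∀ x ∈ heads (bfs src edge N), x ∈ N :=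
  (inv_big hN 0).hsub

theorem bfs_src (hN : N.Nodup) : ∀ x ∈ N, src x = true → x ∈ heads (bfs src edge N) := by
  intro x hx hs
  exact (mem_hd _ _).2 ⟨[x], (inv_big hN 0).c' x hx hs, rfl⟩

theorem bfs_closed (hN : N.Nodup) : ∀ u ∈ heads (bfs src edge N), ∀ v ∈ N, edge u v = true →
    v ∈ heads (bfs src edge N) := by
  intro u hu v hv he
  obtain ⟨p, hp, rfl⟩ := (mem_hd _ _).1 hu
  have h := inv_big (src := src) (edge := edge) hN p.length
  obtain ⟨q, hq, hqv, -⟩ := h.e p hp (by omega) v hv he
  exact (mem_hd _ _).2 ⟨q, hq, hqv⟩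

private theorem first_spec (f : List ℕ → Bool) (L : List (List ℕ)) (hd : L.Pairwise fun p q => p.length ≤ q.length)
    (h : (L.filter f).headD [] ≠ []) : (L.filter f).headD [] ∈ L ∧ f ((L.filter f).headD []) = true ∧
      ∀ q ∈ L, f q = true → ((L.filter f).headD []).length ≤ q.length := by
  induction L with
  | nil => simp at h
  | cons p L ih =>
    rw [List.pairwise_cons] at hd
    by_cases hp : f p = true
    · rw [List.filter_cons_of_pos hp]
      refine ⟨by simp, by simpa using hp, ?_⟩
      intro q hq _
      rcases List.mem_cons.1 hq with hq | hq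
      · rw [hq]; simp
      · simpa using hd.1 q hq
    · rw [List.filter_cons_of_neg hp] at h ⊢
      obtain ⟨h1, h2, h3⟩ := ih hd.2 h
      refine ⟨List.mem_cons_of_mem _ h1, h2, ?_⟩
      intro q hq hfq
      rcases List.mem_cons.1 hq with hq | hq
      · rw [hq] at hfq
        exact absurd hfq hp
      · exact h3 q hq hfq

/-- no path: no head is a sink -/
theorem bfs_nil (hN : N.Nodup) (h : pathTo snk (bfs src edge N) = []) :
    ∀ x ∈ heads (bfs src edge N), snk x = false := by
  intro x hx
  obtain ⟨p, hp, rfl⟩ := (mem_hd _ _).1 hx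
  by_contra hs
  rw [Bool.not_eq_false] at hs
  have hm : p ∈ (bfs src edge N).filter fun p => snk (p.headD 0) := List.mem_filter.2 ⟨hp, hs⟩
  unfold pathTo at h
  cases hl : (bfs src edge N).filter fun p => snk (p.headD 0) with
  | nil => rw [hl] at hm; simp at hm
  | cons q t =>
    rw [hl] at h
    simp only [List.headD_cons] at h
    have hq : q ∈ (bfs src edge N).filter fun p => snk (p.headD 0) := by rw [hl]; simp
    exact (inv_big (src := src) (edge := edge) hN 0).ne q (List.mem_filter.1 hq).1 h

private theorem path_aux {i : ℕ} {L : List (List ℕ)} (h : Inv src edge N i L) : ∀ (n : ℕ), ∀ p ∈ L, p.length = n →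
    ∃ (m : ℕ) (v : ℕ → ℕ), p.length = m + 1 ∧ v m = p.headD 0 ∧ (∀ w, w ∈ p ↔ ∃ i ≤ m, v i = w) ∧
      (∀ i ≤ m, ∃ q ∈ L, q.length = i + 1 ∧ q.headD 0 = v i) ∧ src (v 0) = true ∧
      (∀ i, 0 < i → i ≤ m → src (v i) = false) ∧ ∀ i < m, edge (v i) (v (i + 1)) = true := by
  intro n
  induction n with
  | zero =>
    intro p hp hl
    exact absurd (List.length_eq_zero_iff.1 hl) (h.ne p hp)
  | succ n ih =>
    intro p hp hl
    rcases h.c p hp with ⟨v, rfl, hs⟩ | ⟨v, q, rfl, hq, he, hs⟩
    · refine ⟨0, fun _ => v, rfl, rfl, ?_, ?_, hs, ?_, ?_⟩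
      · intro w
        simp [eq_comm]
      · intro i hi
        exact ⟨[v], hp, by simp; omega, rfl⟩
      · intro i h1 h2
        omega
      · intro i hi
        omega
    · rw [List.length_cons] at hl
      obtain ⟨m, u, h1, h2, h3, h4, h5, h6, h7⟩ := ih q hq (by omega)
      obtain ⟨w, hw1, hw2⟩ : ∃ w : ℕ → ℕ, (∀ j ≤ m, w j = u j) ∧ ∀ j, ¬ j ≤ m → w j = v :=
        ⟨fun i => if i ≤ m then u i else v, fun j hj => if_pos hj, fun j hj => if_neg hj⟩
      refine ⟨m + 1, w, by rw [List.length_cons, h1], ?_, ?_, ?_, ?_, ?_, ?_⟩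
      · rw [hw2 _ (by omega)]
        rfl
      · intro x
        rw [List.mem_cons, h3]
        constructor
        · rintro (hw | ⟨j, hj, hw⟩)
          · exact ⟨m + 1, le_refl _, by rw [hw2 _ (by omega), hw]⟩
          · exact ⟨j, by omega, by rw [hw1 j hj, hw]⟩
        · rintro ⟨j, hj, hw⟩
          by_cases hjm : j ≤ m
          · rw [hw1 j hjm] at hw
            exact Or.inr ⟨j, hjm, hw⟩
          · rw [hw2 j hjm] at hw
            exact Or.inl hw.symm
      · intro j hj
        by_cases hjm : j ≤ m
        · obtain ⟨r, hr, hr1, hr2⟩ := h4 j hjm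
          exact ⟨r, hr, hr1, by rw [hw1 j hjm]; exact hr2⟩
        · refine ⟨v :: q, hp, ?_, ?_⟩
          · rw [List.length_cons, h1]
            omega
          · rw [hw2 j hjm]
            rfl
      · rw [hw1 0 (by omega)]
        exact h5
      · intro j hj hj'
        by_cases hjm : j ≤ m
        · rw [hw1 j hjm]
          exact h6 j hj hjm
        · rw [hw2 j hjm]
          exact hs
      · intro j hj
        by_cases hjm : j + 1 ≤ m
        · rw [hw1 j (by omega), hw1 _ hjm]
          exact h7 j (by omega)
        · rw [hw1 j (by omega), hw2 _ hjm]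
          have : j = m := by omega
          rw [this, h2]
          exact he

theorem bfs_path (hN : N.Nodup) (h : pathTo snk (bfs src edge N) ≠ []) :
    ∃ (m : ℕ) (v : ℕ → ℕ), Lay (fun x => src x = true) (fun x => snk x = true)
        (fun x y => edge x y = true) m v ∧
      (∀ i ≤ m, v i ∈ N) ∧
      ∀ w, w ∈ pathTo snk (bfs src edge N) ↔ ∃ i ≤ m, v i = w := by
  have hI := inv_big (src := src) (edge := edge) hN 0
  obtain ⟨hp, hsn, hfst⟩ := first_spec (fun p => snk (p.headD 0)) (bfs src edge N) hI.d h
  change pathTo snk (bfs src edge N) ∈ _ at hp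
  change snk ((pathTo snk (bfs src edge N)).headD 0) = true at hsn
  change ∀ q ∈ bfs src edge N, snk (q.headD 0) = true → (pathTo snk (bfs src edge N)).length ≤ q.length at hfst
  obtain ⟨m, v, h1, h2, h3, h4, h5, h6, h7⟩ := path_aux hI _ _ hp rfl
  refine ⟨m, v, ⟨h5, ?_, ?_, ?_, h7, ?_, ?_⟩, ?_, h3⟩
  · intro i hi hi'
    simp [h6 i hi hi']
  · change snk (v m) = true
    rw [h2]; exact hsn
  · intro i hi hs
    obtain ⟨q, hq, hq1, hq2⟩ := h4 i (by omega)
    have := hfst q hq (by rw [hq2]; exact hs)
    omega
  · intro i j hij hj he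
    obtain ⟨q, hq, hq1, hq2⟩ := h4 i (by omega)
    obtain ⟨r, hr, hr1, hr2⟩ := h4 j hj
    have hB := inv_big (src := src) (edge := edge) hN q.length
    have hvN : v j ∈ N := by
      rw [← hr2]
      exact hI.hsub _ ((mem_hd _ _).2 ⟨r, hr, rfl⟩)
    obtain ⟨t, ht, ht1, ht2⟩ := hB.e q hq (by omega) (v j) hvN (by rw [hq2]; exact he)
    have := hI.eqv ht hr (by rw [ht1, hr2])
    rw [this] at ht2
    omega
  · intro i hi j hj hij
    obtain ⟨q, hq, hq1, hq2⟩ := h4 i hi
    obtain ⟨r, hr, hr1, hr2⟩ := h4 j hj
    have := hI.eqv hq hr (by rw [hq2, hr2, hij])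
    rw [this] at hq1
    omega
  · intro i hi
    obtain ⟨q, hq, hq1, hq2⟩ := h4 i hi
    rw [← hq2]
    exact hI.hsub _ ((mem_hd _ _).2 ⟨q, hq, rfl⟩)

end Pool.Agent.BW
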