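import Pool.Agent.BW.Defs

set_option autoImplicit false

/-!
# Module BinM: binary laminar families

* `Bin.restrict`: for `B ∈ F` the members contained in `B` form a binary laminar family with top
  `B`.
* `Bin.child`: `A = A₁ ∪ A₂` disjoint, all in `F`. A member `B ⊆ A` is `A`, or `⊆ A₁`, or `⊆ A₂`:
  compare `B` with `A₁`: `B ⊆ A₁` is fine; if `B` is disjoint from `A₁` then `B ⊆ A₂`; if `A₁ ⊆ B`
  compare with `A₂`: `A₂ ⊆ B` gives `B = A`; `B ⊆ A₂` is impossible (`A₁` is nonempty); if `B` is
  disjoint from `A₂` then `B ⊆ A₁`.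
* `Bin.card_le`: `|F| ≤ 2 |D| - 1`, by strong induction on `|D|`: if `|D| = 1` then `F = {D}`
  (members are nonempty subsets). Otherwise `D = D₁ ∪ D₂` (`spl`), and by `Bin.child` every member
  is `D` or a member contained in `D₁` or `D₂`; use `Bin.restrict` and
  `1 + (2 |D₁| - 1) + (2 |D₂| - 1) = 2 |D| - 1`.
* `Bin.card_one`: if `|D| = 1` then `F = {D}`.
-/

namespace Pool.Agent.BW

open Finset

variable {F : Finset (Finset ℕ)} {A B D A₁ A₂ : Finset ℕ}

theorem Bin.restrict (h : Bin F D) (hB : B ∈ F) : Bin (F.filter fun C => C ⊆ B) B where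
  top := Finset.mem_filter.2 ⟨hB, Finset.Subset.refl B⟩
  sub := fun C hC => (Finset.mem_filter.1 hC).2
  ne := fun C hC => h.ne C (Finset.mem_filter.1 hC).1
  lmn := fun C hC C' hC' => h.lmn C (Finset.mem_filter.1 hC).1 C' (Finset.mem_filter.1 hC').1
  spl := by
    intro C hC h2
    obtain ⟨hC1, hC2⟩ := Finset.mem_filter.1 hC
    obtain ⟨B₁, h1, B₂, h3, hd, hu⟩ := h.spl C hC1 h2
    refine ⟨B₁, Finset.mem_filter.2 ⟨h1, ?_⟩, B₂, Finset.mem_filter.2 ⟨h3, ?_⟩, hd, hu⟩
    · refine Finset.Subset.trans ?_ hC2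
      rw [← hu]
      exact Finset.subset_union_left
    · refine Finset.Subset.trans ?_ hC2
      rw [← hu]
      exact Finset.subset_union_right

theorem Bin.child (h : Bin F D) (h1 : A₁ ∈ F) (h2 : A₂ ∈ F) (hd : Disjoint A₁ A₂)
    (hA : A₁ ∪ A₂ = A) (hB : B ∈ F) (hBA : B ⊆ A) : B = A ∨ B ⊆ A₁ ∨ B ⊆ A₂ := by
  have key : ∀ X Y : Finset ℕ, X ∪ Y = A → Disjoint B X → B ⊆ Y := by
    intro X Y hXY hdis x hx
    have h3 : x ∈ X ∪ Y := by
      rw [hXY]
      exact hBA hx
    rcases Finset.mem_union.1 h3 with h4 | h4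
    · exact absurd h4 (Finset.disjoint_left.1 hdis hx)
    · exact h4
  rcases h.lmn B hB A₁ h1 with h3 | h3 | h3
  · exact Or.inr (Or.inl h3)
  · rcases h.lmn B hB A₂ h2 with h4 | h4 | h4
    · exfalso
      obtain ⟨x, hx⟩ := h.ne A₁ h1
      exact Finset.disjoint_left.1 hd hx (h4 (h3 hx))
    · left
      refine Finset.Subset.antisymm hBA ?_
      rw [← hA]
      exact Finset.union_subset h3 h4
    · right
      left
      exact key A₂ A₁ (by rw [Finset.union_comm]; exact hA) h4
  · right
    right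
    exact key A₁ A₂ hA h3

private theorem BinM_aux : ∀ n : ℕ, ∀ (F : Finset (Finset ℕ)) (D : Finset ℕ), D.card ≤ n →
    Bin F D → F.card + 1 ≤ 2 * D.card := by
  intro n
  induction n with
  | zero =>
    intro F D hn h
    have := Finset.card_pos.2 (h.ne D h.top)
    omega
  | succ n ih =>
    intro F D hn h
    have hpos := Finset.card_pos.2 (h.ne D h.top)
    by_cases h2 : 2 ≤ D.card
    · obtain ⟨D₁, h1, D₂, h3, hd, hu⟩ := h.spl D h.top h2
      have hc : D₁.card + D₂.card = D.card := by
        rw [← hu, Finset.card_union_of_disjoint hd]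
      have hp1 := Finset.card_pos.2 (h.ne D₁ h1)
      have hp2 := Finset.card_pos.2 (h.ne D₂ h3)
      have e1 := ih _ D₁ (by omega) (h.restrict h1)
      have e2 := ih _ D₂ (by omega) (h.restrict h3)
      have hsub : F ⊆ {D} ∪ ((F.filter fun C => C ⊆ D₁) ∪ (F.filter fun C => C ⊆ D₂)) := by
        intro B hB
        rcases h.child h1 h3 hd hu hB (h.sub B hB) with h4 | h4 | h4
        · exact Finset.mem_union_left _ (Finset.mem_singleton.2 h4)
        · exact Finset.mem_union_right _ (Finset.mem_union_left _ (Finset.mem_filter.2 ⟨hB, h4⟩))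
        · exact Finset.mem_union_right _ (Finset.mem_union_right _ (Finset.mem_filter.2 ⟨hB, h4⟩))
      have c1 := Finset.card_le_card hsub
      have c2 := Finset.card_union_le ({D} : Finset (Finset ℕ))
        ((F.filter fun C => C ⊆ D₁) ∪ (F.filter fun C => C ⊆ D₂))
      have c3 := Finset.card_union_le (F.filter fun C => C ⊆ D₁) (F.filter fun C => C ⊆ D₂)
      rw [Finset.card_singleton] at c2
      omega
    · have h1 : D.card = 1 := by omega
      have hsub : F ⊆ {D} := by
        intro B hB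
        rw [Finset.mem_singleton]
        refine Finset.eq_of_subset_of_card_le (h.sub B hB) ?_
        have := Finset.card_pos.2 (h.ne B hB)
        omega
      have c1 := Finset.card_le_card hsub
      rw [Finset.card_singleton] at c1
      omega

theorem Bin.card_le (h : Bin F D) : F.card + 1 ≤ 2 * D.card :=
  BinM_aux D.card F D le_rfl h

end Pool.Agent.BW
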