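import Pool.Agent.BW.Sub

set_option autoImplicit false

/-!
# Module Cert: no augmenting path

`R` contains all the sources in `N`, no sink, and is closed under the edges of the exchange graph.

Submodularity and induction.
-/

namespace Pool.Agent.BW

open Finset
open Pool.Agent.G4 (IsRk lam dualR ctr)

private theorem ind_sub {r : Finset ℕ → ℤ} (h : IsRk r) {I J : Finset ℕ} (hI : r I = (I.card : ℤ))
    (hJ : J ⊆ I) : r J = (J.card : ℤ) := by
  have h1 := h.union_le J (I \ J)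
  rw [union_sdiff_of_subset hJ, hI] at h1
  have h2 := h.le_card J
  have h3 := card_sdiff_add_card_eq_card hJ
  omega

private theorem clos {r : Finset ℕ → ℤ} (h : IsRk r) (B S : Finset ℕ)
    (hS : ∀ x ∈ S, r (insert x B) = r B) : r (B ∪ S) = r B := by
  induction S using Finset.induction_on with
  | empty => rw [union_empty]
  | insert x S hx ih =>
    have ih' := ih fun y hy => hS y (mem_insert_of_mem hy)
    have h1 := h.sub (B ∪ S) (insert x B)
    have e1 : B ∪ S ∪ insert x B = B ∪ insert x S := by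
      ext y
      simp only [mem_union, mem_insert]
      tauto
    have h2 : r B ≤ r ((B ∪ S) ∩ insert x B) :=
      h.mono' (subset_inter subset_union_left (subset_insert x B))
    have h3 : r B ≤ r (B ∪ insert x S) := h.mono' subset_union_left
    have h4 := hS x (mem_insert_self x S)
    rw [e1] at h1
    omega

private theorem exch {r : Finset ℕ → ℤ} (h : IsRk r) {I : Finset ℕ} (hI : r I = (I.card : ℤ)) {x : ℕ}
    (hx : x ∉ I) (hf : ¬ FreeP r I x) (K : Finset ℕ) (hK : K ⊆ I)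
    (hy : ∀ y ∈ K, r (insert x (I.erase y)) ≠ (I.card : ℤ)) :
    r (insert x (I \ K)) = ((I \ K).card : ℤ) := by
  have h0 : r (insert x I) = (I.card : ℤ) := by
    have h1 := h.mono I x
    have h2 := h.unit I x
    have h3 : r (insert x I) ≠ (I.card : ℤ) + 1 := fun h4 => hf ⟨hx, h4⟩
    omega
  induction K using Finset.induction_on with
  | empty => rw [sdiff_empty]; exact h0
  | insert y Q hyQ ih =>
    have hyI : y ∈ I := hK (mem_insert_self y Q)
    have ih' := ih (fun z hz => hK (mem_insert_of_mem hz)) (fun z hz => hy z (mem_insert_of_mem hz))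
    have h1 := h.sub (insert x (I \ Q)) (insert x (I.erase y))
    have e1 : insert x (I \ Q) ∪ insert x (I.erase y) = insert x I := by
      ext z
      simp only [mem_union, mem_insert, mem_sdiff, mem_erase]
      constructor
      · rintro ((h2 | h2) | (h2 | h2))
        · exact Or.inl h2
        · exact Or.inr h2.1
        · exact Or.inl h2
        · exact Or.inr h2.2
      · rintro (h2 | h2)
        · exact Or.inl (Or.inl h2)
        · by_cases hz : z = y
          · exact Or.inl (Or.inr ⟨h2, by rw [hz]; exact hyQ⟩)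
          · exact Or.inr (Or.inr ⟨hz, h2⟩)
    have e2 : insert x (I \ Q) ∩ insert x (I.erase y) = insert x (I \ insert y Q) := by
      ext z
      simp only [mem_inter, mem_insert, mem_sdiff, mem_erase, not_or]
      constructor
      · rintro ⟨h2 | h2, h3 | h3⟩
        · exact Or.inl h2
        · exact Or.inl h2
        · exact Or.inl h3
        · exact Or.inr ⟨h2.1, h3.1, h2.2⟩
      · rintro (h2 | ⟨h2, h3, h4⟩)
        · exact ⟨Or.inl h2, Or.inl h2⟩
        · exact ⟨Or.inr ⟨h2, h4⟩, Or.inr ⟨h3, h2⟩⟩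
    rw [e1, e2, h0, ih'] at h1
    have h2 : r (insert x (I.erase y)) ≤ (I.card : ℤ) := by
      rw [← h0]
      exact h.mono' (insert_subset_insert x (erase_subset y I))
    have h3 := hy y (mem_insert_self y Q)
    have h4 : ((I \ Q).card : ℤ) = ((I \ insert y Q).card : ℤ) + 1 := by
      have e3 : I \ Q = insert y (I \ insert y Q) := by
        ext z
        simp only [mem_insert, mem_sdiff, not_or]
        constructor
        · rintro ⟨h5, h6⟩
          by_cases hz : z = y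
          · exact Or.inl hz
          · exact Or.inr ⟨h5, hz, h6⟩
        · rintro (h5 | ⟨h5, _, h6⟩)
          · rw [h5]
            exact ⟨hyI, hyQ⟩
          · exact ⟨h5, h6⟩
      rw [e3, card_insert_of_notMem fun hc => (mem_sdiff.1 hc).2 (mem_insert_self y Q)]
      push_cast
      ring
    have h5 := ind_sub h hI (J := I \ insert y Q) sdiff_subset
    have h6 := h.mono (I \ insert y Q) x
    omega

theorem cert₁ {r₁ r₂ : Finset ℕ → ℤ} (h₁ : IsRk r₁) (I N R : Finset ℕ) (hI : r₁ I = (I.card : ℤ))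
    (hIN : I ⊆ N) (hs : ∀ x ∈ N, FreeP r₁ I x → x ∈ R)
    (he : ∀ u ∈ R, ∀ v ∈ N, EdgeP r₁ r₂ I u v → v ∈ R) :
    r₁ (N \ R) = ((I \ R).card : ℤ) := by
  have hsub := ind_sub h₁ hI (J := I \ R) sdiff_subset
  have hcl := clos h₁ (I \ R) (N \ R) (by
    intro x hx
    rw [mem_sdiff] at hx
    by_cases hxI : x ∈ I
    · rw [insert_eq_self.2 (mem_sdiff.2 ⟨hxI, hx.2⟩)]
    · have h1 := exch h₁ hI hxI (fun hf => hx.2 (hs x hx.1 hf)) (I ∩ R) inter_subset_left (by
        intro y hy hc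
        rw [mem_inter] at hy
        exact hx.2 (he y hy.2 x hx.1 (Or.inl ⟨hy.1, hxI, hc⟩)))
      rw [sdiff_inter_self_left] at h1
      rw [h1, hsub])
  rw [union_eq_right.2 (sdiff_subset_sdiff hIN (Subset.refl R))] at hcl
  rw [hcl, hsub]

theorem cert₂ {r₁ r₂ : Finset ℕ → ℤ} (h₂ : IsRk r₂) (I N R : Finset ℕ) (hI : r₂ I = (I.card : ℤ))
    (hIN : I ⊆ N) (hR : R ⊆ N) (ht : ∀ x ∈ R, ¬ FreeP r₂ I x)
    (he : ∀ u ∈ R, ∀ v ∈ N, EdgeP r₁ r₂ I u v → v ∈ R) :
    r₂ R = ((I ∩ R).card : ℤ) := by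
  have hsub := ind_sub h₂ hI (J := I ∩ R) inter_subset_left
  have hcl := clos h₂ (I ∩ R) R (by
    intro x hx
    by_cases hxI : x ∈ I
    · rw [insert_eq_self.2 (mem_inter.2 ⟨hxI, hx⟩)]
    · have h1 := exch h₂ hI hxI (ht x hx) (I \ R) sdiff_subset (by
        intro y hy hc
        rw [mem_sdiff] at hy
        exact hy.2 (he x hx y (hIN hy.1) (Or.inr ⟨hxI, hy.1, hc⟩)))
      rw [sdiff_sdiff_right_self, inf_eq_inter] at h1
      rw [h1, hsub])
  rw [union_eq_right.2 inter_subset_right] at hcl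
  rw [hcl, hsub]

theorem isCut_of_cert {r : Finset ℕ → ℤ} (hr : IsRk r) (E A B I R : Finset ℕ) (hA : A ⊆ E)
    (hB : B ⊆ E) (hAB : Disjoint A B) (hIN : I ⊆ E \ (A ∪ B)) (hR : R ⊆ E \ (A ∪ B))
    (hI₁ : ctr r A I = (I.card : ℤ)) (hI₂ : ctr r B I = (I.card : ℤ))
    (hs : ∀ x ∈ E \ (A ∪ B), FreeP (ctr r A) I x → x ∈ R)
    (ht : ∀ x ∈ R, ¬ FreeP (ctr r B) I x)
    (he : ∀ u ∈ R, ∀ v ∈ E \ (A ∪ B), EdgeP (ctr r A) (ctr r B) I u v → v ∈ R) :
    IsCut r E A B I (E \ (B ∪ R)) := by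
  have c1 := cert₁ (r₁ := ctr r A) (r₂ := ctr r B) (hr.ctr A) I (E \ (A ∪ B)) R hI₁ hIN hs he
  have c2 := cert₂ (r₁ := ctr r A) (r₂ := ctr r B) (hr.ctr B) I (E \ (A ∪ B)) R hI₂ hIN hR ht he
  have hRE : R ⊆ E := hR.trans sdiff_subset
  have hRA : ∀ x ∈ R, x ∉ A := fun x hx hxA =>
    (mem_sdiff.1 (hR hx)).2 (mem_union_left B hxA)
  have hBA : ∀ x ∈ A, x ∉ B := fun x hx hxB => (disjoint_left.1 hAB) hx hxB
  have e1 : A ∪ ((E \ (A ∪ B)) \ R) = E \ (B ∪ R) := by
    ext x
    simp only [mem_union, mem_sdiff, not_or]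
    constructor
    · rintro (h1 | ⟨⟨h1, h2, h3⟩, h4⟩)
      · exact ⟨hA h1, hBA x h1, fun h2 => hRA x h2 h1⟩
      · exact ⟨h1, h3, h4⟩
    · rintro ⟨h1, h2, h3⟩
      by_cases hx : x ∈ A
      · exact Or.inl hx
      · exact Or.inr ⟨⟨h1, hx, h2⟩, h3⟩
  have e2 : E \ (E \ (B ∪ R)) = B ∪ R := Finset.sdiff_sdiff_eq_self (union_subset hB hRE)
  refine ⟨hIN, ?_, sdiff_subset, ?_, ?_, ?_, ?_⟩
  · intro x hx
    rw [mem_sdiff, mem_union, not_or]
    exact ⟨hA hx, hBA x hx, fun h => hRA x h hx⟩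
  · rw [disjoint_left]
    intro x hx hxB
    exact (mem_sdiff.1 hx).2 (mem_union_left R hxB)
  · unfold ctr at hI₁
    omega
  · unfold ctr at hI₂
    omega
  · unfold ctr at c1 c2
    rw [e1] at c1
    unfold lam
    rw [e2]
    have h1 := card_sdiff_add_card_inter I R
    omega

end Pool.Agent.BW
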