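import Pool.Agent.BW.FamD

set_option autoImplicit false

/-!
# Module ClsL: the classes at a node

`Eqv r E D F F'`: the subsets `F`, `F'` of `D` are equivalent.

(1) `eqv_of_sig`: `G` complete for `E \ D`. If `r (F ∪ H) - r F = r (F' ∪ H) - r F'` for all `H ∈ G`
then for all `H ⊆ E \ D`: there is `H' ∈ G` with `r (H' ∪ S) - r H' = r (H ∪ S) - r H` for all
`S ⊆ E \ (E \ D) = D`; with `S = F`: `r (F ∪ H) = r (F ∪ H') - r H' + r H`, the same for `F'`.
(2) `reps ρ G L` (lists, fold): the elements are elements of `L`, every element of `L` has the same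
signature as one of them, and they have pairwise different signatures. `sig ρ G F` is the list of
`ρ (F ++ H) - ρ F` (natural subtraction, `r` is monotone), `H ∈ G`; so equal signatures iff
`Eqv` (by (1)).
(3) `clsN_lt`, `clsN_rep`, `clsN_iff`: at a node `t` with `lam t ≤ 3 k + 1`: `G = rgt = famD (dif E t)`
is complete for `E \ t` (`lam (E \ t) = lam t`), `L = famD t` is complete for `t` (`Cov` with
`D = t` says that every `F ⊆ t` is equivalent to an element of `L`). The representatives are pairwise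
inequivalent, so there are at most `nSub K (3 k + 1)` of them (`card_le_of_inequiv`; they are
different sublists of `E`), and the `take` does nothing. `clsI` is the index of the first (only)
representative with the same signature.
-/

namespace Pool.Agent.BW

open Finset
open Pool.Agent.G4 (IsRk lam dualR nor dif word prd)

/-- `F` and `F'` are equivalent subsets of `D` -/
def Eqv (r : Finset ℕ → ℤ) (E D F F' : Finset ℕ) : Prop :=
  ∀ H ⊆ E \ D, r (F ∪ H) - r F = r (F' ∪ H) - r F'

theorem eqv_of_sig {r : Finset ℕ → ℤ} {E D F F' : Finset ℕ} {G : Set (Finset ℕ)} (hD : D ⊆ E)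
    (hG : Cov r E (E \ D) G) (hF : F ⊆ D) (hF' : F' ⊆ D)
    (h : ∀ H ∈ G, r (F ∪ H) - r F = r (F' ∪ H) - r F') : Eqv r E D F F' := by
  intro H hH
  obtain ⟨H', hH', hS⟩ := hG.2 H hH
  have e1 : E \ (E \ D) = D := Finset.sdiff_sdiff_eq_self hD
  have h1 := hS F (by rw [e1]; exact hF)
  have h2 := hS F' (by rw [e1]; exact hF')
  have h3 := h H' hH'
  rw [Finset.union_comm H' F, Finset.union_comm H F] at h1
  rw [Finset.union_comm H' F', Finset.union_comm H F'] at h2
  omega

/-! ### representatives -/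

section reps

private theorem reps_aux (σ : List ℕ → List ℕ) (L : List (List ℕ)) : ∀ R : List (List ℕ),
    (∀ F ∈ L.foldl (fun R F => if R.any fun F' => decide (σ F' = σ F) then R else R ++ [F]) R,
      F ∈ R ∨ F ∈ L) ∧
    (∀ F ∈ R, F ∈ L.foldl (fun R F => if R.any fun F' => decide (σ F' = σ F) then R else
      R ++ [F]) R) ∧
    (∀ F ∈ L, ∃ F' ∈ L.foldl (fun R F => if R.any fun F' => decide (σ F' = σ F) then R else
      R ++ [F]) R, σ F' = σ F) ∧
    (R.Pairwise (fun F F' => σ F ≠ σ F') →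
      (L.foldl (fun R F => if R.any fun F' => decide (σ F' = σ F) then R else
        R ++ [F]) R).Pairwise (fun F F' => σ F ≠ σ F')) := by
  induction L with
  | nil =>
    intro R
    refine ⟨fun F hF => Or.inl hF, fun F hF => hF, ?_, fun h => h⟩
    intro F hF
    exact absurd hF List.not_mem_nil
  | cons X L ih =>
    intro R
    rw [List.foldl_cons]
    by_cases hX : (R.any fun F' => decide (σ F' = σ X)) = true
    · rw [if_pos hX]
      obtain ⟨h1, h2, h3, h4⟩ := ih R
      refine ⟨?_, h2, ?_, h4⟩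
      · intro F hF
        rcases h1 F hF with h | h
        · exact Or.inl h
        · exact Or.inr (List.mem_cons_of_mem _ h)
      · intro F hF
        rcases List.mem_cons.1 hF with h | h
        · subst h
          obtain ⟨F', hF', he⟩ := List.any_eq_true.1 hX
          exact ⟨F', h2 F' hF', of_decide_eq_true he⟩
        · exact h3 F h
    · rw [if_neg hX]
      obtain ⟨h1, h2, h3, h4⟩ := ih (R ++ [X])
      refine ⟨?_, ?_, ?_, ?_⟩
      · intro F hF
        rcases h1 F hF with h | h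
        · rcases List.mem_append.1 h with h | h
          · exact Or.inl h
          · rw [List.mem_singleton] at h
            subst h
            exact Or.inr List.mem_cons_self
        · exact Or.inr (List.mem_cons_of_mem _ h)
      · intro F hF
        exact h2 F (List.mem_append_left _ hF)
      · intro F hF
        rcases List.mem_cons.1 hF with h | h
        · subst h
          exact ⟨F, h2 F (List.mem_append_right _ (List.mem_singleton.2 rfl)), rfl⟩
        · exact h3 F h
      · intro hR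
        apply h4
        rw [List.pairwise_append]
        refine ⟨hR, List.pairwise_singleton _ _, ?_⟩
        intro F hF F' hF' he
        rw [List.mem_singleton] at hF'
        subst hF'
        apply hX
        rw [List.any_eq_true]
        exact ⟨F, hF, decide_eq_true he⟩

private theorem reps_mem {ρ : List ℕ → ℕ} {G L : List (List ℕ)} {F : List ℕ}
    (h : F ∈ reps ρ G L) : F ∈ L := by
  rcases (reps_aux (sig ρ G) L []).1 F h with h | h
  · exact absurd h List.not_mem_nil
  · exact h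

private theorem reps_cov {ρ : List ℕ → ℕ} {G L : List (List ℕ)} {F : List ℕ}
    (h : F ∈ L) : ∃ F' ∈ reps ρ G L, sig ρ G F' = sig ρ G F :=
  (reps_aux (sig ρ G) L []).2.2.1 F h

private theorem reps_pw {ρ : List ℕ → ℕ} {G L : List (List ℕ)} :
    (reps ρ G L).Pairwise (fun F F' => sig ρ G F ≠ sig ρ G F') :=
  (reps_aux (sig ρ G) L []).2.2.2 List.Pairwise.nil

private theorem pw_inj {σ : List ℕ → List ℕ} : ∀ {R : List (List ℕ)},
    R.Pairwise (fun F F' => σ F ≠ σ F') → ∀ F ∈ R, ∀ F' ∈ R, σ F = σ F' → F = F' := by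
  intro R
  induction R with
  | nil => intro _ F hF; exact absurd hF List.not_mem_nil
  | cons X R ih =>
    intro h F hF F' hF' he
    rw [List.pairwise_cons] at h
    rcases List.mem_cons.1 hF with h1 | h1
    · rcases List.mem_cons.1 hF' with h2 | h2
      · rw [h1, h2]
      · subst h1
        exact absurd he (h.1 F' h2)
    · rcases List.mem_cons.1 hF' with h2 | h2
      · subst h2
        exact absurd he.symm (h.1 F h1)
      · exact ih h.2 F h1 F' h2 he

private theorem zip_spec {R : List (List ℕ)} {p : List ℕ × ℕ}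
    (hp : p ∈ R.zip (List.range R.length)) : p.2 < R.length ∧ R.getD p.2 [] = p.1 := by
  obtain ⟨i, hi, he⟩ := List.mem_iff_getElem.1 hp
  rw [List.length_zip, List.length_range, min_self] at hi
  rw [List.getElem_zip, List.getElem_range] at he
  rw [← he]
  exact ⟨hi, List.getD_eq_getElem _ _ hi⟩

end reps

variable {K V : Type} [Field K] [Finite K] [AddCommGroup V] [Module K V] {v : ℕ → V}
variable {E t F F' : List ℕ} {ρ : List ℕ → ℕ} {k : ℕ}

/-- the number of classes -/
noncomputable def ncl (K : Type) [Field K] (k : ℕ) : ℕ := nSub K (3 * k + 1)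

omit [Finite K] in
private theorem cast_sig (hρ : RkS ρ E (rkV K v)) (hF : F ⊆ E) {H : List ℕ} (hH : H ⊆ E) :
    ((ρ (F ++ H) - ρ F : ℕ) : ℤ) =
      rkV K v (F.toFinset ∪ H.toFinset) - rkV K v F.toFinset := by
  have h1 := hρ (F ++ H) (fun x hx => (List.mem_append.1 hx).elim (fun h => hF h) fun h => hH h)
  have h2 := hρ F (fun x hx => hF hx)
  rw [List.toFinset_append] at h1
  have h3 := (isRk_rkV (K := K) v).mono' (Finset.subset_union_left (s₁ := F.toFinset)
    (s₂ := H.toFinset))
  rw [← h1, ← h2] at h3 ⊢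
  have h4 : ρ F ≤ ρ (F ++ H) := by exact_mod_cast h3
  rw [Nat.cast_sub h4]

omit [Finite K] in
private theorem lam_dif (ht : t.Sublist E) (hl : lam (rkV K v) E.toFinset t.toFinset ≤ 3 * k + 1) :
    lam (rkV K v) E.toFinset (dif E t).toFinset ≤ 3 * k + 1 := by
  rw [toF_dif, Pool.Agent.G4.lam_compl]
  · exact hl
  · intro x hx
    rw [List.mem_toFinset] at hx ⊢
    exact ht.subset hx

private theorem rgt_sub (hE : E.Nodup) (hρ : RkS ρ E (rkV K v)) (hk : 1 ≤ k)
    (hd : Dec (rkV K v) E.toFinset k E.toFinset) (ht : t.Sublist E)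
    (hl : lam (rkV K v) E.toFinset t.toFinset ≤ 3 * k + 1) {H : List ℕ}
    (hH : H ∈ rgt ρ E k (rnd K k) t) : H ⊆ E ∧ H.toFinset ⊆ E.toFinset \ t.toFinset := by
  have h1 := famD_sub hE hρ hk hd dif_sub (lam_dif ht hl) H hH
  rw [toF_dif] at h1
  exact ⟨h1.1.subset, h1.2⟩

private theorem sig_iff (hE : E.Nodup) (hρ : RkS ρ E (rkV K v)) (hk : 1 ≤ k)
    (hd : Dec (rkV K v) E.toFinset k E.toFinset) (ht : t.Sublist E)
    (hl : lam (rkV K v) E.toFinset t.toFinset ≤ 3 * k + 1) (hF : F ⊆ t) (hF' : F' ⊆ t) :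
    sig ρ (rgt ρ E k (rnd K k) t) F = sig ρ (rgt ρ E k (rnd K k) t) F' ↔
      Eqv (rkV K v) E.toFinset t.toFinset F.toFinset F'.toFinset := by
  have hFE : F ⊆ E := fun x hx => ht.subset (hF hx)
  have hFE' : F' ⊆ E := fun x hx => ht.subset (hF' hx)
  unfold sig
  rw [List.map_inj_left]
  constructor
  · intro h
    have hc := famD_cov hE hρ hk hd dif_sub (lam_dif ht hl)
    rw [toF_dif] at hc
    refine eqv_of_sig (G := {G | ∃ L ∈ famD ρ E k (rnd K k) (dif E t), L.toFinset = G}) ?_ hc ?_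
      ?_ ?_
    · intro x hx
      rw [List.mem_toFinset] at hx ⊢
      exact ht.subset hx
    · intro x hx
      rw [List.mem_toFinset] at hx ⊢
      exact hF hx
    · intro x hx
      rw [List.mem_toFinset] at hx ⊢
      exact hF' hx
    · rintro _ ⟨H, hH, rfl⟩
      have h1 := h H hH
      have h2 := rgt_sub hE hρ hk hd ht hl hH
      rw [← cast_sig hρ hFE h2.1, ← cast_sig hρ hFE' h2.1, h1]
  · intro h H hH
    have h2 := rgt_sub hE hρ hk hd ht hl hH
    have h3 := h H.toFinset h2.2
    rw [← cast_sig hρ hFE h2.1, ← cast_sig hρ hFE' h2.1] at h3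
    exact_mod_cast h3

private theorem fam_sub (hE : E.Nodup) (hρ : RkS ρ E (rkV K v)) (hk : 1 ≤ k)
    (hd : Dec (rkV K v) E.toFinset k E.toFinset) (ht : t.Sublist E)
    (hl : lam (rkV K v) E.toFinset t.toFinset ≤ 3 * k + 1)
    (hF : F ∈ reps ρ (rgt ρ E k (rnd K k) t) (famD ρ E k (rnd K k) t)) :
    F.Sublist E ∧ F.toFinset ⊆ t.toFinset :=
  famD_sub hE hρ hk hd ht hl F (reps_mem hF)

private theorem sub_list {A B : List ℕ} (h : A.toFinset ⊆ B.toFinset) : A ⊆ B := by
  intro x hx
  exact List.mem_toFinset.1 (h (List.mem_toFinset.2 hx))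

private theorem reps_len (hE : E.Nodup) (hρ : RkS ρ E (rkV K v)) (hk : 1 ≤ k)
    (hd : Dec (rkV K v) E.toFinset k E.toFinset) (ht : t.Sublist E)
    (hl : lam (rkV K v) E.toFinset t.toFinset ≤ 3 * k + 1) :
    (reps ρ (rgt ρ E k (rnd K k) t) (famD ρ E k (rnd K k) t)).length ≤ ncl K k := by
  obtain ⟨R, hR⟩ : ∃ R, R = reps ρ (rgt ρ E k (rnd K k) t) (famD ρ E k (rnd K k) t) := ⟨_, rfl⟩
  have hsub : ∀ F ∈ R, F.Sublist E ∧ F.toFinset ⊆ t.toFinset := fun F hF =>
    fam_sub hE hρ hk hd ht hl (by rw [← hR]; exact hF)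
  have hpw : R.Pairwise (fun F F' => sig ρ (rgt ρ E k (rnd K k) t) F ≠
      sig ρ (rgt ρ E k (rnd K k) t) F') := by
    rw [hR]
    exact reps_pw
  have hnd : R.Nodup := hpw.imp fun h he => h (by rw [he])
  have hcard : (R.toFinset.image List.toFinset).card = R.length := by
    rw [Finset.card_image_of_injOn, List.toFinset_card_of_nodup hnd]
    intro F hF F' hF' he
    rw [Finset.mem_coe, List.mem_toFinset] at hF hF'
    exact can_ext hE (hsub F hF).1 (hsub F' hF').1 he
  rw [← hR, ← hcard]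
  have htE : t.toFinset ⊆ E.toFinset := by
    intro x hx
    rw [List.mem_toFinset] at hx ⊢
    exact ht.subset hx
  refine card_le_of_inequiv v htE (m := 3 * k + 1) (by push_cast; exact hl) _ ?_ ?_
  · intro F hF
    rw [Finset.mem_image] at hF
    obtain ⟨L, hL, rfl⟩ := hF
    rw [List.mem_toFinset] at hL
    exact (hsub L hL).2
  · intro F hF G hG h
    rw [Finset.mem_image] at hF hG
    obtain ⟨L, hL, rfl⟩ := hF
    obtain ⟨L', hL', rfl⟩ := hG
    rw [List.mem_toFinset] at hL hL'
    have h1 := (sig_iff hE hρ hk hd ht hl (sub_list (hsub L hL).2) (sub_list (hsub L' hL').2)).2 h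
    rw [pw_inj hpw L hL L' hL' h1]

private theorem repN_eq (hE : E.Nodup) (hρ : RkS ρ E (rkV K v)) (hk : 1 ≤ k)
    (hd : Dec (rkV K v) E.toFinset k E.toFinset) (ht : t.Sublist E)
    (hl : lam (rkV K v) E.toFinset t.toFinset ≤ 3 * k + 1) :
    repN ρ E k (rnd K k) (ncl K k) t =
      reps ρ (rgt ρ E k (rnd K k) t) (famD ρ E k (rnd K k) t) :=
  List.take_of_length_le (reps_len hE hρ hk hd ht hl)

theorem repN_sub (hE : E.Nodup) (hρ : RkS ρ E (rkV K v)) (hk : 1 ≤ k)
    (hd : Dec (rkV K v) E.toFinset k E.toFinset) (ht : t.Sublist E)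
    (hl : lam (rkV K v) E.toFinset t.toFinset ≤ 3 * k + 1)
    (hF : F ∈ repN ρ E k (rnd K k) (ncl K k) t) : F.Sublist E ∧ F.toFinset ⊆ t.toFinset :=
  fam_sub hE hρ hk hd ht hl (List.mem_of_mem_take hF)

theorem repN_length : (repN ρ E k (rnd K k) (ncl K k) t).length ≤ ncl K k :=
  List.length_take_le _ _

/-- the class of `F` is the index of a representative equivalent to `F` -/
theorem clsN_rep (hE : E.Nodup) (hρ : RkS ρ E (rkV K v)) (hk : 1 ≤ k)
    (hd : Dec (rkV K v) E.toFinset k E.toFinset) (ht : t.Sublist E)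
    (hl : lam (rkV K v) E.toFinset t.toFinset ≤ 3 * k + 1) (hF : F ⊆ t) :
    clsN ρ E k (rnd K k) (ncl K k) t F < (repN ρ E k (rnd K k) (ncl K k) t).length ∧
    Eqv (rkV K v) E.toFinset t.toFinset F.toFinset
      ((repN ρ E k (rnd K k) (ncl K k) t).getD
        (clsN ρ E k (rnd K k) (ncl K k) t F) []).toFinset := by
  have hcl : clsN ρ E k (rnd K k) (ncl K k) t F =
      clsI ρ (rgt ρ E k (rnd K k) t) (repN ρ E k (rnd K k) (ncl K k) t) F := rfl
  rw [hcl, repN_eq hE hρ hk hd ht hl]
  obtain ⟨R, hR⟩ : ∃ R, R = reps ρ (rgt ρ E k (rnd K k) t) (famD ρ E k (rnd K k) t) := ⟨_, rfl⟩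
  have hsub : ∀ F ∈ R, F.Sublist E ∧ F.toFinset ⊆ t.toFinset := fun F hF =>
    fam_sub hE hρ hk hd ht hl (by rw [← hR]; exact hF)
  have hFt : F.toFinset ⊆ t.toFinset := by
    intro x hx
    rw [List.mem_toFinset] at hx ⊢
    exact hF hx
  -- a representative with the same signature
  obtain ⟨_, ⟨L, hL, rfl⟩, hLe⟩ := (famD_cov hE hρ hk hd ht hl).2 F.toFinset hFt
  have hLs := famD_sub hE hρ hk hd ht hl L hL
  have hsL : sig ρ (rgt ρ E k (rnd K k) t) L = sig ρ (rgt ρ E k (rnd K k) t) F :=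
    (sig_iff hE hρ hk hd ht hl (sub_list hLs.2) hF).2 hLe
  obtain ⟨F', hF', hsF⟩ := reps_cov (ρ := ρ) (G := rgt ρ E k (rnd K k) t) hL
  rw [← hR] at hF'
  rw [← hR]
  unfold clsI
  obtain ⟨i, hi, hiF⟩ := List.mem_iff_getElem.1 hF'
  have hmem : (F', i) ∈ (R.zip (List.range R.length)).filter
      fun p => decide (sig ρ (rgt ρ E k (rnd K k) t) p.1 = sig ρ (rgt ρ E k (rnd K k) t) F) := by
    rw [List.mem_filter]
    refine ⟨?_, decide_eq_true (hsF.trans hsL)⟩
    rw [List.mem_iff_getElem]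
    refine ⟨i, by rw [List.length_zip, List.length_range, min_self]; exact hi, ?_⟩
    rw [List.getElem_zip, List.getElem_range, hiF]
  obtain ⟨Q, hQ⟩ : ∃ Q, Q = (R.zip (List.range R.length)).filter
      fun p => decide (sig ρ (rgt ρ E k (rnd K k) t) p.1 = sig ρ (rgt ρ E k (rnd K k) t) F) :=
    ⟨_, rfl⟩
  rw [← hQ] at hmem ⊢
  obtain ⟨p, hp, hpe⟩ : ∃ p ∈ Q, Q.headD ([], 0) = p := by
    cases Q with
    | nil => exact absurd hmem List.not_mem_nil
    | cons a Q => exact ⟨a, List.mem_cons_self, rfl⟩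
  rw [hpe]
  rw [hQ, List.mem_filter] at hp
  obtain ⟨hp1, hp2⟩ := hp
  obtain ⟨h1, h2⟩ := zip_spec hp1
  refine ⟨h1, ?_⟩
  rw [h2]
  have hpR : p.1 ∈ R := by
    rw [← h2, List.getD_eq_getElem _ _ h1]
    exact List.getElem_mem h1
  exact (sig_iff hE hρ hk hd ht hl hF (sub_list (hsub p.1 hpR).2)).1
    (of_decide_eq_true hp2).symm

/-- equivalent sets have the same class -/
theorem clsN_congr (hE : E.Nodup) (hρ : RkS ρ E (rkV K v)) (hk : 1 ≤ k)
    (hd : Dec (rkV K v) E.toFinset k E.toFinset) (ht : t.Sublist E)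
    (hl : lam (rkV K v) E.toFinset t.toFinset ≤ 3 * k + 1) (hF : F ⊆ t) (hF' : F' ⊆ t)
    (h : Eqv (rkV K v) E.toFinset t.toFinset F.toFinset F'.toFinset) :
    clsN ρ E k (rnd K k) (ncl K k) t F = clsN ρ E k (rnd K k) (ncl K k) t F' := by
  have h1 := (sig_iff hE hρ hk hd ht hl hF hF').2 h
  unfold clsN clsI
  rw [h1]

end Pool.Agent.BW
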