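import Pool.Agent.BW.Can
import Pool.Agent.BW.Aug
import Pool.Agent.BW.Cert
import Pool.Agent.BW.Bfs

set_option autoImplicit false

/-!
# Module CutL: the matroid intersection algorithm is correct

`N = dif E (A ++ B)`. For a list `I ⊆ N` (sublist of `N`) with `ρ (A ++ I) = ρ A + |I|`,
`ρ (B ++ I) = ρ B + |I|` the Boolean functions `freeB ρ A I`, `edgeB ρ A B I` are `FreeP (ctr r A)`,
`EdgeP (ctr r A) (ctr r B)` of `I.toFinset` on elements of `N` (`ctr r A X = r (A ∪ X) - r A`;
`RkS` applies because all the lists are contained in `E`; `x :: (A ++ I)` has the finset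
`insert x (A ∪ I)`, and `A ++ rmv I u` has `A ∪ I.erase u`). For instance `ρ (A ++ I) < ρ (x :: ..)`
iff the rank increases by one (unit increase).

Loop invariant for `augStep`: `I` is a sublist of `N` and independent in both. If
`pathTo (freeB ρ B I) (reachL ..) ≠ []`, `bfs_path` gives a path without shortcuts; `aug` (for the
rank functions `ctr r A`, `ctr r B`) shows that the new set is independent in both and has one more
element (`augStep` computes the symmetric difference of `I` and the path, inside `N`; the vertices of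
the path are in `N`). If it is `[]` then `augStep` returns `I` (as a filter of `N`; `I` is a sublist of
`N`). After `N.length` steps there is no path: otherwise the number of elements has increased in
every step, so `|I| = |N|`, `I = N`, and there is no source outside `I`.
At the end: `R = heads (reachL ..)` satisfies the hypotheses of `isCut_of_cert` (`bfs_src`,
`bfs_closed`, `bfs_nil`, `heads_sub`), and `cutZ = dif E (B ++ R)`.
-/

namespace Pool.Agent.BW

open Finset
open Pool.Agent.G4 (IsRk lam dualR nor dif word prd ctr)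

variable {E A B : List ℕ} {r : Finset ℕ → ℤ} {ρ : List ℕ → ℕ}

private theorem iter_sub (k : ℕ) :
    ((augStep ρ A B (dif E (A ++ B)))^[k] []).Sublist (dif E (A ++ B)) := by
  cases k with
  | zero => exact List.nil_sublist _
  | succ k =>
    rw [Function.iterate_succ_apply']
    exact List.filter_sublist

theorem linkI_sub : (linkI ρ E A B).Sublist E := (iter_sub _).trans dif_sub

theorem cutZ_sub : (cutZ ρ E A B).Sublist E := dif_sub

private theorem rho_app (hρ : RkS ρ E r) {S T : List ℕ} (hS : S ⊆ E) (hT : T ⊆ E) :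
    (ρ (S ++ T) : ℤ) = r (S.toFinset ∪ T.toFinset) := by
  rw [hρ (S ++ T) (fun t ht => (List.mem_append.1 ht).elim (fun h => hS h) (fun h => hT h)),
    List.toFinset_append]

private theorem rho_cons (hρ : RkS ρ E r) {S T : List ℕ} {x : ℕ} (hS : S ⊆ E) (hT : T ⊆ E)
    (hx : x ∈ E) : (ρ (x :: (S ++ T)) : ℤ) = r (S.toFinset ∪ insert x T.toFinset) := by
  rw [hρ (x :: (S ++ T)) (fun t ht => by
    rcases List.mem_cons.1 ht with h | h
    · rw [h]; exact hx
    · exact (List.mem_append.1 h).elim (fun h => hS h) (fun h => hT h)),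
    List.toFinset_cons, List.toFinset_append, union_insert]

private theorem free_iff (hr : IsRk r) (hρ : RkS ρ E r) {S J : List ℕ} (hS : S ⊆ E) (hJ : J ⊆ E)
    (hc : ctr r S.toFinset J.toFinset = (J.toFinset.card : ℤ)) {x : ℕ} (hx : x ∈ E) :
    freeB ρ S J x = true ↔ FreeP (ctr r S.toFinset) J.toFinset x := by
  unfold freeB FreeP
  rw [Bool.and_eq_true, Bool.not_eq_true', decide_eq_false_iff_not, decide_eq_true_iff,
    List.mem_toFinset]
  refine and_congr_right fun _ => ?_
  have h1 := rho_app hρ hS hJ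
  have h2 := rho_cons hρ hS hJ hx
  have h3 := hr.unit (S.toFinset ∪ J.toFinset) x
  rw [← union_insert] at h3
  unfold ctr at hc ⊢
  constructor
  · intro h
    have h4 : (ρ (S ++ J) : ℤ) < ρ (x :: (S ++ J)) := by exact_mod_cast h
    rw [h1, h2] at h4
    omega
  · intro h
    have h4 : (ρ (S ++ J) : ℤ) < ρ (x :: (S ++ J)) := by
      rw [h1, h2]
      omega
    exact_mod_cast h4

private theorem swap_iff (hρ : RkS ρ E r) {S J : List ℕ} (hS : S ⊆ E) (hJ : J ⊆ E)
    (hc : ctr r S.toFinset J.toFinset = (J.toFinset.card : ℤ)) {x y : ℕ} (hx : x ∈ E) :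
    ρ (x :: (S ++ rmv J y)) = ρ (S ++ J) ↔
      ctr r S.toFinset (insert x (J.toFinset.erase y)) = (J.toFinset.card : ℤ) := by
  have h1 := rho_app hρ hS hJ
  have hJ' : rmv J y ⊆ E := fun z hz => hJ (mem_rmv.1 hz).1
  have h2 := rho_cons hρ hS hJ' hx
  rw [toF_rmv] at h2
  unfold ctr at hc ⊢
  constructor
  · intro h
    have h4 : (ρ (x :: (S ++ rmv J y)) : ℤ) = ρ (S ++ J) := by exact_mod_cast h
    rw [h1, h2] at h4
    omega
  · intro h
    have h4 : (ρ (x :: (S ++ rmv J y)) : ℤ) = ρ (S ++ J) := by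
      rw [h1, h2]
      omega
    exact_mod_cast h4

private theorem edge_iff (hρ : RkS ρ E r) {J : List ℕ} (hA : A ⊆ E) (hB : B ⊆ E) (hJ : J ⊆ E)
    (hc : ctr r A.toFinset J.toFinset = (J.toFinset.card : ℤ))
    (hc' : ctr r B.toFinset J.toFinset = (J.toFinset.card : ℤ)) {x y : ℕ} (hx : x ∈ E)
    (hy : y ∈ E) :
    edgeB ρ A B J x y = true ↔ EdgeP (ctr r A.toFinset) (ctr r B.toFinset) J.toFinset x y := by
  unfold edgeB EdgeP
  rw [← swap_iff hρ hA hJ hc hy, ← swap_iff hρ hB hJ hc' hx, List.mem_toFinset, List.mem_toFinset]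
  by_cases h : x ∈ J
  · rw [if_pos h, Bool.and_eq_true, Bool.not_eq_true', decide_eq_false_iff_not, decide_eq_true_iff]
    tauto
  · rw [if_neg h, Bool.and_eq_true, decide_eq_true_iff, decide_eq_true_iff]
    tauto

/-- the loop invariant -/
private structure Inv (r : Finset ℕ → ℤ) (A B N I : List ℕ) : Prop where
  sub : I.Sublist N
  iA : ctr r A.toFinset I.toFinset = (I.toFinset.card : ℤ)
  iB : ctr r B.toFinset I.toFinset = (I.toFinset.card : ℤ)

private theorem N_sub : dif E (A ++ B) ⊆ E := fun _ hx => (mem_dif.1 hx).1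

private theorem step_nil {N : List ℕ} (hE : N.Nodup) {J : List ℕ} (hJ : J.Sublist N)
    (h : pathTo (freeB ρ B J) (reachL ρ A B N J) = []) : augStep ρ A B N J = J := by
  refine can_ext hE List.filter_sublist hJ ?_
  ext x
  unfold augStep
  rw [h, List.mem_toFinset, List.mem_toFinset, List.mem_filter]
  simp only [List.not_mem_nil, decide_false, Bool.xor_false, decide_eq_true_eq]
  exact ⟨fun h => h.2, fun h => ⟨hJ.subset h, h⟩⟩

private theorem step_aug (hr : IsRk r) (hE : E.Nodup) (hρ : RkS ρ E r) (hA : A ⊆ E) (hB : B ⊆ E)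
    {J : List ℕ} (hJ : Inv r A B (dif E (A ++ B)) J)
    (h : pathTo (freeB ρ B J) (reachL ρ A B (dif E (A ++ B)) J) ≠ []) :
    Inv r A B (dif E (A ++ B)) (augStep ρ A B (dif E (A ++ B)) J) ∧
      (augStep ρ A B (dif E (A ++ B)) J).toFinset.card = J.toFinset.card + 1 := by
  have hN : (dif E (A ++ B)).Nodup := hE.sublist dif_sub
  have hNE : dif E (A ++ B) ⊆ E := N_sub
  have hJE : J ⊆ E := fun x hx => hNE (hJ.sub.subset hx)
  obtain ⟨m, v, hL, hvN, hP⟩ := bfs_path hN h
  have hvE : ∀ i ≤ m, v i ∈ E := fun i hi => hNE (hvN i hi)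
  have hL' : Lay (FreeP (ctr r A.toFinset) J.toFinset) (FreeP (ctr r B.toFinset) J.toFinset)
      (EdgeP (ctr r A.toFinset) (ctr r B.toFinset) J.toFinset) m v :=
    { s0 := (free_iff hr hρ hA hJE hJ.iA (hvE 0 (Nat.zero_le _))).1 hL.s0
      s1 := fun i hi him hc => hL.s1 i hi him ((free_iff hr hρ hA hJE hJ.iA (hvE i him)).2 hc)
      t0 := (free_iff hr hρ hB hJE hJ.iB (hvE m le_rfl)).1 hL.t0
      t1 := fun i hi hc => hL.t1 i hi ((free_iff hr hρ hB hJE hJ.iB (hvE i hi.le)).2 hc)
      ed := fun i hi => (edge_iff hρ hA hB hJE hJ.iA hJ.iB (hvE i hi.le) (hvE (i + 1) hi)).1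
        (hL.ed i hi)
      ne := fun i j hij hj hc => hL.ne i j hij hj
        ((edge_iff hρ hA hB hJE hJ.iA hJ.iB (hvE i (by omega)) (hvE j hj)).2 hc)
      inj := hL.inj }
  obtain ⟨P, hPd⟩ : ∃ P : Finset ℕ, P = (range (m + 1)).image v := ⟨_, rfl⟩
  obtain ⟨a1, a2, a3⟩ := aug (hr.ctr A.toFinset) (hr.ctr B.toFinset) J.toFinset hJ.iA hJ.iB m v hL'
    P hPd
  have hmem : ∀ x, x ∈ P ↔ x ∈ pathTo (freeB ρ B J) (reachL ρ A B (dif E (A ++ B)) J) := by
    intro x
    rw [hPd, mem_image]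
    unfold reachL
    rw [hP x]
    constructor
    · rintro ⟨i, hi, h⟩
      exact ⟨i, by rw [mem_range] at hi; omega, h⟩
    · rintro ⟨i, hi, h⟩
      exact ⟨i, by rw [mem_range]; omega, h⟩
  have hPN : ∀ x ∈ P, x ∈ dif E (A ++ B) := by
    intro x hx
    rw [hPd, mem_image] at hx
    obtain ⟨i, hi, rfl⟩ := hx
    rw [mem_range] at hi
    exact hvN i (by omega)
  have hto : (augStep ρ A B (dif E (A ++ B)) J).toFinset = (J.toFinset \ P) ∪ (P \ J.toFinset) := by
    ext x
    unfold augStep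
    rw [List.mem_toFinset, List.mem_filter, mem_union, mem_sdiff, mem_sdiff, List.mem_toFinset,
      hmem x, bne_iff_ne, ne_eq]
    constructor
    · rintro ⟨_, h2⟩
      by_cases h3 : x ∈ J <;>
        by_cases h4 : x ∈ pathTo (freeB ρ B J) (reachL ρ A B (dif E (A ++ B)) J) <;>
        simp_all
    · intro h2
      rcases h2 with ⟨h3, h4⟩ | ⟨h3, h4⟩
      · exact ⟨hJ.sub.subset h3, by simp [h3, h4]⟩
      · exact ⟨hPN x ((hmem x).2 h3), by simp [h3, h4]⟩
  refine ⟨⟨List.filter_sublist, ?_, ?_⟩, ?_⟩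
  · rw [hto, a2, a1]
    push_cast
    ring
  · rw [hto, a3, a1]
    push_cast
    ring
  · rw [hto, a1]

private theorem inv_nil : Inv r A B (dif E (A ++ B)) [] :=
  ⟨List.nil_sublist _, by unfold ctr; simp, by unfold ctr; simp⟩

private theorem loop (hr : IsRk r) (hE : E.Nodup) (hρ : RkS ρ E r) (hA : A ⊆ E) (hB : B ⊆ E)
    (k : ℕ) : Inv r A B (dif E (A ++ B)) ((augStep ρ A B (dif E (A ++ B)))^[k] []) ∧
      (pathTo (freeB ρ B ((augStep ρ A B (dif E (A ++ B)))^[k] []))
        (reachL ρ A B (dif E (A ++ B)) ((augStep ρ A B (dif E (A ++ B)))^[k] [])) ≠ [] →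
        k ≤ ((augStep ρ A B (dif E (A ++ B)))^[k] []).toFinset.card) := by
  have hN : (dif E (A ++ B)).Nodup := hE.sublist dif_sub
  induction k with
  | zero => exact ⟨inv_nil, fun _ => Nat.zero_le _⟩
  | succ k ih =>
    rw [Function.iterate_succ_apply']
    obtain ⟨J, hJ⟩ : ∃ J, J = (augStep ρ A B (dif E (A ++ B)))^[k] [] := ⟨_, rfl⟩
    rw [← hJ] at ih ⊢
    obtain ⟨ih1, ih2⟩ := ih
    by_cases h : pathTo (freeB ρ B J) (reachL ρ A B (dif E (A ++ B)) J) = []
    · rw [step_nil hN ih1.sub h]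
      exact ⟨ih1, fun h2 => absurd h h2⟩
    · obtain ⟨h1, h2⟩ := step_aug hr hE hρ hA hB ih1 h
      refine ⟨h1, fun _ => ?_⟩
      have := ih2 h
      omega

private theorem link_nil (hr : IsRk r) (hE : E.Nodup) (hρ : RkS ρ E r) (hA : A ⊆ E) (hB : B ⊆ E) :
    pathTo (freeB ρ B (linkI ρ E A B))
      (reachL ρ A B (dif E (A ++ B)) (linkI ρ E A B)) = [] := by
  by_contra h
  have hN : (dif E (A ++ B)).Nodup := hE.sublist dif_sub
  obtain ⟨h1, h2⟩ := loop hr hE hρ hA hB (dif E (A ++ B)).length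
  have h3 := h2 h
  obtain ⟨h4, h5⟩ := step_aug hr hE hρ hA hB h1 h
  have h6 := h4.sub.length_le
  have h7 := can_card hN h4.sub
  omega

theorem cut_spec (hr : IsRk r) (hE : E.Nodup) (hρ : RkS ρ E r) (hA : A ⊆ E) (hB : B ⊆ E)
    (hAB : Disjoint A.toFinset B.toFinset) :
    IsCut r E.toFinset A.toFinset B.toFinset (linkI ρ E A B).toFinset
      (cutZ ρ E A B).toFinset := by
  have hN : (dif E (A ++ B)).Nodup := hE.sublist dif_sub
  have hNE : dif E (A ++ B) ⊆ E := N_sub
  have hnil := link_nil hr hE hρ hA hB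
  have hinv : Inv r A B (dif E (A ++ B)) (linkI ρ E A B) := (loop hr hE hρ hA hB _).1
  obtain ⟨J, hJ⟩ : ∃ J, J = linkI ρ E A B := ⟨_, rfl⟩
  have hcut : cutZ ρ E A B = dif E (B ++ heads (reachL ρ A B (dif E (A ++ B)) J)) := by
    rw [hJ]
    rfl
  rw [← hJ] at hnil hinv
  rw [hcut, ← hJ, toF_dif, List.toFinset_append]
  have hJE : J ⊆ E := fun x hx => hNE (hinv.sub.subset hx)
  have hmN : ∀ x, x ∈ E.toFinset \ (A.toFinset ∪ B.toFinset) ↔ x ∈ dif E (A ++ B) := by
    intro x
    rw [mem_sdiff, mem_union, mem_dif, List.mem_append, List.mem_toFinset, List.mem_toFinset,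
      List.mem_toFinset]
  refine isCut_of_cert hr E.toFinset A.toFinset B.toFinset J.toFinset
    (heads (reachL ρ A B (dif E (A ++ B)) J)).toFinset ?_ ?_ hAB ?_ ?_ hinv.iA hinv.iB ?_ ?_ ?_
  · exact fun x hx => List.mem_toFinset.2 (hA (List.mem_toFinset.1 hx))
  · exact fun x hx => List.mem_toFinset.2 (hB (List.mem_toFinset.1 hx))
  · exact fun x hx => (hmN x).2 (hinv.sub.subset (List.mem_toFinset.1 hx))
  · exact fun x hx => (hmN x).2 (heads_sub hN x (List.mem_toFinset.1 hx))
  · intro x hx hf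
    rw [hmN] at hx
    exact List.mem_toFinset.2 (bfs_src hN x hx ((free_iff hr hρ hA hJE hinv.iA (hNE hx)).2 hf))
  · intro x hx hf
    rw [List.mem_toFinset] at hx
    have h1 := bfs_nil hN hnil x hx
    have h2 := (free_iff hr hρ hB hJE hinv.iB (hNE (heads_sub hN x hx))).2 hf
    rw [h1] at h2
    exact absurd h2 (by decide)
  · intro u hu v hv he
    rw [List.mem_toFinset] at hu
    rw [hmN] at hv
    exact List.mem_toFinset.2 (bfs_closed hN u hu v hv
      ((edge_iff hρ hA hB hJE hinv.iA hinv.iB (hNE (heads_sub hN u hu)) (hNE hv)).2 he))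

end Pool.Agent.BW
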