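import Pool.Agent.BW.Sub

set_option autoImplicit false

/-!
# Module CutM: consequences of `IsCut`

`h : IsCut r E A B I Z`, `A, B ⊆ E` disjoint.

* `IsCut.min`: let `A ⊆ Y ⊆ E`, `Y` disjoint from `B`. `r Y ≥ r (A ∪ (I ∩ Y)) = r A + |I ∩ Y|`
  (`indep_subset`), `r (E \ Y) ≥ r (B ∪ (I \ Y)) = r B + |I \ Y|`; the sum is `r A + r B + |I|`, so
  `|I| ≤ lam Y + r E - r A - r B`.
* `IsCut.span`: for `Y = Z` there is equality: `r Z = r (A ∪ (I ∩ Z))` and
  `r (E \ Z) = r (B ∪ (I \ Z))`. By `rank_union_congr` twice `r (A ∪ B ∪ I) = r (Z ∪ B ∪ (I \ Z))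
  = r (Z ∪ (E \ Z)) = r E`.
* `IsCut.le_left`, `le_right`: `min` for `Y = A`, `Y = E \ B`.
-/

namespace Pool.Agent.BW

open Finset
open Pool.Agent.G4 (IsRk lam dualR)

variable {r : Finset ℕ → ℤ} {E A B I Z Y : Finset ℕ}

theorem IsCut.left_aux (hr : IsRk r) (h : IsCut r E A B I Z)
    (h1 : A ⊆ Y) : r A + ((I ∩ Y).card : ℤ) ≤ r Y := by
  rw [← indep_subset hr h.rA (inter_subset_left : I ∩ Y ⊆ I)]
  exact hr.mono' (union_subset h1 inter_subset_right)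

theorem IsCut.right_aux (hr : IsRk r) (h : IsCut r E A B I Z) (hB : B ⊆ E)
    (h3 : Disjoint Y B) : r B + ((I \ Y).card : ℤ) ≤ r (E \ Y) := by
  rw [← indep_subset hr h.rB (sdiff_subset : I \ Y ⊆ I)]
  refine hr.mono' (union_subset ?_ (sdiff_subset_sdiff (h.IE.trans sdiff_subset)
    (Subset.refl _)))
  intro x hx
  exact mem_sdiff.2 ⟨hB hx, fun hy => disjoint_left.1 h3 hy hx⟩

theorem IsCut.card_aux (I Y : Finset ℕ) : ((I ∩ Y).card : ℤ) + ((I \ Y).card : ℤ) = I.card := by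
  have := card_inter_add_card_sdiff I Y
  omega

theorem IsCut.min (hr : IsRk r) (h : IsCut r E A B I Z) (hA : A ⊆ E) (hB : B ⊆ E)
    (h1 : A ⊆ Y) (h2 : Y ⊆ E) (h3 : Disjoint Y B) : lam r E Z ≤ lam r E Y := by
  have h4 := IsCut.left_aux hr h h1
  have h5 := IsCut.right_aux hr h hB h3
  have h6 := IsCut.card_aux I Y
  have h7 := h.eq
  have h8 : lam r E Y = r Y + r (E \ Y) - r E := rfl
  omega

theorem IsCut.span (hr : IsRk r) (h : IsCut r E A B I Z) (hA : A ⊆ E) (hB : B ⊆ E) :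
    r (A ∪ B ∪ I) = r E := by
  have h4 := IsCut.left_aux hr h h.AZ
  have h5 := IsCut.right_aux hr h hB h.ZB
  have h6 := IsCut.card_aux I Z
  have h7 := h.eq
  have h8 : lam r E Z = r Z + r (E \ Z) - r E := rfl
  have hZ : r (A ∪ (I ∩ Z)) = r Z := by
    rw [indep_subset hr h.rA (inter_subset_left : I ∩ Z ⊆ I)]
    omega
  have hZ' : r (B ∪ (I \ Z)) = r (E \ Z) := by
    rw [indep_subset hr h.rB (sdiff_subset : I \ Z ⊆ I)]
    omega
  have s1 : A ∪ (I ∩ Z) ⊆ Z := union_subset h.AZ inter_subset_right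
  have s2 : B ∪ (I \ Z) ⊆ E \ Z := by
    refine union_subset ?_ (sdiff_subset_sdiff (h.IE.trans sdiff_subset) (Subset.refl _))
    intro x hx
    exact mem_sdiff.2 ⟨hB hx, fun hy => disjoint_left.1 h.ZB hy hx⟩
  have t1 := rank_union_congr hr s1 hZ (B ∪ (I \ Z))
  have t2 := rank_union_congr hr s2 hZ' Z
  have e1 : A ∪ (I ∩ Z) ∪ (B ∪ (I \ Z)) = A ∪ B ∪ I := by
    ext x
    simp only [mem_union, mem_inter, mem_sdiff]
    tauto
  have e2 : E \ Z ∪ Z = E := by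
    rw [union_comm]
    exact union_sdiff_of_subset h.ZE
  rw [e1] at t1
  rw [e2, union_comm] at t2
  rw [t1, t2]

theorem IsCut.le_left (hr : IsRk r) (h : IsCut r E A B I Z) (hA : A ⊆ E) (hB : B ⊆ E)
    (hAB : Disjoint A B) : lam r E Z ≤ lam r E A :=
  IsCut.min hr h hA hB (Subset.refl _) hA hAB

theorem IsCut.le_right (hr : IsRk r) (h : IsCut r E A B I Z) (hA : A ⊆ E) (hB : B ⊆ E)
    (hAB : Disjoint A B) : lam r E Z ≤ lam r E B := by
  rw [← Pool.Agent.G4.lam_compl hB]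
  refine IsCut.min hr h hA hB ?_ sdiff_subset sdiff_disjoint
  intro x hx
  exact mem_sdiff.2 ⟨hA hx, fun hy => disjoint_left.1 hAB hx hy⟩

end Pool.Agent.BW
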