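import Pool.Agent.BW.BinM

set_option autoImplicit false

/-!
# Module Dbl: double induction (the completeness lemma, combinatorial part)

The hypothesis `h1` (`1 ≤ cn A`) is needed: without it the bound fails for `s = 0`, `k = 1`.
-/

namespace Pool.Agent.BW

open Finset

/-- `B` is a first hit of `(C, w)` -/
private def FH (F : Finset (Finset ℕ)) (lm : Finset ℕ → ℤ) (C : Finset ℕ) (w : ℤ)
    (B : Finset ℕ) : Prop :=
  B ∈ F ∧ B ⊆ C ∧ lm B < w ∧ ∀ P ∈ F, B ⊆ P → P ⊆ C → P ≠ B → w ≤ lm P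

private theorem fh_trans {F : Finset (Finset ℕ)} {D : Finset ℕ} (h : Bin F D)
    {lm : Finset ℕ → ℤ} {B C B' : Finset ℕ} {w : ℤ} (hB : B ∈ F) (hBC : B ⊆ C)
    (hw : ∀ P ∈ F, B ⊆ P → P ⊆ C → w ≤ lm P) (hf : FH F lm B w B') : FH F lm C w B' := by
  obtain ⟨h1, h2, h3, h4⟩ := hf
  refine ⟨h1, h2.trans hBC, h3, fun P hP hBP hPC hne => ?_⟩
  rcases h.lmn P hP B hB with hc | hc | hc
  · exact h4 P hP hBP hc hne
  · exact hw P hP hc hPC
  · exfalso
    obtain ⟨x, hx⟩ := h.ne B' h1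
    exact Finset.disjoint_left.1 hc (hBP hx) (h2 hx)

private theorem mono_add {F : Finset (Finset ℕ)} {R : ℕ → Finset ℕ → Prop}
    (mono : ∀ j, ∀ A ∈ F, R j A → R (j + 1) A) {A : Finset ℕ} (hA : A ∈ F) {j : ℕ} (hR : R j A)
    (t : ℕ) : R (j + t) A := by
  induction t with
  | zero => exact hR
  | succ t ih => exact mono _ A hA ih

private theorem inner_claim {F : Finset (Finset ℕ)} {D : Finset ℕ} (h : Bin F D)
    (lm : Finset ℕ → ℤ) (cn : Finset ℕ → ℕ) (h1 : ∀ A ∈ F, 1 ≤ cn A)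
    (R : ℕ → Finset ℕ → Prop) (mono : ∀ j, ∀ A ∈ F, R j A → R (j + 1) A)
    (link : ∀ A ∈ F, ∀ C ∈ F, A ⊆ C → lm A = lm C →
      (∀ B ∈ F, A ⊆ B → B ⊆ C → lm C ≤ lm B) → cn A ≤ cn C)
    (leaf : ∀ A ∈ F, ∀ C ∈ F, A ⊆ C → lm A = lm C →
      (∀ B ∈ F, A ⊆ B → B ⊆ C → lm C ≤ lm B) → cn A = cn C → A.card = 1 → ∀ j, R (j + 1) C)
    (node : ∀ A ∈ F, ∀ C ∈ F, A ⊆ C → lm A = lm C →
      (∀ B ∈ F, A ⊆ B → B ⊆ C → lm C ≤ lm B) → cn A = cn C →
      ∀ A₁ ∈ F, ∀ A₂ ∈ F, Disjoint A₁ A₂ → A₁ ∪ A₂ = A → ∀ j, R j A₁ → R j A₂ → R (j + 1) C)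
    (w : ℤ) (g : ℕ) (hS : ∀ C ∈ F, ∀ j, (∀ B, FH F lm C (w + 1) B → R j B) → R (j + g) C)
    (c : ℕ) : ∀ C ∈ F, lm C = w → cn C ≤ c → ∀ j, (∀ B, FH F lm C w B → R j B) →
      R (j + c * (g + 1)) C := by
  classical
  induction c with
  | zero =>
    intro C hC _ hc
    have := h1 C hC
    omega
  | succ c ih =>
    intro C hC hCw hc j hj
    obtain ⟨A, hA, hmin⟩ := Finset.exists_min_image
      (F.filter fun A => A ⊆ C ∧ lm A = lm C ∧ (∀ B ∈ F, A ⊆ B → B ⊆ C → lm C ≤ lm B) ∧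
        cn A = cn C) Finset.card
      ⟨C, Finset.mem_filter.2 ⟨hC, Finset.Subset.refl C, rfl, fun B _ hCB hBC => by
        rw [Finset.Subset.antisymm hCB hBC], rfl⟩⟩
    rw [Finset.mem_filter] at hA
    obtain ⟨hAF, hAC, hAl, hAm, hAc⟩ := hA
    have hpos : 0 < A.card := Finset.card_pos.2 (h.ne A hAF)
    rcases Nat.lt_or_ge 1 A.card with hcard | hcard
    · obtain ⟨A₁, hA₁, A₂, hA₂, hd, hU⟩ := h.spl A hAF hcard
      have key : ∀ A' ∈ F, A' ⊆ A → A'.card < A.card →
          (∀ P ∈ F, P ⊆ A → P = A ∨ P ⊆ A' ∨ Disjoint P A') →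
          R (j + c * (g + 1) + g) A' := by
        intro A' hA' hsub hlt hch
        refine hS A' hA' _ fun B hB => ?_
        obtain ⟨hBF, hBA, hBw, hBP⟩ := hB
        obtain ⟨x, hx⟩ := h.ne B hBF
        have hBC : B ⊆ C := (hBA.trans hsub).trans hAC
        have hstar : ∀ P ∈ F, B ⊆ P → P ⊆ C → P ≠ B → w ≤ lm P := by
          intro P hP hBP' hPC hne
          rcases h.lmn P hP A hAF with h3 | h3 | h3
          · rcases hch P hP h3 with h4 | h4 | h4
            · rw [h4, ← hCw]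
              exact hAm A hAF (Finset.Subset.refl A) hAC
            · have := hBP P hP hBP' h4 hne
              omega
            · exact absurd (hBA hx) (Finset.disjoint_left.1 h4 (hBP' hx))
          · rw [← hCw]
            exact hAm P hP h3 hPC
          · exact absurd (hsub (hBA hx)) (Finset.disjoint_left.1 h3 (hBP' hx))
        rcases lt_or_ge (lm B) w with h5 | h5
        · exact mono_add mono hBF (hj B ⟨hBF, hBC, h5, hstar⟩) _
        · have h6 : lm B = w := by omega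
          have h7 : ∀ P ∈ F, B ⊆ P → P ⊆ C → w ≤ lm P := by
            intro P hP hBP' hPC
            by_cases hne : P = B
            · rw [hne, h6]
            · exact hstar P hP hBP' hPC hne
          have h8 : ∀ P ∈ F, B ⊆ P → P ⊆ C → lm C ≤ lm P := by
            rw [hCw]
            exact h7
          have h9 := link B hBF C hC hBC (by rw [h6, hCw]) h8
          have h10 : cn B ≠ cn C := by
            intro heq
            have h11 := hmin B (Finset.mem_filter.2 ⟨hBF, hBC, by rw [h6, hCw], h8, heq⟩)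
            have h12 := Finset.card_le_card hBA
            omega
          exact ih B hBF h6 (by omega) j fun B' hB' => hj B' (fh_trans h hBF hBC h7 hB')
      have hsub1 : A₁ ⊆ A := by rw [← hU]; exact Finset.subset_union_left
      have hsub2 : A₂ ⊆ A := by rw [← hU]; exact Finset.subset_union_right
      have hcu : A₁.card + A₂.card = A.card := by rw [← hU, Finset.card_union_of_disjoint hd]
      have hp1 : 0 < A₁.card := Finset.card_pos.2 (h.ne A₁ hA₁)
      have hp2 : 0 < A₂.card := Finset.card_pos.2 (h.ne A₂ hA₂)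
      have hR1 : R (j + c * (g + 1) + g) A₁ := by
        refine key A₁ hA₁ hsub1 (by omega) fun P hP hPA => ?_
        rcases h.child hA₁ hA₂ hd hU hP hPA with h3 | h3 | h3
        · exact Or.inl h3
        · exact Or.inr (Or.inl h3)
        · exact Or.inr (Or.inr ((Finset.disjoint_of_subset_right h3 hd).symm))
      have hR2 : R (j + c * (g + 1) + g) A₂ := by
        refine key A₂ hA₂ hsub2 (by omega) fun P hP hPA => ?_
        rcases h.child hA₁ hA₂ hd hU hP hPA with h3 | h3 | h3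
        · exact Or.inl h3
        · exact Or.inr (Or.inr (Finset.disjoint_of_subset_left h3 hd))
        · exact Or.inr (Or.inl h3)
      have h13 := node A hAF C hC hAC hAl hAm hAc A₁ hA₁ A₂ hA₂ hd hU _ hR1 hR2
      have h14 : j + (c + 1) * (g + 1) = j + c * (g + 1) + g + 1 := by ring
      rw [h14]
      exact h13
    · have h13 := leaf A hAF C hC hAC hAl hAm hAc (by omega) (j + (c * (g + 1) + g))
      have h14 : j + (c + 1) * (g + 1) = j + (c * (g + 1) + g) + 1 := by ring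
      rw [h14]
      exact h13

theorem double_ind {F : Finset (Finset ℕ)} {D : Finset ℕ} (h : Bin F D) (lm : Finset ℕ → ℤ)
    (cn : Finset ℕ → ℕ) (k s : ℕ) (h0 : ∀ A ∈ F, 0 ≤ lm A) (hk : ∀ A ∈ F, lm A ≤ k)
    (hs : ∀ A ∈ F, cn A ≤ s) (h1 : ∀ A ∈ F, 1 ≤ cn A)
    (R : ℕ → Finset ℕ → Prop) (mono : ∀ j, ∀ A ∈ F, R j A → R (j + 1) A)
    (link : ∀ A ∈ F, ∀ C ∈ F, A ⊆ C → lm A = lm C →
      (∀ B ∈ F, A ⊆ B → B ⊆ C → lm C ≤ lm B) → cn A ≤ cn C)
    (leaf : ∀ A ∈ F, ∀ C ∈ F, A ⊆ C → lm A = lm C →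
      (∀ B ∈ F, A ⊆ B → B ⊆ C → lm C ≤ lm B) → cn A = cn C → A.card = 1 → ∀ j, R (j + 1) C)
    (node : ∀ A ∈ F, ∀ C ∈ F, A ⊆ C → lm A = lm C →
      (∀ B ∈ F, A ⊆ B → B ⊆ C → lm C ≤ lm B) → cn A = cn C →
      ∀ A₁ ∈ F, ∀ A₂ ∈ F, Disjoint A₁ A₂ → A₁ ∪ A₂ = A → ∀ j, R j A₁ → R j A₂ → R (j + 1) C) :
    ∀ C ∈ F, R ((s + 1) ^ (k + 1)) C := by
  have main : ∀ i : ℕ, ∀ C ∈ F, ∀ j, (∀ B, FH F lm C ((k : ℤ) + 1 - i) B → R j B) →
      R (j + ((s + 1) ^ i - 1)) C := by
    intro i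
    induction i with
    | zero =>
      intro C hC j hj
      have h3 : R j C := hj C ⟨hC, Finset.Subset.refl C, by
        have := hk C hC
        push_cast
        omega, fun P _ hCP hPC hne => absurd (Finset.Subset.antisymm hPC hCP) hne⟩
      simpa using h3
    | succ i ih =>
      obtain ⟨g, hg⟩ : ∃ g : ℕ, g = (s + 1) ^ i - 1 := ⟨_, rfl⟩
      have hpow : 1 ≤ (s + 1) ^ i := Nat.one_le_pow _ _ (by omega)
      have hg1 : g + 1 = (s + 1) ^ i := by omega
      have hg2 : (s + 1) ^ (i + 1) - 1 = s * (g + 1) + g := by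
        have : (s + 1) ^ (i + 1) = s * (g + 1) + (g + 1) := by
          rw [pow_succ, ← hg1]; ring
        omega
      rw [hg2]
      rw [← hg] at ih
      obtain ⟨w, hw⟩ : ∃ w : ℤ, w = (k : ℤ) + 1 - ((i + 1 : ℕ) : ℤ) := ⟨_, rfl⟩
      rw [← hw]
      have hw1 : (k : ℤ) + 1 - (i : ℤ) = w + 1 := by
        rw [hw]; push_cast; ring
      rw [hw1] at ih
      have inner := inner_claim h lm cn h1 R mono link leaf node w g ih
      intro C hC j hj
      rcases lt_trichotomy (lm C) w with h3 | h3 | h3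
      · exact mono_add mono hC (hj C ⟨hC, Finset.Subset.refl C, h3,
          fun P _ hCP hPC hne => absurd (Finset.Subset.antisymm hPC hCP) hne⟩) _
      · have h4 := inner s C hC h3 (hs C hC) j hj
        rw [← add_assoc]
        exact mono_add mono hC h4 _
      · rw [← add_assoc]
        refine ih C hC _ fun B hB => ?_
        obtain ⟨hBF, hBC, hBw, hBP⟩ := hB
        rcases lt_or_ge (lm B) w with h5 | h5
        · refine mono_add mono hBF (hj B ⟨hBF, hBC, h5, fun P hP hBP' hPC hne => ?_⟩) _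
          have := hBP P hP hBP' hPC hne
          omega
        · have h6 : lm B = w := by omega
          refine inner s B hBF h6 (hs B hBF) j fun B' hB' => hj B' ?_
          refine fh_trans h hBF hBC (fun P hP hBP' hPC => ?_) hB'
          by_cases hne : P = B
          · rw [hne, h6]
          · have := hBP P hP hBP' hPC hne
            omega
  intro C hC
  have h3 := main (k + 1) C hC 0 (fun B hB => by
    obtain ⟨hBF, _, hBw, _⟩ := hB
    have := h0 B hBF
    push_cast at hBw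
    omega)
  have hpow : 1 ≤ (s + 1) ^ (k + 1) := Nat.one_le_pow _ _ (by omega)
  have h4 := mono_add mono hC h3 1
  have h5 : 0 + ((s + 1) ^ (k + 1) - 1) + 1 = (s + 1) ^ (k + 1) := by omega
  rw [h5] at h4
  exact h4

end Pool.Agent.BW
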