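import Pool.Agent.G4.R1
import Pool.Agent.BW.Alg

set_option autoImplicit false

/-!
# Definitions (finite sets of natural numbers, rank functions, laminar families, traces)

`IsRk r`: `r` is a matroid rank function; `lam r E X = r X + r (E \ X) - r E` (connectivity); both
are in `Pool/Agent/G4/Defs.lean`, their basic properties in `Pool/Agent/G4/R1.lean`.
-/

namespace Pool.Agent.BW

open Finset
open Pool.Agent.G4 (IsRk lam dualR nor dif word prd)

/-- `I` is a common independent set of `M / A` and `M / B`, and `Z` is a separation that shows that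
it is maximal (and that `lam Z` is minimal) -/
structure IsCut (r : Finset ℕ → ℤ) (E A B I Z : Finset ℕ) : Prop where
  IE : I ⊆ E \ (A ∪ B)
  AZ : A ⊆ Z
  ZE : Z ⊆ E
  ZB : Disjoint Z B
  rA : r (A ∪ I) = r A + (I.card : ℤ)
  rB : r (B ∪ I) = r B + (I.card : ℤ)
  eq : (I.card : ℤ) = lam r E Z + r E - r A - r B

/-- a path without shortcuts from the sources to the sinks -/
structure Lay (src snk : ℕ → Prop) (edge : ℕ → ℕ → Prop) (m : ℕ) (v : ℕ → ℕ) : Prop where
  s0 : src (v 0)
  s1 : ∀ i, 0 < i → i ≤ m → ¬ src (v i)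
  t0 : snk (v m)
  t1 : ∀ i, i < m → ¬ snk (v i)
  ed : ∀ i, i < m → edge (v i) (v (i + 1))
  ne : ∀ i j, i + 1 < j → j ≤ m → ¬ edge (v i) (v j)
  inj : ∀ i, i ≤ m → ∀ j, j ≤ m → v i = v j → i = j

/-- `x` can be added to the independent set `I` -/
def FreeP (r : Finset ℕ → ℤ) (I : Finset ℕ) (x : ℕ) : Prop :=
  x ∉ I ∧ r (insert x I) = (I.card : ℤ) + 1

/-- the edges of the exchange graph of the common independent set `I` of `r₁` and `r₂` -/
def EdgeP (r₁ r₂ : Finset ℕ → ℤ) (I : Finset ℕ) (u v : ℕ) : Prop :=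
  (u ∈ I ∧ v ∉ I ∧ r₁ (insert v (I.erase u)) = (I.card : ℤ)) ∨
  (u ∉ I ∧ v ∈ I ∧ r₂ (insert u (I.erase v)) = (I.card : ℤ))

/-! ## Laminar families -/

/-- a binary laminar family of nonempty subsets of `D` with top `D` (a rooted decomposition tree) -/
structure Bin (F : Finset (Finset ℕ)) (D : Finset ℕ) : Prop where
  top : D ∈ F
  sub : ∀ B ∈ F, B ⊆ D
  ne : ∀ B ∈ F, B.Nonempty
  lmn : ∀ B ∈ F, ∀ C ∈ F, B ⊆ C ∨ C ⊆ B ∨ Disjoint B C
  spl : ∀ B ∈ F, 2 ≤ B.card → ∃ B₁ ∈ F, ∃ B₂ ∈ F, Disjoint B₁ B₂ ∧ B₁ ∪ B₂ = B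

/-- the family is linked: the minimal connectivity between two nested members is attained by a
member -/
def Linked (r : Finset ℕ → ℤ) (E : Finset ℕ) (F : Finset (Finset ℕ)) : Prop :=
  ∀ A ∈ F, ∀ C ∈ F, A ⊆ C → ∃ B ∈ F, A ⊆ B ∧ B ⊆ C ∧
    ∀ Z, A ⊆ Z → Z ⊆ C → lam r E B ≤ lam r E Z

/-- the new family for the nested members `A ⊆ C` and the separation `Z` between them -/
def newF (F : Finset (Finset ℕ)) (A C Z : Finset ℕ) : Finset (Finset ℕ) :=
  (F.filter (fun B => ¬ B ⊆ C ∨ B ⊆ A) ∪ (F.filter fun B => B ⊆ C).image (fun B => B ∩ Z) ∪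
    (F.filter fun B => B ⊆ C ∧ Disjoint B A).image (fun B => B \ Z) ∪
    (F.filter fun B => A ⊆ B ∧ B ⊆ C).image (fun B => B ∪ Z)).erase ∅

/-- `Z` is a minimal separation between `A` and `C`, smaller than all the members between them, and
it cannot be simplified -/
structure GoodZ (r : Finset ℕ → ℤ) (E : Finset ℕ) (F : Finset (Finset ℕ)) (A C Z : Finset ℕ) :
    Prop where
  AZ : A ⊆ Z
  ZC : Z ⊆ C
  lt : ∀ B ∈ F, A ⊆ B → B ⊆ C → lam r E Z < lam r E B
  min : ∀ Y, A ⊆ Y → Y ⊆ C → lam r E Z ≤ lam r E Y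
  red : ∀ B ∈ F, B ⊆ C → Disjoint B A → (B ∩ Z).Nonempty → (B \ Z).Nonempty →
    lam r E (B ∩ Z) < lam r E B ∧ lam r E (B \ Z) < lam r E B

/-- the number of nested pairs of members that are joined by members of connectivity at least `t` -/
noncomputable def cntN (r : Finset ℕ → ℤ) (E : Finset ℕ) (F : Finset (Finset ℕ)) (t : ℕ) : ℕ :=
  by
    classical
    exact ((F ×ˢ F).filter fun p => p.1 ⊆ p.2 ∧
      ∀ B ∈ F, p.1 ⊆ B → B ⊆ p.2 → (t : ℤ) ≤ lam r E B).card

/-- branch decompositions: `Dec r E k X` if `X` is obtained from one-element sets by disjoint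
unions such that all the sets that occur have connectivity at most `k` -/
inductive Dec (r : Finset ℕ → ℤ) (E : Finset ℕ) (k : ℕ) : Finset ℕ → Prop
  | single (x : ℕ) : x ∈ E → lam r E {x} ≤ k → Dec r E k {x}
  | union (A B : Finset ℕ) : Dec r E k A → Dec r E k B → Disjoint A B →
      lam r E (A ∪ B) ≤ k → Dec r E k (A ∪ B)

/-! ## Vectors and traces -/

section

variable {K V : Type} [Field K] [AddCommGroup V] [Module K V]

/-- the span of the vectors of `F` -/
def sp (K : Type) {V : Type} [Field K] [AddCommGroup V] [Module K V] (v : ℕ → V)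
    (F : Finset ℕ) : Submodule K V := Submodule.span K (v '' (F : Set ℕ))

/-- the rank function of the vectors -/
noncomputable def rkV (K : Type) {V : Type} [Field K] [AddCommGroup V] [Module K V] (v : ℕ → V)
    (F : Finset ℕ) : ℤ := (Module.finrank K (sp K v F) : ℤ)

/-- the guts of the separation `(D, E \ D)` -/
def gut (K : Type) {V : Type} [Field K] [AddCommGroup V] [Module K V] (v : ℕ → V)
    (E D : Finset ℕ) : Submodule K V := sp K v D ⊓ sp K v (E \ D)

/-- the trace of `F ⊆ D` -/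
def tr (K : Type) {V : Type} [Field K] [AddCommGroup V] [Module K V] (v : ℕ → V)
    (E D F : Finset ℕ) : Submodule K V := sp K v F ⊓ gut K v E D

/-- the number of traces -/
noncomputable def nTr (K : Type) {V : Type} [Field K] [AddCommGroup V] [Module K V] (v : ℕ → V)
    (E D : Finset ℕ) : ℕ := Set.ncard {T : Submodule K V | ∃ F ⊆ D, tr K v E D F = T}

end

/-- `G` is a complete family of subsets of `D`: every subset of `D` is equivalent to a member -/
def Cov (r : Finset ℕ → ℤ) (E D : Finset ℕ) (G : Set (Finset ℕ)) : Prop :=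
  (∀ F ∈ G, F ⊆ D) ∧ ∀ F ⊆ D, ∃ F' ∈ G, ∀ H ⊆ E \ D, r (F' ∪ H) - r F' = r (F ∪ H) - r F

/-! ## Lists and finsets -/

/-- the family of sets given by a list of lists -/
def famF (F : List (List ℕ)) : Finset (Finset ℕ) := (F.map List.toFinset).toFinset

/-- `ρ` computes the rank function `r` on the subsets of `E` -/
def RkS (ρ : List ℕ → ℕ) (E : List ℕ) (r : Finset ℕ → ℤ) : Prop :=
  ∀ T : List ℕ, (∀ t ∈ T, t ∈ E) → (ρ T : ℤ) = r T.toFinset

end Pool.Agent.BW
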