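import Pool.Agent.BW.DpDefs

set_option autoImplicit false

/-!
# Module DimL: coordinate subspaces, dimension of a merged space

`KS K n F` = vectors of `Fin n → K` supported in `F`.
-/

namespace Pool.Agent.BW

open Finset Module

variable {K : Type} [Field K] {n m : ℕ} {F G X₁ X₂ : Finset ℕ}

private theorem mem_ks {x : Fin n → K} : x ∈ KS K n F ↔ ∀ i : Fin n, (i : ℕ) ∉ F → x i = 0 :=
  Iff.rfl

theorem ks_mono (h : F ⊆ G) : KS K n F ≤ KS K n G := by
  intro x hx i hi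
  exact hx i (fun h' => hi (h h'))

theorem ks_union (F G : Finset ℕ) : KS K n (F ∪ G) = KS K n F ⊔ KS K n G := by
  apply le_antisymm
  · intro x hx
    rw [Submodule.mem_sup]
    refine ⟨fun i => if (i : ℕ) ∈ F then x i else 0, ?_,
      fun i => if (i : ℕ) ∈ F then 0 else x i, ?_, ?_⟩
    · intro i hi
      exact if_neg hi
    · intro i hi
      show (if (i : ℕ) ∈ F then 0 else x i) = 0
      split_ifs with h
      · rfl
      · apply hx
        rw [mem_union]
        tauto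
    · funext i
      show (if (i : ℕ) ∈ F then x i else 0) + (if (i : ℕ) ∈ F then 0 else x i) = x i
      split_ifs
      · rw [add_zero]
      · rw [zero_add]
  · exact sup_le (ks_mono subset_union_left) (ks_mono subset_union_right)

theorem ks_inf (F G : Finset ℕ) : KS K n F ⊓ KS K n G = KS K n (F ∩ G) := by
  apply le_antisymm
  · rintro x ⟨hx, hy⟩ i hi
    by_cases h : (i : ℕ) ∈ F
    · exact hy i (fun h' => hi (mem_inter.2 ⟨h, h'⟩))
    · exact hx i h
  · exact le_inf (ks_mono inter_subset_left) (ks_mono inter_subset_right)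

theorem ks_empty : KS K n ∅ = ⊥ := by
  rw [eq_bot_iff]
  intro x hx
  rw [Submodule.mem_bot]
  funext i
  exact hx i (notMem_empty _)

theorem ks_top : KS K n (range n) = ⊤ := by
  rw [eq_top_iff]
  intro x _ i hi
  exact absurd (mem_range.2 i.2) hi

theorem ks_finrank (h : F ⊆ range n) : finrank K (KS K n F) = F.card := by
  let e : KS K n F ≃ₗ[K] (F → K) :=
    { toFun := fun x j => x.1 ⟨j.1, mem_range.1 (h j.2)⟩
      map_add' := fun _ _ => rfl
      map_smul' := fun _ _ => rfl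
      invFun := fun y => ⟨fun i => if hi : (i : ℕ) ∈ F then y ⟨i, hi⟩ else 0,
        fun i hi => dif_neg hi⟩
      left_inv := by
        intro x
        apply Subtype.ext
        funext i
        show (if hi : (i : ℕ) ∈ F then x.1 ⟨i, _⟩ else 0) = x.1 i
        split_ifs with hi
        · rfl
        · exact (x.2 i hi).symm
      right_inv := by
        intro y
        funext j
        exact dif_pos j.2 }
  rw [e.finrank_eq, Module.finrank_fintype_fun_eq_card, Fintype.card_coe]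

private theorem ks_disj (hd : Disjoint X₁ X₂) {x : Fin n → K} (h1 : x ∈ KS K n X₁)
    (h2 : x ∈ KS K n X₂) : x = 0 := by
  have h3 : x ∈ KS K n X₁ ⊓ KS K n X₂ := ⟨h1, h2⟩
  rw [ks_inf, disjoint_iff_inter_eq_empty.1 hd, ks_empty] at h3
  exact (Submodule.mem_bot K).1 h3

/-- the supports are disjoint -/
theorem mem_sup_iff (hd : Disjoint X₁ X₂) {S₁ S₂ : Submodule K (Fin n → K)} (h1 : S₁ ≤ KS K n X₁)
    (h2 : S₂ ≤ KS K n X₂) {x y : Fin n → K} (hx : x ∈ KS K n X₁) (hy : y ∈ KS K n X₂) :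
    x + y ∈ S₁ ⊔ S₂ ↔ x ∈ S₁ ∧ y ∈ S₂ := by
  constructor
  · intro h
    obtain ⟨s, hs, t, ht, hst⟩ := Submodule.mem_sup.1 h
    have e1 : x - s = t - y := by
      rw [sub_eq_sub_iff_add_eq_add, ← hst]
      exact add_comm _ _
    have e2 : x - s = 0 := ks_disj hd (Submodule.sub_mem _ hx (h1 hs))
      (by rw [e1]; exact Submodule.sub_mem _ (h2 ht) hy)
    have e3 : x = s := sub_eq_zero.1 e2
    have e4 : t = y := by
      rw [e2] at e1
      exact sub_eq_zero.1 e1.symm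
    exact ⟨e3 ▸ hs, e4 ▸ ht⟩
  · rintro ⟨h3, h4⟩
    exact Submodule.add_mem_sup h3 h4

variable {c₁ c₂ : (Fin m → K) →ₗ[K] (Fin n → K)} {S₁ S₂ : Submodule K (Fin n → K)}

private theorem comap_sup (hd : Disjoint X₁ X₂) (h1 : S₁ ≤ KS K n X₁) (h2 : S₂ ≤ KS K n X₂)
    (h3 : ∀ x, c₁ x ∈ KS K n X₁) (h4 : ∀ x, c₂ x ∈ KS K n X₂) :
    Submodule.comap (c₁.coprod c₂) (S₁ ⊔ S₂) =
      (Submodule.comap c₁ S₁).prod (Submodule.comap c₂ S₂) := by
  ext w
  rw [Submodule.mem_comap, LinearMap.coprod_apply, mem_sup_iff hd h1 h2 (h3 _) (h4 _),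
    Submodule.mem_prod, Submodule.mem_comap, Submodule.mem_comap]

theorem comap_merge (hd : Disjoint X₁ X₂) (h1 : S₁ ≤ KS K n X₁) (h2 : S₂ ≤ KS K n X₂)
    (h3 : ∀ x, c₁ x ∈ KS K n X₁) (h4 : ∀ x, c₂ x ∈ KS K n X₂)
    (N : Submodule K ((Fin m → K) × (Fin m → K))) :
    Submodule.comap (c₁.coprod c₂) (S₁ ⊔ S₂ ⊔ Submodule.map (c₁.coprod c₂) N) =
      (Submodule.comap c₁ S₁).prod (Submodule.comap c₂ S₂) ⊔ N := by
  rw [← comap_sup hd h1 h2 h3 h4]
  ext w
  rw [Submodule.mem_comap]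
  constructor
  · intro h
    obtain ⟨t, ht, _, ⟨z, hz, rfl⟩, hs⟩ := Submodule.mem_sup.1 h
    refine Submodule.mem_sup.2 ⟨w - z, ?_, z, hz, sub_add_cancel _ _⟩
    rw [Submodule.mem_comap, map_sub, ← hs, add_sub_cancel_right]
    exact ht
  · intro h
    obtain ⟨p, hp, z, hz, rfl⟩ := Submodule.mem_sup.1 h
    rw [map_add]
    exact Submodule.add_mem_sup hp (Submodule.mem_map_of_mem hz)

private theorem rk_map {V W : Type} [AddCommGroup V] [Module K V] [AddCommGroup W] [Module K W]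
    [FiniteDimensional K V] (f : V →ₗ[K] W) (N : Submodule K V) :
    finrank K (Submodule.map f N) + finrank K (N ⊓ LinearMap.ker f : Submodule K V) =
      finrank K N := by
  have h := LinearMap.finrank_range_add_finrank_ker (f.domRestrict N)
  rw [LinearMap.range_domRestrict] at h
  have h2 : finrank K (LinearMap.ker (f.domRestrict N)) =
      finrank K (N ⊓ LinearMap.ker f : Submodule K V) := by
    have h3 : N ⊓ LinearMap.ker f = Submodule.map N.subtype (LinearMap.ker (f.domRestrict N)) := by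
      ext x
      constructor
      · rintro ⟨hx, hx2⟩
        exact ⟨⟨x, hx⟩, hx2, rfl⟩
      · rintro ⟨y, hy, rfl⟩
        exact ⟨y.2, hy⟩
    rw [h3, Submodule.finrank_map_subtype_eq]
  rw [← h2]
  exact h

theorem dim_merge (hd : Disjoint X₁ X₂) (h1 : S₁ ≤ KS K n X₁) (h2 : S₂ ≤ KS K n X₂)
    (h3 : ∀ x, c₁ x ∈ KS K n X₁) (h4 : ∀ x, c₂ x ∈ KS K n X₂)
    (N : Submodule K ((Fin m → K) × (Fin m → K))) :
    finrank K (S₁ ⊔ S₂ ⊔ Submodule.map (c₁.coprod c₂) N : Submodule K (Fin n → K)) +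
      finrank K (N ⊓ (Submodule.comap c₁ S₁).prod (Submodule.comap c₂ S₂) : Submodule K _) =
      finrank K S₁ + finrank K S₂ + finrank K N := by
  rw [← comap_sup hd h1 h2 h3 h4]
  set C := c₁.coprod c₂ with hC
  have e1 := Submodule.finrank_sup_add_finrank_inf_eq (S₁ ⊔ S₂) (Submodule.map C N)
  have e2 : (S₁ ⊔ S₂) ⊓ Submodule.map C N =
      Submodule.map C (N ⊓ Submodule.comap C (S₁ ⊔ S₂)) := by
    ext x
    constructor
    · rintro ⟨hx, z, hz, rfl⟩
      exact ⟨z, ⟨hz, hx⟩, rfl⟩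
    · rintro ⟨z, ⟨hz, hz2⟩, rfl⟩
      exact ⟨hz2, z, hz, rfl⟩
  have e3 := rk_map C N
  have e4 := rk_map C (N ⊓ Submodule.comap C (S₁ ⊔ S₂))
  have e5 : N ⊓ Submodule.comap C (S₁ ⊔ S₂) ⊓ LinearMap.ker C = N ⊓ LinearMap.ker C := by
    rw [inf_assoc]
    congr 1
    rw [inf_eq_right]
    intro x hx
    rw [Submodule.mem_comap, LinearMap.mem_ker.1 hx]
    exact Submodule.zero_mem _
  have e6 := Submodule.finrank_sup_add_finrank_inf_eq S₁ S₂
  have e7 : S₁ ⊓ S₂ = ⊥ := by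
    rw [eq_bot_iff]
    rintro x ⟨hx, hy⟩
    rw [Submodule.mem_bot]
    exact ks_disj hd (h1 hx) (h2 hy)
  rw [e7, finrank_bot] at e6
  rw [e5] at e4
  rw [e2] at e1
  omega

end Pool.Agent.BW
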