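import Pool.Agent.BW.Sub

set_option autoImplicit false

/-!
# Module Exch: several exchanges at the same time

`I` is independent, `x i ∉ I` is spanned by `I`, `I - y i + x i` is independent (`i < m`), and
`I - y i + x j` is dependent for `j < i`. Then all the exchanges can be done simultaneously.

PROOF by induction on `m` (for all `I`). `m = 0` is trivial. Step `m + 1`: let
`I' = insert (x m) (I.erase (y m))`; `|I'| = |I|`, `r I' = |I'|`. We check the hypotheses for `I'`,
`m`. Write `cl` for the closure: `x ∈ cl S` iff `r (insert x S) = r S`. Facts:
 (1) `r (I ∪ I') = |I|` and `r I' = |I|`, so everything spanned by `I` is spanned by `I'`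
 (`rank_union_congr`): `r (insert (x j) I') = |I'|`.
 (2) for `j < m`: `I - y m + x j` is dependent, so `x j ∈ cl (I - y m)`.
 (3) for `i < m`: `x i ∉ cl (I - y i)`. Claim `r (insert (x i) (I'.erase (y i))) = |I'|`. If not, then
 `x i ∈ cl (I - y m - y i + x m)`. By (2) `x i ∈ cl (I - y m)`, but `x i ∉ cl (I - y m - y i)`, so
 `r (I - y m - y i + x i) = |I| - 1 = r (I - y m)` and also `r (I - y m + x i) = |I| - 1`: the set
 `I - y m - y i + x i` spans `y i`. Hence `y i ∈ cl (I - y m - y i + x m + x i) =
 cl (I - y m - y i + x m)`, and then `I'` is dependent. (As rank inequalities: submodularity for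
 `P = I - y m + x i` and `Q = I - y m - y i + x m + x i`, `P ∪ Q ⊇ I'` has rank at least `|I|`,
 `P ∩ Q ⊇ I - y m - y i + x i` has rank `|I| - 1`, `r P = |I| - 1`, so `r Q ≥ |I|`, that is
 `r (insert (x i) (I'.erase (y i))) ≥ |I|`.) This is the shortest proof.
 (4) for `j < i < m`: `r (I - y i + x j) ≤ |I| - 1` and `r (I - y m + x j) ≤ |I| - 1`; submodularity
 (union contains `I`, so rank at least `|I|`) gives `r (I - y i - y m + x j) ≤ |I| - 2`, hence
 `r (insert (x j) (I'.erase (y i))) ≤ |I| - 1`.
The induction hypothesis for `I'` gives the set `(I' \ {y 0, .., y (m-1)}) ∪ {x 0, .., x (m-1)}`,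
which is the required set for `I` (`x m` is not one of the `y i`, `y m` not one of the `x i`).
The last statement (rank of the union): both sets have rank `|I|`; induction with
`rank_union_congr`.
-/

namespace Pool.Agent.BW

open Finset
open Pool.Agent.G4 (IsRk lam dualR)

theorem exch {r : Finset ℕ → ℤ} (hr : IsRk r) (m : ℕ) (I : Finset ℕ) (x y : ℕ → ℕ)
    (hI : r I = (I.card : ℤ)) (hx : ∀ i < m, x i ∉ I) (hy : ∀ i < m, y i ∈ I)
    (hxi : ∀ i < m, ∀ j < m, x i = x j → i = j) (hyi : ∀ i < m, ∀ j < m, y i = y j → i = j)
    (hc : ∀ i < m, r (insert (x i) I) = (I.card : ℤ))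
    (he : ∀ i < m, r (insert (x i) (I.erase (y i))) = (I.card : ℤ))
    (hn : ∀ i < m, ∀ j < i, r (insert (x j) (I.erase (y i))) < (I.card : ℤ)) :
    r ((I \ (range m).image y) ∪ (range m).image x) = (I.card : ℤ) ∧
    ((I \ (range m).image y) ∪ (range m).image x).card = I.card ∧
    r (I ∪ (range m).image x) = (I.card : ℤ) := by
  induction m generalizing I with
  | zero => simp [hI]
  | succ m ih =>
    have hxm : x m ∉ I := hx m (Nat.lt_succ_self m)
    have hym : y m ∈ I := hy m (Nat.lt_succ_self m)
    obtain ⟨I', hI'⟩ : ∃ I' : Finset ℕ, I' = insert (x m) (I.erase (y m)) := ⟨_, rfl⟩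
    have hcard : I'.card = I.card := by
      rw [hI', card_insert_of_notMem (fun h => hxm (mem_of_mem_erase h)), card_erase_of_mem hym]
      have : 0 < I.card := card_pos.2 ⟨_, hym⟩
      omega
    have hrI' : r I' = (I.card : ℤ) := by
      rw [hI']
      exact he m (Nat.lt_succ_self m)
    have hyx : ∀ i < m + 1, ∀ j < m + 1, y i ≠ x j := by
      intro i hi j hj h
      exact hx j hj (h ▸ hy i hi)
    have hxne : ∀ i < m, x i ≠ x m := by
      intro i hi h
      have := hxi i (by omega) m (by omega) h
      omega
    have hyne : ∀ i < m, y i ≠ y m := by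
      intro i hi h
      have := hyi i (by omega) m (by omega) h
      omega
    have hspan : ∀ S : Finset ℕ, r (I' ∪ S) = r (I ∪ S) := by
      intro S
      have h1 : r (I ∪ S) = r (insert (x m) I ∪ S) :=
        rank_union_congr hr (subset_insert _ _) (by rw [hI, hc m (Nat.lt_succ_self m)]) S
      have h2 : r (I' ∪ S) = r (insert (x m) I ∪ S) := by
        refine rank_union_congr hr ?_ (by rw [hrI', hc m (Nat.lt_succ_self m)]) S
        rw [hI']
        exact insert_subset_insert _ (erase_subset _ _)
      rw [h1, h2]
    -- the hypotheses for `I'`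
    have hx' : ∀ i < m, x i ∉ I' := by
      intro i hi h
      rw [hI', mem_insert] at h
      rcases h with h | h
      · exact hxne i hi h
      · exact hx i (by omega) (mem_of_mem_erase h)
    have hy' : ∀ i < m, y i ∈ I' := by
      intro i hi
      rw [hI']
      exact mem_insert_of_mem (mem_erase.2 ⟨hyne i hi, hy i (by omega)⟩)
    have hc' : ∀ i < m, r (insert (x i) I') = (I'.card : ℤ) := by
      intro i hi
      have h1 := hspan {x i}
      rw [union_comm, ← insert_eq, union_comm, ← insert_eq, hc i (by omega)] at h1
      rw [h1, hcard]
    have he' : ∀ i < m, r (insert (x i) (I'.erase (y i))) = (I'.card : ℤ) := by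
      intro i hi
      apply le_antisymm
      · rw [← hc' i hi]
        exact hr.mono' (insert_subset_insert _ (erase_subset _ _))
      · rw [hcard]
        have h1 := hr.sub (insert (x i) (I.erase (y m))) (insert (x i) (I'.erase (y i)))
        have h2 : (I.card : ℤ) ≤
            r (insert (x i) (I.erase (y m)) ∪ insert (x i) (I'.erase (y i))) := by
          rw [← hrI']
          apply hr.mono'
          intro e hee
          rw [hI', mem_insert] at hee
          rcases hee with h | h
          · refine mem_union_right _ (mem_insert_of_mem (mem_erase.2 ⟨?_, ?_⟩))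
            · rw [h]
              exact (hyx i (by omega) m (by omega)).symm
            · rw [hI', h]
              exact mem_insert_self _ _
          · exact mem_union_left _ (mem_insert_of_mem h)
        have h3 : r (insert (x i) ((I.erase (y m)).erase (y i))) ≤
            r (insert (x i) (I.erase (y m)) ∩ insert (x i) (I'.erase (y i))) := by
          apply hr.mono'
          intro e hee
          rw [mem_insert] at hee
          rcases hee with h | h
          · rw [h]
            exact mem_inter.2 ⟨mem_insert_self _ _, mem_insert_self _ _⟩
          · rw [mem_erase] at h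
            refine mem_inter.2 ⟨mem_insert_of_mem h.2,
              mem_insert_of_mem (mem_erase.2 ⟨h.1, ?_⟩)⟩
            rw [hI']
            exact mem_insert_of_mem h.2
        have h4 : (I.card : ℤ) ≤ r (insert (x i) ((I.erase (y m)).erase (y i))) + 1 := by
          have h5 := hr.unit (insert (x i) ((I.erase (y m)).erase (y i))) (y m)
          have h6 : r (insert (x i) (I.erase (y i))) ≤
              r (insert (y m) (insert (x i) ((I.erase (y m)).erase (y i)))) := by
            apply hr.mono'
            intro e hee
            rw [mem_insert, mem_erase] at hee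
            rw [mem_insert, mem_insert, mem_erase, mem_erase]
            by_cases hem : e = y m
            · exact Or.inl hem
            · rcases hee with h | h
              · exact Or.inr (Or.inl h)
              · exact Or.inr (Or.inr ⟨h.1, hem, h.2⟩)
          rw [he i (by omega)] at h6
          omega
        have h7 := hn m (by omega) i hi
        omega
    have hn' : ∀ i < m, ∀ j < i, r (insert (x j) (I'.erase (y i))) < (I'.card : ℤ) := by
      intro i hi j hj
      rw [hcard]
      have h1 := hr.sub (insert (x j) (I.erase (y i))) (insert (x j) (I.erase (y m)))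
      have h2 : (I.card : ℤ) ≤
          r (insert (x j) (I.erase (y i)) ∪ insert (x j) (I.erase (y m))) := by
        rw [← hI]
        apply hr.mono'
        intro e hee
        by_cases hem : e = y m
        · refine mem_union_left _ (mem_insert_of_mem (mem_erase.2 ⟨?_, hee⟩))
          rw [hem]
          exact (hyne i hi).symm
        · exact mem_union_right _ (mem_insert_of_mem (mem_erase.2 ⟨hem, hee⟩))
      have h3 : r (insert (x j) ((I.erase (y m)).erase (y i))) ≤
          r (insert (x j) (I.erase (y i)) ∩ insert (x j) (I.erase (y m))) := by
        apply hr.mono'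
        intro e hee
        rw [mem_insert, mem_erase, mem_erase] at hee
        rw [mem_inter, mem_insert, mem_insert, mem_erase, mem_erase]
        rcases hee with h | h
        · exact ⟨Or.inl h, Or.inl h⟩
        · exact ⟨Or.inr ⟨h.1, h.2.2⟩, Or.inr h.2⟩
      have h4 := hn i (by omega) j hj
      have h5 := hn m (by omega) j (by omega)
      have h6 := hr.unit (insert (x j) ((I.erase (y m)).erase (y i))) (x m)
      have h7 : r (insert (x j) (I'.erase (y i))) ≤
          r (insert (x m) (insert (x j) ((I.erase (y m)).erase (y i)))) := by
        apply hr.mono'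
        intro e hee
        rw [hI', mem_insert, mem_erase, mem_insert] at hee
        rw [mem_insert, mem_insert, mem_erase]
        rcases hee with h | ⟨h, h' | h'⟩
        · exact Or.inr (Or.inl h)
        · exact Or.inl h'
        · exact Or.inr (Or.inr ⟨h, h'⟩)
      omega
    obtain ⟨g1, g2, g3⟩ := ih I' (by rw [hrI', hcard]) hx' hy'
      (fun i hi j hj => hxi i (by omega) j (by omega))
      (fun i hi j hj => hyi i (by omega) j (by omega)) hc' he' hn'
    have hset : (I \ (range (m + 1)).image y) ∪ (range (m + 1)).image x =
        (I' \ (range m).image y) ∪ (range m).image x := by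
      rw [range_add_one, image_insert, image_insert, hI']
      ext e
      simp only [mem_union, mem_sdiff, mem_insert, mem_image, mem_range, mem_erase]
      constructor
      · rintro (⟨h1, h2⟩ | h | h)
        · left
          exact ⟨Or.inr ⟨fun h => h2 (Or.inl h), h1⟩, fun h => h2 (Or.inr h)⟩
        · left
          refine ⟨Or.inl h, ?_⟩
          rintro ⟨i, hi, hi'⟩
          exact hyx i (by omega) m (by omega) (hi'.trans h)
        · exact Or.inr h
      · rintro (⟨h1 | h1, h2⟩ | h)
        · exact Or.inr (Or.inl h1)
        · left
          refine ⟨h1.2, ?_⟩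
          rintro (h3 | h3)
          · exact h1.1 h3
          · exact h2 h3
        · exact Or.inr (Or.inr h)
    rw [hset]
    refine ⟨by rw [g1, hcard], by rw [g2, hcard], ?_⟩
    rw [← hspan, ← hcard, ← g3]
    congr 1
    rw [range_add_one, image_insert, union_insert, insert_eq_of_mem]
    rw [hI']
    exact mem_union_left _ (mem_insert_self _ _)

end Pool.Agent.BW
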