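import Pool.Agent.BW.FamL

set_option autoImplicit false

/-!
# Module FamD: complete families for all sets of small connectivity

`D` sublist of `E` with `lam D ≤ 3 k + 1`. If `D = []` the family `[[]]` is complete for the empty
set. Otherwise `osFam_spec`, `linkL_spec` (`m = 3 k + 1`), and `D` itself is a member (as list: the
member with the finset `D` is `D` by `can_ext`), `famL_sub`, `famL_complete`, `rkV_congr`.
-/

namespace Pool.Agent.BW

open Finset
open Pool.Agent.G4 (IsRk lam dualR nor dif word prd)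

variable {K V : Type} [Field K] [Finite K] [AddCommGroup V] [Module K V] {v : ℕ → V}
variable {E D : List ℕ} {ρ : List ℕ → ℕ} {k : ℕ}

/-- the number of rounds -/
noncomputable def rnd (K : Type) [Field K] (k : ℕ) : ℕ := (nSub K (3 * k + 1) + 1) ^ (3 * k + 1 + 1)

private theorem fam_ok (hE : E.Nodup) (hρ : RkS ρ E (rkV K v)) (hk : 1 ≤ k)
    (hd : Dec (rkV K v) E.toFinset k E.toFinset) (hD : D.Sublist E) (hne : D ≠ [])
    (hl : lam (rkV K v) E.toFinset D.toFinset ≤ 3 * k + 1) :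
    FamOK (rkV K v) E (3 * k + 1) D.toFinset (linkL ρ E (3 * k + 1) (osFam ρ E k D)) ∧
    Linked (rkV K v) E.toFinset (famF (linkL ρ E (3 * k + 1) (osFam ρ E k D))) ∧
    D ∈ linkL ρ E (3 * k + 1) (osFam ρ E k D) := by
  have h1 := osFam_spec (isRk_rkV v) hE hρ hk hd hD hne hl
  obtain ⟨h2, h3⟩ := linkL_spec (isRk_rkV v) hE hρ h1
  refine ⟨h2, h3, ?_⟩
  obtain ⟨B, hB, hBD⟩ := mem_famF.1 h2.bin.top
  have h4 : ∀ F : List (List ℕ), B ∈ F → B = D → D ∈ F := by
    rintro F h rfl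
    exact h
  exact h4 _ hB (can_ext hE (h2.sub B hB) hD hBD)

private theorem famD_nil {c : ℕ} : famD ρ E k c [] = [[]] := rfl

private theorem famD_ne {c : ℕ} (hne : D ≠ []) :
    famD ρ E k c D = famL ρ E (linkL ρ E (3 * k + 1) (osFam ρ E k D)) c D := by
  unfold famD
  rw [if_neg]
  rw [List.isEmpty_iff]
  exact hne

theorem famD_sub (hE : E.Nodup) (hρ : RkS ρ E (rkV K v)) (hk : 1 ≤ k)
    (hd : Dec (rkV K v) E.toFinset k E.toFinset) (hD : D.Sublist E)
    (hl : lam (rkV K v) E.toFinset D.toFinset ≤ 3 * k + 1) (G : List ℕ)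
    (hG : G ∈ famD ρ E k (rnd K k) D) : G.Sublist E ∧ G.toFinset ⊆ D.toFinset := by
  by_cases hne : D = []
  · subst hne
    rw [famD_nil, List.mem_singleton] at hG
    subst hG
    exact ⟨List.nil_sublist _, Finset.Subset.refl _⟩
  · rw [famD_ne hne] at hG
    obtain ⟨h1, _, h3⟩ := fam_ok hE hρ hk hd hD hne hl
    exact famL_sub hE hρ h1 h3 G hG

theorem famD_cov (hE : E.Nodup) (hρ : RkS ρ E (rkV K v)) (hk : 1 ≤ k)
    (hd : Dec (rkV K v) E.toFinset k E.toFinset) (hD : D.Sublist E)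
    (hl : lam (rkV K v) E.toFinset D.toFinset ≤ 3 * k + 1) :
    Cov (rkV K v) E.toFinset D.toFinset {G | ∃ L ∈ famD ρ E k (rnd K k) D, L.toFinset = G} := by
  refine ⟨?_, ?_⟩
  · rintro _ ⟨L, hL, rfl⟩
    exact (famD_sub hE hρ hk hd hD hl L hL).2
  · intro F hF
    by_cases hne : D = []
    · subst hne
      refine ⟨F, ⟨[], ?_, ?_⟩, fun H _ => rfl⟩
      · rw [famD_nil]
        exact List.mem_singleton.2 rfl
      · rw [List.toFinset_nil] at hF ⊢
        exact (Finset.subset_empty.1 hF).symm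
    · obtain ⟨h1, h2, h3⟩ := fam_ok hE hρ hk hd hD hne hl
      obtain ⟨G', hG', ht⟩ := famL_complete hE hρ h1 h2 h3 F hF
      refine ⟨G'.toFinset, ⟨G', ?_, rfl⟩, fun H hH => ?_⟩
      · rw [famD_ne hne]
        exact hG'
      · refine rkV_congr v (famL_sub hE hρ h1 h3 G' hG').2 hF ?_ ht hH
        intro x hx
        rw [List.mem_toFinset] at hx ⊢
        exact hD.subset hx

end Pool.Agent.BW
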