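import Pool.Agent.BW.Tr1
import Pool.Agent.BW.CutM

set_option autoImplicit false

/-!
# Module Tr2: linking sets give bijections between the sets of traces
-/

namespace Pool.Agent.BW

open Finset Module
open Pool.Agent.G4 (IsRk lam dualR)

variable {K V : Type} [Field K] [AddCommGroup V] [Module K V] {v : ℕ → V}
variable {E A C D F I Z : Finset ℕ}

private theorem lk_sub (h : IsCut (rkV K v) E A (E \ C) I Z) : I ⊆ C \ A := by
  intro x hx
  have h3 := mem_sdiff.1 (h.IE hx)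
  have h4 := h3.2
  rw [mem_union, not_or, mem_sdiff, not_and, not_not] at h4
  exact mem_sdiff.2 ⟨h4.2 h3.1, h4.1⟩

private theorem lk_data (hA : A ⊆ C) (hC : C ⊆ E) (h : IsCut (rkV K v) E A (E \ C) I Z)
    (h1 : lam (rkV K v) E Z = lam (rkV K v) E A) :
    sp K v A ⊓ sp K v I = ⊥ ∧ gut K v E A ≤ gut K v E C ⊔ sp K v I := by
  have hr : IsRk (rkV K v) := isRk_rkV v
  have hI := lk_sub h
  have hspan := IsCut.span hr h (hA.trans hC) sdiff_subset
  have rI : rkV K v I ≤ (I.card : ℤ) := hr.le_card I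
  have rA := h.rA
  have rB := h.rB
  have heq := h.eq
  have gA := finrank_gut (K := K) v (hA.trans hC)
  have fA := Submodule.finrank_sup_add_finrank_inf_eq (sp K v A) (sp K v I)
  rw [← sp_union] at fA
  have hd : sp K v A ⊓ sp K v I = ⊥ := by
    have h3 : finrank K (sp K v A ⊓ sp K v I : Submodule K V) = 0 := by
      unfold rkV at rA rI
      omega
    exact Submodule.finrank_eq_zero.1 h3
  refine ⟨hd, ?_⟩
  have fQ := Submodule.finrank_sup_add_finrank_inf_eq (sp K v (A ∪ I)) (sp K v ((E \ C) ∪ I))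
  rw [← sp_union] at fQ
  have e1 : A ∪ I ∪ ((E \ C) ∪ I) = A ∪ (E \ C) ∪ I := by
    ext x
    simp only [mem_union]
    tauto
  rw [e1] at fQ
  have hQA : sp K v (A ∪ I) ⊓ sp K v ((E \ C) ∪ I) ≤ gut K v E A ⊔ sp K v I := by
    intro x hx
    obtain ⟨hx1, hx2⟩ := Submodule.mem_inf.mp hx
    rw [sp_union] at hx1
    obtain ⟨a, ha, i, hi, rfl⟩ := Submodule.mem_sup.mp hx1
    refine Submodule.add_mem_sup ?_ hi
    refine Submodule.mem_inf.mpr ⟨ha, ?_⟩
    have s1 : (E \ C) ∪ I ⊆ E \ A := union_subset (sdiff_subset_sdiff (Subset.refl _) hA)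
      (hI.trans (sdiff_subset_sdiff hC (Subset.refl _)))
    have s2 : I ⊆ E \ A := hI.trans (sdiff_subset_sdiff hC (Subset.refl _))
    have h4 := Submodule.sub_mem _ (sp_mono v s1 hx2) (sp_mono v s2 hi)
    rwa [add_sub_cancel_right] at h4
  have hQC : sp K v (A ∪ I) ⊓ sp K v ((E \ C) ∪ I) ≤ gut K v E C ⊔ sp K v I := by
    intro x hx
    obtain ⟨hx1, hx2⟩ := Submodule.mem_inf.mp hx
    rw [sp_union] at hx2
    obtain ⟨b, hb, i, hi, rfl⟩ := Submodule.mem_sup.mp hx2
    refine Submodule.add_mem_sup ?_ hi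
    refine Submodule.mem_inf.mpr ⟨?_, hb⟩
    have s1 : A ∪ I ⊆ C := union_subset hA (hI.trans sdiff_subset)
    have s2 : I ⊆ C := hI.trans sdiff_subset
    have h4 := Submodule.sub_mem _ (sp_mono v s1 hx1) (sp_mono v s2 hi)
    rwa [add_sub_cancel_right] at h4
  have hfin : FiniteDimensional K (gut K v E A) := by
    unfold gut
    exact Submodule.finiteDimensional_inf_left _ _
  have hfin2 : FiniteDimensional K (gut K v E A ⊔ sp K v I : Submodule K V) :=
    Submodule.finiteDimensional_sup _ _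
  have hle := Submodule.finrank_add_le_finrank_add_finrank (gut K v E A) (sp K v I)
  have hQ : sp K v (A ∪ I) ⊓ sp K v ((E \ C) ∪ I) = gut K v E A ⊔ sp K v I := by
    refine Submodule.eq_of_le_of_finrank_le hQA ?_
    unfold rkV at rA rI rB heq hspan
    unfold rkV at gA h1
    omega
  exact le_sup_left.trans (hQ.ge.trans hQC)

theorem link_back (hA : A ⊆ C) (hC : C ⊆ E) (h : IsCut (rkV K v) E A (E \ C) I Z)
    (h1 : lam (rkV K v) E Z = lam (rkV K v) E A) (h2 : lam (rkV K v) E Z = lam (rkV K v) E C)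
    (T : Submodule K V) (hT : T ≤ gut K v E A) :
    ((T ⊔ sp K v I) ⊓ gut K v E C ⊔ sp K v I) ⊓ gut K v E A = T := by
  obtain ⟨hd, hg⟩ := lk_data hA hC h h1
  have hTA : T ≤ sp K v A := hT.trans inf_le_left
  apply le_antisymm
  · intro x hx
    obtain ⟨hx1, hx2⟩ := Submodule.mem_inf.mp hx
    obtain ⟨u, hu, i, hi, rfl⟩ := Submodule.mem_sup.mp hx1
    obtain ⟨t, ht, i', hi', rfl⟩ := Submodule.mem_sup.mp (Submodule.mem_inf.mp hu).1
    have h4 : t + i' + i ∈ sp K v A := (Submodule.mem_inf.mp hx2).1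
    have h5 : i' + i ∈ sp K v A ⊓ sp K v I := by
      refine Submodule.mem_inf.mpr ⟨?_, Submodule.add_mem _ hi' hi⟩
      have h6 := Submodule.sub_mem _ h4 (hTA ht)
      have e : t + i' + i - t = i' + i := by abel
      rwa [e] at h6
    rw [hd, Submodule.mem_bot] at h5
    rw [add_assoc, h5, add_zero]
    exact ht
  · intro t ht
    refine Submodule.mem_inf.mpr ⟨?_, hT ht⟩
    obtain ⟨u, hu, i, hi, hx⟩ := Submodule.mem_sup.mp (hg (hT ht))
    rw [← hx]
    refine Submodule.add_mem_sup ?_ hi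
    refine Submodule.mem_inf.mpr ⟨?_, hu⟩
    have e : u = t + -i := by
      rw [← hx]
      abel
    rw [e]
    exact Submodule.add_mem_sup ht (Submodule.neg_mem _ hi)

theorem traces_finite (v : ℕ → V) (E D : Finset ℕ) :
    {T : Submodule K V | ∃ F ⊆ D, tr K v E D F = T}.Finite := by
  refine (D.powerset.finite_toSet.image (fun F => tr K v E D F)).subset ?_
  rintro T ⟨F, hF, rfl⟩
  exact ⟨F, by simpa using hF, rfl⟩

private theorem lk_maps (hA : A ⊆ C) (hC : C ⊆ E) (h : IsCut (rkV K v) E A (E \ C) I Z)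
    (G : Finset ℕ) (hG : G ⊆ A) :
    tr K v E C (G ∪ I) = (tr K v E A G ⊔ sp K v I) ⊓ gut K v E C :=
  tr_link v hG hA hC (lk_sub h)

private theorem lk_inj (hA : A ⊆ C) (hC : C ⊆ E) (h : IsCut (rkV K v) E A (E \ C) I Z)
    (h1 : lam (rkV K v) E Z = lam (rkV K v) E A) (h2 : lam (rkV K v) E Z = lam (rkV K v) E C) :
    Set.InjOn (fun T : Submodule K V => (T ⊔ sp K v I) ⊓ gut K v E C)
      {T : Submodule K V | ∃ F ⊆ A, tr K v E A F = T} := by
  rintro T ⟨F, _, rfl⟩ T' ⟨F', _, rfl⟩ hT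
  have h3 := link_back hA hC h h1 h2 (tr K v E A F) inf_le_right
  have h4 := link_back hA hC h h1 h2 (tr K v E A F') inf_le_right
  have h5 : (tr K v E A F ⊔ sp K v I) ⊓ gut K v E C =
      (tr K v E A F' ⊔ sp K v I) ⊓ gut K v E C := hT
  rw [← h3, ← h4, h5]

private theorem lk_image (hA : A ⊆ C) (hC : C ⊆ E) (h : IsCut (rkV K v) E A (E \ C) I Z) :
    (fun T : Submodule K V => (T ⊔ sp K v I) ⊓ gut K v E C) ''
      {T : Submodule K V | ∃ F ⊆ A, tr K v E A F = T} ⊆
      {T : Submodule K V | ∃ F ⊆ C, tr K v E C F = T} := by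
  rintro _ ⟨_, ⟨F, hF, rfl⟩, rfl⟩
  exact ⟨F ∪ I, union_subset (hF.trans hA) ((lk_sub h).trans sdiff_subset), lk_maps hA hC h F hF⟩

theorem link_card (hA : A ⊆ C) (hC : C ⊆ E) (h : IsCut (rkV K v) E A (E \ C) I Z)
    (h1 : lam (rkV K v) E Z = lam (rkV K v) E A) (h2 : lam (rkV K v) E Z = lam (rkV K v) E C) :
    nTr K v E A ≤ nTr K v E C := by
  unfold nTr
  rw [← (lk_inj hA hC h h1 h2).ncard_image]
  exact Set.ncard_le_ncard (lk_image hA hC h) (traces_finite v E C)

theorem link_surj (hA : A ⊆ C) (hC : C ⊆ E) (h : IsCut (rkV K v) E A (E \ C) I Z)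
    (h1 : lam (rkV K v) E Z = lam (rkV K v) E A) (h2 : lam (rkV K v) E Z = lam (rkV K v) E C)
    (h3 : nTr K v E A = nTr K v E C) (F : Finset ℕ) (hF : F ⊆ C) :
    ∃ G ⊆ A, tr K v E C (G ∪ I) = tr K v E C F := by
  have h4 : (fun T : Submodule K V => (T ⊔ sp K v I) ⊓ gut K v E C) ''
      {T : Submodule K V | ∃ F ⊆ A, tr K v E A F = T} =
      {T : Submodule K V | ∃ F ⊆ C, tr K v E C F = T} := by
    refine Set.eq_of_subset_of_ncard_le (lk_image hA hC h) ?_ (traces_finite v E C)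
    rw [(lk_inj hA hC h h1 h2).ncard_image]
    exact h3.ge
  have h5 : tr K v E C F ∈ {T : Submodule K V | ∃ F ⊆ C, tr K v E C F = T} := ⟨F, hF, rfl⟩
  rw [← h4] at h5
  obtain ⟨_, ⟨G, hG, rfl⟩, h6⟩ := h5
  exact ⟨G, hG, (lk_maps hA hC h G hG).trans h6⟩

end Pool.Agent.BW
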