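import Pool.Agent.BW.Tr1

set_option autoImplicit false

/-!
# Module Tr3: the number of traces

The traces in `D` are subspaces of `gut D`, which embeds into `K ^ m`.
-/

namespace Pool.Agent.BW

open Finset Module
open Pool.Agent.G4 (IsRk lam dualR)

/-- the number of subspaces of `K ^ m` -/
noncomputable def nSub (K : Type) [Field K] (m : ℕ) : ℕ := Nat.card (Submodule K (Fin m → K))

private theorem tr3_fin (K : Type) [Field K] [Finite K] (m : ℕ) :
    Finite (Submodule K (Fin m → K)) :=
  Finite.of_injective (fun W : Submodule K (Fin m → K) => (W : Set (Fin m → K)))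
    SetLike.coe_injective

/-- an injection of the subspaces of the guts -/
private theorem tr3_inj {K V : Type} [Field K] [AddCommGroup V] [Module K V] (v : ℕ → V)
    {E D : Finset ℕ} (hD : D ⊆ E) {m : ℕ} (h : lam (rkV K v) E D ≤ m) :
    ∃ g : Submodule K V → Submodule K (Fin m → K),
      ∀ S ≤ gut K v E D, ∀ T ≤ gut K v E D, g S = g T → S = T := by
  have h1 : finrank K (gut K v E D) ≤ m := by
    have := finrank_gut (K := K) v hD
    omega
  have hfd : FiniteDimensional K (gut K v E D) := by
    unfold gut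
    exact Submodule.finiteDimensional_inf_left _ _
  have h2 : finrank K (gut K v E D) ≤ finrank K (Fin m → K) := by
    rw [Module.finrank_fin_fun]
    exact h1
  obtain ⟨f, hf⟩ := finrank_le_iff_exists_linearMap.mp h2
  refine ⟨fun S => (S.comap (gut K v E D).subtype).map f, ?_⟩
  intro S hS T hT hST
  have h3 : S.comap (gut K v E D).subtype = T.comap (gut K v E D).subtype :=
    Submodule.map_injective_of_injective hf hST
  have h4 : (S.comap (gut K v E D).subtype).map (gut K v E D).subtype =
      (T.comap (gut K v E D).subtype).map (gut K v E D).subtype := by rw [h3]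
  rw [Submodule.map_comap_subtype, Submodule.map_comap_subtype, inf_eq_right.2 hS,
    inf_eq_right.2 hT] at h4
  exact h4

private theorem tr3_le {K V : Type} [Field K] [AddCommGroup V] [Module K V] (v : ℕ → V)
    (E D F : Finset ℕ) : tr K v E D F ≤ gut K v E D := by
  unfold tr
  exact inf_le_right

theorem nTr_le {K V : Type} [Field K] [Finite K] [AddCommGroup V] [Module K V] (v : ℕ → V)
    {E D : Finset ℕ} (hD : D ⊆ E) {m : ℕ} (h : lam (rkV K v) E D ≤ m) :
    nTr K v E D ≤ nSub K m := by
  have := tr3_fin K m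
  obtain ⟨g, hg⟩ := tr3_inj v hD h
  unfold nTr nSub
  rw [← Set.ncard_univ]
  refine Set.ncard_le_ncard_of_injOn g (fun _ _ => Set.mem_univ _) ?_ Set.finite_univ
  rintro S ⟨F, _, rfl⟩ T ⟨G, _, rfl⟩ hST
  exact hg _ (tr3_le v E D F) _ (tr3_le v E D G) hST

/-- a family with a member for every equivalence class is not larger than the number of traces -/
theorem card_le_of_inequiv {K V : Type} [Field K] [Finite K] [AddCommGroup V] [Module K V]
    (v : ℕ → V) {E D : Finset ℕ} (hD : D ⊆ E) {m : ℕ} (h : lam (rkV K v) E D ≤ m)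
    (R : Finset (Finset ℕ)) (hR : ∀ F ∈ R, F ⊆ D)
    (hi : ∀ F ∈ R, ∀ G ∈ R, (∀ H ⊆ E \ D, rkV K v (F ∪ H) - rkV K v F =
      rkV K v (G ∪ H) - rkV K v G) → F = G) : R.card ≤ nSub K m := by
  have := tr3_fin K m
  obtain ⟨g, hg⟩ := tr3_inj v hD h
  unfold nSub
  rw [← Set.ncard_univ, ← Set.ncard_coe_finset]
  refine Set.ncard_le_ncard_of_injOn (fun F => g (tr K v E D F)) (fun _ _ => Set.mem_univ _) ?_
    Set.finite_univ
  intro F hF G hG hFG
  have hF' := Finset.mem_coe.1 hF
  have hG' := Finset.mem_coe.1 hG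
  have h5 : tr K v E D F = tr K v E D G :=
    hg _ (tr3_le v E D F) _ (tr3_le v E D G) hFG
  exact hi F hF' G hG' fun H hH => rkV_congr v (hR F hF') (hR G hG') hD h5 hH

end Pool.Agent.BW
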