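import Pool.Agent.BW.LnkL
import Pool.Agent.BW.Tr2
import Pool.Agent.BW.Tr3
import Pool.Agent.BW.Dbl

set_option autoImplicit false

/-!
# Module FamL: complete families of subsets

`r = rkV K v`. `hF : FamOK`, linked.

`famL_sub`: all the elements of `famL ρ E F j C` are sublists of `E` contained in `C` (induction on
`j`: `uni E G I` with `G ⊆ A ⊆ C`, `I = linkI ρ E A (dif E C) ⊆ C \ A` by `cut_spec`).

`famL_complete`: `R j X` := for all `C ∈ F` with `C.toFinset = X` and all `G ⊆ X` there is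
`G' ∈ famL ρ E F j C` with `tr (G') = tr G` in `X`. Apply `double_ind` (`lm = lam r E`,
`cn X = nTr K v E X ≤ nSub K m` by `nTr_le`, `0 ≤ lam`):
 * `mono`: `famL .. j C ⊆ famL .. (j + 1) C`.
 * `link`: let `A ⊆ C` be members with `lam A = lam C`, all members between have `lam ≥ lam C`.
 `Linked` gives a member `B` between with `lam B ≤ lam Y` for all `Y` between; so `lam C ≤ lam Y`.
 `cut_spec` for `A`, `dif E C`: `I`, `Z` with `IsCut`; `lam Z ≤ lam A` (`le_left`) and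
 `lam Z ≥ lam C`, so `lam Z = lam A = lam C`. `link_card`.
 * `node`: in addition `nTr A = nTr C`, `A = A₁ ∪ A₂`. `G ⊆ C`: `link_surj` gives `H ⊆ A` with
 `tr C (H ∪ I) = tr C G`. `H = (H ∩ A₁) ∪ (H ∩ A₂)`, and `R j A₁`, `R j A₂` give `G₁`, `G₂` in the
 lists with the same traces; `tr A (G₁ ∪ G₂) = tr A H` (`tr_union`), so
 `tr C (G₁ ∪ G₂ ∪ I) = tr C (H ∪ I)` (`tr_link`). The list of `G₁ ∪ G₂ ∪ I` is in `famL .. (j + 1) C`
 (`mem_chl`; `uni E (G₁ ++ G₂) I`).
 * `leaf`: `|A| = 1`: `H ⊆ A` is `∅` or `A`, both in the list `[[], A]`.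
`famL_cov`: `rkV_congr`.
-/

namespace Pool.Agent.BW

open Finset
open Pool.Agent.G4 (IsRk lam dualR nor dif word prd)

variable {K V : Type} [Field K] [Finite K] [AddCommGroup V] [Module K V] {v : ℕ → V}
variable {E C : List ℕ} {D : Finset ℕ} {F : List (List ℕ)} {ρ : List ℕ → ℕ} {m j : ℕ}

private theorem mem_famL {G : List ℕ} : G ∈ famL ρ E F (j + 1) C ↔ G ∈ famL ρ E F j C ∨
    ∃ A ∈ F, leB A C = true ∧ ∃ G₀, ((A.length ≤ 1 ∧ (G₀ = [] ∨ G₀ = A)) ∨
      ∃ p ∈ chl E F A, ∃ G₁ ∈ famL ρ E F j p.1, ∃ G₂ ∈ famL ρ E F j p.2, G₁ ++ G₂ = G₀) ∧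
      uni E G₀ (linkI ρ E A (dif E C)) = G := by
  rw [famL, List.mem_append]
  refine or_congr Iff.rfl ?_
  simp only [List.mem_flatMap, List.mem_filter, List.mem_map, List.mem_append]
  constructor
  · rintro ⟨A, ⟨hA, hAC⟩, G₀, hG₀, hG⟩
    refine ⟨A, hA, hAC, G₀, ?_, hG⟩
    rcases hG₀ with h | ⟨p, hp, G₁, h1, G₂, h2, h3⟩
    · left
      by_cases hl : A.length ≤ 1
      · rw [if_pos hl] at h
        simp only [List.mem_cons, List.not_mem_nil, or_false] at h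
        exact ⟨hl, h⟩
      · rw [if_neg hl] at h
        simp at h
    · exact Or.inr ⟨p, hp, G₁, h1, G₂, h2, h3⟩
  · rintro ⟨A, hA, hAC, G₀, hG₀, hG⟩
    refine ⟨A, ⟨hA, hAC⟩, G₀, ?_, hG⟩
    rcases hG₀ with ⟨hl, h⟩ | ⟨p, hp, G₁, h1, G₂, h2, h3⟩
    · left
      rw [if_pos hl]
      simp only [List.mem_cons, List.not_mem_nil, or_false]
      exact h
    · exact Or.inr ⟨p, hp, G₁, h1, G₂, h2, h3⟩

private theorem cut_aux {A : List ℕ} (hE : E.Nodup) (hρ : RkS ρ E (rkV K v))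
    (hF : FamOK (rkV K v) E m D F) (hA : A ∈ F) (hAC : A.toFinset ⊆ C.toFinset) :
    IsCut (rkV K v) E.toFinset A.toFinset (E.toFinset \ C.toFinset)
      (linkI ρ E A (dif E C)).toFinset (cutZ ρ E A (dif E C)).toFinset := by
  have h := cut_spec (A := A) (B := dif E C) (isRk_rkV v) hE hρ (hF.sub A hA).subset
    (dif_sub (S := E) (T := C)).subset (by
      rw [toF_dif]
      rw [Finset.disjoint_left]
      intro x hx hx'
      exact (Finset.mem_sdiff.1 hx').2 (hAC hx))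
  rw [toF_dif] at h
  exact h

private theorem linkI_le {A : List ℕ} (hE : E.Nodup) (hρ : RkS ρ E (rkV K v))
    (hF : FamOK (rkV K v) E m D F) (hA : A ∈ F) (hAC : A.toFinset ⊆ C.toFinset) :
    (linkI ρ E A (dif E C)).toFinset ⊆ C.toFinset \ A.toFinset := by
  intro x hx
  have h := (cut_aux (C := C) hE hρ hF hA hAC).IE hx
  rw [Finset.mem_sdiff, Finset.mem_union, not_or] at h
  rw [Finset.mem_sdiff]
  refine ⟨?_, h.2.1⟩
  by_contra hc
  exact h.2.2 (Finset.mem_sdiff.2 ⟨h.1, hc⟩)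

private theorem toF_le {A : List ℕ} (hF : FamOK (rkV K v) E m D F) (hA : A ∈ F) :
    A.toFinset ⊆ E.toFinset := by
  intro x hx
  rw [List.mem_toFinset] at hx ⊢
  exact (hF.sub A hA).subset hx

theorem famL_sub (hE : E.Nodup) (hρ : RkS ρ E (rkV K v)) (hF : FamOK (rkV K v) E m D F)
    (hC : C ∈ F) (G : List ℕ) (hG : G ∈ famL ρ E F j C) :
    G.Sublist E ∧ G.toFinset ⊆ C.toFinset := by
  induction j generalizing C G with
  | zero =>
    rw [famL, List.mem_singleton] at hG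
    subst hG
    exact ⟨List.nil_sublist _, by simp⟩
  | succ j ih =>
    rw [mem_famL] at hG
    rcases hG with hG | ⟨A, hA, hAC, G₀, hG₀, rfl⟩
    · exact ih hC G hG
    · rw [leB_iff] at hAC
      refine ⟨uni_sub, ?_⟩
      have hI := linkI_le (C := C) hE hρ hF hA hAC
      have h0 : G₀.toFinset ⊆ A.toFinset := by
        rcases hG₀ with ⟨_, rfl | rfl⟩ | ⟨p, hp, G₁, h1, G₂, h2, rfl⟩
        · simp
        · exact Finset.Subset.refl _
        · rw [mem_chl hE hF.sub (hF.sub A hA)] at hp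
          obtain ⟨⟨hp1, hp2⟩, _, hu⟩ := hp
          rw [List.toFinset_append, ← hu]
          exact Finset.union_subset_union (ih hp1 G₁ h1).2 (ih hp2 G₂ h2).2
      intro x hx
      rw [List.mem_toFinset, mem_uni] at hx
      rcases hx.2 with h3 | h3
      · exact hAC (h0 (List.mem_toFinset.2 h3))
      · exact (Finset.mem_sdiff.1 (hI (List.mem_toFinset.2 h3))).1

private theorem link_cut {A : List ℕ} (hE : E.Nodup) (hρ : RkS ρ E (rkV K v))
    (hF : FamOK (rkV K v) E m D F) (hL : Linked (rkV K v) E.toFinset (famF F)) (hA : A ∈ F)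
    (hC : C ∈ F) (hAC : A.toFinset ⊆ C.toFinset)
    (hl : lam (rkV K v) E.toFinset A.toFinset = lam (rkV K v) E.toFinset C.toFinset)
    (hm : ∀ B ∈ famF F, A.toFinset ⊆ B → B ⊆ C.toFinset →
      lam (rkV K v) E.toFinset C.toFinset ≤ lam (rkV K v) E.toFinset B) :
    ∃ Z, IsCut (rkV K v) E.toFinset A.toFinset (E.toFinset \ C.toFinset)
      (linkI ρ E A (dif E C)).toFinset Z ∧
      lam (rkV K v) E.toFinset Z = lam (rkV K v) E.toFinset A.toFinset ∧
      lam (rkV K v) E.toFinset Z = lam (rkV K v) E.toFinset C.toFinset := by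
  have h := cut_aux (C := C) hE hρ hF hA hAC
  refine ⟨_, h, ?_⟩
  have hle := h.le_left (isRk_rkV v) (toF_le hF hA) Finset.sdiff_subset (by
    rw [Finset.disjoint_left]
    intro x hx hx'
    exact (Finset.mem_sdiff.1 hx').2 (hAC hx))
  obtain ⟨B, hB, hAB, hBC, hBm⟩ := hL A.toFinset (mem_famF.2 ⟨A, hA, rfl⟩) C.toFinset
    (mem_famF.2 ⟨C, hC, rfl⟩) hAC
  have h1 := hm B hB hAB hBC
  have h2 := hBm (cutZ ρ E A (dif E C)).toFinset h.AZ (by
    intro x hx
    by_contra hc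
    exact Finset.disjoint_left.1 h.ZB hx (Finset.mem_sdiff.2 ⟨h.ZE hx, hc⟩))
  constructor <;> omega

/-- one step of the completeness proof: all traces in `A` are given by lists `G₀` -/
private theorem step_aux {A : List ℕ} (hE : E.Nodup) (hρ : RkS ρ E (rkV K v))
    (hF : FamOK (rkV K v) E m D F) (hL : Linked (rkV K v) E.toFinset (famF F)) (hA : A ∈ F)
    (hC : C ∈ F) (hAC : A.toFinset ⊆ C.toFinset)
    (hl : lam (rkV K v) E.toFinset A.toFinset = lam (rkV K v) E.toFinset C.toFinset)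
    (hm : ∀ B ∈ famF F, A.toFinset ⊆ B → B ⊆ C.toFinset →
      lam (rkV K v) E.toFinset C.toFinset ≤ lam (rkV K v) E.toFinset B)
    (hn : nTr K v E.toFinset A.toFinset = nTr K v E.toFinset C.toFinset)
    (hH : ∀ H ⊆ A.toFinset, ∃ G₀ : List ℕ, ((A.length ≤ 1 ∧ (G₀ = [] ∨ G₀ = A)) ∨
      ∃ p ∈ chl E F A, ∃ G₁ ∈ famL ρ E F j p.1, ∃ G₂ ∈ famL ρ E F j p.2, G₁ ++ G₂ = G₀) ∧
      G₀.toFinset ⊆ A.toFinset ∧
      tr K v E.toFinset A.toFinset G₀.toFinset = tr K v E.toFinset A.toFinset H)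
    (G : Finset ℕ) (hG : G ⊆ C.toFinset) :
    ∃ G' ∈ famL ρ E F (j + 1) C,
      tr K v E.toFinset C.toFinset G'.toFinset = tr K v E.toFinset C.toFinset G := by
  obtain ⟨Z, hZ, h1, h2⟩ := link_cut hE hρ hF hL hA hC hAC hl hm
  obtain ⟨H, hHA, hHt⟩ := link_surj hAC (toF_le hF hC) hZ h1 h2 hn G hG
  obtain ⟨G₀, hG₀, hsub, ht⟩ := hH H hHA
  have hI := linkI_le (C := C) hE hρ hF hA hAC
  refine ⟨uni E G₀ (linkI ρ E A (dif E C)), mem_famL.2 (Or.inr ⟨A, hA, leB_iff.2 hAC, G₀, hG₀,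
    rfl⟩), ?_⟩
  have h3 : G₀ ⊆ E := by
    intro x hx
    exact (hF.sub A hA).subset (List.mem_toFinset.1 (hsub (List.mem_toFinset.2 hx)))
  rw [toF_uni h3 (linkI_sub (ρ := ρ) (E := E) (A := A) (B := dif E C)).subset,
    tr_link v hsub hAC (toF_le hF hC) hI, ht, ← tr_link v hHA hAC (toF_le hF hC) hI, hHt]

theorem famL_complete (hE : E.Nodup) (hρ : RkS ρ E (rkV K v)) (hF : FamOK (rkV K v) E m D F)
    (hL : Linked (rkV K v) E.toFinset (famF F)) (hC : C ∈ F) (G : Finset ℕ)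
    (hG : G ⊆ C.toFinset) :
    ∃ G' ∈ famL ρ E F ((nSub K m + 1) ^ (m + 1)) C,
      tr K v E.toFinset C.toFinset G'.toFinset = tr K v E.toFinset C.toFinset G := by
  have main := double_ind hF.bin (lam (rkV K v) E.toFinset) (nTr K v E.toFinset) m (nSub K m)
    (fun X hX => by
      obtain ⟨B, hB, rfl⟩ := mem_famF.1 hX
      exact Pool.Agent.G4.lam_nonneg (isRk_rkV v) (toF_le hF hB))
    (fun X hX => by
      obtain ⟨B, hB, rfl⟩ := mem_famF.1 hX
      exact hF.wid B hB)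
    (fun X hX => by
      obtain ⟨B, hB, rfl⟩ := mem_famF.1 hX
      exact nTr_le v (toF_le hF hB) (hF.wid B hB))
    (fun X hX => by
      have h := (Set.ncard_pos (traces_finite (K := K) v E.toFinset X)).2
        ⟨tr K v E.toFinset X ∅, ∅, Finset.empty_subset _, rfl⟩
      exact h)
    (fun j X => ∀ C ∈ F, C.toFinset = X → ∀ G ⊆ X, ∃ G' ∈ famL ρ E F j C,
      tr K v E.toFinset X G'.toFinset = tr K v E.toFinset X G)
    (fun j X hX hR C hC hCX G hG => by
      obtain ⟨G', hG', ht⟩ := hR C hC hCX G hG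
      exact ⟨G', mem_famL.2 (Or.inl hG'), ht⟩)
    (fun X hX Y hY hXY hl hm => by
      obtain ⟨A, hA, rfl⟩ := mem_famF.1 hX
      obtain ⟨C, hC, rfl⟩ := mem_famF.1 hY
      obtain ⟨Z, hZ, h1, h2⟩ := link_cut hE hρ hF hL hA hC hXY hl hm
      exact link_card hXY (toF_le hF hC) hZ h1 h2)
    (fun X hX Y hY hXY hl hm hn hX1 j C hC hCY G hG => by
      obtain ⟨A, hA, rfl⟩ := mem_famF.1 hX
      subst hCY
      refine step_aux hE hρ hF hL hA hC hXY hl hm hn (fun H hH => ?_) G hG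
      have hlen : A.length ≤ 1 := by
        rw [← can_card hE (hF.sub A hA), hX1]
      rcases Finset.eq_empty_or_nonempty H with h0 | h0
      · exact ⟨[], Or.inl ⟨hlen, Or.inl rfl⟩, by simp, by rw [h0]; rfl⟩
      · have h3 : H = A.toFinset := by
          refine Finset.eq_of_subset_of_card_le hH ?_
          have := Finset.card_pos.2 h0
          omega
        exact ⟨A, Or.inl ⟨hlen, Or.inr rfl⟩, Finset.Subset.refl _, by rw [h3]⟩)
    (fun X hX Y hY hXY hl hm hn X₁ hX₁ X₂ hX₂ hd hu j hR₁ hR₂ C hC hCY G hG => by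
      obtain ⟨A, hA, rfl⟩ := mem_famF.1 hX
      obtain ⟨A₁, hA₁, rfl⟩ := mem_famF.1 hX₁
      obtain ⟨A₂, hA₂, rfl⟩ := mem_famF.1 hX₂
      subst hCY
      refine step_aux hE hρ hF hL hA hC hXY hl hm hn (fun H hH => ?_) G hG
      obtain ⟨G₁, hG₁, ht₁⟩ := hR₁ A₁ hA₁ rfl (H ∩ A₁.toFinset) Finset.inter_subset_right
      obtain ⟨G₂, hG₂, ht₂⟩ := hR₂ A₂ hA₂ rfl (H ∩ A₂.toFinset) Finset.inter_subset_right
      have hs₁ := (famL_sub hE hρ hF hA₁ G₁ hG₁).2
      have hs₂ := (famL_sub hE hρ hF hA₂ G₂ hG₂).2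
      refine ⟨G₁ ++ G₂, Or.inr ⟨(A₁, A₂), ?_, G₁, hG₁, G₂, hG₂, rfl⟩, ?_, ?_⟩
      · rw [mem_chl hE hF.sub (hF.sub A hA)]
        exact ⟨⟨hA₁, hA₂⟩, hd, hu⟩
      · rw [List.toFinset_append, ← hu]
        exact Finset.union_subset_union hs₁ hs₂
      · have hHe : H = (H ∩ A₁.toFinset) ∪ (H ∩ A₂.toFinset) := by
          rw [← Finset.inter_union_distrib_left, hu]
          exact (Finset.inter_eq_left.2 hH).symm
        rw [List.toFinset_append]
        refine (tr_union v (toF_le hF hA) hd hu hs₁ hs₂ Finset.inter_subset_right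
          Finset.inter_subset_right ht₁ ht₂).trans ?_
        rw [← hHe])
  exact main C.toFinset (mem_famF.2 ⟨C, hC, rfl⟩) C hC rfl G hG

end Pool.Agent.BW
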