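import Pool.Agent.BW.NewWid

set_option autoImplicit false

/-!
# Module FixM: simplifying the separation, mathematics

`splN F A C Z`: the number of the `B ∈ F`, `B ⊆ C`, disjoint from `A`, that meet `Z` and are not
contained in `Z`.
-/

namespace Pool.Agent.BW

open Finset
open Pool.Agent.G4 (IsRk lam dualR)

/-- the number of split members -/
def splN (F : Finset (Finset ℕ)) (A C Z : Finset ℕ) : ℕ :=
  (F.filter fun B => (B ⊆ C ∧ Disjoint B A) ∧ (B ∩ Z).Nonempty ∧ (B \ Z).Nonempty).card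

variable {r : Finset ℕ → ℤ} {E A B C D Z : Finset ℕ} {F : Finset (Finset ℕ)}

private theorem fix_lt {Z' : Finset ℕ} (hB : B ∈ F) (hBC : B ⊆ C) (hBA : Disjoint B A)
    (h3 : (B ∩ Z).Nonempty) (h4 : (B \ Z).Nonempty)
    (h : ∀ B' ∈ F, (B' ∩ Z').Nonempty → (B' \ Z').Nonempty → (B' ∩ Z).Nonempty ∧ (B' \ Z).Nonempty)
    (h' : B ∩ Z' = ∅ ∨ B \ Z' = ∅) : splN F A C Z' < splN F A C Z := by
  unfold splN
  apply card_lt_card
  rw [ssubset_iff_of_subset]
  · refine ⟨B, ?_, ?_⟩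
    · rw [mem_filter]
      exact ⟨hB, ⟨hBC, hBA⟩, h3, h4⟩
    · rw [mem_filter]
      rintro ⟨_, _, h5, h6⟩
      rcases h' with h' | h'
      · rw [h'] at h5
        exact not_nonempty_empty h5
      · rw [h'] at h6
        exact not_nonempty_empty h6
  · intro B' hB'
    rw [mem_filter] at hB' ⊢
    obtain ⟨h5, h6, h7, h8⟩ := hB'
    exact ⟨h5, h6, h B' h5 h7 h8⟩

theorem fix_union (hr : IsRk r) (h : Bin F D) (hD : D ⊆ E) (hC : C ∈ F) (h1 : A ⊆ Z) (h2 : Z ⊆ C)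
    (hB : B ∈ F) (hBC : B ⊆ C) (hBA : Disjoint B A) (h3 : (B ∩ Z).Nonempty)
    (h4 : (B \ Z).Nonempty) (h5 : lam r E B ≤ lam r E (B ∩ Z)) :
    A ⊆ Z ∪ B ∧ Z ∪ B ⊆ C ∧ lam r E (Z ∪ B) ≤ lam r E Z ∧
      splN F A C (Z ∪ B) < splN F A C Z := by
  have hCE : C ⊆ E := (h.sub C hC).trans hD
  refine ⟨h1.trans subset_union_left, union_subset h2 hBC, ?_, ?_⟩
  · have h6 := lam_cap hr hCE h2 hBC
    rw [union_comm Z B]
    omega
  · refine fix_lt hB hBC hBA h3 h4 ?_ (Or.inr ?_)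
    · intro B' hB' h6 h7
      obtain ⟨x, hx⟩ := h6
      obtain ⟨y, hy⟩ := h7
      rw [mem_inter, mem_union] at hx
      rw [mem_sdiff, mem_union, not_or] at hy
      refine ⟨?_, ⟨y, mem_sdiff.2 ⟨hy.1, hy.2.1⟩⟩⟩
      rcases h.lmn B' hB' B hB with h8 | h8 | h8
      · exact absurd (h8 hy.1) hy.2.2
      · exact h3.mono (inter_subset_inter_right h8)
      · refine ⟨x, mem_inter.2 ⟨hx.1, ?_⟩⟩
        rcases hx.2 with h9 | h9
        · exact h9
        · exact absurd h9 (disjoint_left.1 h8 hx.1)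
    · exact sdiff_eq_empty_iff_subset.2 subset_union_right

theorem fix_diff (hr : IsRk r) (h : Bin F D) (hD : D ⊆ E) (hC : C ∈ F) (h1 : A ⊆ Z) (h2 : Z ⊆ C)
    (hB : B ∈ F) (hBC : B ⊆ C) (hBA : Disjoint B A) (h3 : (B ∩ Z).Nonempty)
    (h4 : (B \ Z).Nonempty) (h5 : lam r E B ≤ lam r E (B \ Z)) :
    A ⊆ Z \ B ∧ Z \ B ⊆ C ∧ lam r E (Z \ B) ≤ lam r E Z ∧
      splN F A C (Z \ B) < splN F A C Z := by
  have hCE : C ⊆ E := (h.sub C hC).trans hD
  refine ⟨subset_sdiff.2 ⟨h1, hBA.symm⟩, sdiff_subset.trans h2, ?_, ?_⟩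
  · have h6 := lam_sub hr (hBC.trans hCE) (sdiff_subset : E \ Z ⊆ E)
    have e1 : B ∩ (E \ Z) = B \ Z := by
      ext x
      simp only [mem_inter, mem_sdiff]
      constructor
      · rintro ⟨h7, _, h8⟩
        exact ⟨h7, h8⟩
      · rintro ⟨h7, h8⟩
        exact ⟨h7, hCE (hBC h7), h8⟩
    have e2 : E \ (B ∪ (E \ Z)) = Z \ B := by
      ext x
      simp only [mem_union, mem_sdiff, not_or, not_and, not_not]
      constructor
      · rintro ⟨h7, h8, h9⟩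
        exact ⟨h9 h7, h8⟩
      · rintro ⟨h7, h8⟩
        exact ⟨hCE (h2 h7), h8, fun _ => h7⟩
    have e3 : lam r E (E \ Z) = lam r E Z := Pool.Agent.G4.lam_compl (h2.trans hCE)
    have e4 : lam r E (Z \ B) = lam r E (B ∪ (E \ Z)) := by
      rw [← e2]
      exact Pool.Agent.G4.lam_compl (union_subset (hBC.trans hCE) sdiff_subset)
    rw [e1] at h6
    omega
  · refine fix_lt hB hBC hBA h3 h4 ?_ (Or.inl ?_)
    · intro B' hB' h6 h7
      obtain ⟨x, hx⟩ := h6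
      obtain ⟨y, hy⟩ := h7
      rw [mem_inter, mem_sdiff] at hx
      rw [mem_sdiff, mem_sdiff, not_and, not_not] at hy
      refine ⟨⟨x, mem_inter.2 ⟨hx.1, hx.2.1⟩⟩, ?_⟩
      rcases h.lmn B' hB' B hB with h8 | h8 | h8
      · exact absurd (h8 hx.1) hx.2.2
      · exact h4.mono (sdiff_subset_sdiff h8 (Subset.refl _))
      · refine ⟨y, mem_sdiff.2 ⟨hy.1, fun h9 => ?_⟩⟩
        exact disjoint_left.1 h8 hy.1 (hy.2 h9)
    · rw [← disjoint_iff_inter_eq_empty]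
      exact disjoint_sdiff

end Pool.Agent.BW
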