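import Pool.Agent.BW.OsL
import Pool.Agent.BW.BinM

set_option autoImplicit false

/-!
# Module OsF: the decomposition of `D`

`FamOK r E m D F`: `F` is a list of pairwise different sublists of `E` that form a binary laminar
family with top `D`, with connectivities at most `m`.
-/

namespace Pool.Agent.BW

open Finset
open Pool.Agent.G4 (IsRk lam dualR nor dif word prd)

/-- a list of sublists of `E` that is a decomposition of `D` of width at most `m` -/
structure FamOK (r : Finset ℕ → ℤ) (E : List ℕ) (m : ℕ) (D : Finset ℕ) (F : List (List ℕ)) :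
    Prop where
  sub : ∀ B ∈ F, B.Sublist E
  nd : F.Nodup
  bin : Bin (famF F) D
  wid : ∀ B ∈ F, lam r E.toFinset B.toFinset ≤ m

variable {E D : List ℕ} {r : Finset ℕ → ℤ} {ρ : List ℕ → ℕ} {k : ℕ}

/-- later sets are proper subsets or disjoint -/
private def Aft (t b : List ℕ) : Prop :=
  b.toFinset ⊂ t.toFinset ∨ Disjoint t.toFinset b.toFinset

/-- the invariant after `i` rounds -/
private structure OsInv (P : List ℕ → Prop) (D : List ℕ) (i : ℕ)
    (s : List (List ℕ) × List (List ℕ)) : Prop where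
  good : ∀ X ∈ s.2 ++ s.1, P X ∧ X.toFinset ⊆ D.toFinset
  pw : (s.2 ++ s.1).Pairwise Aft
  dj : s.1.Pairwise fun t b => Disjoint t.toFinset b.toFinset
  spl : ∀ X ∈ s.2, 2 ≤ X.length → ∃ a ∈ s.2 ++ s.1, ∃ b ∈ s.2 ++ s.1,
    Disjoint a.toFinset b.toFinset ∧ a.toFinset ∪ b.toFinset = X.toFinset
  len : ∀ X ∈ s.1, X.length + i ≤ D.length
  top : D ∈ s.2 ++ s.1

private theorem inv_step {P : List ℕ → Prop} {g : List ℕ → List (List ℕ)} {D : List ℕ} {i : ℕ}
    {s : List (List ℕ) × List (List ℕ)}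
    (hg1 : ∀ X, P X → 2 ≤ X.length → ∃ a b, g X = [a, b] ∧ P a ∧ P b ∧
      Disjoint a.toFinset b.toFinset ∧ a.toFinset ∪ b.toFinset = X.toFinset ∧
      a.length < X.length ∧ b.length < X.length)
    (hg0 : ∀ X, X.length ≤ 1 → g X = []) (hP : ∀ X, P X → X.Nodup)
    (h : OsInv P D i s) : OsInv P D (i + 1) (s.1.flatMap g, s.2 ++ s.1) := by
  have hgF : ∀ X ∈ s.1, P X ∧ X.toFinset ⊆ D.toFinset := fun X hX =>
    h.good X (List.mem_append_right _ hX)
  have key : ∀ Y, P Y → ∀ b ∈ g Y, P b ∧ b.toFinset ⊂ Y.toFinset ∧ b.length < Y.length := by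
    intro Y hY b hb
    rcases Nat.lt_or_ge 1 Y.length with hl | hl
    · obtain ⟨a, b', hgY, ha, hb', hd, hU, hla, hlb⟩ := hg1 Y hY hl
      have hcY : Y.toFinset.card = Y.length := List.toFinset_card_of_nodup (hP Y hY)
      rw [hgY] at hb
      have hss : ∀ c : List ℕ, c.toFinset ⊆ Y.toFinset → c.length < Y.length →
          c.toFinset ⊂ Y.toFinset := by
        intro c hc hlc
        refine Finset.ssubset_iff_subset_ne.2 ⟨hc, fun heq => ?_⟩
        have h1 := List.toFinset_card_le c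
        rw [heq, hcY] at h1
        omega
      rcases List.mem_cons.1 hb with rfl | hb
      · exact ⟨ha, hss _ (by rw [← hU]; exact Finset.subset_union_left) hla, hla⟩
      · rcases List.mem_cons.1 hb with rfl | hb
        · exact ⟨hb', hss _ (by rw [← hU]; exact Finset.subset_union_right) hlb, hlb⟩
        · simp at hb
    · rw [hg0 Y hl] at hb
      simp at hb
  have hdj : (s.1.flatMap g).Pairwise fun t b => Disjoint t.toFinset b.toFinset := by
    rw [List.pairwise_flatMap]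
    refine ⟨fun Y hY => ?_, ?_⟩
    · rcases Nat.lt_or_ge 1 Y.length with hl | hl
      · obtain ⟨a, b', hgY, ha, hb', hd, hU, hla, hlb⟩ := hg1 Y (hgF Y hY).1 hl
        rw [hgY]
        refine List.Pairwise.cons (fun x hx => ?_) (List.pairwise_singleton _ _)
        rw [List.mem_singleton.1 hx]
        exact hd
      · rw [hg0 Y hl]
        exact List.Pairwise.nil
    · refine h.dj.imp_of_mem fun {Y₁ Y₂} h1 h2 hd x hx y hy => ?_
      have h3 := (key Y₁ (hgF Y₁ h1).1 x hx).2.1.subset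
      have h4 := (key Y₂ (hgF Y₂ h2).1 y hy).2.1.subset
      exact Finset.disjoint_of_subset_left h3 (Finset.disjoint_of_subset_right h4 hd)
  have hsub : ∀ X ∈ s.2 ++ s.1, X ∈ (s.2 ++ s.1) ++ s.1.flatMap g := fun X hX =>
    List.mem_append_left _ hX
  refine ⟨?_, ?_, hdj, ?_, ?_, hsub D h.top⟩
  · intro X hX
    rcases List.mem_append.1 hX with hX | hX
    · exact h.good X hX
    · obtain ⟨Y, hY, hXY⟩ := List.mem_flatMap.1 hX
      have h1 := key Y (hgF Y hY).1 X hXY
      exact ⟨h1.1, h1.2.1.subset.trans (hgF Y hY).2⟩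
  · change ((s.2 ++ s.1) ++ s.1.flatMap g).Pairwise Aft
    rw [List.pairwise_append]
    refine ⟨h.pw, hdj.imp fun hd => Or.inr hd, fun t ht b hb => ?_⟩
    obtain ⟨Y, hY, hbY⟩ := List.mem_flatMap.1 hb
    have h1 := key Y (hgF Y hY).1 b hbY
    rcases List.mem_append.1 ht with ht | ht
    · rcases (List.pairwise_append.1 h.pw).2.2 t ht Y hY with h2 | h2
      · exact Or.inl (h1.2.1.trans h2)
      · exact Or.inr (Finset.disjoint_of_subset_right h1.2.1.subset h2)
    · by_cases hne : t = Y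
      · rw [hne]
        exact Or.inl h1.2.1
      · haveI hsym : Std.Symm fun t b : List ℕ => Disjoint t.toFinset b.toFinset :=
          ⟨fun _ _ hd => hd.symm⟩
        have h2 := h.dj.forall ht hY hne
        exact Or.inr (Finset.disjoint_of_subset_right h1.2.1.subset h2)
  · intro X hX hl
    rcases List.mem_append.1 hX with hX | hX
    · obtain ⟨a, ha, b, hb, hd, hU⟩ := h.spl X hX hl
      exact ⟨a, hsub a ha, b, hsub b hb, hd, hU⟩
    · obtain ⟨a, b, hgX, ha, hb, hd, hU, _, _⟩ := hg1 X (hgF X hX).1 hl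
      refine ⟨a, List.mem_append_right _ (List.mem_flatMap.2 ⟨X, hX, by rw [hgX]; simp⟩), b,
        List.mem_append_right _ (List.mem_flatMap.2 ⟨X, hX, by rw [hgX]; simp⟩), hd, hU⟩
  · intro X hX
    obtain ⟨Y, hY, hXY⟩ := List.mem_flatMap.1 hX
    have h1 := key Y (hgF Y hY).1 X hXY
    have h2 := h.len Y hY
    omega

/-- the final list -/
private theorem osFam_inv (hr : IsRk r) (hE : E.Nodup) (hρ : RkS ρ E r) (hk : 1 ≤ k)
    (hD : Dec r E.toFinset k E.toFinset) (hDE : D.Sublist E) (hne : D ≠ [])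
    (hl : lam r E.toFinset D.toFinset ≤ 3 * k + 1) :
    ∃ P : List ℕ → Prop, (∀ X, P X → X.Sublist E ∧ X ≠ [] ∧
        lam r E.toFinset X.toFinset ≤ 3 * k + 1) ∧
      (∀ X ∈ osFam ρ E k D, P X ∧ X.toFinset ⊆ D.toFinset) ∧
      (osFam ρ E k D).Pairwise Aft ∧
      (∀ X ∈ osFam ρ E k D, 2 ≤ X.length → ∃ a ∈ osFam ρ E k D, ∃ b ∈ osFam ρ E k D,
        Disjoint a.toFinset b.toFinset ∧ a.toFinset ∪ b.toFinset = X.toFinset) ∧
      D ∈ osFam ρ E k D := by
  obtain ⟨P, hPdef⟩ : ∃ P : List ℕ → Prop, ∀ X, P X ↔ X.Sublist E ∧ X ≠ [] ∧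
    lam r E.toFinset X.toFinset ≤ 3 * k + 1 := ⟨fun X => X.Sublist E ∧ X ≠ [] ∧
      lam r E.toFinset X.toFinset ≤ 3 * k + 1, fun _ => Iff.rfl⟩
  have hnd : ∀ X, P X → X.Nodup := fun X hX => hE.sublist ((hPdef X).1 hX).1
  have hg0 : ∀ X : List ℕ, X.length ≤ 1 → (if X.length ≤ 1 then [] else
      [(splt ρ E k X).1, (splt ρ E k X).2]) = [] := fun X hX => by rw [if_pos hX]
  have hg1 : ∀ X, P X → 2 ≤ X.length → ∃ a b, (if X.length ≤ 1 then [] else
      [(splt ρ E k X).1, (splt ρ E k X).2]) = [a, b] ∧ P a ∧ P b ∧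
      Disjoint a.toFinset b.toFinset ∧ a.toFinset ∪ b.toFinset = X.toFinset ∧
      a.length < X.length ∧ b.length < X.length := by
    intro X hX h2
    obtain ⟨hXE, hX0, hXl⟩ := (hPdef X).1 hX
    obtain ⟨h3, h4, h5, h6, h7, h8, h9, h10⟩ := splt_spec hr hE hρ hk hD hXE h2 hXl
    refine ⟨_, _, if_neg (by omega), (hPdef _).2 ⟨h3.trans hXE, h5, h9⟩,
      (hPdef _).2 ⟨h4.trans hXE, h6, h10⟩, h7, h8, ?_⟩
    have hXn : X.Nodup := hE.sublist hXE
    have c1 := List.toFinset_card_of_nodup (hXn.sublist h3)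
    have c2 := List.toFinset_card_of_nodup (hXn.sublist h4)
    have c3 := List.toFinset_card_of_nodup hXn
    have c4 := Finset.card_union_of_disjoint h7
    rw [h8] at c4
    have p1 := List.length_pos_iff.2 h5
    have p2 := List.length_pos_iff.2 h6
    omega
  have hinv : ∀ i : ℕ, OsInv P D i ((osStep ρ E k)^[i] ([D], [])) := by
    intro i
    induction i with
    | zero =>
      refine ⟨?_, ?_, ?_, ?_, ?_, ?_⟩
      · intro X hX
        have hX' : X = D := by simpa using hX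
        rw [hX']
        exact ⟨(hPdef D).2 ⟨hDE, hne, hl⟩, Finset.Subset.refl _⟩
      · simp
      · simp
      · intro X hX
        simp at hX
      · intro X hX
        have hX' : X = D := by simpa using hX
        rw [hX']
        omega
      · simp
    | succ i ih =>
      rw [Function.iterate_succ_apply']
      exact inv_step hg1 hg0 hnd ih
  have hfin := hinv D.length
  have hF : ((osStep ρ E k)^[D.length] ([D], [])).1 = [] := by
    rw [List.eq_nil_iff_forall_not_mem]
    intro X hX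
    have h1 := hfin.len X hX
    have h2 := (hfin.good X (List.mem_append_right _ hX)).1
    have h3 := List.length_pos_iff.2 ((hPdef X).1 h2).2.1
    omega
  have hA : ((osStep ρ E k)^[D.length] ([D], [])).2 ++ ((osStep ρ E k)^[D.length] ([D], [])).1 =
      osFam ρ E k D := by
    rw [hF, List.append_nil]
    rfl
  obtain ⟨a1, a2, _, a4, _, a6⟩ := hfin
  rw [hA] at a1 a2 a4 a6
  exact ⟨P, fun X hX => (hPdef X).1 hX, a1, a2, a4, a6⟩

theorem osFam_spec (hr : IsRk r) (hE : E.Nodup) (hρ : RkS ρ E r) (hk : 1 ≤ k)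
    (hD : Dec r E.toFinset k E.toFinset) (hDE : D.Sublist E) (hne : D ≠ [])
    (hl : lam r E.toFinset D.toFinset ≤ 3 * k + 1) :
    FamOK r E (3 * k + 1) D.toFinset (osFam ρ E k D) := by
  obtain ⟨P, hP, h1, h2, h3, h4⟩ := osFam_inv hr hE hρ hk hD hDE hne hl
  have hmem : ∀ B : Finset ℕ, B ∈ famF (osFam ρ E k D) ↔
      ∃ X ∈ osFam ρ E k D, X.toFinset = B := by
    intro B
    unfold famF
    rw [List.mem_toFinset, List.mem_map]
  have hnonempty : ∀ X ∈ osFam ρ E k D, X.toFinset.Nonempty := by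
    intro X hX
    obtain ⟨x, hx⟩ := List.exists_mem_of_ne_nil X (hP X (h1 X hX).1).2.1
    exact ⟨x, List.mem_toFinset.2 hx⟩
  refine ⟨fun B hB => (hP B (h1 B hB).1).1, ?_, ?_, fun B hB => ?_⟩
  · refine h2.imp_of_mem fun {t b} ht _ hq heq => ?_
    rw [← heq] at hq
    rcases hq with hq | hq
    · exact (Finset.ssubset_def.1 hq).2 (Finset.Subset.refl _)
    · obtain ⟨x, hx⟩ := hnonempty t ht
      exact Finset.disjoint_left.1 hq hx hx
  · refine ⟨(hmem _).2 ⟨D, h4, rfl⟩, fun B hB => ?_, fun B hB => ?_, fun B hB C hC => ?_,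
      fun B hB hc => ?_⟩
    · obtain ⟨X, hX, rfl⟩ := (hmem B).1 hB
      exact (h1 X hX).2
    · obtain ⟨X, hX, rfl⟩ := (hmem B).1 hB
      exact hnonempty X hX
    · obtain ⟨X, hX, rfl⟩ := (hmem B).1 hB
      obtain ⟨Y, hY, rfl⟩ := (hmem C).1 hC
      haveI hsym : Std.Symm fun t b : List ℕ => t.toFinset ⊆ b.toFinset ∨
          b.toFinset ⊆ t.toFinset ∨ Disjoint t.toFinset b.toFinset := by
        refine ⟨?_⟩
        rintro t b (h5 | h5 | h5)
        · exact Or.inr (Or.inl h5)
        · exact Or.inl h5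
        · exact Or.inr (Or.inr h5.symm)
      by_cases hXY : X = Y
      · rw [hXY]
        exact Or.inl (Finset.Subset.refl _)
      · have h5 : (osFam ρ E k D).Pairwise fun t b : List ℕ => t.toFinset ⊆ b.toFinset ∨
            b.toFinset ⊆ t.toFinset ∨ Disjoint t.toFinset b.toFinset := by
          refine h2.imp fun {t b} hq => ?_
          rcases hq with hq | hq
          · exact Or.inr (Or.inl hq.subset)
          · exact Or.inr (Or.inr hq)
        exact h5.forall hX hY hXY
    · obtain ⟨X, hX, rfl⟩ := (hmem B).1 hB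
      have hlX : 2 ≤ X.length := hc.trans (List.toFinset_card_le X)
      obtain ⟨a, ha, b, hb, hd, hU⟩ := h3 X hX hlX
      exact ⟨_, (hmem _).2 ⟨a, ha, rfl⟩, _, (hmem _).2 ⟨b, hb, rfl⟩, hd, hU⟩
  · have := (hP B (h1 B hB).1).2.2
    push_cast
    exact this

/-- a set does not stand after a subset -/
theorem osFam_pw (hr : IsRk r) (hE : E.Nodup) (hρ : RkS ρ E r) (hk : 1 ≤ k)
    (hD : Dec r E.toFinset k E.toFinset) (hDE : D.Sublist E) (hne : D ≠ [])
    (hl : lam r E.toFinset D.toFinset ≤ 3 * k + 1) :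
    (osFam ρ E k D).Pairwise fun t b => ¬ t.toFinset ⊆ b.toFinset := by
  obtain ⟨P, hP, h1, h2, _, _⟩ := osFam_inv hr hE hρ hk hD hDE hne hl
  refine h2.imp_of_mem fun {t b} ht _ hq hsub => ?_
  rcases hq with hq | hq
  · exact (Finset.ssubset_def.1 hq).2 hsub
  · obtain ⟨x, hx⟩ := List.exists_mem_of_ne_nil t (hP t (h1 t ht).1).2.1
    have hx' := List.mem_toFinset.2 hx
    exact Finset.disjoint_left.1 hq hx' (hsub hx')

end Pool.Agent.BW
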