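import Pool.Agent.BW.CutL
import Pool.Agent.BW.CutM
import Pool.Agent.BW.FixM
import Pool.Agent.BW.OsF

set_option autoImplicit false

/-!
# Module GoodL: the simplified cut (the number of split members decreases in every step)
-/

namespace Pool.Agent.BW

open Finset
open Pool.Agent.G4 (IsRk lam dualR nor dif word prd)

variable {E A C : List ℕ} {D : Finset ℕ} {F : List (List ℕ)} {r : Finset ℕ → ℤ} {ρ : List ℕ → ℕ}
  {m : ℕ}

private theorem fixStep_sub {Z : List ℕ} (hZ : Z.Sublist E) : (fixStep ρ E F A C Z).Sublist E := by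
  unfold fixStep
  split_ifs
  · exact hZ
  · exact uni_sub
  · exact dif_sub.trans hZ

theorem goodCut_sub : (goodCut ρ E F A C).Sublist E := by
  have h : ∀ k : ℕ, ∀ Z : List ℕ, Z.Sublist E → ((fixStep ρ E F A C)^[k] Z).Sublist E := by
    intro k
    induction k with
    | zero => exact fun Z hZ => hZ
    | succ k ih =>
      intro Z hZ
      rw [Function.iterate_succ_apply]
      exact ih _ (fixStep_sub hZ)
  exact h _ _ cutZ_sub

private theorem badB_iff {Z B : List ℕ} : badB ρ E A C Z B = true ↔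
    (B.toFinset ⊆ C.toFinset ∧ Disjoint B.toFinset A.toFinset) ∧
      ((B.toFinset ∩ Z.toFinset).Nonempty ∧ (B.toFinset \ Z.toFinset).Nonempty) ∧
      (lamL ρ E B ≤ lamL ρ E (nor B Z) ∨ lamL ρ E B ≤ lamL ρ E (dif B Z)) := by
  unfold badB
  rw [Bool.and_eq_true, Bool.and_eq_true, Bool.and_eq_true, Bool.and_eq_true, Bool.or_eq_true,
    leB_iff, djB_iff, Bool.not_eq_true', Bool.not_eq_true', ← Bool.not_eq_true, ← Bool.not_eq_true,
    djB_iff, leB_iff, Finset.not_disjoint_iff_nonempty_inter, Finset.sdiff_nonempty,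
    decide_eq_true_eq, decide_eq_true_eq, and_assoc]

private theorem subE {T : List ℕ} (hT : T.Sublist E) : T.toFinset ⊆ E.toFinset := by
  intro x hx
  rw [List.mem_toFinset] at hx ⊢
  exact hT.subset hx

private theorem top_sub' (hF : FamOK r E m D F) : D ⊆ E.toFinset := by
  obtain ⟨B, hB, hBD⟩ := mem_famF.1 hF.bin.top
  rw [← hBD]
  exact subE (hF.sub B hB)

/-- the invariant -/
private structure Inv (r : Finset ℕ → ℤ) (E A C Z : List ℕ) : Prop where
  s : Z.Sublist E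
  l : A.toFinset ⊆ Z.toFinset
  u : Z.toFinset ⊆ C.toFinset
  m : ∀ Y, A.toFinset ⊆ Y → Y ⊆ C.toFinset → lam r E.toFinset Z.toFinset ≤ lam r E.toFinset Y

private theorem headD_mem {α : Type} (l : List α) (d : α) (h : l ≠ []) : l.headD d ∈ l := by
  cases l with
  | nil => exact absurd rfl h
  | cons x l => simp

private theorem step_good (hr : IsRk r) (hρ : RkS ρ E r) (hF : FamOK r E m D F)
    (hC : C ∈ F) {Z : List ℕ} (hZ : Inv r E A C Z) (h : ∃ B ∈ F, badB ρ E A C Z B = true) :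
    Inv r E A C (fixStep ρ E F A C Z) ∧
      splN (famF F) A.toFinset C.toFinset (fixStep ρ E F A C Z).toFinset <
        splN (famF F) A.toFinset C.toFinset Z.toFinset := by
  obtain ⟨q, hq, hqv⟩ := h
  have hne : (F.filter fun B => badB ρ E A C Z B) ≠ [] :=
    List.ne_nil_of_mem (List.mem_filter.2 ⟨hq, hqv⟩)
  have hmem := headD_mem _ [] hne
  obtain ⟨B, hB⟩ : ∃ B, B = (F.filter fun B => badB ρ E A C Z B).headD [] := ⟨_, rfl⟩
  rw [← hB, List.mem_filter] at hmem
  obtain ⟨hBF, hbad⟩ := hmem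
  rw [badB_iff] at hbad
  obtain ⟨⟨h1, h2⟩, ⟨h3, h4⟩, h5⟩ := hbad
  have hstep : fixStep ρ E F A C Z =
      if lamL ρ E B ≤ lamL ρ E (nor B Z) then uni E Z B else dif Z B := by
    unfold fixStep
    rw [if_neg (by rw [List.isEmpty_iff]; exact hne), ← hB]
  have hBE := hF.sub B hBF
  have e1 : (lamL ρ E B : ℤ) = lam r E.toFinset B.toFinset := lamL_spec hr hρ hBE.subset
  have e2 : (lamL ρ E (nor B Z) : ℤ) = lam r E.toFinset (B.toFinset ∩ Z.toFinset) := by
    rw [lamL_spec hr hρ (nor_sub.trans hBE).subset, toF_nor]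
  have e3 : (lamL ρ E (dif B Z) : ℤ) = lam r E.toFinset (B.toFinset \ Z.toFinset) := by
    rw [lamL_spec hr hρ (dif_sub.trans hBE).subset, toF_dif]
  have hCF : C.toFinset ∈ famF F := mem_famF.2 ⟨C, hC, rfl⟩
  have hBF' : B.toFinset ∈ famF F := mem_famF.2 ⟨B, hBF, rfl⟩
  have hsub := fixStep_sub (ρ := ρ) (F := F) (A := A) (C := C) hZ.s
  rw [hstep] at hsub ⊢
  split_ifs at hsub ⊢ with h6
  · have h7 : lam r E.toFinset B.toFinset ≤ lam r E.toFinset (B.toFinset ∩ Z.toFinset) := by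
      rw [← e1, ← e2]
      exact_mod_cast h6
    obtain ⟨g1, g2, g3, g4⟩ := fix_union hr hF.bin (top_sub' hF) hCF hZ.l hZ.u hBF' h1 h2 h3 h4 h7
    have e4 : (uni E Z B).toFinset = Z.toFinset ∪ B.toFinset := toF_uni hZ.s.subset hBE.subset
    refine ⟨⟨hsub, ?_, ?_, fun Y hY1 hY2 => ?_⟩, ?_⟩
    · rw [e4]
      exact g1
    · rw [e4]
      exact g2
    · rw [e4]
      exact g3.trans (hZ.m Y hY1 hY2)
    · rw [e4]
      exact g4
  · have h5' : lamL ρ E B ≤ lamL ρ E (dif B Z) := h5.resolve_left h6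
    have h7 : lam r E.toFinset B.toFinset ≤ lam r E.toFinset (B.toFinset \ Z.toFinset) := by
      rw [← e1, ← e3]
      exact_mod_cast h5'
    obtain ⟨g1, g2, g3, g4⟩ := fix_diff hr hF.bin (top_sub' hF) hCF hZ.l hZ.u hBF' h1 h2 h3 h4 h7
    have e4 : (dif Z B).toFinset = Z.toFinset \ B.toFinset := toF_dif
    refine ⟨⟨hsub, ?_, ?_, fun Y hY1 hY2 => ?_⟩, ?_⟩
    · rw [e4]
      exact g1
    · rw [e4]
      exact g2
    · rw [e4]
      exact g3.trans (hZ.m Y hY1 hY2)
    · rw [e4]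
      exact g4

private theorem step_id {Z : List ℕ} (h : ¬ ∃ B ∈ F, badB ρ E A C Z B = true) :
    fixStep ρ E F A C Z = Z := by
  unfold fixStep
  rw [if_pos]
  rw [List.isEmpty_iff, List.filter_eq_nil_iff]
  intro p hp hc
  exact h ⟨p, hp, hc⟩

private theorem iter (hr : IsRk r) (hρ : RkS ρ E r) (hF : FamOK r E m D F) (hC : C ∈ F) (k : ℕ) :
    ∀ Z : List ℕ, Inv r E A C Z → splN (famF F) A.toFinset C.toFinset Z.toFinset ≤ k →
      Inv r E A C ((fixStep ρ E F A C)^[k] Z) ∧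
        ¬ ∃ B ∈ F, badB ρ E A C ((fixStep ρ E F A C)^[k] Z) B = true := by
  induction k with
  | zero =>
    intro Z hZ hk
    refine ⟨hZ, fun hc => ?_⟩
    have h1 := (step_good hr hρ hF hC hZ hc).2
    omega
  | succ k ih =>
    intro Z hZ hk
    by_cases h : ∃ B ∈ F, badB ρ E A C Z B = true
    · rw [Function.iterate_succ_apply]
      obtain ⟨h1, h2⟩ := step_good hr hρ hF hC hZ h
      exact ih _ h1 (by omega)
    · rw [Function.iterate_fixed (step_id h)]
      exact ⟨hZ, h⟩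

theorem goodCut_spec (hr : IsRk r) (hE : E.Nodup) (hρ : RkS ρ E r) (hF : FamOK r E m D F)
    (hA : A ∈ F) (hC : C ∈ F) (hAC : A.toFinset ⊆ C.toFinset)
    (hv : ∀ B ∈ F, A.toFinset ⊆ B.toFinset → B.toFinset ⊆ C.toFinset →
      lamL ρ E (cutZ ρ E A (dif E C)) < lamL ρ E B) :
    GoodZ r E.toFinset (famF F) A.toFinset C.toFinset (goodCut ρ E F A C).toFinset := by
  have hAE := hF.sub A hA
  have hCE := hF.sub C hC
  have hdE : (dif E C).toFinset ⊆ E.toFinset := by
    rw [toF_dif]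
    exact sdiff_subset
  have hdis : Disjoint A.toFinset (dif E C).toFinset := by
    rw [toF_dif]
    exact disjoint_left.2 fun x hx hx' => (mem_sdiff.1 hx').2 (hAC hx)
  have hcut := cut_spec hr hE hρ (A := A) (B := dif E C) hAE.subset dif_sub.subset hdis
  have hu : (cutZ ρ E A (dif E C)).toFinset ⊆ C.toFinset := by
    intro x hx
    by_contra hc
    refine disjoint_left.1 hcut.ZB hx ?_
    rw [toF_dif]
    exact mem_sdiff.2 ⟨hcut.ZE hx, hc⟩
  have hinv : Inv r E A C (cutZ ρ E A (dif E C)) := by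
    refine ⟨cutZ_sub, hcut.AZ, hu, fun Y hY1 hY2 => ?_⟩
    refine IsCut.min hr hcut (subE hAE) hdE hY1 (hY2.trans (subE hCE)) ?_
    rw [toF_dif]
    exact disjoint_left.2 fun x hx hx' => (mem_sdiff.1 hx').2 (hY2 hx)
  have hspl : splN (famF F) A.toFinset C.toFinset (cutZ ρ E A (dif E C)).toFinset ≤ F.length := by
    unfold splN
    refine (card_filter_le _ _).trans ?_
    unfold famF
    refine (List.toFinset_card_le _).trans ?_
    rw [List.length_map]
  obtain ⟨hI, hbad⟩ := iter hr hρ hF hC F.length _ hinv hspl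
  have hgood : (fixStep ρ E F A C)^[F.length] (cutZ ρ E A (dif E C)) = goodCut ρ E F A C := rfl
  rw [hgood] at hI hbad
  refine ⟨hI.l, hI.u, ?_, hI.m, ?_⟩
  · intro B hB h1 h2
    obtain ⟨b, hb, rfl⟩ := mem_famF.1 hB
    have h3 := hv b hb h1 h2
    have h4 := hI.m _ hcut.AZ hu
    rw [← lamL_spec hr hρ cutZ_sub.subset] at h4
    rw [← lamL_spec hr hρ (hF.sub b hb).subset]
    have h5 : (lamL ρ E (cutZ ρ E A (dif E C)) : ℤ) < (lamL ρ E b : ℤ) := by exact_mod_cast h3
    exact h4.trans_lt h5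
  · intro B hB h1 h2 h3 h4
    obtain ⟨b, hb, rfl⟩ := mem_famF.1 hB
    have hbE := hF.sub b hb
    have h5 : ¬ (lamL ρ E b ≤ lamL ρ E (nor b (goodCut ρ E F A C)) ∨
        lamL ρ E b ≤ lamL ρ E (dif b (goodCut ρ E F A C))) :=
      fun hc => hbad ⟨b, hb, badB_iff.2 ⟨⟨h1, h2⟩, ⟨h3, h4⟩, hc⟩⟩
    rw [not_or, not_le, not_le] at h5
    rw [← toF_nor, ← toF_dif, ← lamL_spec hr hρ hbE.subset,
      ← lamL_spec hr hρ (nor_sub.trans hbE).subset, ← lamL_spec hr hρ (dif_sub.trans hbE).subset]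
    exact ⟨by exact_mod_cast h5.1, by exact_mod_cast h5.2⟩

end Pool.Agent.BW
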