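import Pool.Agent.BW.DimL

set_option autoImplicit false

/-!
# Module LefM: leaves, mathematics

`X = {x}`, `x < n`; subsets `∅` and `{x}`. `KS {x}` is spanned by the unit vector `u` of `x`.

* `snd_lef0` (loop, `r {x} = 0`): `Rel = KS {x}`, `c = 0`.
* `snd_lef1` (`r {x} = 1`): `Rel = ⊥`, `c y = φ y • u`: `c y ∈ KS ∅ ⊔ ⊥ = ⊥` iff `φ y = 0`, and
  `c y ∈ KS {x} ⊔ ⊥` always.
* `adm_lef`: let `c` be the map of the state; `c y ∈ KS {x}`, so `c y = φ y • u` for the linear form
  `φ y = c y x`. If `r {x} = 0` then `u ∈ Rel` (`finrank (KS {x} ⊔ Rel) = finrank Rel`), so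
  `comap c Rel = ⊤` and all traces are `⊤`. If `r {x} = 1` then `u ∉ Rel`, `comap c Rel = ker φ`;
  the trace of `∅` is `ker φ`, the trace of `{x}` is `⊤`.
-/

namespace Pool.Agent.BW

open Finset Module

variable {K : Type} [Field K] {m s n x : ℕ} {r : Finset ℕ → ℤ} {cl : Finset ℕ → ℕ}

private theorem mem_KS {F : Finset ℕ} {v : Fin n → K} (h : ∀ i : Fin n, (i : ℕ) ∉ F → v i = 0) :
    v ∈ KS K n F := h

private theorem unit_mem (hx : x < n) (a : K) :
    a • (Pi.single (⟨x, hx⟩ : Fin n) (1 : K) : Fin n → K) ∈ KS K n {x} := by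
  refine mem_KS fun i hi => ?_
  have hne : i ≠ ⟨x, hx⟩ := by
    rintro rfl
    exact hi (Finset.mem_singleton_self x)
  rw [Pi.smul_apply, Pi.single_eq_of_ne hne, smul_zero]

private theorem eq_unit (hx : x < n) {v : Fin n → K} (h : v ∈ KS K n {x}) :
    v = v ⟨x, hx⟩ • (Pi.single (⟨x, hx⟩ : Fin n) (1 : K) : Fin n → K) := by
  funext i
  by_cases hi : i = ⟨x, hx⟩
  · rw [hi, Pi.smul_apply, Pi.single_eq_same, smul_eq_mul, mul_one]
  · rw [Pi.smul_apply, Pi.single_eq_of_ne hi, smul_zero]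
    refine h i fun hmem => hi ?_
    exact Fin.ext (Finset.mem_singleton.1 hmem)

private theorem unit_ne (hx : x < n) : (Pi.single (⟨x, hx⟩ : Fin n) (1 : K) : Fin n → K) ≠ 0 := by
  intro h
  have h1 := congrFun h ⟨x, hx⟩
  rw [Pi.single_eq_same, Pi.zero_apply] at h1
  exact one_ne_zero h1

private theorem single_sub (hx : x < n) : ({x} : Finset ℕ) ⊆ range n :=
  Finset.singleton_subset_iff.2 (Finset.mem_range.2 hx)

theorem snd_lef0 (hx : x < n) (h0 : r ∅ = 0) (h1 : r {x} = 0) (hs : ∀ F ⊆ {x}, cl F < s) :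
    Snd n r cl {x} (KS K n {x}) 0 (lst0 K m s (cl ∅) (cl {x})) := by
  refine ⟨le_rfl, fun y => ?_, ?_, fun F hF => ?_, fun F hF => ?_⟩
  · rw [LinearMap.zero_apply]
    exact Submodule.zero_mem _
  · rw [Submodule.comap_zero]
    rfl
  · refine ⟨(⟨cl F, hs F hF⟩, ⊤), ⟨?_, rfl⟩, rfl, ?_⟩
    · rcases Finset.subset_singleton_iff.1 hF with h | h
      · exact Or.inl (congrArg cl h)
      · exact Or.inr (congrArg cl h)
    · rw [Submodule.comap_zero]
  · rw [sup_eq_right.2 (ks_mono hF)]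
    have hr : r F = 0 := by
      rcases Finset.subset_singleton_iff.1 hF with h | h
      · rw [h, h0]
      · rw [h, h1]
    rw [hr, zero_add]

theorem snd_lef1 (hx : x < n) (h0 : r ∅ = 0) (h1 : r {x} = 1) (hs : ∀ F ⊆ {x}, cl F < s)
    (φ : (Fin m → K) →ₗ[K] K) :
    Snd n r cl {x} ⊥ (φ.smulRight (Pi.single (⟨x, hx⟩ : Fin n) (1 : K) : Fin n → K))
      (lst1 K m s (cl ∅) (cl {x}) φ) := by
  have hker : LinearMap.ker φ =
      Submodule.comap (φ.smulRight (Pi.single (⟨x, hx⟩ : Fin n) (1 : K) : Fin n → K)) ⊥ := by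
    ext y
    rw [LinearMap.mem_ker, Submodule.mem_comap, Submodule.mem_bot, LinearMap.smulRight_apply, smul_eq_zero]
    exact ⟨fun h => Or.inl h, fun h => h.elim id fun h' => absurd h' (unit_ne hx)⟩
  refine ⟨bot_le, fun y => ?_, hker, fun F hF => ?_, fun F hF => ?_⟩
  · rw [LinearMap.smulRight_apply]
    exact unit_mem hx _
  · rcases Finset.subset_singleton_iff.1 hF with h | h
    · subst h
      refine ⟨(⟨cl ∅, hs _ hF⟩, LinearMap.ker φ), Or.inl ⟨rfl, rfl⟩, rfl, ?_⟩
      rw [ks_empty, sup_bot_eq, ← hker]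
    · subst h
      refine ⟨(⟨cl {x}, hs _ hF⟩, ⊤), Or.inr ⟨rfl, rfl⟩, rfl, ?_⟩
      refine (eq_top_iff.2 fun y _ => ?_).symm
      rw [Submodule.mem_comap, sup_bot_eq, LinearMap.smulRight_apply]
      exact unit_mem hx _
  · rw [sup_bot_eq, finrank_bot, Nat.cast_zero, add_zero]
    rcases Finset.subset_singleton_iff.1 hF with h | h
    · rw [h, ks_empty, finrank_bot, h0, Nat.cast_zero]
    · rw [h, ks_finrank (single_sub hx), h1, Finset.card_singleton, Nat.cast_one]

theorem adm_lef (hx : x < n) {Rel : Submodule K (Fin n → K)} {σ : StS K m s}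
    (hr : ∀ F ⊆ range n, r F = (finrank K (KS K n F ⊔ Rel : Submodule K _) : ℤ) - finrank K Rel)
    (h : Adm n Rel cl {x} σ) :
    (r {x} = 0 ∧ σ = lst0 K m s (cl ∅) (cl {x})) ∨
    (r {x} = 1 ∧ ∃ φ : (Fin m → K) →ₗ[K] K, σ = lst1 K m s (cl ∅) (cl {x}) φ) := by
  obtain ⟨c, hc, _, hker, htr⟩ := h
  have hcX : ∀ y, c y ∈ KS K n {x} := fun y => (Submodule.mem_inf.1 (hc y)).1
  have htop : Submodule.comap c (KS K n {x} ⊔ Rel) = ⊤ :=
    eq_top_iff.2 fun y _ => Submodule.mem_comap.2 (Submodule.mem_sup_left (hcX y))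
  have hbot : KS K n ∅ ⊔ Rel = Rel := by rw [ks_empty, bot_sup_eq]
  have hrx := hr {x} (single_sub hx)
  by_cases hu : (Pi.single (⟨x, hx⟩ : Fin n) (1 : K) : Fin n → K) ∈ Rel
  · have hle : KS K n {x} ≤ Rel := by
      intro v hv
      rw [eq_unit hx hv]
      exact Submodule.smul_mem _ _ hu
    have htop0 : Submodule.comap c Rel = ⊤ := by
      rw [← sup_eq_right.2 hle]
      exact htop
    refine Or.inl ⟨by rw [hrx, sup_eq_right.2 hle, sub_self], ?_⟩
    refine Prod.ext (by rw [hker, htop0]; rfl) ?_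
    rw [htr]
    ext p
    constructor
    · rintro ⟨F, hF, h1, h2⟩
      rcases Finset.subset_singleton_iff.1 hF with h | h
      · subst h
        rw [hbot, htop0] at h2
        exact ⟨Or.inl h1, h2⟩
      · subst h
        rw [htop] at h2
        exact ⟨Or.inr h1, h2⟩
    · rintro ⟨h1 | h1, h2⟩
      · exact ⟨∅, Finset.empty_subset _, h1, by rw [hbot, htop0]; exact h2⟩
      · exact ⟨{x}, Finset.Subset.refl _, h1, by rw [htop]; exact h2⟩
  · have hinf : KS K n {x} ⊓ Rel = ⊥ := by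
      rw [eq_bot_iff]
      intro v hv
      obtain ⟨hv1, hv2⟩ := Submodule.mem_inf.1 hv
      have e := eq_unit hx hv1
      by_cases h0 : v ⟨x, hx⟩ = 0
      · rw [h0, zero_smul] at e
        rw [Submodule.mem_bot]
        exact e
      · exfalso
        apply hu
        have h3 := Submodule.smul_mem Rel (v ⟨x, hx⟩)⁻¹ hv2
        rw [e, smul_smul, Pi.smul_apply, Pi.single_eq_same, smul_eq_mul, mul_one, inv_mul_cancel₀ h0,
          one_smul] at h3
        exact h3
    have hdim := Submodule.finrank_sup_add_finrank_inf_eq (KS K n {x}) Rel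
    rw [hinf, finrank_bot, add_zero, ks_finrank (single_sub hx), Finset.card_singleton] at hdim
    refine Or.inr ⟨by rw [hrx, hdim]; push_cast; ring, LinearMap.proj (⟨x, hx⟩ : Fin n) ∘ₗ c, ?_⟩
    have hφ : Submodule.comap c Rel = LinearMap.ker (LinearMap.proj (⟨x, hx⟩ : Fin n) ∘ₗ c) := by
      ext y
      rw [Submodule.mem_comap, LinearMap.mem_ker, LinearMap.comp_apply, LinearMap.proj_apply]
      constructor
      · intro hy
        have h3 : c y ∈ KS K n {x} ⊓ Rel := ⟨hcX y, hy⟩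
        rw [hinf, Submodule.mem_bot] at h3
        rw [h3, Pi.zero_apply]
      · intro hy
        rw [eq_unit hx (hcX y), hy, zero_smul]
        exact Submodule.zero_mem _
    refine Prod.ext (by rw [hker, hφ]; rfl) ?_
    rw [htr]
    ext p
    constructor
    · rintro ⟨F, hF, h1, h2⟩
      rcases Finset.subset_singleton_iff.1 hF with h | h
      · subst h
        rw [hbot, hφ] at h2
        exact Or.inl ⟨h1, h2⟩
      · subst h
        rw [htop] at h2
        exact Or.inr ⟨h1, h2⟩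
    · rintro (⟨h1, h2⟩ | ⟨h1, h2⟩)
      · exact ⟨∅, Finset.empty_subset _, h1, by rw [hbot, hφ]; exact h2⟩
      · exact ⟨{x}, Finset.Subset.refl _, h1, by rw [htop]; exact h2⟩

end Pool.Agent.BW
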