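import Pool.Agent.BW.MkE
import Pool.Agent.BW.LefM

set_option autoImplicit false

/-!
# Module LefL: the entries of the leaves

`E = List.range n`, `t = [x]`, `x < n`. The entries made from `lefO e m s (a, (b, ρ))`:
 * `ρ = 0`: relations `[1 · u]`, interface vectors `0 · u` (`m` times), `u = unitL P E [x]` the unit
 vector (`lcL_one`, `unitL_dec`): `eRel = KS {x}`, `eMap = 0`;
 * `ρ ≠ 0`: no relations, interface vectors `φ (unit i) · u`: `eRel = ⊥`, `eMap = φ.smulRight u`.
`EOK` with `a = 1`: at most one relation.
The theorem: for every outcome `o` of a leaf the entry is of the right shape and sound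
(`snd_lef0`, `snd_lef1`), where `decS (codS σ) = σ` (`decS_codS`).
-/

namespace Pool.Agent.BW

open Finset Module

variable {K : Type} [Field K] [Fintype K] (e : Fin (Fintype.card K) ≃ K) {m s n x : ℕ}

theorem codS_lt (σ : StS K m s) : codS σ < nSt K m s := by
  exact (Finite.equivFin (StS K m s) σ).2

theorem decS_codS (σ : StS K m s) : decS K m s (codS σ) = σ := by
  unfold decS
  rw [dif_pos (codS_lt σ)]
  exact (Finite.equivFin (StS K m s)).symm_apply_apply σ

theorem codS_decS {a : ℕ} (ha : a < nSt K m s) : codS (decS K m s a) = a := by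
  unfold decS
  rw [dif_pos ha]
  unfold codS
  rw [Equiv.apply_symm_apply]

omit [Fintype K] in
private theorem ll_span (hx : x < n) :
    Submodule.span K {(Pi.single (⟨x, hx⟩ : Fin n) (1 : K) : Fin n → K)} = KS K n {x} := by
  apply le_antisymm
  · rw [Submodule.span_singleton_le_iff_mem]
    intro i hi
    refine Pi.single_eq_of_ne ?_ _
    rintro rfl
    exact hi (Finset.mem_singleton_self x)
  · intro v hv
    rw [Submodule.mem_span_singleton]
    refine ⟨v ⟨x, hx⟩, ?_⟩
    funext i
    by_cases hi : i = ⟨x, hx⟩
    · rw [hi, Pi.smul_apply, Pi.single_eq_same, smul_eq_mul, mul_one]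
    · rw [Pi.smul_apply, Pi.single_eq_of_ne hi, smul_zero]
      refine (hv i fun hmem => hi ?_).symm
      exact Fin.ext (Finset.mem_singleton.1 hmem)

private theorem ll_take (hx : x < n) (L : List (List ℕ)) (hL : L.length ≤ 1) :
    L.take (((List.range n).flatMap fun _ => List.range (prmK e m s).cap).length) = L := by
  apply List.take_of_length_le
  refine hL.trans ?_
  have h7 : ((List.range n).flatMap fun _ => List.range (prmK e m s).cap).length =
      n * (Fintype.card K ^ (2 * m) + 1) := by
    rw [List.length_flatMap]
    simp only [List.length_range]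
    rw [List.map_const', List.sum_replicate, smul_eq_mul, List.length_range]
    rfl
  rw [h7]
  exact Nat.mul_pos (by omega) (Nat.succ_pos _)

private theorem ll_dec (hx : x < n) (a : K) :
    decV e n (lcL (prmK e m s) (List.range n) [cod e a]
      [unitL (prmK e m s) (List.range n) [x]]) =
      a • (Pi.single (⟨x, hx⟩ : Fin n) (1 : K) : Fin n → K) := by
  have h1 := lcL_one (m := m) (s := s) e (E := List.range n) (v := unitL (prmK e m s) (List.range n) [x]) a
    (unitL_ok e _ _)
  rw [List.length_range] at h1
  rw [h1, unitL_dec e hx]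

private theorem ll_ok (c : List ℕ) (hc : ∀ a ∈ c, a < Fintype.card K) :
    VOK (Fintype.card K) n (lcL (prmK e m s) (List.range n) c
      [unitL (prmK e m s) (List.range n) [x]]) := by
  have h1 := lcL_ok (m := m) (s := s) e (E := List.range n) (c := c)
    (vs := [unitL (prmK e m s) (List.range n) [x]]) hc (by
      intro v hv
      rw [List.mem_singleton] at hv
      rw [hv]
      exact unitL_ok e _ _)
  rw [List.length_range] at h1
  exact h1

private theorem ll_sgl (a : K) : ∀ b ∈ [cod e a], b < Fintype.card K := by
  intro b hb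
  rw [List.mem_singleton] at hb
  rw [hb]
  exact cod_lt e a

/-- the interface map of an entry with vectors given by scalars -/
private theorem ll_map (hx : x < n) (f : Fin m → K) (q : ℕ) (rl : List (List ℕ)) :
    eMap e n m (q, ((List.ofFn fun i : Fin m => [cod e (f i)]).map (fun c => lcL (prmK e m s)
      (List.range n) c [unitL (prmK e m s) (List.range n) [x]]), rl)) =
      ∑ i : Fin m, (LinearMap.proj i).smulRight
        (f i • (Pi.single (⟨x, hx⟩ : Fin n) (1 : K) : Fin n → K)) := by
  unfold eMap
  refine Finset.sum_congr rfl fun i _ => ?_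
  congr 1
  have h1 : (((List.ofFn fun i : Fin m => [cod e (f i)]).map (fun c => lcL (prmK e m s)
      (List.range n) c [unitL (prmK e m s) (List.range n) [x]])).getD (i : ℕ) []) =
      lcL (prmK e m s) (List.range n) [cod e (f i)] [unitL (prmK e m s) (List.range n) [x]] := by
    rw [List.getD_eq_getElem _ _ (by rw [List.length_map, List.length_ofFn]; exact i.2),
      List.getElem_map, List.getElem_ofFn]
  show decV e n (((List.ofFn fun i : Fin m => [cod e (f i)]).map (fun c => lcL (prmK e m s)
      (List.range n) c [unitL (prmK e m s) (List.range n) [x]])).getD (i : ℕ) []) = _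
  rw [h1, ll_dec e hx]

theorem lef_sound {r : Finset ℕ → ℤ} {cl : Finset ℕ → ℕ} (hx : x < n) (h0 : r ∅ = 0)
    (h1 : r {x} = 0 ∨ r {x} = 1) (hs : ∀ F ⊆ {x}, cl F < s) (ρx : ℕ) (hρ : (ρx : ℤ) = r {x})
    (o : Outc) (ho : o ∈ lefO e m s (cl ∅, (cl {x}, ρx))) :
    EOK K m n 1 (mkE (prmK e m s) (List.range n) [unitL (prmK e m s) (List.range n) [x]] [] o) ∧
    Snd n r cl {x}
      (eRel e n (mkE (prmK e m s) (List.range n) [unitL (prmK e m s) (List.range n) [x]] [] o))
      (eMap e n m (mkE (prmK e m s) (List.range n) [unitL (prmK e m s) (List.range n) [x]] [] o))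
      (decS K m s o.1) ∧ o.1 < nSt K m s := by
  unfold lefO at ho
  by_cases h2 : ρx = 0
  · rw [if_pos h2, List.mem_singleton] at ho
    have hr0 : r {x} = 0 := by rw [← hρ, h2]; rfl
    subst ho
    have hE : mkE (prmK e m s) (List.range n) [unitL (prmK e m s) (List.range n) [x]] []
        (codS (lst0 K m s (cl ∅) (cl {x})),
          ([[cod e 1]], List.ofFn fun _ : Fin m => [cod e 0])) =
        (codS (lst0 K m s (cl ∅) (cl {x})),
          ((List.ofFn fun _ : Fin m => [cod e 0]).map (fun c => lcL (prmK e m s) (List.range n) c
            [unitL (prmK e m s) (List.range n) [x]]),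
          [lcL (prmK e m s) (List.range n) [cod e 1] [unitL (prmK e m s) (List.range n) [x]]])) := by
      unfold mkE
      refine Prod.ext rfl (Prod.ext rfl ?_)
      exact ll_take (m := m) (s := s) e hx
        [lcL (prmK e m s) (List.range n) [cod e 1] [unitL (prmK e m s) (List.range n) [x]]] le_rfl
    refine ⟨?_, ?_, codS_lt _⟩
    · rw [hE]
      refine ⟨?_, ?_, ?_, ?_⟩
      · show ((List.ofFn fun _ : Fin m => [cod e 0]).map _).length = m
        rw [List.length_map, List.length_ofFn]
      · intro v hv
        obtain ⟨c, hc, rfl⟩ := List.mem_map.1 hv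
        rw [List.mem_ofFn] at hc
        obtain ⟨i, rfl⟩ := hc
        exact ll_ok e _ (ll_sgl e 0)
      · intro v hv
        have hv' : v ∈ [lcL (prmK e m s) (List.range n) [cod e 1]
          [unitL (prmK e m s) (List.range n) [x]]] := hv
        rw [List.mem_singleton] at hv'
        rw [hv']
        exact ll_ok e _ (ll_sgl e 1)
      · show 1 + Fintype.card K ^ (2 * m) ≤ 1 * (Fintype.card K ^ (2 * m) + 1)
        omega
    · rw [hE, ll_map e hx (fun _ => 0)]
      have hmap : (∑ i : Fin m, (LinearMap.proj i : (Fin m → K) →ₗ[K] K).smulRight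
          ((0 : K) • (Pi.single (⟨x, hx⟩ : Fin n) (1 : K) : Fin n → K))) = 0 := by
        refine Finset.sum_eq_zero fun i _ => ?_
        apply LinearMap.ext
        intro y
        rw [LinearMap.smulRight_apply, zero_smul, smul_zero, LinearMap.zero_apply]
      rw [hmap]
      have hrel : eRel e n (codS (lst0 K m s (cl ∅) (cl {x})),
          ((List.ofFn fun _ : Fin m => [cod e 0]).map (fun c => lcL (prmK e m s) (List.range n) c
            [unitL (prmK e m s) (List.range n) [x]]),
          [lcL (prmK e m s) (List.range n) [cod e 1] [unitL (prmK e m s) (List.range n) [x]]])) =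
          KS K n {x} := by
        rw [← ll_span hx]
        unfold eRel
        congr 1
        ext v
        constructor
        · rintro ⟨l, hl, rfl⟩
          have hl' : l ∈ [lcL (prmK e m s) (List.range n) [cod e 1]
            [unitL (prmK e m s) (List.range n) [x]]] := hl
          rw [List.mem_singleton] at hl'
          rw [hl', ll_dec e hx, one_smul]
          exact Set.mem_singleton _
        · intro hv
          rw [Set.mem_singleton_iff] at hv
          refine ⟨_, List.mem_singleton.2 rfl, ?_⟩
          rw [ll_dec e hx, one_smul, hv]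
      rw [hrel]
      show Snd n r cl {x} (KS K n {x}) 0 (decS K m s (codS (lst0 K m s (cl ∅) (cl {x}))))
      rw [decS_codS]
      exact snd_lef0 hx h0 hr0 hs
  · rw [if_neg h2, List.mem_map] at ho
    obtain ⟨φ, -, rfl⟩ := ho
    have hr1 : r {x} = 1 := by
      rcases h1 with h | h
      · exfalso
        rw [h] at hρ
        exact h2 (by exact_mod_cast hρ)
      · exact h
    have hE : mkE (prmK e m s) (List.range n) [unitL (prmK e m s) (List.range n) [x]] []
        (codS (lst1 K m s (cl ∅) (cl {x}) φ),
          (([] : List (List ℕ)), List.ofFn fun i : Fin m => [cod e (φ (Pi.single i 1))])) =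
        (codS (lst1 K m s (cl ∅) (cl {x}) φ),
          ((List.ofFn fun i : Fin m => [cod e (φ (Pi.single i 1))]).map
            (fun c => lcL (prmK e m s) (List.range n) c
            [unitL (prmK e m s) (List.range n) [x]]), ([] : List (List ℕ)))) := by
      unfold mkE
      refine Prod.ext rfl (Prod.ext rfl ?_)
      exact ll_take (m := m) (s := s) e hx ([] : List (List ℕ)) (Nat.zero_le _)
    refine ⟨?_, ?_, codS_lt _⟩
    · rw [hE]
      refine ⟨?_, ?_, ?_, ?_⟩
      · show ((List.ofFn fun i : Fin m => [cod e (φ (Pi.single i 1))]).map _).length = m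
        rw [List.length_map, List.length_ofFn]
      · intro v hv
        obtain ⟨c, hc, rfl⟩ := List.mem_map.1 hv
        rw [List.mem_ofFn] at hc
        obtain ⟨i, rfl⟩ := hc
        exact ll_ok e _ (ll_sgl e _)
      · intro v hv
        exact absurd hv (List.not_mem_nil)
      · show 0 + Fintype.card K ^ (2 * m) ≤ 1 * (Fintype.card K ^ (2 * m) + 1)
        omega
    · rw [hE, ll_map e hx (fun i => φ (Pi.single i 1))]
      have hmap : (∑ i : Fin m, (LinearMap.proj i : (Fin m → K) →ₗ[K] K).smulRight
          (φ (Pi.single i 1) • (Pi.single (⟨x, hx⟩ : Fin n) (1 : K) : Fin n → K))) =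
          φ.smulRight (Pi.single (⟨x, hx⟩ : Fin n) (1 : K) : Fin n → K) := by
        apply LinearMap.ext
        intro y
        rw [LinearMap.sum_apply, LinearMap.smulRight_apply]
        have hy : φ y = ∑ i : Fin m, y i * φ (Pi.single i 1) := by
          have hx' : y = ∑ i : Fin m, y i • (Pi.single i (1 : K) : Fin m → K) := by
            funext j
            rw [Finset.sum_apply, Finset.sum_eq_single j]
            · rw [Pi.smul_apply, Pi.single_eq_same, smul_eq_mul, mul_one]
            · intro i _ hi
              rw [Pi.smul_apply, Pi.single_eq_of_ne (Ne.symm hi), smul_zero]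
            · intro h
              exact absurd (Finset.mem_univ _) h
          conv_lhs => rw [hx']
          rw [map_sum]
          refine Finset.sum_congr rfl fun i _ => ?_
          rw [map_smul, smul_eq_mul]
        rw [hy, Finset.sum_smul]
        refine Finset.sum_congr rfl fun i _ => ?_
        rw [LinearMap.smulRight_apply, LinearMap.proj_apply, smul_smul]
      rw [hmap]
      have hrel : eRel e n (codS (lst1 K m s (cl ∅) (cl {x}) φ),
          ((List.ofFn fun i : Fin m => [cod e (φ (Pi.single i 1))]).map
            (fun c => lcL (prmK e m s) (List.range n) c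
            [unitL (prmK e m s) (List.range n) [x]]), ([] : List (List ℕ)))) =
          (⊥ : Submodule K (Fin n → K)) := by
        unfold eRel
        rw [Submodule.span_eq_bot]
        rintro v ⟨l, hl, -⟩
        exact absurd hl (List.not_mem_nil)
      rw [hrel]
      show Snd n r cl {x} ⊥ _ (decS K m s (codS (lst1 K m s (cl ∅) (cl {x}) φ)))
      rw [decS_codS]
      exact snd_lef1 hx h0 hr1 hs φ

end Pool.Agent.BW
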