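import Pool.Agent.BW.DimL

set_option autoImplicit false

/-! # Module SndS: one step of the dynamic program is sound -/

namespace Pool.Agent.BW

open Finset Module

private theorem snd_split {K : Type} [Field K] {n : ℕ} {X₁ X₂ F : Finset ℕ} (hF : F ⊆ X₁ ∪ X₂)
    (R₁ R₂ M : Submodule K (Fin n → K)) :
    KS K n F ⊔ (R₁ ⊔ R₂ ⊔ M) = (KS K n (F ∩ X₁) ⊔ R₁) ⊔ (KS K n (F ∩ X₂) ⊔ R₂) ⊔ M := by
  have e : KS K n F = KS K n (F ∩ X₁) ⊔ KS K n (F ∩ X₂) := by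
    rw [← ks_union, ← Finset.inter_union_distrib_left, Finset.inter_eq_left.2 hF]
  rw [e]
  ac_rfl

theorem snd_step {K : Type} [Field K] {m s n : ℕ} {r : Finset ℕ → ℤ} {cl₁ cl₂ cl : Finset ℕ → ℕ}
    {X₁ X₂ : Finset ℕ} {Rel₁ Rel₂ : Submodule K (Fin n → K)}
    {c₁ c₂ : (Fin m → K) →ₗ[K] (Fin n → K)} {σ₁ σ₂ : StS K m s} {δ J : ℕ → ℕ → ℕ} {g : Cfg K m}
    (h1 : Snd n r cl₁ X₁ Rel₁ c₁ σ₁) (h2 : Snd n r cl₂ X₂ Rel₂ c₂ σ₂) (hd : Disjoint X₁ X₂)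
    (hδ : ∀ F₁ ⊆ X₁, ∀ F₂ ⊆ X₂, δ (cl₁ F₁) (cl₂ F₂) = cl (F₁ ∪ F₂))
    (hJ : ∀ F₁ ⊆ X₁, ∀ F₂ ⊆ X₂, (J (cl₁ F₁) (cl₂ F₂) : ℤ) = r F₁ + r F₂ - r (F₁ ∪ F₂))
    (hs : ∀ F ⊆ X₁ ∪ X₂, cl F < s) (hg : Vld J σ₁ σ₂ g) :
    Snd n r cl (X₁ ∪ X₂) (Rel₁ ⊔ Rel₂ ⊔ Submodule.map (c₁.coprod c₂) g.1)
      ((c₁.coprod c₂) ∘ₗ g.2) (nxt δ σ₁ σ₂ g) := by
  have hC : ∀ w, (c₁.coprod c₂) w ∈ KS K n (X₁ ∪ X₂) := by
    intro w
    rw [LinearMap.coprod_apply]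
    exact Submodule.add_mem _ (ks_mono Finset.subset_union_left (h1.cX _))
      (ks_mono Finset.subset_union_right (h2.cX _))
  have hU : ∀ F ⊆ X₁ ∪ X₂, F ∩ X₁ ∪ F ∩ X₂ = F := by
    intro F hF
    rw [← Finset.inter_union_distrib_left, Finset.inter_eq_left.2 hF]
  have hA₁ : ∀ F : Finset ℕ, KS K n (F ∩ X₁) ⊔ Rel₁ ≤ KS K n X₁ := fun F =>
    sup_le (ks_mono Finset.inter_subset_right) h1.relX
  have hA₂ : ∀ F : Finset ℕ, KS K n (F ∩ X₂) ⊔ Rel₂ ≤ KS K n X₂ := fun F =>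
    sup_le (ks_mono Finset.inter_subset_right) h2.relX
  refine ⟨?_, fun x => hC _, ?_, ?_, ?_⟩
  · refine sup_le (sup_le (le_trans h1.relX (ks_mono Finset.subset_union_left))
      (le_trans h2.relX (ks_mono Finset.subset_union_right))) ?_
    rintro _ ⟨w, _, rfl⟩
    exact hC w
  · have e := comap_merge hd h1.relX h2.relX h1.cX h2.cX g.1
    rw [← h1.ker, ← h2.ker] at e
    rw [Submodule.comap_comp, e]
    rfl
  · intro F hF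
    obtain ⟨p, hp, hp1, hp2⟩ := h1.tr (F ∩ X₁) Finset.inter_subset_right
    obtain ⟨q, hq, hq1, hq2⟩ := h2.tr (F ∩ X₂) Finset.inter_subset_right
    refine ⟨(⟨cl F, hs F hF⟩, Submodule.comap g.2 (p.2.prod q.2 ⊔ g.1)), ⟨p, hp, q, hq, ?_, rfl⟩,
      rfl, ?_⟩
    · show cl F = δ p.1 q.1
      rw [hp1, hq1, hδ _ Finset.inter_subset_right _ Finset.inter_subset_right, hU F hF]
    · have e := comap_merge hd (hA₁ F) (hA₂ F) h1.cX h2.cX g.1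
      rw [← hp2, ← hq2, ← snd_split hF] at e
      show Submodule.comap g.2 (p.2.prod q.2 ⊔ g.1) = _
      rw [Submodule.comap_comp, e]
  · intro F hF
    obtain ⟨p, hp, hp1, hp2⟩ := h1.tr (F ∩ X₁) Finset.inter_subset_right
    obtain ⟨q, hq, hq1, hq2⟩ := h2.tr (F ∩ X₂) Finset.inter_subset_right
    have e1 := dim_merge hd (hA₁ F) (hA₂ F) h1.cX h2.cX g.1
    have e2 := dim_merge hd h1.relX h2.relX h1.cX h2.cX g.1
    rw [← hp2, ← hq2, ← snd_split hF] at e1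
    rw [← h1.ker, ← h2.ker] at e2
    have e3 := hg p hp q hq
    have e4 := hJ _ (Finset.inter_subset_right : F ∩ X₁ ⊆ X₁) _ (Finset.inter_subset_right : F ∩ X₂ ⊆ X₂)
    rw [← hp1, ← hq1, hU F hF] at e4
    have e5 := h1.rk (F ∩ X₁) Finset.inter_subset_right
    have e6 := h2.rk (F ∩ X₂) Finset.inter_subset_right
    zify at e1 e2 e3
    linarith

end Pool.Agent.BW
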