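import Pool.Agent.BW.OsF

set_option autoImplicit false

/-!
# Module Tab: the table

The keys of the table are the members of `F.reverse` in this order; a lookup of a key in an initial part gives the
same as in the whole table; the children of `t` come before `t`.
-/

namespace Pool.Agent.BW

open Finset
open Pool.Agent.G4 (IsRk lam dualR nor dif word prd)

private theorem fold_keys (f : List (List ℕ × List Entry) → List ℕ → List Entry) (l : List (List ℕ)) :
    ∀ acc : List (List ℕ × List Entry),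
      (l.foldl (fun tab t => tab ++ [(t, f tab t)]) acc).map Prod.fst = acc.map Prod.fst ++ l := by
  induction l with
  | nil => intro acc; simp
  | cons a l ih =>
    intro acc
    rw [List.foldl_cons, ih]
    simp

private theorem fold_prefix (f : List (List ℕ × List Entry) → List ℕ → List Entry) (l : List (List ℕ)) :
    ∀ acc : List (List ℕ × List Entry), ∃ rest,
      l.foldl (fun tab t => tab ++ [(t, f tab t)]) acc = acc ++ rest := by
  induction l with
  | nil => intro acc; exact ⟨[], by simp⟩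
  | cons a l ih =>
    intro acc
    rw [List.foldl_cons]
    obtain ⟨rest, h⟩ := ih (acc ++ [(a, f acc a)])
    exact ⟨(a, f acc a) :: rest, by rw [h]; simp⟩

private theorem look_append (tab rest : List (List ℕ × List Entry)) (u : List ℕ)
    (h : u ∈ tab.map Prod.fst) : look (tab ++ rest) u = look tab u := by
  unfold look
  rw [List.filter_append]
  obtain ⟨q, hq, rfl⟩ := List.mem_map.1 h
  have hmem : q ∈ tab.filter fun p => decide (p.1 = q.1) :=
    List.mem_filter.2 ⟨hq, decide_eq_true rfl⟩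
  cases hfil : tab.filter fun p => decide (p.1 = q.1) with
  | nil => rw [hfil] at hmem; simp at hmem
  | cons a l => simp

private theorem look_new (tab rest : List (List ℕ × List Entry)) (t : List ℕ) (v : List Entry)
    (h : t ∉ tab.map Prod.fst) : look (tab ++ (t, v) :: rest) t = v := by
  unfold look
  rw [List.filter_append]
  have hfil : tab.filter (fun p => decide (p.1 = t)) = [] := by
    rw [List.filter_eq_nil_iff]
    intro q hq hd
    exact h (List.mem_map.2 ⟨q, hq, of_decide_eq_true hd⟩)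
  rw [hfil, List.nil_append, List.filter_cons_of_pos (by simp)]
  rfl

private theorem chl_spec {E : List ℕ} {D : Finset ℕ} {r : Finset ℕ → ℤ} {m : ℕ} {F : List (List ℕ)}
    (hE : E.Nodup) (hF : FamOK r E m D F) (t : List ℕ) (ht : t ∈ F) (p : List ℕ × List ℕ)
    (hp : p ∈ chl E F t) : p.1 ∈ F ∧ p.2 ∈ F ∧
      Disjoint p.1.toFinset p.2.toFinset ∧ p.1.toFinset ∪ p.2.toFinset = t.toFinset ∧
      p.1.length + p.2.length = t.length ∧ 1 ≤ p.1.length ∧ 1 ≤ p.2.length := by
  obtain ⟨⟨h1, h2⟩, h3, h4⟩ := (mem_chl hE hF.sub (hF.sub t ht)).1 hp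
  have c1 := can_card hE (hF.sub _ h1)
  have c2 := can_card hE (hF.sub _ h2)
  have c3 := can_card hE (hF.sub _ ht)
  have c4 := Finset.card_union_of_disjoint h3
  rw [h4] at c4
  have n1 := Finset.card_pos.2 (hF.bin.ne _ (mem_famF.2 ⟨_, h1, rfl⟩))
  have n2 := Finset.card_pos.2 (hF.bin.ne _ (mem_famF.2 ⟨_, h2, rfl⟩))
  exact ⟨h1, h2, h3, h4, by omega, by omega, by omega⟩

theorem look_tabl {E : List ℕ} {D : Finset ℕ} {r : Finset ℕ → ℤ} {m : ℕ} (P : Prm)
    (ρ : List ℕ → ℕ) (k c s : ℕ) (F : List (List ℕ)) (hE : E.Nodup) (hF : FamOK r E m D F)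
    (hp : F.Pairwise fun t b => ¬ t.toFinset ⊆ b.toFinset) (t : List ℕ) (ht : t ∈ F) :
    look (tabl P ρ E k c s F) t = entr P ρ E k c s F (tabl P ρ E k c s F) t := by
  obtain ⟨l₁, l₂, hl⟩ := List.append_of_mem (List.mem_reverse.2 ht)
  have hFl : F = l₂.reverse ++ t :: l₁.reverse := by
    have h1 := congrArg List.reverse hl
    rw [List.reverse_reverse] at h1
    rw [h1]
    simp
  have hnd : (l₁ ++ t :: l₂).Nodup := by
    rw [← hl]
    exact List.nodup_reverse.2 hF.nd
  have htn : t ∉ l₁ := by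
    intro h
    exact (List.nodup_append.1 hnd).2.2 t h t (List.mem_cons_self ..) rfl
  set f := entr P ρ E k c s F with hf
  set tab₁ := l₁.foldl (fun tab t => tab ++ [(t, f tab t)]) [] with htab₁
  have hk1 : tab₁.map Prod.fst = l₁ := by
    rw [htab₁, fold_keys]
    simp
  obtain ⟨rest, hrest⟩ := fold_prefix f l₂ (tab₁ ++ [(t, f tab₁ t)])
  have htabl : tabl P ρ E k c s F = tab₁ ++ (t, f tab₁ t) :: rest := by
    unfold tabl
    rw [hl, List.foldl_append, List.foldl_cons]
    refine hrest.trans ?_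
    simp
  have h1 : look (tabl P ρ E k c s F) t = f tab₁ t := by
    rw [htabl]
    exact look_new _ _ _ _ (by rw [hk1]; exact htn)
  have hlook : ∀ u ∈ l₁, look tab₁ u = look (tabl P ρ E k c s F) u := by
    intro u hu
    rw [htabl, look_append _ _ _ (by rw [hk1]; exact hu)]
  have hkid : ∀ u v : List ℕ, u ∈ F → v ∈ F → Disjoint u.toFinset v.toFinset →
      u.toFinset ∪ v.toFinset = t.toFinset → 1 ≤ v.length → u ∈ l₁ := by
    intro u v hu hv hd hU hv1
    rw [hFl] at hu
    rcases List.mem_append.1 hu with hu | hu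
    · exfalso
      rw [hFl] at hp
      exact (List.pairwise_append.1 hp).2.2 u hu t (List.mem_cons_self ..)
        (by rw [← hU]; exact Finset.subset_union_left)
    · rcases List.mem_cons.1 hu with hu | hu
      · exfalso
        rw [hu] at hd hU
        have h2 : v.toFinset ⊆ t.toFinset := by
          rw [← hU]; exact Finset.subset_union_right
        obtain ⟨x, hx⟩ := List.exists_mem_of_length_pos hv1
        have hx' := List.mem_toFinset.2 hx
        exact Finset.disjoint_left.1 hd (h2 hx') hx'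
      · exact List.mem_reverse.1 hu
  rw [h1, hf]
  unfold entr
  congr 1
  by_cases hlen : t.length ≤ 1
  · rw [if_pos hlen, if_pos hlen]
  · rw [if_neg hlen, if_neg hlen]
    refine List.flatMap_congr ?_
    intro p hpm
    have hp' : p ∈ chl E F t := List.mem_of_mem_take hpm
    obtain ⟨k1, k2, k3, k4, k5, k6, k7⟩ := chl_spec hE hF t ht p hp'
    have m1 : p.1 ∈ l₁ := hkid p.1 p.2 k1 k2 k3 k4 k7
    have m2 : p.2 ∈ l₁ := hkid p.2 p.1 k2 k1 k3.symm (by rw [Finset.union_comm]; exact k4) k6
    rw [hlook p.1 m1, hlook p.2 m2]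

/-- in a decomposition every set with at least two elements has children -/
theorem chl_head {E : List ℕ} {D : Finset ℕ} {r : Finset ℕ → ℤ} {m : ℕ} {F : List (List ℕ)}
    (hE : E.Nodup) (hF : FamOK r E m D F) (t : List ℕ) (ht : t ∈ F) (h2 : 2 ≤ t.length) :
    ∃ p : List ℕ × List ℕ, (chl E F t).take 1 = [p] ∧ p.1 ∈ F ∧ p.2 ∈ F ∧
      Disjoint p.1.toFinset p.2.toFinset ∧ p.1.toFinset ∪ p.2.toFinset = t.toFinset ∧
      p.1.length + p.2.length = t.length ∧ 1 ≤ p.1.length ∧ 1 ≤ p.2.length := by
  have hc : 2 ≤ t.toFinset.card := by rw [can_card hE (hF.sub t ht)]; exact h2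
  obtain ⟨B₁, hB₁, B₂, hB₂, hd, hU⟩ := hF.bin.spl _ (mem_famF.2 ⟨t, ht, rfl⟩) hc
  obtain ⟨b₁, hb₁, rfl⟩ := mem_famF.1 hB₁
  obtain ⟨b₂, hb₂, rfl⟩ := mem_famF.1 hB₂
  have hmem : (b₁, b₂) ∈ chl E F t := (mem_chl hE hF.sub (hF.sub t ht)).2 ⟨⟨hb₁, hb₂⟩, hd, hU⟩
  cases hch : chl E F t with
  | nil => rw [hch] at hmem; simp at hmem
  | cons p l =>
    have hp : p ∈ chl E F t := by rw [hch]; exact List.mem_cons_self ..
    exact ⟨p, rfl, chl_spec hE hF t ht p hp⟩

/-- the list with one entry for each state -/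
theorem mem_pick (P : Prm) (l : List Entry) (en : Entry) (h : en ∈ pick P l) :
    en ∈ l ∧ en.1 < P.nst := by
  unfold pick at h
  obtain ⟨c, hc, he⟩ := List.mem_flatMap.1 h
  have h1 := List.mem_filter.1 (List.mem_of_mem_take he)
  refine ⟨h1.1, ?_⟩
  rw [of_decide_eq_true h1.2]
  exact List.mem_range.1 hc

theorem pick_exists (P : Prm) (l : List Entry) (en : Entry) (h : en ∈ l) (hn : en.1 < P.nst) :
    ∃ en' ∈ pick P l, en'.1 = en.1 := by
  have hmem : en ∈ l.filter fun e => decide (e.1 = en.1) :=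
    List.mem_filter.2 ⟨h, decide_eq_true rfl⟩
  cases hfil : l.filter fun e => decide (e.1 = en.1) with
  | nil => rw [hfil] at hmem; simp at hmem
  | cons a l' =>
    have ha : a ∈ l.filter fun e => decide (e.1 = en.1) := by
      rw [hfil]; exact List.mem_cons_self ..
    refine ⟨a, ?_, of_decide_eq_true (List.mem_filter.1 ha).2⟩
    unfold pick
    refine List.mem_flatMap.2 ⟨en.1, List.mem_range.2 hn, ?_⟩
    rw [hfil]
    exact List.mem_cons_self ..

end Pool.Agent.BW
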