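import Pool.Agent.BW.Typ
import Pool.Agent.BW.Tab
import Pool.Agent.BW.LefL
import Pool.Agent.BW.SndS
import Pool.Agent.BW.AdmE
import Pool.Agent.BW.AdmS

set_option autoImplicit false

/-!
# Module Ind: the table is sound and complete

`E = List.range n`, `m = 3 k + 1`, `F = osFam ρ E k E`, `P = prmK e m (ncl K k)`,
`tb K e ρ n k` = the table. `hF : FamOK` and the order property come from `osFam_spec`, `osFam_pw`
(`lam E = 0`).

`ind_sound` by strong induction on `t.length`: `look (tb ..) t = pick P (..)` (`look_tabl`, `entr`);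
`mem_pick`.
 Leaf (`t.length ≤ 1`; `t` is nonempty, so `t = [x]`, `x < n`): the entry is `mkE .. o` with
 `o ∈ lefK e m s (typL ..)`, `typL = (clF ∅, (clF {x}, ρ t))` (`lst E ∅ = []`, `lst E {x} = [x]`),
 so `o ∈ lefO ..`, `ρ t ≤ 1`; `lef_sound`.
 Node: `chl_head` gives the children `p`; the entry is `mkE .. o`, `o ∈ mrgK e m s (typN .., (a, b))`
 with entries `en₁`, `en₂` of the children, `a = en₁.1`, `b = en₂.1`; so `o = (codS (nxt δ σ₁ σ₂ g),
 (relC e g, cofC e g))` with `Vld J σ₁ σ₂ g`, `σᵢ = decS enᵢ.1`. Use `mkE_ok`, `mkE_rel`, `mkE_map`,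
 `snd_step` (hypotheses `hδ`, `hJ` from `typ_spec`), `decS_codS`, `codS_lt`.
`ind_complete` by strong induction on `t.length`: leaf: `adm_lef` gives `σ = lst0` or `lst1`, an
 outcome in `lefO`, hence in `lefK` (`clF_lt`, `ρ t ≤ 1`); `pick_exists`. Node: `adm_exists` for the
 children gives `σ₁`, `σ₂`; the induction hypothesis gives entries with the codes `codS σᵢ`;
 `adm_step` gives `g`; the outcome of `g` is in `outs`, hence in `mrgK` (`typ_ok`); `pick_exists`.
-/

namespace Pool.Agent.BW

open Finset Module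
open Pool.Agent.G4 (IsRk lam dualR nor dif word prd)

/-- the table of the algorithm -/
noncomputable def tb (K : Type) [Field K] [Fintype K] (e : Fin (Fintype.card K) ≃ K)
    (ρ : List ℕ → ℕ) (n k : ℕ) : List (List ℕ × List Entry) :=
  tabl (prmK e (3 * k + 1) (ncl K k)) ρ (List.range n) k (rnd K k) (ncl K k)
    (osFam ρ (List.range n) k (List.range n))

variable {K V : Type} [Field K] [Fintype K] [AddCommGroup V] [Module K V] {v : ℕ → V}
variable {ρ : List ℕ → ℕ} {n k : ℕ}

omit [Fintype K] in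
private theorem lst_sub (n : ℕ) (F : Finset ℕ) : (lst (List.range n) F).Sublist (List.range n) :=
  List.filter_sublist

private theorem lst_toF {n : ℕ} {F : Finset ℕ} (hF : F ⊆ range n) :
    (lst (List.range n) F).toFinset = F := by
  ext x
  unfold lst
  rw [List.mem_toFinset, List.mem_filter, decide_eq_true_iff, List.mem_range]
  constructor
  · exact fun h => h.2
  · exact fun h => ⟨Finset.mem_range.1 (hF h), h⟩

private theorem lst_eq {n : ℕ} {t : List ℕ} (ht : t.Sublist (List.range n)) :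
    lst (List.range n) t.toFinset = t := by
  refine can_ext List.nodup_range List.filter_sublist ht ?_
  apply lst_toF
  intro x hx
  rw [List.mem_toFinset] at hx
  rw [Finset.mem_range, ← List.mem_range]
  exact ht.subset hx

private theorem lst_empty (n : ℕ) : lst (List.range n) ∅ = [] := by
  unfold lst
  simp

/-- the facts about the decomposition -/
private theorem fam_facts (hρ : RkS ρ (List.range n) (rkV K v))
    (hk : 1 ≤ k) (hn : 1 ≤ n) (hd : Dec (rkV K v) (range n) k (range n)) :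
    FamOK (rkV K v) (List.range n) (3 * k + 1) (range n) (osFam ρ (List.range n) k (List.range n)) ∧
    (osFam ρ (List.range n) k (List.range n)).Pairwise fun t b => ¬ t.toFinset ⊆ b.toFinset := by
  have hE : (List.range n).toFinset = range n := List.toFinset_range n
  have hne : List.range n ≠ [] := by
    intro h
    have := congrArg List.length h
    rw [List.length_range, List.length_nil] at this
    omega
  have hl : lam (rkV K v) (List.range n).toFinset (List.range n).toFinset ≤ 3 * k + 1 := by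
    unfold lam
    rw [Finset.sdiff_self, (isRk_rkV v).empty]
    omega
  have hd' : Dec (rkV K v) (List.range n).toFinset k (List.range n).toFinset := by
    rw [hE]
    exact hd
  have h1 := osFam_spec (isRk_rkV v) List.nodup_range hρ hk hd' (List.Sublist.refl _) hne hl
  have h2 := osFam_pw (isRk_rkV v) List.nodup_range hρ hk hd' (List.Sublist.refl _) hne hl
  rw [hE] at h1
  exact ⟨h1, h2⟩

private theorem mem_facts (hρ : RkS ρ (List.range n) (rkV K v))
    (hk : 1 ≤ k) (hn : 1 ≤ n) (hd : Dec (rkV K v) (range n) k (range n)) {t : List ℕ}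
    (ht : t ∈ osFam ρ (List.range n) k (List.range n)) :
    t.Sublist (List.range n) ∧ 1 ≤ t.length ∧ t.toFinset ⊆ range n ∧
      lam (rkV K v) (List.range n).toFinset t.toFinset ≤ 3 * k + 1 := by
  obtain ⟨hF, _⟩ := fam_facts hρ hk hn hd
  have h1 := hF.sub t ht
  have h2 : t.toFinset.Nonempty := hF.bin.ne _ (mem_famF.2 ⟨t, ht, rfl⟩)
  refine ⟨h1, ?_, ?_, ?_⟩
  · obtain ⟨x, hx⟩ := h2
    rw [List.mem_toFinset] at hx
    exact List.length_pos_of_mem hx
  · intro x hx
    rw [List.mem_toFinset] at hx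
    rw [Finset.mem_range, ← List.mem_range]
    exact h1.subset hx
  · have h3 := hF.wid t ht
    push_cast at h3
    exact h3

private theorem look_eq (e : Fin (Fintype.card K) ≃ K) (hρ : RkS ρ (List.range n) (rkV K v))
    (hk : 1 ≤ k) (hn : 1 ≤ n) (hd : Dec (rkV K v) (range n) k (range n)) {t : List ℕ}
    (ht : t ∈ osFam ρ (List.range n) k (List.range n)) :
    look (tb K e ρ n k) t = entr (prmK e (3 * k + 1) (ncl K k)) ρ (List.range n) k (rnd K k)
      (ncl K k) (osFam ρ (List.range n) k (List.range n)) (tb K e ρ n k) t := by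
  obtain ⟨hF, hp⟩ := fam_facts hρ hk hn hd
  exact look_tabl _ ρ k _ _ _ List.nodup_range hF hp t ht

private theorem typL_eq (ρ : List ℕ → ℕ) (n k x : ℕ) (hx : x < n) :
    typL ρ (List.range n) k (rnd K k) (ncl K k) [x] =
      (clF K ρ (List.range n) k [x] ∅, (clF K ρ (List.range n) k [x] {x}, ρ [x])) := by
  have h1 : ([x] : List ℕ).Sublist (List.range n) := by
    rw [List.singleton_sublist, List.mem_range]
    exact hx
  have h2 := lst_eq h1
  have h3 : ([x] : List ℕ).toFinset = {x} := by simp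
  rw [h3] at h2
  unfold typL clF
  rw [lst_empty, h2]

private theorem leaf_facts (hρ : RkS ρ (List.range n) (rkV K v))
    (hk : 1 ≤ k) (hn : 1 ≤ n) (hd : Dec (rkV K v) (range n) k (range n)) {t : List ℕ}
    (ht : t ∈ osFam ρ (List.range n) k (List.range n)) (h1 : t.length ≤ 1) :
    ∃ x, x < n ∧ t = [x] ∧ (∀ F ⊆ {x}, clF K ρ (List.range n) k [x] F < ncl K k) ∧
      (ρ [x] : ℤ) = rkV K v {x} ∧ (rkV K v {x} = 0 ∨ rkV K v {x} = 1) := by
  obtain ⟨hs, hl, hsub, hlam⟩ := mem_facts hρ hk hn hd ht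
  obtain ⟨x, rfl⟩ := List.length_eq_one_iff.1 (le_antisymm h1 hl)
  have hx : x < n := by
    rw [List.singleton_sublist, List.mem_range] at hs
    exact hs
  have h3 : ([x] : List ℕ).toFinset = {x} := by simp
  have hd' : Dec (rkV K v) (List.range n).toFinset k (List.range n).toFinset := by
    rw [List.toFinset_range]
    exact hd
  refine ⟨x, hx, rfl, ?_, ?_, ?_⟩
  · intro F hF
    exact clF_lt List.nodup_range hρ hk hd' hs hlam F (by rw [h3]; exact hF)
  · rw [hρ [x] (fun y hy => hs.subset hy), h3]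
  · have h4 := (isRk_rkV (K := K) v).nonneg {x}
    have h5 := (isRk_rkV (K := K) v).le_card {x}
    rw [Finset.card_singleton] at h5
    push_cast at h5
    omega

theorem ind_sound (e : Fin (Fintype.card K) ≃ K) (hρ : RkS ρ (List.range n) (rkV K v))
    (hk : 1 ≤ k) (hn : 1 ≤ n) (hd : Dec (rkV K v) (range n) k (range n)) (t : List ℕ)
    (ht : t ∈ osFam ρ (List.range n) k (List.range n)) (en : Entry)
    (hen : en ∈ look (tb K e ρ n k) t) :
    EOK K (3 * k + 1) n t.length en ∧ en.1 < nSt K (3 * k + 1) (ncl K k) ∧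
    Snd n (rkV K v) (clF K ρ (List.range n) k t) t.toFinset (eRel e n en)
      (eMap e n (3 * k + 1) en) (decS K (3 * k + 1) (ncl K k) en.1) := by
  induction hN : t.length using Nat.strong_induction_on generalizing t en with
  | _ N ih =>
  obtain ⟨hF, hp⟩ := fam_facts hρ hk hn hd
  have hd' : Dec (rkV K v) (List.range n).toFinset k (List.range n).toFinset := by
    rw [List.toFinset_range]
    exact hd
  rw [look_eq e hρ hk hn hd ht] at hen
  unfold entr at hen
  obtain ⟨hmem, hlt⟩ := mem_pick _ _ _ hen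
  by_cases hl : t.length ≤ 1
  · rw [if_pos hl] at hmem
    obtain ⟨x, hx, rfl, hs, hρx, h01⟩ := leaf_facts hρ hk hn hd ht hl
    rw [typL_eq ρ n k x hx, List.mem_map] at hmem
    obtain ⟨o, ho, rfl⟩ := hmem
    have ho' : o ∈ lefO e (3 * k + 1) (ncl K k)
        (clF K ρ (List.range n) k [x] ∅, (clF K ρ (List.range n) k [x] {x}, ρ [x])) := by
      have h2 : o ∈ lefK e (3 * k + 1) (ncl K k)
        (clF K ρ (List.range n) k [x] ∅, (clF K ρ (List.range n) k [x] {x}, ρ [x])) := ho
      unfold lefK at h2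
      split_ifs at h2
      · exact h2
      · exact absurd h2 List.not_mem_nil
    have h3 := lef_sound e hx (isRk_rkV v).empty h01 hs (ρ [x]) hρx o ho'
    rw [← hN]
    have h4 : ([x] : List ℕ).toFinset = {x} := by simp
    rw [h4]
    exact ⟨h3.1, h3.2.2, h3.2.1⟩
  · rw [if_neg hl] at hmem
    push Not at hl
    obtain ⟨p, hp1, hp2, hp3, hdj, hun, hlen, hl1, hl2⟩ := chl_head List.nodup_range hF t ht hl
    rw [hp1, List.mem_flatMap] at hmem
    obtain ⟨p', hp', hmem⟩ := hmem
    rw [List.mem_singleton] at hp'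
    subst hp'
    rw [List.mem_flatMap] at hmem
    obtain ⟨en₁, he₁, hmem⟩ := hmem
    rw [List.mem_flatMap] at hmem
    obtain ⟨en₂, he₂, hmem⟩ := hmem
    rw [List.mem_map] at hmem
    obtain ⟨o, ho, rfl⟩ := hmem
    obtain ⟨i1, i2, i3⟩ := ih p'.1.length (by omega) p'.1 hp2 en₁ he₁ rfl
    obtain ⟨j1, j2, j3⟩ := ih p'.2.length (by omega) p'.2 hp3 en₂ he₂ rfl
    obtain ⟨a1, a2, a3, a4⟩ := mem_facts hρ hk hn hd ht
    obtain ⟨b1, b2, b3, b4⟩ := mem_facts hρ hk hn hd hp2
    obtain ⟨c1, c2, c3, c4⟩ := mem_facts hρ hk hn hd hp3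
    have ho' : o ∈ mrgK e (3 * k + 1) (ncl K k)
        (typN ρ (List.range n) k (rnd K k) (ncl K k) t p', (en₁.1, en₂.1)) := ho
    unfold mrgK at ho'
    split_ifs at ho' with hok
    swap
    · exact absurd ho' List.not_mem_nil
    unfold outs at ho'
    rw [List.mem_map] at ho'
    obtain ⟨g, hg, rfl⟩ := ho'
    classical
    rw [Finset.mem_toList] at hg
    have hV := (Finset.mem_filter.1 hg).2
    have ha : p'.1.length + p'.2.length ≤ (List.range n).length := by
      rw [List.length_range, hlen]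
      have := a1.length_le
      rw [List.length_range] at this
      exact this
    have k1 : EOK K (3 * k + 1) (List.range n).length p'.1.length en₁ := by
      rw [List.length_range]; exact i1
    have k2 : EOK K (3 * k + 1) (List.range n).length p'.2.length en₂ := by
      rw [List.length_range]; exact j1
    have m1 := mkE_ok (s := ncl K k) (σ := codS (nxt
      (fun i j => (lkT (typN ρ (List.range n) k (rnd K k) (ncl K k) t p') i j).1)
      (decS K (3 * k + 1) (ncl K k) en₁.1) (decS K (3 * k + 1) (ncl K k) en₂.1) g)) e g k1 k2 ha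
    have m2 := mkE_rel (s := ncl K k) (σ := codS (nxt
      (fun i j => (lkT (typN ρ (List.range n) k (rnd K k) (ncl K k) t p') i j).1)
      (decS K (3 * k + 1) (ncl K k) en₁.1) (decS K (3 * k + 1) (ncl K k) en₂.1) g)) e g k1 k2 ha
    have m3 := mkE_map (s := ncl K k) (σ := codS (nxt
      (fun i j => (lkT (typN ρ (List.range n) k (rnd K k) (ncl K k) t p') i j).1)
      (decS K (3 * k + 1) (ncl K k) en₁.1) (decS K (3 * k + 1) (ncl K k) en₂.1) g)) e g k1 k2 ha
    have hEl : (List.range n).length = n := List.length_range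
    rw [hEl, hlen, hN] at m1
    rw [hEl] at m2 m3
    refine ⟨m1, codS_lt _, ?_⟩
    have hst := snd_step (cl := clF K ρ (List.range n) k t) (r := rkV K v)
      (δ := fun i j => (lkT (typN ρ (List.range n) k (rnd K k) (ncl K k) t p') i j).1)
      (J := fun i j => (lkT (typN ρ (List.range n) k (rnd K k) (ncl K k) t p') i j).2)
      i3 j3 hdj
      (fun F₁ h₁ F₂ h₂ => (typ_spec List.nodup_range hρ hk hd' a1 b1 c1 hdj hun a4 b4 c4 F₁ F₂
        h₁ h₂).1)
      (fun F₁ h₁ F₂ h₂ => (typ_spec List.nodup_range hρ hk hd' a1 b1 c1 hdj hun a4 b4 c4 F₁ F₂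
        h₁ h₂).2)
      (fun F h => clF_lt List.nodup_range hρ hk hd' a1 a4 F (by rw [← hun]; exact h)) hV
    rw [hun] at hst
    rw [m2, m3]
    have hdec : decS K (3 * k + 1) (ncl K k) (mkE (prmK e (3 * k + 1) (ncl K k)) (List.range n)
        (en₁.2.1 ++ en₂.2.1) (en₁.2.2 ++ en₂.2.2) (codS (nxt
      (fun i j => (lkT (typN ρ (List.range n) k (rnd K k) (ncl K k) t p') i j).1)
      (decS K (3 * k + 1) (ncl K k) en₁.1) (decS K (3 * k + 1) (ncl K k) en₂.1) g),
        (relC e g, cofC e g))).1 = nxt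
      (fun i j => (lkT (typN ρ (List.range n) k (rnd K k) (ncl K k) t p') i j).1)
      (decS K (3 * k + 1) (ncl K k) en₁.1) (decS K (3 * k + 1) (ncl K k) en₂.1) g := decS_codS _
    rw [hdec]
    exact hst

theorem ind_complete (e : Fin (Fintype.card K) ≃ K) (hρ : RkS ρ (List.range n) (rkV K v))
    (hk : 1 ≤ k) (hn : 1 ≤ n) (hd : Dec (rkV K v) (range n) k (range n))
    {Rel : Submodule K (Fin n → K)}
    (hr : ∀ F ⊆ range n, rkV K v F =
      (finrank K (KS K n F ⊔ Rel : Submodule K _) : ℤ) - finrank K Rel) (t : List ℕ)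
    (ht : t ∈ osFam ρ (List.range n) k (List.range n)) (σ : StS K (3 * k + 1) (ncl K k))
    (hσ : Adm n Rel (clF K ρ (List.range n) k t) t.toFinset σ) :
    ∃ en ∈ look (tb K e ρ n k) t, en.1 = codS σ := by
  induction hN : t.length using Nat.strong_induction_on generalizing t σ with
  | _ N ih =>
  obtain ⟨hF, hp⟩ := fam_facts hρ hk hn hd
  have hd' : Dec (rkV K v) (List.range n).toFinset k (List.range n).toFinset := by
    rw [List.toFinset_range]
    exact hd
  rw [look_eq e hρ hk hn hd ht]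
  unfold entr
  by_cases hl : t.length ≤ 1
  · rw [if_pos hl]
    obtain ⟨x, hx, rfl, hs, hρx, h01⟩ := leaf_facts hρ hk hn hd ht hl
    have h4 : ([x] : List ℕ).toFinset = {x} := by simp
    rw [h4] at hσ
    rw [typL_eq ρ n k x hx]
    have key : ∃ o ∈ lefO e (3 * k + 1) (ncl K k)
        (clF K ρ (List.range n) k [x] ∅, (clF K ρ (List.range n) k [x] {x}, ρ [x])),
        o.1 = codS σ := by
      unfold lefO
      rcases adm_lef hx hr hσ with ⟨h5, h6⟩ | ⟨h5, φ, h6⟩
      · have h7 : ρ [x] = 0 := by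
          have : (ρ [x] : ℤ) = 0 := by rw [hρx, h5]
          exact_mod_cast this
        rw [if_pos (by exact h7)]
        exact ⟨_, List.mem_singleton.2 rfl, by rw [h6]⟩
      · have h7 : ρ [x] ≠ 0 := by
          intro h8
          have : (ρ [x] : ℤ) = 1 := by rw [hρx, h5]
          rw [h8] at this
          norm_num at this
        rw [if_neg (by exact h7)]
        exact ⟨_, List.mem_map.2 ⟨φ, Finset.mem_toList.2 (Finset.mem_univ _), rfl⟩, by rw [h6]⟩
    obtain ⟨o, ho, hoσ⟩ := key
    have ho' : o ∈ (prmK e (3 * k + 1) (ncl K k)).lef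
        (clF K ρ (List.range n) k [x] ∅, (clF K ρ (List.range n) k [x] {x}, ρ [x])) := by
      show o ∈ lefK e (3 * k + 1) (ncl K k)
        (clF K ρ (List.range n) k [x] ∅, (clF K ρ (List.range n) k [x] {x}, ρ [x]))
      unfold lefK
      rw [if_pos]
      · exact ho
      · refine ⟨hs ∅ (Finset.empty_subset _), hs {x} (Finset.Subset.refl _), ?_⟩
        have : (ρ [x] : ℤ) ≤ 1 := by rw [hρx]; omega
        exact_mod_cast this
    obtain ⟨en', h8, h9⟩ := pick_exists (prmK e (3 * k + 1) (ncl K k)) _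
      (mkE (prmK e (3 * k + 1) (ncl K k)) (List.range n)
        [unitL (prmK e (3 * k + 1) (ncl K k)) (List.range n) [x]] [] o)
      (List.mem_map.2 ⟨o, ho', rfl⟩) (by
        show o.1 < nSt K (3 * k + 1) (ncl K k)
        rw [hoσ]
        exact codS_lt _)
    exact ⟨en', h8, h9.trans hoσ⟩
  · rw [if_neg hl]
    push Not at hl
    obtain ⟨p, hp1, hp2, hp3, hdj, hun, hlen, hl1, hl2⟩ := chl_head List.nodup_range hF t ht hl
    obtain ⟨a1, a2, a3, a4⟩ := mem_facts hρ hk hn hd ht
    obtain ⟨b1, b2, b3, b4⟩ := mem_facts hρ hk hn hd hp2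
    obtain ⟨c1, c2, c3, c4⟩ := mem_facts hρ hk hn hd hp3
    obtain ⟨σ₁, hσ₁⟩ := adm_exists (m := 3 * k + 1) (s := ncl K k)
      (clF K ρ (List.range n) k p.1) b3 hr (by
        rw [List.toFinset_range] at b4
        push_cast
        exact b4)
    obtain ⟨σ₂, hσ₂⟩ := adm_exists (m := 3 * k + 1) (s := ncl K k)
      (clF K ρ (List.range n) k p.2) c3 hr (by
        rw [List.toFinset_range] at c4
        push_cast
        exact c4)
    obtain ⟨en₁, he₁, hc₁⟩ := ih p.1.length (by omega) p.1 hp2 σ₁ hσ₁ rfl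
    obtain ⟨en₂, he₂, hc₂⟩ := ih p.2.length (by omega) p.2 hp3 σ₂ hσ₂ rfl
    rw [← hun] at hσ
    obtain ⟨g, hV, hg⟩ := adm_step (r := rkV K v)
      (δ := fun i j => (lkT (typN ρ (List.range n) k (rnd K k) (ncl K k) t p) i j).1)
      (J := fun i j => (lkT (typN ρ (List.range n) k (rnd K k) (ncl K k) t p) i j).2)
      (by rw [hun]; exact a3) hdj hr
      (fun F₁ h₁ F₂ h₂ => (typ_spec List.nodup_range hρ hk hd' a1 b1 c1 hdj hun a4 b4 c4 F₁ F₂
        h₁ h₂).1)
      (fun F₁ h₁ F₂ h₂ => (typ_spec List.nodup_range hρ hk hd' a1 b1 c1 hdj hun a4 b4 c4 F₁ F₂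
        h₁ h₂).2)
      (fun F h => clF_lt List.nodup_range hρ hk hd' b1 b4 F h)
      (fun F h => clF_lt List.nodup_range hρ hk hd' c1 c4 F h) hσ₁ hσ₂ hσ
    have hokT := typ_ok List.nodup_range hρ hk hd' a1 b1 c1 hdj hun a4 b4 c4
      (nSt K (3 * k + 1) (ncl K k)) en₁.1 en₂.1 (by rw [hc₁]; exact codS_lt _)
      (by rw [hc₂]; exact codS_lt _)
    have ho : ((codS (nxt
      (fun i j => (lkT (typN ρ (List.range n) k (rnd K k) (ncl K k) t p) i j).1) σ₁ σ₂ g),
        (relC e g, cofC e g)) : Outc) ∈ (prmK e (3 * k + 1) (ncl K k)).mrg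
        (typN ρ (List.range n) k (rnd K k) (ncl K k) t p, (en₁.1, en₂.1)) := by
      show _ ∈ mrgK e (3 * k + 1) (ncl K k)
        (typN ρ (List.range n) k (rnd K k) (ncl K k) t p, (en₁.1, en₂.1))
      unfold mrgK
      rw [if_pos hokT]
      unfold outs
      rw [List.mem_map]
      classical
      refine ⟨g, ?_, ?_⟩
      · refine Finset.mem_toList.2 (Finset.mem_filter.2 ⟨Finset.mem_univ _, ?_⟩)
        show Vld _ (decS K (3 * k + 1) (ncl K k) en₁.1) (decS K (3 * k + 1) (ncl K k) en₂.1) g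
        rw [hc₁, hc₂, decS_codS, decS_codS]
        exact hV
      · show ((codS (nxt _ (decS K (3 * k + 1) (ncl K k) en₁.1)
          (decS K (3 * k + 1) (ncl K k) en₂.1) g), (relC e g, cofC e g)) : Outc) = _
        rw [hc₁, hc₂, decS_codS, decS_codS]
    rw [hp1]
    obtain ⟨en', h8, h9⟩ := pick_exists (prmK e (3 * k + 1) (ncl K k))
      (([p] : List (List ℕ × List ℕ)).flatMap fun p => (look (tb K e ρ n k) p.1).flatMap fun e₁ =>
      (look (tb K e ρ n k) p.2).flatMap fun e₂ =>
        ((prmK e (3 * k + 1) (ncl K k)).mrg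
          (typN ρ (List.range n) k (rnd K k) (ncl K k) t p, (e₁.1, e₂.1))).map fun o =>
          mkE (prmK e (3 * k + 1) (ncl K k)) (List.range n) (e₁.2.1 ++ e₂.2.1)
            (e₁.2.2 ++ e₂.2.2) o)
      (mkE (prmK e (3 * k + 1) (ncl K k)) (List.range n) (en₁.2.1 ++ en₂.2.1)
        (en₁.2.2 ++ en₂.2.2) (codS (nxt
      (fun i j => (lkT (typN ρ (List.range n) k (rnd K k) (ncl K k) t p) i j).1) σ₁ σ₂ g),
        (relC e g, cofC e g)))
      (by
        rw [List.mem_flatMap]
        refine ⟨p, List.mem_singleton.2 rfl, ?_⟩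
        rw [List.mem_flatMap]
        refine ⟨en₁, he₁, ?_⟩
        rw [List.mem_flatMap]
        refine ⟨en₂, he₂, ?_⟩
        rw [List.mem_map]
        exact ⟨_, ho, rfl⟩) (codS_lt _)
    refine ⟨en', h8, ?_⟩
    rw [h9, ← hg]
    rfl

end Pool.Agent.BW
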