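import Pool.Agent.BW.Defs

set_option autoImplicit false

/-!
# Module Lex: the lexicographic potential

Elementary estimates.
-/

namespace Pool.Agent.BW

open Finset

theorem lex_bound (m B : ℕ) (f : ℕ → ℕ) (hf : ∀ t, f t < B) :
    ∑ t ∈ range m, f t * B ^ t < B ^ m := by
  induction m with
  | zero => simp
  | succ m ih =>
    rw [sum_range_succ]
    have h1 : (f m + 1) * B ^ m ≤ B * B ^ m := Nat.mul_le_mul_right _ (hf m)
    have h2 : B ^ (m + 1) = B * B ^ m := by ring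
    have h3 : (f m + 1) * B ^ m = f m * B ^ m + B ^ m := by ring
    omega

theorem lex_lt (m B : ℕ) (f g : ℕ → ℕ) (hg : ∀ t, g t < B) (t₀ : ℕ) (h0 : t₀ ≤ m)
    (h1 : ∀ t, t₀ ≤ t → g t ≤ f t) (h2 : g t₀ < f t₀) :
    ∑ t ∈ range (m + 1), g t * B ^ t < ∑ t ∈ range (m + 1), f t * B ^ t := by
  induction m, h0 using Nat.le_induction with
  | base =>
    rw [sum_range_succ, sum_range_succ]
    have h3 := lex_bound t₀ B g hg
    have h4 : (g t₀ + 1) * B ^ t₀ ≤ f t₀ * B ^ t₀ := Nat.mul_le_mul_right _ h2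
    have h5 : (g t₀ + 1) * B ^ t₀ = g t₀ * B ^ t₀ + B ^ t₀ := by ring
    omega
  | succ m hm ih =>
    rw [sum_range_succ (fun t => g t * B ^ t), sum_range_succ (fun t => f t * B ^ t)]
    have h3 : g (m + 1) * B ^ (m + 1) ≤ f (m + 1) * B ^ (m + 1) :=
      Nat.mul_le_mul_right _ (h1 (m + 1) (by omega))
    omega

theorem cntN_le (r : Finset ℕ → ℤ) (E : Finset ℕ) (F : Finset (Finset ℕ)) (t : ℕ) :
    cntN r E F t ≤ F.card * F.card := by
  unfold cntN
  rw [← card_product]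
  exact card_filter_le _ _

end Pool.Agent.BW
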