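import Pool.Agent.BW.Proj

set_option autoImplicit false

/-!
# Module NCnt: the number of joined pairs decreases

`w = lam Z`, `π` from `exists_proj`. Let `Red` be the set of the `B ∈ F` with `lam B > w` such that
`lam V < lam B` for all `V ∈ newF` with `lam V > w` and `π V = B`.

Choice of `t₀`: if `Red` is nonempty, `t₀ = max {lam B : B ∈ Red}`; otherwise
`t₀ = min {lam B : B ∈ F, A ⊆ B ⊆ C}`. In both cases `t₀ > w ≥ 0` (`GoodZ.lt`) and `t₀ ≤ m`.

For `t ≥ t₀`: the map `(U, U') ↦ (π U, π U')` from the pairs counted in `cntN (newF ..) t` to the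
pairs counted in `cntN F t` is well defined by the second property of `π`. It is injective: if
`π U = π U'`, `U ≠ U'`, `lam U, lam U' ≥ t > w`, then `π U ∈ Red` by the third property
(`lam (π U) > lam U > w`), so `Red` is nonempty and `lam (π U) ≤ t₀`, but
`t ≤ lam U < lam (π U) ≤ t₀ ≤ t`, contradiction. (`Finset.card_le_card_of_injOn`.)

Strict at `t₀`: if `B ∈ Red`, `lam B = t₀`: the pair `(B, B)` is counted for `F` and is not in the
image (`π U = B`, `lam U ≥ t₀ > w` give `lam U < lam B = t₀`). If `Red` is empty: `(A, C)` is counted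
for `F` at `t₀` (all the members between have `lam ≥ t₀`); if it is the image of `(U, U')` then
`U = A`, `U' = C`, and `Z = C ∩ Z ∈ newF` is between them with `lam Z = w < t₀`, so the pair is not
counted for `newF`.
-/

namespace Pool.Agent.BW

open Finset
open Pool.Agent.G4 (IsRk lam dualR)

theorem cntN_lt {r : Finset ℕ → ℤ} {E A C D Z : Finset ℕ} {F : Finset (Finset ℕ)} (hr : IsRk r)
    (h : Bin F D) (hD : D ⊆ E) (hA : A ∈ F) (hC : C ∈ F) (hAC : A ⊆ C)
    (hZ : GoodZ r E F A C Z) {m : ℕ} (hm : ∀ B ∈ F, lam r E B ≤ m) :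
    ∃ t₀ ≤ m, (∀ t, t₀ ≤ t → cntN r E (newF F A C Z) t ≤ cntN r E F t) ∧
      cntN r E (newF F A C Z) t₀ < cntN r E F t₀ := by
  classical
  obtain ⟨π, p1, p2, p3, p4, p5⟩ := exists_proj hr h hD hA hC hAC hZ
  have hw0 : 0 ≤ lam r E Z := by
    have h1 := hr.sub Z (E \ Z)
    have e1 : Z ∪ E \ Z = E := by
      rw [Finset.union_sdiff_self_eq_union]
      exact Finset.union_eq_right.2 (hZ.ZC.trans ((h.sub C hC).trans hD))
    have e2 : Z ∩ (E \ Z) = ∅ := Finset.inter_sdiff_self Z E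
    rw [e1, e2, hr.empty] at h1
    unfold lam
    linarith
  -- the general step
  have hmap : ∀ (t : ℕ), lam r E Z < (t : ℤ) → ∀ p ∈ ((newF F A C Z) ×ˢ (newF F A C Z)).filter
      (fun p => p.1 ⊆ p.2 ∧ ∀ B ∈ newF F A C Z, p.1 ⊆ B → B ⊆ p.2 → (t : ℤ) ≤ lam r E B),
      (π p.1, π p.2) ∈ (F ×ˢ F).filter (fun p => p.1 ⊆ p.2 ∧
        ∀ B ∈ F, p.1 ⊆ B → B ⊆ p.2 → (t : ℤ) ≤ lam r E B) := by
    intro t ht p hp
    obtain ⟨hp1, hp2, hp3⟩ := Finset.mem_filter.1 hp
    obtain ⟨hU, hU'⟩ := Finset.mem_product.1 hp1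
    have hl1 : (t : ℤ) ≤ lam r E p.1 := hp3 _ hU (Finset.Subset.refl _) hp2
    have hl2 : (t : ℤ) ≤ lam r E p.2 := hp3 _ hU' hp2 (Finset.Subset.refl _)
    have h3 := p2 p.1 hU p.2 hU' t ht hp2 hp3
    refine Finset.mem_filter.2 ⟨Finset.mem_product.2 ⟨p1 _ hU (by omega), p1 _ hU' (by omega)⟩,
      h3.1, h3.2⟩
  have hinj : ∀ (t : ℕ), lam r E Z < (t : ℤ) →
      (∀ B ∈ F, lam r E Z < lam r E B → (∀ V ∈ newF F A C Z, lam r E Z < lam r E V → π V = B →
        lam r E V < lam r E B) → lam r E B ≤ (t : ℤ)) →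
      ∀ p ∈ ((newF F A C Z) ×ˢ (newF F A C Z)).filter
        (fun p => p.1 ⊆ p.2 ∧ ∀ B ∈ newF F A C Z, p.1 ⊆ B → B ⊆ p.2 → (t : ℤ) ≤ lam r E B),
      ∀ q ∈ ((newF F A C Z) ×ˢ (newF F A C Z)).filter
        (fun p => p.1 ⊆ p.2 ∧ ∀ B ∈ newF F A C Z, p.1 ⊆ B → B ⊆ p.2 → (t : ℤ) ≤ lam r E B),
      (π p.1, π p.2) = (π q.1, π q.2) → p = q := by
    intro t ht hred p hp q hq hpq
    obtain ⟨hp1, hp2, hp3⟩ := Finset.mem_filter.1 hp
    obtain ⟨hq1, hq2, hq3⟩ := Finset.mem_filter.1 hq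
    obtain ⟨hU, hU'⟩ := Finset.mem_product.1 hp1
    obtain ⟨hW, hW'⟩ := Finset.mem_product.1 hq1
    have hl1 : (t : ℤ) ≤ lam r E p.1 := hp3 _ hU (Finset.Subset.refl _) hp2
    have hl2 : (t : ℤ) ≤ lam r E p.2 := hp3 _ hU' hp2 (Finset.Subset.refl _)
    have hl3 : (t : ℤ) ≤ lam r E q.1 := hq3 _ hW (Finset.Subset.refl _) hq2
    have hl4 : (t : ℤ) ≤ lam r E q.2 := hq3 _ hW' hq2 (Finset.Subset.refl _)
    have key : ∀ U ∈ newF F A C Z, ∀ W ∈ newF F A C Z, (t : ℤ) ≤ lam r E U →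
        (t : ℤ) ≤ lam r E W → π U = π W → U = W := by
      intro U hU W hW hlU hlW he
      by_contra hne
      have h5 := p3 U hU W hW (by omega) (by omega) hne he
      have h6 := h5 U hU (by omega) rfl
      have h7 := hred (π U) (p1 U hU (by omega)) (by omega)
        (fun V hV hlV hVe => h5 V hV hlV hVe)
      omega
    obtain ⟨he1, he2⟩ := Prod.mk.injEq _ _ _ _ ▸ hpq
    exact Prod.ext (key _ hU _ hW hl1 hl3 he1) (key _ hU' _ hW' hl2 hl4 he2)
  have hgen : ∀ (t₀ : ℕ), lam r E Z < (t₀ : ℤ) →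
      (∀ B ∈ F, lam r E Z < lam r E B → (∀ V ∈ newF F A C Z, lam r E Z < lam r E V → π V = B →
        lam r E V < lam r E B) → lam r E B ≤ (t₀ : ℤ)) →
      (∃ q ∈ (F ×ˢ F).filter (fun p => p.1 ⊆ p.2 ∧
        ∀ B ∈ F, p.1 ⊆ B → B ⊆ p.2 → (t₀ : ℤ) ≤ lam r E B),
        ∀ p ∈ ((newF F A C Z) ×ˢ (newF F A C Z)).filter
        (fun p => p.1 ⊆ p.2 ∧ ∀ B ∈ newF F A C Z, p.1 ⊆ B → B ⊆ p.2 → (t₀ : ℤ) ≤ lam r E B),
        (π p.1, π p.2) ≠ q) →
      (∀ t, t₀ ≤ t → cntN r E (newF F A C Z) t ≤ cntN r E F t) ∧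
      cntN r E (newF F A C Z) t₀ < cntN r E F t₀ := by
    intro t₀ ht₀ hred hq
    constructor
    · intro t ht
      have ht' : (t₀ : ℤ) ≤ (t : ℤ) := by exact_mod_cast ht
      unfold cntN
      refine Finset.card_le_card_of_injOn (fun p => (π p.1, π p.2)) ?_ ?_
      · intro p hp
        exact hmap t (by omega) p hp
      · intro p hp q hq hpq
        exact hinj t (by omega) (fun B hB h1 h2 => (hred B hB h1 h2).trans ht') p hp q hq hpq
    · obtain ⟨q, hq1, hq2⟩ := hq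
      unfold cntN
      have e1 : (((newF F A C Z) ×ˢ (newF F A C Z)).filter
        (fun p => p.1 ⊆ p.2 ∧ ∀ B ∈ newF F A C Z, p.1 ⊆ B → B ⊆ p.2 →
          (t₀ : ℤ) ≤ lam r E B)).card = ((((newF F A C Z) ×ˢ (newF F A C Z)).filter
        (fun p => p.1 ⊆ p.2 ∧ ∀ B ∈ newF F A C Z, p.1 ⊆ B → B ⊆ p.2 →
          (t₀ : ℤ) ≤ lam r E B)).image (fun p => (π p.1, π p.2))).card := by
        rw [Finset.card_image_of_injOn]
        intro p hp q hq hpq
        exact hinj t₀ ht₀ hred p hp q hq hpq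
      rw [e1]
      refine Finset.card_lt_card ?_
      rw [Finset.ssubset_iff_of_subset]
      · refine ⟨q, hq1, ?_⟩
        intro hc
        obtain ⟨p, hp, hpe⟩ := Finset.mem_image.1 hc
        exact hq2 p hp hpe
      · intro x hx
        obtain ⟨p, hp, hpe⟩ := Finset.mem_image.1 hx
        rw [← hpe]
        exact hmap t₀ ht₀ p hp
  by_cases hR : ∃ B ∈ F, lam r E Z < lam r E B ∧ ∀ V ∈ newF F A C Z, lam r E Z < lam r E V →
      π V = B → lam r E V < lam r E B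
  · -- the set Red is nonempty
    have hne : (F.filter fun B => lam r E Z < lam r E B ∧ ∀ V ∈ newF F A C Z,
        lam r E Z < lam r E V → π V = B → lam r E V < lam r E B).Nonempty := by
      obtain ⟨B, hB, h1⟩ := hR
      exact ⟨B, Finset.mem_filter.2 ⟨hB, h1⟩⟩
    obtain ⟨B₀, hB₀, hmax⟩ := Finset.exists_max_image _ (fun B => lam r E B) hne
    obtain ⟨hB1, hB2, hB3⟩ := Finset.mem_filter.1 hB₀
    have hcast : ((lam r E B₀).toNat : ℤ) = lam r E B₀ := Int.toNat_of_nonneg (by omega)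
    have hle := hm B₀ hB1
    refine ⟨(lam r E B₀).toNat, by omega, ?_⟩
    refine hgen _ (by omega) ?_ ⟨(B₀, B₀), ?_, ?_⟩
    · intro B hB h1 h2
      rw [hcast]
      exact hmax B (Finset.mem_filter.2 ⟨hB, h1, h2⟩)
    · refine Finset.mem_filter.2 ⟨Finset.mem_product.2 ⟨hB1, hB1⟩, Finset.Subset.refl _, ?_⟩
      intro B _ h1 h2
      have : B = B₀ := Finset.Subset.antisymm h2 h1
      rw [this, hcast]
    · intro p hp he
      obtain ⟨hp1, hp2, hp3⟩ := Finset.mem_filter.1 hp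
      obtain ⟨hU, hU'⟩ := Finset.mem_product.1 hp1
      have hl1 := hp3 _ hU (Finset.Subset.refl _) hp2
      have he1 : π p.1 = B₀ := congrArg Prod.fst he
      have := hB3 p.1 hU (by omega) he1
      omega
  · -- the set Red is empty
    have hne : (F.filter fun B => A ⊆ B ∧ B ⊆ C).Nonempty :=
      ⟨A, Finset.mem_filter.2 ⟨hA, Finset.Subset.refl _, hAC⟩⟩
    obtain ⟨B₀, hB₀, hmin⟩ := Finset.exists_min_image _ (fun B => lam r E B) hne
    obtain ⟨hB1, hB2, hB3⟩ := Finset.mem_filter.1 hB₀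
    have hlt := hZ.lt B₀ hB1 hB2 hB3
    have hcast : ((lam r E B₀).toNat : ℤ) = lam r E B₀ := Int.toNat_of_nonneg (by omega)
    have hle := hm B₀ hB1
    refine ⟨(lam r E B₀).toNat, by omega, ?_⟩
    refine hgen _ (by omega) ?_ ⟨(A, C), ?_, ?_⟩
    · intro B hB h1 h2
      exact absurd ⟨B, hB, h1, h2⟩ hR
    · refine Finset.mem_filter.2 ⟨Finset.mem_product.2 ⟨hA, hC⟩, hAC, ?_⟩
      intro B hB h1 h2
      rw [hcast]
      exact hmin B (Finset.mem_filter.2 ⟨hB, h1, h2⟩)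
    · intro p hp he
      obtain ⟨hp1, hp2, hp3⟩ := Finset.mem_filter.1 hp
      obtain ⟨hU, hU'⟩ := Finset.mem_product.1 hp1
      have hl1 := hp3 _ hU (Finset.Subset.refl _) hp2
      have hl2 := hp3 _ hU' hp2 (Finset.Subset.refl _)
      have he1 : π p.1 = A := congrArg Prod.fst he
      have he2 : π p.2 = C := congrArg Prod.snd he
      have h1 := p4 p.1 hU (by omega) he1
      have h2 := p5 p.2 hU' (by omega) he2
      have hZm : Z ∈ newF F A C Z := by
        unfold newF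
        refine Finset.mem_erase.2 ⟨?_, ?_⟩
        · intro he3
          obtain ⟨x, hx⟩ := h.ne A hA
          have := hZ.AZ hx
          rw [he3] at this
          exact absurd this (Finset.notMem_empty x)
        · refine Finset.mem_union_left _ (Finset.mem_union_left _ (Finset.mem_union_right _ ?_))
          refine Finset.mem_image.2 ⟨C, Finset.mem_filter.2 ⟨hC, Finset.Subset.refl _⟩, ?_⟩
          exact Finset.inter_eq_right.2 hZ.ZC
      have h3 := hp3 Z hZm (by rw [h1]; exact hZ.AZ) (by rw [h2]; exact hZ.ZC)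
      omega

end Pool.Agent.BW
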