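import Pool.Agent.BW.BinM

set_option autoImplicit false

/-!
# Module NewBin: the new family is again a binary laminar family

`newF F A C Z` (`A ⊆ Z ⊆ C`, `A, C ∈ F`, `A ⊆ C`) consists of
 (i) `B ∈ F` with `B ⊄ C` or `B ⊆ A`;
 (ii) `B ∩ Z`, `B ⊆ C`; (iii) `B \ Z`, `B ⊆ C`, `B` disjoint from `A`; (iv) `B ∪ Z`, `A ⊆ B ⊆ C`
(nonempty ones only).

* `top`: if `D ≠ C` then `D` is of type (i) (`D ⊆ C ⊆ D` otherwise); if `D = C` then
  `D = C ∪ Z` is of type (iv). `sub`, `ne` are clear.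
* laminar: check the pairs of types. A member `B ∈ F` with `B ⊄ C` is disjoint from `C` or contains
  `C`, and all sets of types (ii), (iii), (iv) and the `B ⊆ A` are contained in `C`. `B ⊆ A`: it is
  `B ∩ Z`, type (ii). (ii)-(ii), (iii)-(iii): from the laminarity of `F`. (ii)-(iii): disjoint.
  (ii)-(iv): contained. (iii)-(iv): `B \ Z` and `B' ∪ Z` with `B ∩ A = ∅`, `A ⊆ B'`: if `B ⊆ B'` then
  contained, if `B` and `B'` are disjoint then disjoint, `B' ⊆ B` is impossible (`A` is nonempty).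
  (iv)-(iv): two members containing `A` are nested.
* `spl`: let `U` be a member of `newF` with at least two elements.
  Type (i): `U = B ∈ F`, `B = B₁ ∪ B₂` in `F`. If `B ⊆ A` both parts are `⊆ A`. If `B ⊄ C`: `B` is
  disjoint from `C` (then the parts are `⊄ C` because they are nonempty) or contains `C` properly;
  then each part is disjoint from `C`, or contains `C`, or is contained in `C`; by laminarity and
  `Bin.child` applied to `C ⊆ B = B₁ ∪ B₂` either `C ⊆ B₁` or `C ⊆ B₂` (or `C = B`, excluded). If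
  `C ⊆ B₁`: `B₁ = C = C ∪ Z` is of type (iv), or `B₁ ⊄ C` is of type (i); `B₂` is disjoint from `C`,
  type (i). Same for `C ⊆ B₂`.
  Type (ii): choose `B ∈ F`, `B ⊆ C`, with `B ∩ Z = U` and `|B|` minimal. `|B| ≥ 2`, `B = B₁ ∪ B₂`;
  `U = (B₁ ∩ Z) ∪ (B₂ ∩ Z)`; if one of them is empty the other one is `U`, contradicting minimality.
  Type (iii): the same with `B \ Z` (the parts are disjoint from `A`).
  Type (iv): choose `B` minimal with `A ⊆ B ⊆ C`, `B ∪ Z = U`. If `B = A` then `U = Z = C ∩ Z` is of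
  type (ii), done before. Otherwise `B = B₁ ∪ B₂` with `A ⊆ B₁` say (`Bin.child` for `A ⊆ B`;
  `|B| ≥ 2` because `A` is a nonempty proper subset), `B₂` is disjoint from `A`; `U = (B₁ ∪ Z) ∪
  (B₂ \ Z)`, disjoint; `B₂ \ Z` is nonempty by minimality.
-/

namespace Pool.Agent.BW

open Finset

variable {F : Finset (Finset ℕ)} {A C D Z : Finset ℕ}

private theorem nb_mem {U : Finset ℕ} : U ∈ newF F A C Z ↔ U.Nonempty ∧
    ((U ∈ F ∧ (¬ U ⊆ C ∨ U ⊆ A)) ∨ (∃ B ∈ F, B ⊆ C ∧ B ∩ Z = U) ∨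
      (∃ B ∈ F, B ⊆ C ∧ Disjoint B A ∧ B \ Z = U) ∨
      (∃ B ∈ F, A ⊆ B ∧ B ⊆ C ∧ B ∪ Z = U)) := by
  unfold newF
  rw [mem_erase, Finset.nonempty_iff_ne_empty]
  refine and_congr Iff.rfl ?_
  simp only [mem_union, mem_filter, mem_image, and_assoc, or_assoc]

private theorem nb_two {B : Finset ℕ} (hB : B ∈ F) (hBC : B ⊆ C) (hn : (B ∩ Z).Nonempty) :
    B ∩ Z ∈ newF F A C Z :=
  nb_mem.2 ⟨hn, Or.inr (Or.inl ⟨B, hB, hBC, rfl⟩)⟩

private theorem nb_three {B : Finset ℕ} (hB : B ∈ F) (hBC : B ⊆ C) (hBA : Disjoint B A)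
    (hn : (B \ Z).Nonempty) : B \ Z ∈ newF F A C Z :=
  nb_mem.2 ⟨hn, Or.inr (Or.inr (Or.inl ⟨B, hB, hBC, hBA, rfl⟩))⟩

private theorem nb_four {B : Finset ℕ} (hB : B ∈ F) (hAB : A ⊆ B) (hBC : B ⊆ C)
    (hn : (B ∪ Z).Nonempty) : B ∪ Z ∈ newF F A C Z :=
  nb_mem.2 ⟨hn, Or.inr (Or.inr (Or.inr ⟨B, hB, hAB, hBC, rfl⟩))⟩

private theorem nb_one {B : Finset ℕ} (hB : B ∈ F) (hBC : ¬ B ⊆ C) (hn : B.Nonempty) :
    B ∈ newF F A C Z :=
  nb_mem.2 ⟨hn, Or.inl ⟨hB, Or.inl hBC⟩⟩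

/-- the four types -/
private theorem nb_types (hAC : A ⊆ C) (h1 : A ⊆ Z) {U : Finset ℕ} (hU : U ∈ newF F A C Z) :
    (U ∈ F ∧ ¬ U ⊆ C) ∨ (∃ B ∈ F, B ⊆ C ∧ B ∩ Z = U) ∨
      (∃ B ∈ F, B ⊆ C ∧ Disjoint B A ∧ B \ Z = U) ∨
      (∃ B ∈ F, A ⊆ B ∧ B ⊆ C ∧ B ∪ Z = U) := by
  rcases (nb_mem.1 hU).2 with h | h | h | h
  · rcases h.2 with h2 | h2
    · exact Or.inl ⟨h.1, h2⟩
    · exact Or.inr (Or.inl ⟨U, h.1, h2.trans hAC, Finset.inter_eq_left.2 (h2.trans h1)⟩)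
  · exact Or.inr (Or.inl h)
  · exact Or.inr (Or.inr (Or.inl h))
  · exact Or.inr (Or.inr (Or.inr h))

private theorem nb_subC (h2 : Z ⊆ C) {U : Finset ℕ}
    (hU : (∃ B ∈ F, B ⊆ C ∧ B ∩ Z = U) ∨ (∃ B ∈ F, B ⊆ C ∧ Disjoint B A ∧ B \ Z = U) ∨
      (∃ B ∈ F, A ⊆ B ∧ B ⊆ C ∧ B ∪ Z = U)) : U ⊆ C := by
  rcases hU with ⟨B, _, hB, rfl⟩ | ⟨B, _, hB, _, rfl⟩ | ⟨B, _, _, hB, rfl⟩
  · exact inter_subset_left.trans hB
  · exact sdiff_subset.trans hB
  · exact union_subset hB h2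

private theorem nb_lam14 (h : Bin F D) (hC : C ∈ F) {U U' : Finset ℕ} (hU : U ∈ F)
    (hUC : ¬ U ⊆ C) (hU' : U' ⊆ C) : U' ⊆ U ∨ Disjoint U U' := by
  rcases h.lmn U hU C hC with h1 | h1 | h1
  · exact absurd h1 hUC
  · exact Or.inl (hU'.trans h1)
  · exact Or.inr (h1.mono_right hU')

private theorem nb_empty {B B' : Finset ℕ} (h : Bin F D) (hA : A ∈ F) (h1 : A ⊆ B) (h2 : A ⊆ B')
    (hd : Disjoint B B') : False := by
  obtain ⟨a, ha⟩ := h.ne A hA
  exact Finset.disjoint_left.1 hd (h1 ha) (h2 ha)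

private theorem nb_lam (h : Bin F D) (hA : A ∈ F) (hC : C ∈ F) (hAC : A ⊆ C) (h1 : A ⊆ Z)
    (h2 : Z ⊆ C) {U U' : Finset ℕ} (hU : U ∈ newF F A C Z) (hU' : U' ∈ newF F A C Z) :
    U ⊆ U' ∨ U' ⊆ U ∨ Disjoint U U' := by
  rcases nb_types hAC h1 hU with a | a
  · rcases nb_types hAC h1 hU' with b | b
    · exact h.lmn U a.1 U' b.1
    · exact Or.inr (nb_lam14 h hC a.1 a.2 (nb_subC h2 b))
  · rcases nb_types hAC h1 hU' with b | b
    · rcases nb_lam14 h hC b.1 b.2 (nb_subC h2 a) with c | c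
      · exact Or.inl c
      · exact Or.inr (Or.inr c.symm)
    · rcases a with ⟨B, hB, hBC, rfl⟩ | ⟨B, hB, hBC, hBA, rfl⟩ | ⟨B, hB, hAB, hBC, rfl⟩
      · rcases b with ⟨B', hB', hBC', rfl⟩ | ⟨B', hB', hBC', hBA', rfl⟩ | ⟨B', hB', hAB', hBC', rfl⟩
        · rcases h.lmn B hB B' hB' with c | c | c
          · exact Or.inl (inter_subset_inter_right c)
          · exact Or.inr (Or.inl (inter_subset_inter_right c))
          · exact Or.inr (Or.inr (c.mono inter_subset_left inter_subset_left))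
        · refine Or.inr (Or.inr (Finset.disjoint_left.2 fun x hx hx' => ?_))
          exact (mem_sdiff.1 hx').2 (mem_inter.1 hx).2
        · exact Or.inl (inter_subset_right.trans subset_union_right)
      · rcases b with ⟨B', hB', hBC', rfl⟩ | ⟨B', hB', hBC', hBA', rfl⟩ | ⟨B', hB', hAB', hBC', rfl⟩
        · refine Or.inr (Or.inr (Finset.disjoint_left.2 fun x hx hx' => ?_))
          exact (mem_sdiff.1 hx).2 (mem_inter.1 hx').2
        · rcases h.lmn B hB B' hB' with c | c | c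
          · exact Or.inl (sdiff_subset_sdiff c (Finset.Subset.refl Z))
          · exact Or.inr (Or.inl (sdiff_subset_sdiff c (Finset.Subset.refl Z)))
          · exact Or.inr (Or.inr (c.mono sdiff_subset sdiff_subset))
        · rcases h.lmn B hB B' hB' with c | c | c
          · exact Or.inl ((sdiff_subset.trans c).trans subset_union_left)
          · exact (nb_empty h hA (hAB'.trans c) (Finset.Subset.refl A) hBA).elim
          · refine Or.inr (Or.inr (Finset.disjoint_left.2 fun x hx hx' => ?_))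
            rw [mem_sdiff] at hx
            rcases mem_union.1 hx' with hx' | hx'
            · exact Finset.disjoint_left.1 c hx.1 hx'
            · exact hx.2 hx'
      · rcases b with ⟨B', hB', hBC', rfl⟩ | ⟨B', hB', hBC', hBA', rfl⟩ | ⟨B', hB', hAB', hBC', rfl⟩
        · exact Or.inr (Or.inl (inter_subset_right.trans subset_union_right))
        · rcases h.lmn B' hB' B hB with c | c | c
          · exact Or.inr (Or.inl ((sdiff_subset.trans c).trans subset_union_left))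
          · exact (nb_empty h hA (hAB.trans c) (Finset.Subset.refl A) hBA').elim
          · refine Or.inr (Or.inr (Finset.disjoint_left.2 fun x hx' hx => ?_))
            rw [mem_sdiff] at hx
            rcases mem_union.1 hx' with hx' | hx'
            · exact Finset.disjoint_left.1 c hx.1 hx'
            · exact hx.2 hx'
        · rcases h.lmn B hB B' hB' with c | c | c
          · exact Or.inl (union_subset_union_left c)
          · exact Or.inr (Or.inl (union_subset_union_left c))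
          · exact (nb_empty h hA hAB hAB' c).elim

private theorem nb_cardlt (h : Bin F D) {B B₁ B₂ : Finset ℕ} (hB₁ : B₁ ∈ F)
    (hd : Disjoint B₁ B₂) (hu : B₁ ∪ B₂ = B) : B₂.card < B.card := by
  have h1 : 0 < B₁.card := card_pos.2 (h.ne B₁ hB₁)
  rw [← hu, card_union_of_disjoint hd]
  omega

private theorem nb_spl2 (h : Bin F D) : ∀ (n : ℕ) (B : Finset ℕ), B.card = n → B ∈ F → B ⊆ C →
    2 ≤ (B ∩ Z).card → ∃ U₁ ∈ newF F A C Z, ∃ U₂ ∈ newF F A C Z, Disjoint U₁ U₂ ∧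
      U₁ ∪ U₂ = B ∩ Z := by
  intro n
  induction n using Nat.strong_induction_on with
  | _ n ih =>
    intro B hn hB hBC h2
    have hc : 2 ≤ B.card := h2.trans (card_le_card inter_subset_left)
    obtain ⟨B₁, hB₁, B₂, hB₂, hd, hu⟩ := h.spl B hB hc
    have hs1 : B₁ ⊆ B := hu ▸ subset_union_left
    have hs2 : B₂ ⊆ B := hu ▸ subset_union_right
    have l2 : B₂.card < n := hn ▸ nb_cardlt h hB₁ hd hu
    have l1 : B₁.card < n := hn ▸ nb_cardlt h hB₂ hd.symm (by rw [union_comm]; exact hu)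
    have e : B ∩ Z = (B₁ ∩ Z) ∪ (B₂ ∩ Z) := by rw [← hu, union_inter_distrib_right]
    rcases (B₁ ∩ Z).eq_empty_or_nonempty with e1 | e1
    · rw [e1, empty_union] at e
      obtain ⟨U₁, hU₁, U₂, hU₂, hd', hu'⟩ := ih _ l2 B₂ rfl hB₂ (hs2.trans hBC) (by rw [← e]; exact h2)
      exact ⟨U₁, hU₁, U₂, hU₂, hd', by rw [hu', e]⟩
    · rcases (B₂ ∩ Z).eq_empty_or_nonempty with e2 | e2
      · rw [e2, union_empty] at e
        obtain ⟨U₁, hU₁, U₂, hU₂, hd', hu'⟩ := ih _ l1 B₁ rfl hB₁ (hs1.trans hBC) (by rw [← e]; exact h2)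
        exact ⟨U₁, hU₁, U₂, hU₂, hd', by rw [hu', e]⟩
      · exact ⟨B₁ ∩ Z, nb_two hB₁ (hs1.trans hBC) e1, B₂ ∩ Z, nb_two hB₂ (hs2.trans hBC) e2,
          hd.mono inter_subset_left inter_subset_left, e.symm⟩

private theorem nb_spl3 (h : Bin F D) : ∀ (n : ℕ) (B : Finset ℕ), B.card = n → B ∈ F → B ⊆ C →
    Disjoint B A → 2 ≤ (B \ Z).card → ∃ U₁ ∈ newF F A C Z, ∃ U₂ ∈ newF F A C Z, Disjoint U₁ U₂ ∧
      U₁ ∪ U₂ = B \ Z := by
  intro n
  induction n using Nat.strong_induction_on with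
  | _ n ih =>
    intro B hn hB hBC hBA h2
    have hc : 2 ≤ B.card := h2.trans (card_le_card sdiff_subset)
    obtain ⟨B₁, hB₁, B₂, hB₂, hd, hu⟩ := h.spl B hB hc
    have hs1 : B₁ ⊆ B := hu ▸ subset_union_left
    have hs2 : B₂ ⊆ B := hu ▸ subset_union_right
    have l2 : B₂.card < n := hn ▸ nb_cardlt h hB₁ hd hu
    have l1 : B₁.card < n := hn ▸ nb_cardlt h hB₂ hd.symm (by rw [union_comm]; exact hu)
    have e : B \ Z = (B₁ \ Z) ∪ (B₂ \ Z) := by rw [← hu, union_sdiff_distrib]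
    rcases (B₁ \ Z).eq_empty_or_nonempty with e1 | e1
    · rw [e1, empty_union] at e
      obtain ⟨U₁, hU₁, U₂, hU₂, hd', hu'⟩ := ih _ l2 B₂ rfl hB₂ (hs2.trans hBC)
        (hBA.mono_left hs2) (by rw [← e]; exact h2)
      exact ⟨U₁, hU₁, U₂, hU₂, hd', by rw [hu', e]⟩
    · rcases (B₂ \ Z).eq_empty_or_nonempty with e2 | e2
      · rw [e2, union_empty] at e
        obtain ⟨U₁, hU₁, U₂, hU₂, hd', hu'⟩ := ih _ l1 B₁ rfl hB₁ (hs1.trans hBC)
          (hBA.mono_left hs1) (by rw [← e]; exact h2)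
        exact ⟨U₁, hU₁, U₂, hU₂, hd', by rw [hu', e]⟩
      · exact ⟨B₁ \ Z, nb_three hB₁ (hs1.trans hBC) (hBA.mono_left hs1) e1, B₂ \ Z,
          nb_three hB₂ (hs2.trans hBC) (hBA.mono_left hs2) e2,
          hd.mono sdiff_subset sdiff_subset, e.symm⟩

private theorem nb_spl4 (h : Bin F D) (hA : A ∈ F) (hC : C ∈ F) (h1 : A ⊆ Z) (h2 : Z ⊆ C) :
    ∀ (n : ℕ) (B : Finset ℕ), B.card = n → B ∈ F → A ⊆ B → B ⊆ C →
    2 ≤ (B ∪ Z).card → ∃ U₁ ∈ newF F A C Z, ∃ U₂ ∈ newF F A C Z, Disjoint U₁ U₂ ∧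
      U₁ ∪ U₂ = B ∪ Z := by
  intro n
  induction n using Nat.strong_induction_on with
  | _ n ih =>
    intro B hn hB hAB hBC hc2
    by_cases hBA : B = A
    · have e : B ∪ Z = C ∩ Z := by
        rw [hBA, union_eq_right.2 h1, inter_eq_right.2 h2]
      rw [e] at hc2 ⊢
      exact nb_spl2 h C.card C rfl hC (Finset.Subset.refl C) hc2
    · have hA1 : 0 < A.card := card_pos.2 (h.ne A hA)
      have hA2 : A.card < B.card := card_lt_card (hAB.ssubset_of_ne (Ne.symm hBA))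
      obtain ⟨B₁, hB₁, B₂, hB₂, hd, hu⟩ := h.spl B hB (by omega)
      -- one part
      have key : ∀ B₁ ∈ F, ∀ B₂ ∈ F, Disjoint B₁ B₂ → B₁ ∪ B₂ = B → A ⊆ B₁ →
          ∃ U₁ ∈ newF F A C Z, ∃ U₂ ∈ newF F A C Z, Disjoint U₁ U₂ ∧ U₁ ∪ U₂ = B ∪ Z := by
        intro B₁ hB₁ B₂ hB₂ hd hu hA1
        have hs1 : B₁ ⊆ B := hu ▸ subset_union_left
        have hs2 : B₂ ⊆ B := hu ▸ subset_union_right
        have l1 : B₁.card < n := hn ▸ nb_cardlt h hB₂ hd.symm (by rw [union_comm]; exact hu)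
        have e : B ∪ Z = (B₁ ∪ Z) ∪ (B₂ \ Z) := by
          rw [← hu]
          ext x
          simp only [mem_union, mem_sdiff]
          tauto
        have hA2 : Disjoint B₂ A := hd.symm.mono_right hA1
        rcases (B₂ \ Z).eq_empty_or_nonempty with e2 | e2
        · rw [e2, union_empty] at e
          obtain ⟨U₁, hU₁, U₂, hU₂, hd', hu'⟩ := ih _ l1 B₁ rfl hB₁ hA1 (hs1.trans hBC)
            (by rw [← e]; exact hc2)
          exact ⟨U₁, hU₁, U₂, hU₂, hd', by rw [hu', e]⟩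
        · refine ⟨B₁ ∪ Z, nb_four hB₁ hA1 (hs1.trans hBC) ?_, B₂ \ Z,
            nb_three hB₂ (hs2.trans hBC) hA2 e2, ?_, e.symm⟩
          · exact (h.ne B₁ hB₁).mono subset_union_left
          · refine Finset.disjoint_left.2 fun x hx hx' => ?_
            rw [mem_sdiff] at hx'
            rcases mem_union.1 hx with hx | hx
            · exact Finset.disjoint_left.1 hd hx hx'.1
            · exact hx'.2 hx
      rcases h.child hB₁ hB₂ hd hu hA hAB with c | c | c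
      · exact absurd c.symm hBA
      · exact key B₁ hB₁ B₂ hB₂ hd hu c
      · exact key B₂ hB₂ B₁ hB₁ hd.symm (by rw [union_comm]; exact hu) c

private theorem nb_notsub {B B' : Finset ℕ} (hn : B.Nonempty) (hd : Disjoint B B') : ¬ B ⊆ B' := by
  intro hs
  obtain ⟨a, ha⟩ := hn
  exact Finset.disjoint_left.1 hd ha (hs ha)

private theorem nb_spl1 (h : Bin F D) (hC : C ∈ F) (hAC : A ⊆ C) (h2 : Z ⊆ C) {B : Finset ℕ}
    (hB : B ∈ F) (hBC : ¬ B ⊆ C) (hc : 2 ≤ B.card) :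
    ∃ U₁ ∈ newF F A C Z, ∃ U₂ ∈ newF F A C Z, Disjoint U₁ U₂ ∧ U₁ ∪ U₂ = B := by
  obtain ⟨B₁, hB₁, B₂, hB₂, hd, hu⟩ := h.spl B hB hc
  have key : ∀ B₁ ∈ F, ∀ B₂ ∈ F, Disjoint B₁ B₂ → B₁ ∪ B₂ = B → C ⊆ B₁ →
      ∃ U₁ ∈ newF F A C Z, ∃ U₂ ∈ newF F A C Z, Disjoint U₁ U₂ ∧ U₁ ∪ U₂ = B := by
    intro B₁ hB₁ B₂ hB₂ hd hu hC1
    refine ⟨B₁, ?_, B₂, nb_one hB₂ (nb_notsub (h.ne B₂ hB₂) (hd.symm.mono_right hC1)) (h.ne B₂ hB₂),
      hd, hu⟩
    by_cases h3 : B₁ ⊆ C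
    · have e : B₁ = C := Finset.Subset.antisymm h3 hC1
      have e2 : B₁ = C ∪ Z := by rw [e, union_eq_left.2 h2]
      rw [e2]
      exact nb_four hC hAC (Finset.Subset.refl C) (by rw [← e2]; exact h.ne B₁ hB₁)
    · exact nb_one hB₁ h3 (h.ne B₁ hB₁)
  rcases h.lmn B hB C hC with c | c | c
  · exact absurd c hBC
  · rcases h.child hB₁ hB₂ hd hu hC c with c1 | c1 | c1
    · exact absurd (c1 ▸ Finset.Subset.refl B) hBC
    · exact key B₁ hB₁ B₂ hB₂ hd hu c1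
    · exact key B₂ hB₂ B₁ hB₁ hd.symm (by rw [union_comm]; exact hu) c1
  · have hs1 : B₁ ⊆ B := hu ▸ subset_union_left
    have hs2 : B₂ ⊆ B := hu ▸ subset_union_right
    exact ⟨B₁, nb_one hB₁ (nb_notsub (h.ne B₁ hB₁) (c.mono_left hs1)) (h.ne B₁ hB₁), B₂,
      nb_one hB₂ (nb_notsub (h.ne B₂ hB₂) (c.mono_left hs2)) (h.ne B₂ hB₂), hd, hu⟩

theorem newF_bin (h : Bin F D) (hA : A ∈ F) (hC : C ∈ F) (hAC : A ⊆ C) (h1 : A ⊆ Z) (h2 : Z ⊆ C) :
    Bin (newF F A C Z) D := by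
  refine ⟨?_, ?_, ?_, ?_, ?_⟩
  · by_cases hDC : D ⊆ C
    · have e : D = C := Finset.Subset.antisymm hDC (h.sub C hC)
      have e2 : D = C ∪ Z := by rw [e, union_eq_left.2 h2]
      rw [e2]
      exact nb_four hC hAC (Finset.Subset.refl C) (by rw [← e2]; exact h.ne D h.top)
    · exact nb_one h.top hDC (h.ne D h.top)
  · intro U hU
    rcases nb_types hAC h1 hU with a | a
    · exact h.sub U a.1
    · exact (nb_subC h2 a).trans (h.sub C hC)
  · intro U hU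
    exact (nb_mem.1 hU).1
  · intro U hU U' hU'
    exact nb_lam h hA hC hAC h1 h2 hU hU'
  · intro U hU hc
    rcases nb_types hAC h1 hU with a | ⟨B, hB, hBC, rfl⟩ | ⟨B, hB, hBC, hBA, rfl⟩ |
      ⟨B, hB, hAB, hBC, rfl⟩
    · exact nb_spl1 h hC hAC h2 a.1 a.2 hc
    · exact nb_spl2 h B.card B rfl hB hBC hc
    · exact nb_spl3 h B.card B rfl hB hBC hBA hc
    · exact nb_spl4 h hA hC h1 h2 B.card B rfl hB hAB hBC hc

end Pool.Agent.BW
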