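import Pool.Agent.BW.Sub

set_option autoImplicit false

/-!
# Module NewWid: the connectivities in the new family
-/

namespace Pool.Agent.BW

open Finset
open Pool.Agent.G4 (IsRk lam dualR)

variable {r : Finset ℕ → ℤ} {E A B C D Z : Finset ℕ} {F : Finset (Finset ℕ)}

theorem lam_cap (hr : IsRk r) (hC : C ⊆ E) (h2 : Z ⊆ C) (hB : B ⊆ C) :
    lam r E (B ∩ Z) + lam r E (B ∪ Z) ≤ lam r E B + lam r E Z := by
  exact lam_sub hr (hB.trans hC) (h2.trans hC)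

theorem lam_inter_le (hr : IsRk r) (hC : C ⊆ E) (h1 : A ⊆ Z) (h2 : Z ⊆ C)
    (hm : ∀ Y, A ⊆ Y → Y ⊆ C → lam r E Z ≤ lam r E Y) (hB : B ⊆ C) :
    lam r E (B ∩ Z) ≤ lam r E B := by
  have h3 := lam_cap hr hC h2 hB
  have h4 := hm (B ∪ Z) (h1.trans subset_union_right) (union_subset hB h2)
  omega

theorem lam_diff_le (hr : IsRk r) (hC : C ⊆ E) (h1 : A ⊆ Z) (h2 : Z ⊆ C)
    (hm : ∀ Y, A ⊆ Y → Y ⊆ C → lam r E Z ≤ lam r E Y) (hB : B ⊆ C) (hBA : Disjoint B A) :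
    lam r E (B \ Z) ≤ lam r E B := by
  have hZE : Z ⊆ E := h2.trans hC
  have h3 := lam_sub hr (hB.trans hC) (sdiff_subset : E \ Z ⊆ E)
  have e1 : B ∩ (E \ Z) = B \ Z := by
    ext x
    simp only [mem_sdiff, mem_inter]
    constructor
    · rintro ⟨h4, _, h5⟩
      exact ⟨h4, h5⟩
    · rintro ⟨h4, h5⟩
      exact ⟨h4, hC (hB h4), h5⟩
  have e2 : B ∪ (E \ Z) = E \ (Z \ B) := by
    ext x
    simp only [mem_sdiff, mem_union, not_and, not_not]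
    constructor
    · rintro (h4 | ⟨h4, h5⟩)
      · exact ⟨hC (hB h4), fun _ => h4⟩
      · exact ⟨h4, fun h6 => absurd h6 h5⟩
    · rintro ⟨h4, h5⟩
      by_cases h6 : x ∈ Z
      · exact Or.inl (h5 h6)
      · exact Or.inr ⟨h4, h6⟩
  have h4 := hm (Z \ B) (subset_sdiff.2 ⟨h1, hBA.symm⟩) (sdiff_subset.trans h2)
  rw [e1, e2, Pool.Agent.G4.lam_compl (sdiff_subset.trans hZE), Pool.Agent.G4.lam_compl hZE] at h3
  omega

theorem lam_union_le (hr : IsRk r) (hC : C ⊆ E) (h1 : A ⊆ Z) (h2 : Z ⊆ C)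
    (hm : ∀ Y, A ⊆ Y → Y ⊆ C → lam r E Z ≤ lam r E Y) (hB : B ⊆ C) (hBA : A ⊆ B) :
    lam r E (B ∪ Z) ≤ lam r E B := by
  have h3 := lam_cap hr hC h2 hB
  have h4 := hm (B ∩ Z) (subset_inter hBA h1) (inter_subset_left.trans hB)
  omega

theorem newF_wid (hr : IsRk r) (h : Bin F D) (hD : D ⊆ E) (hA : A ∈ F) (hC : C ∈ F) (hAC : A ⊆ C)
    (h1 : A ⊆ Z) (h2 : Z ⊆ C) (hm : ∀ Y, A ⊆ Y → Y ⊆ C → lam r E Z ≤ lam r E Y) {m : ℤ}
    (hw : ∀ B ∈ F, lam r E B ≤ m) : ∀ U ∈ newF F A C Z, lam r E U ≤ m := by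
  have hCE : C ⊆ E := (h.sub C hC).trans hD
  intro U hU
  unfold newF at hU
  rw [mem_erase] at hU
  obtain ⟨_, hU⟩ := hU
  rw [mem_union, mem_union, mem_union, mem_filter, mem_image, mem_image, mem_image] at hU
  rcases hU with ((hU | ⟨B, hB, rfl⟩) | ⟨B, hB, rfl⟩) | ⟨B, hB, rfl⟩
  · exact hw U hU.1
  · rw [mem_filter] at hB
    exact (lam_inter_le hr hCE h1 h2 hm hB.2).trans (hw B hB.1)
  · rw [mem_filter] at hB
    exact (lam_diff_le hr hCE h1 h2 hm hB.2.1 hB.2.2).trans (hw B hB.1)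
  · rw [mem_filter] at hB
    exact (lam_union_le hr hCE h1 h2 hm hB.2.2 hB.2.1).trans (hw B hB.1)

end Pool.Agent.BW
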