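import Pool.Agent.BW.Can
import Pool.Agent.BW.NewBin
import Pool.Agent.BW.NewWid
import Pool.Agent.BW.OsF

set_option autoImplicit false

/-!
# Module NewL: the new family as a list

`F` is a list of sublists of `E`, `A, C, Z` sublists of `E`. The four parts of `newL` are the four
parts of `newF` (`leB_iff`, `djB_iff`, `toF_nor`, `toF_dif`, `toF_uni`, `mem_famF`); nonempty lists
correspond to nonempty sets, `ddp` keeps the elements and removes repetitions (induction over the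
fold: the result has no repetitions and the same elements). The elements of `newL` are sublists of
`E`, so different ones have different finsets (`can_ext`). The new family is binary laminar with top
`D ⊆ E` (`newF_bin`), so it has at most `2 |D| ≤ 2 |E|` elements (`Bin.card_le`) and the `take` in
`newFam` does nothing.
-/

namespace Pool.Agent.BW

open Finset
open Pool.Agent.G4 (IsRk lam dualR nor dif word prd)

variable {E A C Z : List ℕ} {D : Finset ℕ} {F : List (List ℕ)} {r : Finset ℕ → ℤ} {m : ℕ}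

private theorem ddp_aux (l : List (List ℕ)) : ∀ s : List (List ℕ), s.Nodup →
    (l.foldl (fun s x => if x ∈ s then s else s ++ [x]) s).Nodup ∧
      ∀ x, x ∈ l.foldl (fun s x => if x ∈ s then s else s ++ [x]) s ↔ x ∈ s ∨ x ∈ l := by
  induction l with
  | nil => intro s hs; exact ⟨hs, fun x => by simp⟩
  | cons a l ih =>
    intro s hs
    rw [List.foldl_cons]
    by_cases ha : a ∈ s
    · rw [if_pos ha]
      obtain ⟨h1, h2⟩ := ih s hs
      refine ⟨h1, fun x => ?_⟩
      rw [h2, List.mem_cons]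
      constructor
      · rintro (h | h)
        · exact Or.inl h
        · exact Or.inr (Or.inr h)
      · rintro (h | h | h)
        · exact Or.inl h
        · rw [h]; exact Or.inl ha
        · exact Or.inr h
    · rw [if_neg ha]
      obtain ⟨h1, h2⟩ := ih (s ++ [a]) (by
        rw [List.nodup_append]
        refine ⟨hs, by simp, ?_⟩
        intro x hx y hy hxy
        rw [List.mem_singleton] at hy
        rw [hxy, hy] at hx
        exact ha hx)
      refine ⟨h1, fun x => ?_⟩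
      rw [h2, List.mem_append, List.mem_singleton, List.mem_cons, or_assoc]

theorem ddp_nodup (l : List (List ℕ)) : (ddp l).Nodup :=
  (ddp_aux l [] List.nodup_nil).1

theorem mem_ddp (l : List (List ℕ)) (x : List ℕ) : x ∈ ddp l ↔ x ∈ l := by
  have := (ddp_aux l [] List.nodup_nil).2 x
  rw [show ddp l = l.foldl (fun s x => if x ∈ s then s else s ++ [x]) [] from rfl, this]
  simp

private theorem mem_newL (x : List ℕ) : x ∈ newL E F A C Z ↔
    (x ∈ F ∧ (¬ x.toFinset ⊆ C.toFinset ∨ x.toFinset ⊆ A.toFinset)) ∨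
    (∃ B ∈ F, B.toFinset ⊆ C.toFinset ∧ nor B Z = x) ∨
    (∃ B ∈ F, (B.toFinset ⊆ C.toFinset ∧ Disjoint B.toFinset A.toFinset) ∧ dif B Z = x) ∨
    (∃ B ∈ F, (A.toFinset ⊆ B.toFinset ∧ B.toFinset ⊆ C.toFinset) ∧ uni E B Z = x) := by
  have e1 : ∀ B : List ℕ, (!(leB B C) || leB B A) = true ↔
      (¬ B.toFinset ⊆ C.toFinset ∨ B.toFinset ⊆ A.toFinset) := by
    intro B
    rw [Bool.or_eq_true, Bool.not_eq_true', ← leB_iff, ← leB_iff, Bool.not_eq_true]
  have e2 : ∀ B : List ℕ, (leB B C && djB B A) = true ↔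
      (B.toFinset ⊆ C.toFinset ∧ Disjoint B.toFinset A.toFinset) := by
    intro B
    rw [Bool.and_eq_true, leB_iff, djB_iff]
  have e3 : ∀ B : List ℕ, (leB A B && leB B C) = true ↔
      (A.toFinset ⊆ B.toFinset ∧ B.toFinset ⊆ C.toFinset) := by
    intro B
    rw [Bool.and_eq_true, leB_iff, leB_iff]
  unfold newL
  rw [List.mem_append, List.mem_append, List.mem_append, List.mem_filter, List.mem_map,
    List.mem_map, List.mem_map, e1]
  refine or_congr Iff.rfl (or_congr ?_ (or_congr ?_ ?_))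
  · constructor
    · rintro ⟨B, hB, hx⟩
      rw [List.mem_filter, leB_iff] at hB
      exact ⟨B, hB.1, hB.2, hx⟩
    · rintro ⟨B, hB, hB2, hx⟩
      exact ⟨B, List.mem_filter.2 ⟨hB, leB_iff.2 hB2⟩, hx⟩
  · constructor
    · rintro ⟨B, hB, hx⟩
      rw [List.mem_filter, e2] at hB
      exact ⟨B, hB.1, hB.2, hx⟩
    · rintro ⟨B, hB, hB2, hx⟩
      exact ⟨B, List.mem_filter.2 ⟨hB, (e2 B).2 hB2⟩, hx⟩
  · constructor
    · rintro ⟨B, hB, hx⟩
      rw [List.mem_filter, e3] at hB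
      exact ⟨B, hB.1, hB.2, hx⟩
    · rintro ⟨B, hB, hB2, hx⟩
      exact ⟨B, List.mem_filter.2 ⟨hB, (e3 B).2 hB2⟩, hx⟩

private theorem newL_sub (hF : ∀ B ∈ F, B.Sublist E) : ∀ x ∈ newL E F A C Z, x.Sublist E := by
  intro x hx
  rw [mem_newL] at hx
  rcases hx with hx | ⟨B, hB, -, rfl⟩ | ⟨B, hB, -, rfl⟩ | ⟨B, hB, -, rfl⟩
  · exact hF x hx.1
  · exact nor_sub.trans (hF B hB)
  · exact dif_sub.trans (hF B hB)
  · exact uni_sub

/-- the family without the bound on the number -/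
private theorem famF_ddp (hF : ∀ B ∈ F, B.Sublist E) (hZ : Z.Sublist E) :
    famF (ddp ((newL E F A C Z).filter fun B => !B.isEmpty)) =
      newF (famF F) A.toFinset C.toFinset Z.toFinset := by
  ext X
  have hX : X ∈ newF (famF F) A.toFinset C.toFinset Z.toFinset ↔ X ≠ ∅ ∧
      ((X ∈ famF F ∧ (¬ X ⊆ C.toFinset ∨ X ⊆ A.toFinset)) ∨
        (∃ B ∈ famF F, B ⊆ C.toFinset ∧ B ∩ Z.toFinset = X) ∨
        (∃ B ∈ famF F, (B ⊆ C.toFinset ∧ Disjoint B A.toFinset) ∧ B \ Z.toFinset = X) ∨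
        (∃ B ∈ famF F, (A.toFinset ⊆ B ∧ B ⊆ C.toFinset) ∧ B ∪ Z.toFinset = X)) := by
    unfold newF
    rw [mem_erase]
    refine and_congr Iff.rfl ?_
    simp only [mem_union, mem_filter, mem_image, and_assoc, or_assoc]
  rw [hX, mem_famF]
  constructor
  · rintro ⟨x, hx, rfl⟩
    rw [mem_ddp, List.mem_filter] at hx
    obtain ⟨hx1, hx2⟩ := hx
    refine ⟨?_, ?_⟩
    · intro h0
      rw [List.toFinset_eq_empty_iff] at h0
      rw [h0] at hx2
      simp at hx2
    · rw [mem_newL] at hx1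
      rcases hx1 with hx | ⟨B, hB, hB2, rfl⟩ | ⟨B, hB, hB2, rfl⟩ | ⟨B, hB, hB2, rfl⟩
      · exact Or.inl ⟨mem_famF.2 ⟨x, hx.1, rfl⟩, hx.2⟩
      · exact Or.inr (Or.inl ⟨B.toFinset, mem_famF.2 ⟨B, hB, rfl⟩, hB2, toF_nor.symm⟩)
      · exact Or.inr (Or.inr (Or.inl ⟨B.toFinset, mem_famF.2 ⟨B, hB, rfl⟩, hB2, toF_dif.symm⟩))
      · exact Or.inr (Or.inr (Or.inr ⟨B.toFinset, mem_famF.2 ⟨B, hB, rfl⟩, hB2,
          (toF_uni (hF B hB).subset hZ.subset).symm⟩))
  · rintro ⟨hX0, hX⟩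
    have key : ∀ x : List ℕ, x ∈ newL E F A C Z → x.toFinset = X →
        ∃ B ∈ ddp ((newL E F A C Z).filter fun B => !B.isEmpty), B.toFinset = X := by
      intro x hx hxX
      refine ⟨x, ?_, hxX⟩
      rw [mem_ddp, List.mem_filter]
      refine ⟨hx, ?_⟩
      cases x with
      | nil => exact absurd hxX.symm (by simpa using hX0)
      | cons a t => rfl
    rcases hX with ⟨h1, h2⟩ | ⟨B, hB, h1, h2⟩ | ⟨B, hB, h1, h2⟩ | ⟨B, hB, h1, h2⟩
    · obtain ⟨x, hx, rfl⟩ := mem_famF.1 h1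
      exact key x (mem_newL x |>.2 (Or.inl ⟨hx, h2⟩)) rfl
    · obtain ⟨x, hx, rfl⟩ := mem_famF.1 hB
      exact key (nor x Z) (mem_newL _ |>.2 (Or.inr (Or.inl ⟨x, hx, h1, rfl⟩))) (by rw [toF_nor, h2])
    · obtain ⟨x, hx, rfl⟩ := mem_famF.1 hB
      exact key (dif x Z) (mem_newL _ |>.2 (Or.inr (Or.inr (Or.inl ⟨x, hx, h1, rfl⟩))))
        (by rw [toF_dif, h2])
    · obtain ⟨x, hx, rfl⟩ := mem_famF.1 hB
      exact key (uni E x Z) (mem_newL _ |>.2 (Or.inr (Or.inr (Or.inr ⟨x, hx, h1, rfl⟩))))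
        (by rw [toF_uni (hF x hx).subset hZ.subset, h2])

private theorem newFam_eq (hE : E.Nodup) (hF : FamOK r E m D F) (hA : A ∈ F) (hC : C ∈ F)
    (hAC : A.toFinset ⊆ C.toFinset) (hZ : Z.Sublist E) (h1 : A.toFinset ⊆ Z.toFinset)
    (h2 : Z.toFinset ⊆ C.toFinset) :
    newFam E F A C Z = ddp ((newL E F A C Z).filter fun B => !B.isEmpty) := by
  have hf := famF_ddp (A := A) (C := C) hF.sub hZ
  have hbin := newF_bin (Z := Z.toFinset) hF.bin (mem_famF.2 ⟨A, hA, rfl⟩) (mem_famF.2 ⟨C, hC, rfl⟩)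
    hAC h1 h2
  have hcard := hbin.card_le
  rw [← hf] at hcard
  have hsub : ∀ x ∈ ddp ((newL E F A C Z).filter fun B => !B.isEmpty), x.Sublist E := by
    intro x hx
    rw [mem_ddp, List.mem_filter] at hx
    exact newL_sub hF.sub x hx.1
  have hlen : (famF (ddp ((newL E F A C Z).filter fun B => !B.isEmpty))).card =
      (ddp ((newL E F A C Z).filter fun B => !B.isEmpty)).length := by
    unfold famF
    rw [List.toFinset_card_of_nodup, List.length_map]
    refine List.Nodup.map_on ?_ (ddp_nodup _)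
    intro x hx y hy hxy
    exact can_ext hE (hsub x hx) (hsub y hy) hxy
  have hD : D.card ≤ E.length := by
    obtain ⟨B, hB, hBD⟩ := mem_famF.1 hF.bin.top
    rw [← hBD]
    exact (List.toFinset_card_le B).trans (hF.sub B hB).length_le
  unfold newFam
  apply List.take_of_length_le
  omega

theorem newFam_famF (hE : E.Nodup) (hF : FamOK r E m D F) (hA : A ∈ F) (hC : C ∈ F)
    (hAC : A.toFinset ⊆ C.toFinset) (hZ : Z.Sublist E) (h1 : A.toFinset ⊆ Z.toFinset)
    (h2 : Z.toFinset ⊆ C.toFinset) :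
    famF (newFam E F A C Z) = newF (famF F) A.toFinset C.toFinset Z.toFinset := by
  rw [newFam_eq hE hF hA hC hAC hZ h1 h2]
  exact famF_ddp hF.sub hZ

theorem newFam_ok (hr : IsRk r) (hE : E.Nodup) (hF : FamOK r E m D F) (hA : A ∈ F) (hC : C ∈ F)
    (hAC : A.toFinset ⊆ C.toFinset) (hZ : Z.Sublist E) (h1 : A.toFinset ⊆ Z.toFinset)
    (h2 : Z.toFinset ⊆ C.toFinset)
    (h3 : ∀ Y, A.toFinset ⊆ Y → Y ⊆ C.toFinset → lam r E.toFinset Z.toFinset ≤ lam r E.toFinset Y) :
    FamOK r E m D (newFam E F A C Z) := by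
  have hf := newFam_famF hE hF hA hC hAC hZ h1 h2
  have he := newFam_eq hE hF hA hC hAC hZ h1 h2
  have hA' : A.toFinset ∈ famF F := mem_famF.2 ⟨A, hA, rfl⟩
  have hC' : C.toFinset ∈ famF F := mem_famF.2 ⟨C, hC, rfl⟩
  refine ⟨?_, ?_, ?_, ?_⟩
  · intro x hx
    rw [he, mem_ddp, List.mem_filter] at hx
    exact newL_sub hF.sub x hx.1
  · rw [he]
    exact ddp_nodup _
  · rw [hf]
    exact newF_bin hF.bin hA' hC' hAC h1 h2
  · intro B hB
    have hB' : B.toFinset ∈ newF (famF F) A.toFinset C.toFinset Z.toFinset := by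
      rw [← hf]
      exact mem_famF.2 ⟨B, hB, rfl⟩
    have hD : D ⊆ E.toFinset := by
      obtain ⟨x, hx, hxD⟩ := mem_famF.1 hF.bin.top
      rw [← hxD]
      intro y hy
      rw [List.mem_toFinset] at hy ⊢
      exact (hF.sub x hx).subset hy
    refine newF_wid hr hF.bin hD hA' hC' hAC h1 h2 h3 ?_ _ hB'
    intro U hU
    obtain ⟨x, hx, rfl⟩ := mem_famF.1 hU
    exact hF.wid x hx

end Pool.Agent.BW
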