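import Pool.Agent.BW.GoodL
import Pool.Agent.BW.NewL
import Pool.Agent.BW.CutM
import Pool.Agent.BW.NCnt
import Pool.Agent.BW.Lex

set_option autoImplicit false

/-!
# Module LnkL: the linked decomposition, by the lexicographic potential
-/

namespace Pool.Agent.BW

open Finset
open Pool.Agent.G4 (IsRk lam dualR nor dif word prd)

variable {E : List ℕ} {D : Finset ℕ} {F : List (List ℕ)} {r : Finset ℕ → ℤ} {ρ : List ℕ → ℕ}
  {m : ℕ}

private theorem top_sub (hF : FamOK r E m D F) : D ⊆ E.toFinset := by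
  obtain ⟨B, hB, hBD⟩ := mem_famF.1 hF.bin.top
  rw [← hBD]
  intro x hx
  rw [List.mem_toFinset] at hx ⊢
  exact (hF.sub B hB).subset hx

private theorem cut_le (hr : IsRk r) (hE : E.Nodup) (hρ : RkS ρ E r) {A C : List ℕ}
    (hA : A.Sublist E) (hC : C.Sublist E) (hAC : A.toFinset ⊆ C.toFinset) (Y : Finset ℕ)
    (h1 : A.toFinset ⊆ Y) (h2 : Y ⊆ C.toFinset) :
    (lamL ρ E (cutZ ρ E A (dif E C)) : ℤ) ≤ lam r E.toFinset Y := by
  have hCE : C.toFinset ⊆ E.toFinset := by
    intro x hx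
    rw [List.mem_toFinset] at hx ⊢
    exact hC.subset hx
  have hAE : A.toFinset ⊆ E.toFinset := hAC.trans hCE
  have hdis : Disjoint A.toFinset (dif E C).toFinset := by
    rw [toF_dif]
    exact disjoint_left.2 fun x hx hx' => (mem_sdiff.1 hx').2 (hAC hx)
  have hcut := cut_spec hr hE hρ (A := A) (B := dif E C) hA.subset dif_sub.subset hdis
  rw [lamL_spec hr hρ cutZ_sub.subset]
  refine IsCut.min hr hcut hAE ?_ h1 (h2.trans hCE) ?_
  · rw [toF_dif]
    exact sdiff_subset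
  · rw [toF_dif]
    exact disjoint_left.2 fun x hx hx' => (mem_sdiff.1 hx').2 (h2 hx)

theorem linked_of (hr : IsRk r) (hE : E.Nodup) (hρ : RkS ρ E r) (hF : FamOK r E m D F)
    (h : ∀ p ∈ prd F F, violB ρ E F p = false) : Linked r E.toFinset (famF F) := by
  intro A hA C hC hAC
  obtain ⟨a, ha, rfl⟩ := mem_famF.1 hA
  obtain ⟨c, hc, rfl⟩ := mem_famF.1 hC
  have h1 := h (a, c) (mem_prd.2 ⟨ha, hc⟩)
  unfold violB at h1
  rw [Bool.and_eq_false_iff] at h1
  rcases h1 with h1 | h1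
  · rw [leB_iff.2 hAC] at h1
    exact absurd h1 (by decide)
  · rw [List.all_eq_false] at h1
    obtain ⟨B, hB, hB'⟩ := h1
    unfold mids at hB
    rw [List.mem_filter, Bool.and_eq_true, leB_iff, leB_iff] at hB
    obtain ⟨hBF, h2, h3⟩ := hB
    refine ⟨B.toFinset, mem_famF.2 ⟨B, hBF, rfl⟩, h2, h3, fun Y hY1 hY2 => ?_⟩
    have h4 : lamL ρ E B ≤ lamL ρ E (cutZ ρ E a (dif E c)) := by
      simp only [decide_eq_true_eq, not_lt] at hB'
      exact hB'
    rw [← lamL_spec hr hρ (hF.sub B hBF).subset]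
    have h5 := cut_le hr hE hρ (hF.sub a ha) (hF.sub c hc) hAC Y hY1 hY2
    have h6 : (lamL ρ E B : ℤ) ≤ (lamL ρ E (cutZ ρ E a (dif E c)) : ℤ) := by exact_mod_cast h4
    exact h6.trans h5

private theorem step_eq (h : ∀ p ∈ prd F F, violB ρ E F p = false) : linkStep ρ E F = F := by
  unfold linkStep
  rw [if_pos]
  rw [List.isEmpty_iff, List.filter_eq_nil_iff]
  intro p hp
  rw [h p hp]
  decide

private theorem headD_mem {α : Type} (l : List α) (d : α) (h : l ≠ []) : l.headD d ∈ l := by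
  cases l with
  | nil => exact absurd rfl h
  | cons x l => simp

theorem linkStep_lt (hr : IsRk r) (hE : E.Nodup) (hρ : RkS ρ E r) (hF : FamOK r E m D F)
    (h : ∃ p ∈ prd F F, violB ρ E F p = true) : FamOK r E m D (linkStep ρ E F) ∧
      ∃ t₀ ≤ m, (∀ t, t₀ ≤ t → cntN r E.toFinset (famF (linkStep ρ E F)) t ≤
        cntN r E.toFinset (famF F) t) ∧
      cntN r E.toFinset (famF (linkStep ρ E F)) t₀ < cntN r E.toFinset (famF F) t₀ := by
  obtain ⟨q, hq, hqv⟩ := h
  have hne : ((prd F F).filter fun p => violB ρ E F p) ≠ [] :=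
    List.ne_nil_of_mem (List.mem_filter.2 ⟨hq, hqv⟩)
  have hmem := headD_mem _ ([], []) hne
  obtain ⟨p, hp⟩ : ∃ p, p = ((prd F F).filter fun p => violB ρ E F p).headD ([], []) := ⟨_, rfl⟩
  rw [← hp] at hmem
  have hstep : linkStep ρ E F = newFam E F p.1 p.2 (goodCut ρ E F p.1 p.2) := by
    unfold linkStep
    rw [if_neg, ← hp]
    rw [List.isEmpty_iff]
    exact hne
  rw [List.mem_filter] at hmem
  obtain ⟨hpF, hpv⟩ := hmem
  obtain ⟨hA, hC⟩ := mem_prd.1 hpF
  unfold violB at hpv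
  rw [Bool.and_eq_true, leB_iff, List.all_eq_true] at hpv
  obtain ⟨hAC, hall⟩ := hpv
  have hv : ∀ B ∈ F, p.1.toFinset ⊆ B.toFinset → B.toFinset ⊆ p.2.toFinset →
      lamL ρ E (cutZ ρ E p.1 (dif E p.2)) < lamL ρ E B := by
    intro B hB h1 h2
    have h3 := hall B (by
      unfold mids
      rw [List.mem_filter, Bool.and_eq_true, leB_iff, leB_iff]
      exact ⟨hB, h1, h2⟩)
    simpa using h3
  have hG := goodCut_spec hr hE hρ hF hA hC hAC hv
  have hZ : (goodCut ρ E F p.1 p.2).Sublist E := goodCut_sub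
  rw [hstep]
  refine ⟨newFam_ok hr hE hF hA hC hAC hZ hG.AZ hG.ZC hG.min, ?_⟩
  rw [newFam_famF hE hF hA hC hAC hZ hG.AZ hG.ZC]
  refine cntN_lt hr hF.bin (top_sub hF) (mem_famF.2 ⟨_, hA, rfl⟩) (mem_famF.2 ⟨_, hC, rfl⟩) hAC hG ?_
  intro B hB
  obtain ⟨B', hB', rfl⟩ := mem_famF.1 hB
  exact hF.wid B' hB'

/-- the potential -/
private noncomputable def pot (r : Finset ℕ → ℤ) (E : List ℕ) (m : ℕ) (F : List (List ℕ)) : ℕ :=
  ∑ t ∈ range (m + 1), cntN r E.toFinset (famF F) t *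
    ((E.length + E.length) * (E.length + E.length) + 1) ^ t

private theorem cnt_lt (hF : FamOK r E m D F) (t : ℕ) : cntN r E.toFinset (famF F) t <
    (E.length + E.length) * (E.length + E.length) + 1 := by
  have h1 := cntN_le r E.toFinset (famF F) t
  have h2 := hF.bin.card_le
  have h3 : D.card ≤ E.toFinset.card := card_le_card (top_sub hF)
  have h4 : E.toFinset.card ≤ E.length := List.toFinset_card_le E
  have h5 : (famF F).card ≤ E.length + E.length := by omega
  exact Nat.lt_succ_of_le (h1.trans (Nat.mul_le_mul h5 h5))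

private theorem pot_lt (hr : IsRk r) (hE : E.Nodup) (hρ : RkS ρ E r) (hF : FamOK r E m D F)
    (h : ∃ p ∈ prd F F, violB ρ E F p = true) : pot r E m (linkStep ρ E F) < pot r E m F := by
  obtain ⟨h1, t₀, h2, h3, h4⟩ := linkStep_lt hr hE hρ hF h
  exact lex_lt m _ _ _ (cnt_lt h1) t₀ h2 h3 h4

private theorem iter (hr : IsRk r) (hE : E.Nodup) (hρ : RkS ρ E r) (k : ℕ) :
    ∀ F : List (List ℕ), FamOK r E m D F → pot r E m F < k →
      FamOK r E m D ((linkStep ρ E)^[k] F) ∧ Linked r E.toFinset (famF ((linkStep ρ E)^[k] F)) := by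
  induction k with
  | zero => exact fun F _ h => absurd h (Nat.not_lt_zero _)
  | succ k ih =>
    intro F hF hk
    by_cases h : ∃ p ∈ prd F F, violB ρ E F p = true
    · rw [Function.iterate_succ_apply]
      have h1 := pot_lt hr hE hρ hF h
      exact ih _ (linkStep_lt hr hE hρ hF h).1 (by omega)
    · have h' : ∀ p ∈ prd F F, violB ρ E F p = false := by
        intro p hp
        rw [← Bool.not_eq_true]
        exact fun hc => h ⟨p, hp, hc⟩
      rw [Function.iterate_fixed (step_eq h')]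
      exact ⟨hF, linked_of hr hE hρ hF h'⟩

theorem linkL_spec (hr : IsRk r) (hE : E.Nodup) (hρ : RkS ρ E r) (hF : FamOK r E m D F) :
    FamOK r E m D (linkL ρ E m F) ∧ Linked r E.toFinset (famF (linkL ρ E m F)) := by
  unfold linkL
  refine iter hr hE hρ _ F hF ?_
  unfold fuel
  rw [List.length_replicate]
  exact lex_bound (m + 1) _ _ (cnt_lt hF)

end Pool.Agent.BW
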