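import Pool.Agent.BW.Root
import Pool.Agent.BW.Orc

set_option autoImplicit false

/-!
# Module Main: correctness of the algorithm

`r = rkV K (quoV (rowS A))` is the rank function of the dual matroid (`rkD_spec`, `rkV_quoV`).
`lam r (range n) J = crk A J + crk A (range n \ J) - crk A (range n)` (`crk_compl`, `crk_top`), the
connectivity function of the matroid of `A`. `root` with `Rel = rowS A`; the rows of the output `R` are
the rows of the matrix `outB e n R`, `rowS (outB ..) = span {decV l | l ∈ R}`; `crk_eq_of_dual` and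
`indep_iff_crk` for both matrices.
-/

namespace Pool.Agent.BW

open Finset Module Pool.Agent.Helper22
open Pool.Agent.G4 (IsRk lam dualR nor dif word prd)

variable {K : Type} [Field K] [Fintype K] {a n k : ℕ} {X : Oracle}

/-- the matrix with the rows `R` (codes of elements of `K`) -/
def outB (e : Fin (Fintype.card K) ≃ K) (n : ℕ) (R : List (List ℕ)) :
    Matrix (Fin R.length) (Fin n) K :=
  fun i j => dcd e ((R.get i).getD (j : ℕ) 0)

/-- branch decompositions of the matroid of the columns of `A` -/
inductive DecA (A : Matrix (Fin a) (Fin n) K) (k : ℕ) : Finset ℕ → Prop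
  | single (x : ℕ) : x < n → crk A {x} + crk A (range n \ {x}) ≤ crk A (range n) + k → DecA A k {x}
  | union (B C : Finset ℕ) : DecA A k B → DecA A k C → Disjoint B C →
      crk A (B ∪ C) + crk A (range n \ (B ∪ C)) ≤ crk A (range n) + k → DecA A k (B ∪ C)

private theorem crk_empty' (A : Matrix (Fin a) (Fin n) K) : crk A ∅ = 0 := by
  have h := crk_compl A (range n) (Finset.Subset.refl _)
  rw [Finset.sdiff_self, ks_top, top_sup_eq, finrank_top, Module.finrank_fin_fun,
    Finset.card_range] at h
  linarith

private theorem rk_eq (A : Matrix (Fin a) (Fin n) K) (F : Finset ℕ) (hF : F ⊆ range n) :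
    rkV K (quoV (rowS A)) F = (F.card : ℤ) + crk A (range n \ F) - crk A (range n) := by
  rw [rkV_quoV _ F hF, crk_compl A F hF, crk_top]

private theorem lam_eq (A : Matrix (Fin a) (Fin n) K) (F : Finset ℕ) (hF : F ⊆ range n) :
    lam (rkV K (quoV (rowS A))) (range n) F =
      crk A F + crk A (range n \ F) - crk A (range n) := by
  unfold lam
  rw [rk_eq A F hF, rk_eq A (range n \ F) Finset.sdiff_subset,
    rk_eq A (range n) (Finset.Subset.refl _), Finset.sdiff_self, crk_empty',
    Finset.sdiff_sdiff_eq_self hF, Finset.card_sdiff_of_subset hF,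
    Nat.cast_sub (Finset.card_le_card hF)]
  ring

private theorem decA_sub (A : Matrix (Fin a) (Fin n) K) (k : ℕ) (F : Finset ℕ)
    (h : DecA A k F) : F ⊆ range n := by
  induction h with
  | single x hx _ =>
    intro y hy
    rw [Finset.mem_singleton] at hy
    rw [hy, Finset.mem_range]
    exact hx
  | union B C _ _ _ _ ihB ihC => exact Finset.union_subset ihB ihC

private theorem decA_dec (A : Matrix (Fin a) (Fin n) K) (k : ℕ) (F : Finset ℕ)
    (h : DecA A k F) : Dec (rkV K (quoV (rowS A))) (range n) k F := by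
  induction h with
  | single x hx hc =>
    have hs : ({x} : Finset ℕ) ⊆ range n := decA_sub A k _ (DecA.single x hx hc)
    refine Dec.single x (Finset.mem_range.2 hx) ?_
    rw [lam_eq A {x} hs]
    linarith
  | union B C hB hC hd hc ihB ihC =>
    have hs : B ∪ C ⊆ range n := decA_sub A k _ (DecA.union B C hB hC hd hc)
    refine Dec.union B C ihB ihC hd ?_
    rw [lam_eq A (B ∪ C) hs]
    linarith

private theorem rowS_outB (e : Fin (Fintype.card K) ≃ K) (R : List (List ℕ)) :
    rowS (outB e n R) = Submodule.span K {w | ∃ l ∈ R, decV e n l = w} := by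
  unfold rowS
  congr 1
  ext w
  constructor
  · rintro ⟨i, rfl⟩
    exact ⟨R.get i, List.get_mem R i, rfl⟩
  · rintro ⟨l, hl, rfl⟩
    obtain ⟨i, hi⟩ := List.mem_iff_get.1 hl
    refine ⟨i, ?_⟩
    rw [← hi]
    rfl

theorem alg_correct (e : Fin (Fintype.card K) ≃ K) (A : Matrix (Fin a) (Fin n) K)
    (hX : ∀ J : Finset (Fin n), X (List.ofFn fun i => decide (i ∈ J)) = true ↔
      LinearIndependent K fun j : J => fun i => A i j) (hk : 1 ≤ k)
    (hd : n = 0 ∨ DecA A k (range n)) (w : List Bool) (hw : w.length = n) (R : List (List ℕ))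
    (hR : R = algB (prmK e (3 * k + 1) (ncl K k)) k (rnd K k) (ncl K k) X w) :
    (∀ l ∈ R, l.length = n ∧ ∀ c ∈ l, c < Fintype.card K) ∧
    ∀ J : Finset (Fin n),
      (LinearIndependent K (fun j : J => fun i => outB e n R i j) ↔
        LinearIndependent K fun j : J => fun i => A i j) := by
  have hR' : R = rowsL (prmK e (3 * k + 1) (ncl K k))
      (fun T => rkD X (List.range n) T) (List.range n) k (rnd K k) (ncl K k) := by
    rw [hR]
    unfold algB
    rw [hw]
  obtain ⟨h1, h2⟩ := root e (rkD_spec A hX) hk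
    (hd.imp_right fun h => decA_dec A k _ h) (Rel := rowS A)
    (fun F hF => rkV_quoV (rowS A) F hF) R hR'
  refine ⟨fun l hl => h1 l hl, fun J => ?_⟩
  have hJ : (J.image fun j : Fin n => (j : ℕ)) ⊆ range n := by
    intro x hx
    obtain ⟨j, _, rfl⟩ := Finset.mem_image.1 hx
    exact Finset.mem_range.2 j.2
  rw [indep_iff_crk, indep_iff_crk, crk_eq_of_dual A (outB e n R) ?_ _ hJ]
  intro G hG
  rw [rowS_outB, h2 G hG, rkV_quoV (rowS A) G hG]

end Pool.Agent.BW
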