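import Pool.Agent.BW.Cod

set_option autoImplicit false

/-!
# Module MkE: the new entries

An entry is `(state, (interface vectors, relations))`. `EOK`: the lists have the right shape.

The `take` in `mkE` does nothing; the vectors are linear combinations (`lcL_cod`).
-/

namespace Pool.Agent.BW

open Finset Module

variable {K : Type} [Field K] [Fintype K] (e : Fin (Fintype.card K) ≃ K) {m s : ℕ}

/-- the entry has the right shape; `a` is the number of elements of the node -/
structure EOK (K : Type) [Field K] [Fintype K] (m n a : ℕ) (en : Entry) : Prop where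
  len : en.2.1.length = m
  vec : ∀ v ∈ en.2.1, VOK (Fintype.card K) n v
  rel : ∀ v ∈ en.2.2, VOK (Fintype.card K) n v
  cnt : en.2.2.length + Fintype.card K ^ (2 * m) ≤ a * (Fintype.card K ^ (2 * m) + 1)

variable {E : List ℕ} {en₁ en₂ : Entry} {a₁ a₂ σ : ℕ}

private theorem relC_len (g : Cfg K m) : (relC e g).length ≤ Fintype.card K ^ (2 * m) := by
  classical
  unfold relC
  rw [List.length_map, Finset.length_toList]
  refine (Finset.card_le_univ _).trans (le_of_eq ?_)
  rw [Fintype.card_prod, Fintype.card_fun, Fintype.card_fin, two_mul, pow_add]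

private theorem mem_relC (g : Cfg K m) (c : List ℕ) : c ∈ relC e g ↔ ∃ z ∈ g.1, codP e z = c := by
  classical
  unfold relC
  rw [List.mem_map]
  constructor
  · rintro ⟨z, hz, rfl⟩
    rw [Finset.mem_toList, Finset.mem_filter] at hz
    exact ⟨z, hz.2, rfl⟩
  · rintro ⟨z, hz, rfl⟩
    exact ⟨z, by rw [Finset.mem_toList, Finset.mem_filter]; exact ⟨Finset.mem_univ _, hz⟩, rfl⟩

private theorem codP_lt (z : (Fin m → K) × (Fin m → K)) : ∀ a ∈ codP e z, a < Fintype.card K := by
  intro a ha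
  unfold codP at ha
  rw [List.mem_append, List.mem_ofFn, List.mem_ofFn] at ha
  rcases ha with ⟨i, rfl⟩ | ⟨i, rfl⟩
  · exact cod_lt e _
  · exact cod_lt e _

private theorem new_rel (g : Cfg K m) (h1 : EOK K m E.length a₁ en₁) (h2 : EOK K m E.length a₂ en₂)
    (ha : a₁ + a₂ ≤ E.length) :
    (mkE (prmK e m s) E (en₁.2.1 ++ en₂.2.1) (en₁.2.2 ++ en₂.2.2)
      (σ, (relC e g, cofC e g))).2.2 = (en₁.2.2 ++ en₂.2.2) ++
        (relC e g).map (fun c => lcL (prmK e m s) E c (en₁.2.1 ++ en₂.2.1)) ∧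
      ((en₁.2.2 ++ en₂.2.2) ++
        (relC e g).map (fun c => lcL (prmK e m s) E c (en₁.2.1 ++ en₂.2.1))).length +
          Fintype.card K ^ (2 * m) ≤ (a₁ + a₂) * (Fintype.card K ^ (2 * m) + 1) := by
  have h3 := relC_len e g
  have h4 := h1.cnt
  have h5 := h2.cnt
  have h6 : ((en₁.2.2 ++ en₂.2.2) ++
        (relC e g).map (fun c => lcL (prmK e m s) E c (en₁.2.1 ++ en₂.2.1))).length +
          Fintype.card K ^ (2 * m) ≤ (a₁ + a₂) * (Fintype.card K ^ (2 * m) + 1) := by
    rw [List.length_append, List.length_append, List.length_map, add_mul]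
    omega
  refine ⟨?_, h6⟩
  have h7 : (E.flatMap fun _ => List.range (prmK e m s).cap).length =
      E.length * (Fintype.card K ^ (2 * m) + 1) := by
    rw [List.length_flatMap]
    simp only [List.length_range]
    rw [List.map_const', List.sum_replicate, smul_eq_mul]
    rfl
  have h8 : (a₁ + a₂) * (Fintype.card K ^ (2 * m) + 1) ≤
      E.length * (Fintype.card K ^ (2 * m) + 1) := Nat.mul_le_mul_right _ ha
  have h9 := (Nat.le_of_add_right_le h6).trans h8
  unfold mkE
  exact List.take_of_length_le (by rw [h7]; exact h9)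

private theorem eMap_apply (en : Entry) (n : ℕ) (x : Fin m → K) :
    eMap e n m en x = ∑ i : Fin m, x i • decV e n (en.2.1.getD (i : ℕ) []) := by
  unfold eMap
  rw [LinearMap.sum_apply]
  rfl

private theorem dec_lc (h1 : EOK K m E.length a₁ en₁) (h2 : EOK K m E.length a₂ en₂)
    (z : (Fin m → K) × (Fin m → K)) :
    decV e E.length (lcL (prmK e m s) E (codP e z) (en₁.2.1 ++ en₂.2.1)) =
      ((eMap e E.length m en₁).coprod (eMap e E.length m en₂)) z := by
  rw [lcL_cod e z h1.len h2.len h1.vec h2.vec, LinearMap.coprod_apply, eMap_apply, eMap_apply]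

private theorem vs_ok (h1 : EOK K m E.length a₁ en₁) (h2 : EOK K m E.length a₂ en₂) :
    ∀ v ∈ en₁.2.1 ++ en₂.2.1, VOK (Fintype.card K) E.length v := by
  intro v hv
  rcases List.mem_append.1 hv with h | h
  · exact h1.vec v h
  · exact h2.vec v h

theorem mkE_ok (g : Cfg K m) (h1 : EOK K m E.length a₁ en₁) (h2 : EOK K m E.length a₂ en₂)
    (ha : a₁ + a₂ ≤ E.length) :
    EOK K m E.length (a₁ + a₂) (mkE (prmK e m s) E (en₁.2.1 ++ en₂.2.1) (en₁.2.2 ++ en₂.2.2)
      (σ, (relC e g, cofC e g))) := by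
  obtain ⟨h3, h4⟩ := new_rel (s := s) (σ := σ) e g h1 h2 ha
  have hv := vs_ok h1 h2
  refine ⟨?_, ?_, ?_, ?_⟩
  · show ((cofC e g).map fun c => lcL (prmK e m s) E c (en₁.2.1 ++ en₂.2.1)).length = m
    unfold cofC
    rw [List.length_map, List.length_ofFn]
  · intro v hv1
    have hv2 : v ∈ (cofC e g).map fun c => lcL (prmK e m s) E c (en₁.2.1 ++ en₂.2.1) := hv1
    obtain ⟨c, hc, rfl⟩ := List.mem_map.1 hv2
    unfold cofC at hc
    rw [List.mem_ofFn] at hc
    obtain ⟨i, rfl⟩ := hc
    exact lcL_ok e (codP_lt e _) hv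
  · intro v hv1
    rw [h3] at hv1
    rcases List.mem_append.1 hv1 with h | h
    · rcases List.mem_append.1 h with h | h
      · exact h1.rel v h
      · exact h2.rel v h
    · obtain ⟨c, hc, rfl⟩ := List.mem_map.1 h
      obtain ⟨z, -, rfl⟩ := (mem_relC e g c).1 hc
      exact lcL_ok e (codP_lt e _) hv
  · rw [h3]
    exact h4

theorem mkE_rel (g : Cfg K m) (h1 : EOK K m E.length a₁ en₁) (h2 : EOK K m E.length a₂ en₂)
    (ha : a₁ + a₂ ≤ E.length) :
    eRel e E.length (mkE (prmK e m s) E (en₁.2.1 ++ en₂.2.1) (en₁.2.2 ++ en₂.2.2)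
      (σ, (relC e g, cofC e g))) =
      eRel e E.length en₁ ⊔ eRel e E.length en₂ ⊔
        Submodule.map ((eMap e E.length m en₁).coprod (eMap e E.length m en₂)) g.1 := by
  obtain ⟨h3, -⟩ := new_rel (s := s) (σ := σ) e g h1 h2 ha
  have h4 : Submodule.map ((eMap e E.length m en₁).coprod (eMap e E.length m en₂)) g.1 =
      Submodule.span K (((eMap e E.length m en₁).coprod (eMap e E.length m en₂)) '' (g.1 : Set _)) := by
    rw [Submodule.span_image, Submodule.span_eq]
  rw [h4]
  unfold eRel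
  rw [h3, ← Submodule.span_union, ← Submodule.span_union]
  congr 1
  ext v
  constructor
  · rintro ⟨l, hl, rfl⟩
    rcases List.mem_append.1 hl with h | h
    · rcases List.mem_append.1 h with h | h
      · exact Or.inl (Or.inl ⟨l, h, rfl⟩)
      · exact Or.inl (Or.inr ⟨l, h, rfl⟩)
    · obtain ⟨c, hc, rfl⟩ := List.mem_map.1 h
      obtain ⟨z, hz, rfl⟩ := (mem_relC e g c).1 hc
      exact Or.inr ⟨z, hz, (dec_lc e h1 h2 z).symm⟩
  · rintro ((⟨l, hl, rfl⟩ | ⟨l, hl, rfl⟩) | ⟨z, hz, rfl⟩)
    · exact ⟨l, List.mem_append_left _ (List.mem_append_left _ hl), rfl⟩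
    · exact ⟨l, List.mem_append_left _ (List.mem_append_right _ hl), rfl⟩
    · exact ⟨_, List.mem_append_right _ (List.mem_map.2 ⟨codP e z, (mem_relC e g _).2 ⟨z, hz, rfl⟩, rfl⟩),
        dec_lc e h1 h2 z⟩

theorem mkE_map (g : Cfg K m) (h1 : EOK K m E.length a₁ en₁) (h2 : EOK K m E.length a₂ en₂)
    (ha : a₁ + a₂ ≤ E.length) :
    eMap e E.length m (mkE (prmK e m s) E (en₁.2.1 ++ en₂.2.1) (en₁.2.2 ++ en₂.2.2)
      (σ, (relC e g, cofC e g))) =
      ((eMap e E.length m en₁).coprod (eMap e E.length m en₂)) ∘ₗ g.2 := by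
  have _ := ha
  apply LinearMap.ext
  intro x
  rw [eMap_apply, LinearMap.comp_apply]
  have hx : x = ∑ i : Fin m, x i • (Pi.single i (1 : K) : Fin m → K) := by
    funext j
    rw [Finset.sum_apply, Finset.sum_eq_single j]
    · rw [Pi.smul_apply, Pi.single_eq_same, smul_eq_mul, mul_one]
    · intro i _ hi
      rw [Pi.smul_apply, Pi.single_eq_of_ne (Ne.symm hi), smul_zero]
    · intro h
      exact absurd (Finset.mem_univ _) h
  have h3 : ((eMap e E.length m en₁).coprod (eMap e E.length m en₂)) (g.2 x) =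
      ∑ i : Fin m, x i • ((eMap e E.length m en₁).coprod (eMap e E.length m en₂))
        (g.2 (Pi.single i 1)) := by
    conv_lhs => rw [hx]
    rw [map_sum, map_sum]
    apply Finset.sum_congr rfl
    intro i _
    rw [map_smul, map_smul]
  rw [h3]
  apply Finset.sum_congr rfl
  intro i _
  congr 1
  rw [← dec_lc (s := s) e h1 h2]
  congr 1
  show ((cofC e g).map fun c => lcL (prmK e m s) E c (en₁.2.1 ++ en₂.2.1)).getD (i : ℕ) [] = _
  unfold cofC
  rw [List.getD_eq_getElem _ _ (by rw [List.length_map, List.length_ofFn]; exact i.2),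
    List.getElem_map, List.getElem_ofFn]

end Pool.Agent.BW
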