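import Pool.Agent.BW.Sub

set_option autoImplicit false

/-!
# Module OsM: splitting a set of large connectivity (Oum - Seymour), mathematics

Submodularity and a walk down a branch decomposition.
-/

namespace Pool.Agent.BW

open Finset
open Pool.Agent.G4 (IsRk lam dualR)

variable {r : Finset ℕ → ℤ} {E X Y Z B C₀ S : Finset ℕ} {k : ℕ}

theorem bdry_card (hr : IsRk r) (hX : X ⊆ E) (hC : C₀ ⊆ E \ X)
    (h1 : r (X ∪ C₀) = r X + (C₀.card : ℤ)) (h2 : r (X ∪ C₀) = r E) (hB : B ⊆ E \ X)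
    (h3 : r (C₀ ∪ B) = (C₀.card : ℤ) + (B.card : ℤ)) (h4 : r (C₀ ∪ B) = r (E \ X)) :
    (B.card : ℤ) = lam r E X := by
  unfold lam
  omega

theorem bdry_cut (hr : IsRk r) (hX : X ⊆ E) (hC : C₀ ⊆ E \ X)
    (h1 : r (X ∪ C₀) = r X + (C₀.card : ℤ)) (h2 : r (X ∪ C₀) = r E) (hB : B ⊆ E \ X)
    (h3 : r (C₀ ∪ B) = (C₀.card : ℤ) + (B.card : ℤ)) (h5 : Disjoint C₀ B) (hXY : X ⊆ Y)
    (hY : Y ⊆ E) : ((B \ Y).card : ℤ) ≤ lam r E Y := by
  have e1 : r (X ∪ (C₀ ∩ Y)) = r X + ((C₀ ∩ Y).card : ℤ) := indep_subset hr h1 inter_subset_left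
  have e2 : r (X ∪ (C₀ ∩ Y)) ≤ r Y := hr.mono' (union_subset hXY inter_subset_right)
  have e3 : r (∅ ∪ (C₀ ∪ B)) = r ∅ + (((C₀ ∪ B).card : ℕ) : ℤ) := by
    rw [empty_union, hr.empty, h3, card_union_of_disjoint h5]
    push_cast
    ring
  have e4 := indep_subset hr e3 (sdiff_subset : (C₀ ∪ B) \ Y ⊆ C₀ ∪ B)
  rw [empty_union, hr.empty, zero_add] at e4
  have e5 : r ((C₀ ∪ B) \ Y) ≤ r (E \ Y) := by
    refine hr.mono' (sdiff_subset_sdiff (union_subset ?_ ?_) subset_rfl)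
    · exact hC.trans sdiff_subset
    · exact hB.trans sdiff_subset
  have e6 : ((C₀ ∪ B) \ Y).card = (C₀ \ Y).card + (B \ Y).card := by
    rw [union_sdiff_distrib, card_union_of_disjoint]
    exact h5.mono sdiff_subset sdiff_subset
  have e7 : (C₀ ∩ Y).card + (C₀ \ Y).card = C₀.card := card_inter_add_card_sdiff C₀ Y
  unfold lam
  omega

theorem split_lt (hr : IsRk r) (hX : X ⊆ E) (hB : B ⊆ E \ X)
    (hP : ∀ Y, X ⊆ Y → Y ⊆ E → ((B \ Y).card : ℤ) ≤ lam r E Y) (hZ : Z ⊆ E)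
    (h1 : lam r E Z < ((B ∩ Z).card : ℤ)) (h2 : lam r E Z < ((B \ Z).card : ℤ)) :
    lam r E (X ∩ Z) < lam r E X ∧ lam r E (X \ Z) < lam r E X ∧ (X ∩ Z).Nonempty ∧
      (X \ Z).Nonempty := by
  have hBX : Disjoint B X := by
    rw [disjoint_left]
    intro a ha hx
    exact (mem_sdiff.1 (hB ha)).2 hx
  have hBE : B ⊆ E := hB.trans sdiff_subset
  have hEZ : lam r E (E \ Z) = lam r E Z := Pool.Agent.G4.lam_compl hZ
  have s1 := lam_sub hr hX hZ
  have s2 := lam_sub hr hX (sdiff_subset : E \ Z ⊆ E)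
  have p1 := hP (X ∪ Z) subset_union_left (union_subset hX hZ)
  have p2 := hP (X ∪ (E \ Z)) subset_union_left (union_subset hX sdiff_subset)
  have q1 : B \ (X ∪ Z) = B \ Z := by
    ext a
    rw [mem_sdiff, mem_sdiff, mem_union]
    constructor
    · rintro ⟨h, h'⟩
      exact ⟨h, fun hz => h' (Or.inr hz)⟩
    · rintro ⟨h, h'⟩
      exact ⟨h, fun hz => hz.elim (fun hx => (disjoint_left.1 hBX) h hx) h'⟩
  have q2 : B \ (X ∪ (E \ Z)) = B ∩ Z := by
    ext a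
    rw [mem_sdiff, mem_inter, mem_union, mem_sdiff]
    constructor
    · rintro ⟨h, h'⟩
      refine ⟨h, ?_⟩
      by_contra hz
      exact h' (Or.inr ⟨hBE h, hz⟩)
    · rintro ⟨h, h'⟩
      exact ⟨h, fun hz => hz.elim (fun hx => (disjoint_left.1 hBX) h hx) (fun hz => hz.2 h')⟩
  have q3 : B \ (E \ Z) = B ∩ Z := by
    ext a
    rw [mem_sdiff, mem_inter, mem_sdiff]
    constructor
    · rintro ⟨h, h'⟩
      refine ⟨h, ?_⟩
      by_contra hz
      exact h' ⟨hBE h, hz⟩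
    · rintro ⟨h, h'⟩
      exact ⟨h, fun hz => hz.2 h'⟩
  have q4 : X ∩ (E \ Z) = X \ Z := by
    ext a
    rw [mem_inter, mem_sdiff, mem_sdiff]
    constructor
    · rintro ⟨h, h'⟩
      exact ⟨h, h'.2⟩
    · rintro ⟨h, h'⟩
      exact ⟨h, hX h, h'⟩
  rw [q1] at p1
  rw [q2] at p2
  rw [hEZ, q4] at s2
  refine ⟨by omega, by omega, ?_, ?_⟩
  · rw [nonempty_iff_ne_empty]
    intro h0
    have hXZ : X ⊆ E \ Z := by
      intro a ha
      refine mem_sdiff.2 ⟨hX ha, fun hz => ?_⟩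
      have : a ∈ X ∩ Z := mem_inter.2 ⟨ha, hz⟩
      rw [h0] at this
      exact absurd this (notMem_empty a)
    have p3 := hP (E \ Z) hXZ sdiff_subset
    rw [q3, hEZ] at p3
    omega
  · rw [nonempty_iff_ne_empty]
    intro h0
    have p3 := hP Z (sdiff_eq_empty_iff_subset.1 h0) hZ
    omega

theorem exists_sep (hr : IsRk r) (hk : 1 ≤ k) (hD : Dec r E k E) (hS : S ⊆ E)
    (hc : S.card = 3 * k + 1) :
    ∃ Z ⊆ E, lam r E Z ≤ k ∧ k + 1 ≤ (S ∩ Z).card ∧ k + 1 ≤ (S \ Z).card := by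
  have key : ∀ A : Finset ℕ, Dec r E k A → k + 1 ≤ (S ∩ A).card →
      ∃ Z ⊆ A, lam r E Z ≤ k ∧ k + 1 ≤ (S ∩ Z).card ∧ (S ∩ Z).card ≤ 2 * k := by
    intro A hA
    induction hA with
    | single x hx hl =>
      intro h
      have h1 : (S ∩ {x}).card ≤ 1 := (card_le_card inter_subset_right).trans (card_singleton x).le
      omega
    | union A B hA hB hAB hl ihA ihB =>
      intro h
      by_cases h1 : k + 1 ≤ (S ∩ A).card
      · obtain ⟨Z, hZ, h2⟩ := ihA h1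
        exact ⟨Z, hZ.trans subset_union_left, h2⟩
      · by_cases h3 : k + 1 ≤ (S ∩ B).card
        · obtain ⟨Z, hZ, h2⟩ := ihB h3
          exact ⟨Z, hZ.trans subset_union_right, h2⟩
        · refine ⟨A ∪ B, subset_rfl, hl, h, ?_⟩
          rw [inter_union_distrib_left]
          have h4 := card_union_le (S ∩ A) (S ∩ B)
          omega
  have hSE : S ∩ E = S := inter_eq_left.2 hS
  obtain ⟨Z, hZ, h1, h2, h3⟩ := key E hD (by rw [hSE]; omega)
  refine ⟨Z, hZ, h1, h2, ?_⟩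
  have h4 : (S ∩ Z).card + (S \ Z).card = S.card := card_inter_add_card_sdiff S Z
  omega

end Pool.Agent.BW
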