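import Pool.Agent.BW.CutL
import Pool.Agent.BW.CutM
import Pool.Agent.BW.Grdy
import Pool.Agent.BW.OsM

set_option autoImplicit false

/-!
# Module OsL: splitting one set

`X` is a sublist of `E` with at least two elements and connectivity at most `3 k + 1`. If the
connectivity is smaller, one element is split off; if not, a cut of the boundary is used.
-/

namespace Pool.Agent.BW

open Finset
open Pool.Agent.G4 (IsRk lam dualR nor dif word prd)

private theorem toF_sub {E X : List ℕ} (h : X ⊆ E) : X.toFinset ⊆ E.toFinset :=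
  fun _ hx => List.mem_toFinset.2 (h (List.mem_toFinset.1 hx))

/-- the case of small connectivity -/
private theorem splt_small {E X : List ℕ} {r : Finset ℕ → ℤ} {k : ℕ} (hr : IsRk r)
    (hE : E.Nodup) (hk : 1 ≤ k) (hX : X.Sublist E) (h2 : 2 ≤ X.length)
    (hl : lam r E.toFinset X.toFinset ≤ 3 * k) :
    (X.take 1).Sublist X ∧ (X.drop 1).Sublist X ∧ X.take 1 ≠ [] ∧ X.drop 1 ≠ [] ∧
    Disjoint (X.take 1).toFinset (X.drop 1).toFinset ∧
    (X.take 1).toFinset ∪ (X.drop 1).toFinset = X.toFinset ∧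
    lam r E.toFinset (X.take 1).toFinset ≤ 3 * k + 1 ∧
    lam r E.toFinset (X.drop 1).toFinset ≤ 3 * k + 1 := by
  have hXn : X.Nodup := hE.sublist hX
  obtain _ | ⟨x, Y⟩ := X
  · simp at h2
  have e1 : (x :: Y).take 1 = [x] := rfl
  have e2 : (x :: Y).drop 1 = Y := rfl
  rw [e1, e2]
  have hxY : x ∉ Y := (List.nodup_cons.1 hXn).1
  have hY : Y ≠ [] := by
    rintro rfl
    simp at h2
  have e3 : [x].toFinset = {x} := rfl
  have hxE : (x :: Y).toFinset ⊆ E.toFinset := toF_sub hX.subset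
  have e4 : (x :: Y).toFinset.erase x = Y.toFinset := by
    rw [List.toFinset_cons, erase_insert]
    exact fun h => hxY (List.mem_toFinset.1 h)
  refine ⟨?_, List.sublist_cons_self x Y, by simp, hY, ?_, ?_, ?_, ?_⟩
  · exact List.Sublist.cons_cons x (List.nil_sublist Y)
  · rw [e3, disjoint_singleton_left]
    exact fun h => hxY (List.mem_toFinset.1 h)
  · rw [e3, List.toFinset_cons]
    rfl
  · have h1 := lam_le_card (E := E.toFinset) hr [x].toFinset
    rw [e3, card_singleton] at h1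
    rw [e3]
    push_cast at h1 ⊢
    omega
  · have h1 := lam_erase' (e := x) hr hxE (List.mem_toFinset.2 List.mem_cons_self)
    rw [e4] at h1
    omega

theorem splt_spec {E X : List ℕ} {r : Finset ℕ → ℤ} {ρ : List ℕ → ℕ} {k : ℕ} (hr : IsRk r)
    (hE : E.Nodup) (hρ : RkS ρ E r) (hk : 1 ≤ k) (hD : Dec r E.toFinset k E.toFinset)
    (hX : X.Sublist E) (h2 : 2 ≤ X.length) (hl : lam r E.toFinset X.toFinset ≤ 3 * k + 1) :
    (splt ρ E k X).1.Sublist X ∧ (splt ρ E k X).2.Sublist X ∧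
    (splt ρ E k X).1 ≠ [] ∧ (splt ρ E k X).2 ≠ [] ∧
    Disjoint (splt ρ E k X).1.toFinset (splt ρ E k X).2.toFinset ∧
    (splt ρ E k X).1.toFinset ∪ (splt ρ E k X).2.toFinset = X.toFinset ∧
    lam r E.toFinset (splt ρ E k X).1.toFinset ≤ 3 * k + 1 ∧
    lam r E.toFinset (splt ρ E k X).2.toFinset ≤ 3 * k + 1 := by
  have hXE : X ⊆ E := hX.subset
  have hlam := lamL_spec hr hρ hXE
  by_cases hc : lamL ρ E X ≤ 3 * k
  · have e : splt ρ E k X = (X.take 1, X.drop 1) := by
      unfold splt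
      rw [if_pos hc]
    rw [e]
    refine splt_small hr hE hk hX h2 ?_
    rw [← hlam]
    exact_mod_cast hc
  -- large connectivity
  have hlX : lam r E.toFinset X.toFinset = 3 * k + 1 := by
    push Not at hc
    have : (3 * k : ℤ) < (lamL ρ E X : ℤ) := by exact_mod_cast hc
    rw [hlam] at this
    omega
  obtain ⟨S, hS⟩ : ∃ S, S = bdry ρ E X := ⟨_, rfl⟩
  obtain ⟨hSs, C₀, hC₀, b1, b2, b3, b4, b5⟩ := bdry_spec hr hE hρ hX
  rw [← hS] at hSs b3 b4 b5
  have hSE : S.Sublist E := hSs.trans dif_sub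
  have hSX : S.toFinset ⊆ E.toFinset \ X.toFinset := by
    rw [← toF_dif]
    exact toF_sub hSs.subset
  have hXF : X.toFinset ⊆ E.toFinset := toF_sub hXE
  have hScard : S.toFinset.card = S.length := can_card hE hSE
  rw [← hScard] at b3
  have hSl : S.toFinset.card = 3 * k + 1 := by
    have h3 := bdry_card hr hXF hC₀ b1 b2 hSX b3 b4
    rw [hlX] at h3
    exact_mod_cast h3
  have hP : ∀ Y, X.toFinset ⊆ Y → Y ⊆ E.toFinset → ((S.toFinset \ Y).card : ℤ) ≤ lam r E.toFinset Y :=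
    fun Y h h' => bdry_cut hr hXF hC₀ b1 b2 hSX b3 b5 h h'
  -- properties of a cut
  have hcut : ∀ B₁ : List ℕ, B₁.Sublist S → IsCut r E.toFinset B₁.toFinset (dif S B₁).toFinset
      (linkI ρ E B₁ (dif S B₁)).toFinset (cutZ ρ E B₁ (dif S B₁)).toFinset := by
    intro B₁ hB₁
    refine cut_spec hr hE hρ (hB₁.trans hSE).subset (dif_sub.trans hSE).subset ?_
    rw [toF_dif]
    exact disjoint_sdiff
  have hclam : ∀ B₁ : List ℕ, (lamL ρ E (cutZ ρ E B₁ (dif S B₁)) : ℤ) =
      lam r E.toFinset (cutZ ρ E B₁ (dif S B₁)).toFinset :=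
    fun B₁ => lamL_spec hr hρ cutZ_sub.subset
  -- the list of candidates is not empty
  have hne : cands ρ E k X ≠ [] := by
    obtain ⟨Z₀, hZ₀, z1, z2, z3⟩ := exists_sep hr hk hD (toF_sub hSE.subset) hSl
    have hZc : ∃ T : List ℕ, T.Sublist E ∧ T.toFinset = Z₀ := exists_can hE Z₀ hZ₀
    obtain ⟨T, hT, hTZ⟩ := hZc
    have hB : (nor S T).Sublist S := nor_sub
    have hmem : nor S T ∈ subs (3 * k + 1) S := by
      refine mem_subs _ _ _ ?_ hB
      rw [← hScard, hSl]
    have e1 : (nor S T).toFinset = S.toFinset ∩ Z₀ := by rw [toF_nor, hTZ]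
    have e2 : (dif S (nor S T)).toFinset = S.toFinset \ Z₀ := by
      rw [toF_dif, e1, sdiff_inter_self_left]
    have h3 := IsCut.min (Y := Z₀) hr (hcut _ hB) (toF_sub (hB.trans hSE).subset)
      (toF_sub (dif_sub.trans hSE).subset) (by rw [e1]; exact inter_subset_right) hZ₀
      (by rw [e2]; exact disjoint_sdiff)
    rw [← hclam] at h3
    have h4 : lamL ρ E (cutZ ρ E (nor S T) (dif S (nor S T))) ≤ k := by
      exact_mod_cast h3.trans z1
    have h5 : (nor S T).length = (S.toFinset ∩ Z₀).card := by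
      rw [← e1, can_card hE (hB.trans hSE)]
    have h6 : (dif S (nor S T)).length = (S.toFinset \ Z₀).card := by
      rw [← e2, can_card hE (dif_sub.trans hSE)]
    have h7 : (nor S T, cutZ ρ E (nor S T) (dif S (nor S T))) ∈ cands ρ E k X := by
      unfold cands
      rw [← hS, List.mem_filter]
      refine ⟨List.mem_map.2 ⟨_, hmem, rfl⟩, ?_⟩
      rw [Bool.and_eq_true, decide_eq_true_iff, decide_eq_true_iff]
      exact ⟨by show lamL ρ E (cutZ ρ E (nor S T) (dif S (nor S T))) < (nor S T).length; omega,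
        by show lamL ρ E (cutZ ρ E (nor S T) (dif S (nor S T))) < (dif S (nor S T)).length; omega⟩
    exact List.ne_nil_of_mem h7
  obtain ⟨c, L, hcL⟩ := List.exists_cons_of_ne_nil hne
  have hcm : c ∈ cands ρ E k X := by rw [hcL]; exact List.mem_cons_self
  have e : splt ρ E k X = (nor X c.2, dif X c.2) := by
    unfold splt
    rw [if_neg hc, hcL]
    rfl
  rw [e]
  unfold cands at hcm
  rw [← hS, List.mem_filter] at hcm
  obtain ⟨hcm, hct⟩ := hcm
  obtain ⟨B₁, hB₁, rfl⟩ := List.mem_map.1 hcm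
  rw [Bool.and_eq_true, decide_eq_true_iff, decide_eq_true_iff] at hct
  have hB : B₁.Sublist S := subs_sub _ _ _ hB₁
  obtain ⟨Z, hZ⟩ : ∃ Z, Z = cutZ ρ E B₁ (dif S B₁) := ⟨_, rfl⟩
  have hc1 := hcut B₁ hB
  have hl1 := hclam B₁
  rw [← hZ] at hc1 hl1
  have hct' : lamL ρ E Z < B₁.length ∧ lamL ρ E Z < (dif S B₁).length := by
    rw [hZ]
    exact hct
  show (nor X (cutZ ρ E B₁ (dif S B₁))).Sublist X ∧ (dif X (cutZ ρ E B₁ (dif S B₁))).Sublist X ∧
    nor X (cutZ ρ E B₁ (dif S B₁)) ≠ [] ∧ dif X (cutZ ρ E B₁ (dif S B₁)) ≠ [] ∧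
    Disjoint (nor X (cutZ ρ E B₁ (dif S B₁))).toFinset (dif X (cutZ ρ E B₁ (dif S B₁))).toFinset ∧
    (nor X (cutZ ρ E B₁ (dif S B₁))).toFinset ∪ (dif X (cutZ ρ E B₁ (dif S B₁))).toFinset = X.toFinset ∧
    lam r E.toFinset (nor X (cutZ ρ E B₁ (dif S B₁))).toFinset ≤ 3 * k + 1 ∧
    lam r E.toFinset (dif X (cutZ ρ E B₁ (dif S B₁))).toFinset ≤ 3 * k + 1
  rw [← hZ]
  have hZE : Z.toFinset ⊆ E.toFinset := hc1.ZE
  have hBSf : B₁.toFinset ⊆ S.toFinset := toF_sub hB.subset
  have e1 : S.toFinset ∩ Z.toFinset = B₁.toFinset := by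
    apply Subset.antisymm
    · intro x hx
      rw [mem_inter] at hx
      by_contra hxB
      have h3 : x ∈ (dif S B₁).toFinset := by
        rw [toF_dif]
        exact mem_sdiff.2 ⟨hx.1, hxB⟩
      exact disjoint_left.1 hc1.ZB hx.2 h3
    · exact fun x hx => mem_inter.2 ⟨hBSf hx, hc1.AZ hx⟩
  have e2 : S.toFinset \ Z.toFinset = (dif S B₁).toFinset := by
    rw [toF_dif, ← e1, sdiff_inter_self_left]
  have h3 : lam r E.toFinset Z.toFinset < ((S.toFinset ∩ Z.toFinset).card : ℤ) := by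
    rw [e1, can_card hE (hB.trans hSE), ← hl1]
    exact_mod_cast hct'.1
  have h4 : lam r E.toFinset Z.toFinset < ((S.toFinset \ Z.toFinset).card : ℤ) := by
    rw [e2, can_card hE (dif_sub.trans hSE), ← hl1]
    exact_mod_cast hct'.2
  obtain ⟨s1, s2, s3, s4⟩ := split_lt hr hXF hSX hP hZE h3 h4
  rw [toF_nor, toF_dif]
  refine ⟨nor_sub, dif_sub, ?_, ?_, ?_, ?_, ?_, ?_⟩
  · intro h5
    rw [← toF_nor, h5] at s3
    simp at s3
  · intro h5
    rw [← toF_dif, h5] at s4
    simp at s4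
  · exact (disjoint_sdiff_inter X.toFinset Z.toFinset).symm
  · rw [union_comm]
    exact sdiff_union_inter X.toFinset Z.toFinset
  · omega
  · omega

end Pool.Agent.BW
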