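import Pool.Agent.BW.NewWid

set_option autoImplicit false

/-!
# Module Proj: the projection from the new family to the old one

The four types of members and the values of the projection; case analysis.
-/

namespace Pool.Agent.BW

open Finset
open Pool.Agent.G4 (IsRk lam dualR)

/-- `B` is a possible value of the projection at `U` -/
private def Ty (F : Finset (Finset ℕ)) (A C Z U B : Finset ℕ) : Prop :=
  B ∈ F ∧ ((U = B ∧ (¬ B ⊆ C ∨ B ⊆ A)) ∨ (U = B ∩ Z ∧ B ⊆ C ∧ ¬ B ∩ Z ⊆ A) ∨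
    (U = B \ Z ∧ B ⊆ C ∧ Disjoint B A ∧ (B \ Z).Nonempty) ∨
    (U = B ∪ Z ∧ A ⊆ B ∧ B ⊆ C ∧ ¬ B ⊆ Z))

private theorem touch {F : Finset (Finset ℕ)} {D : Finset ℕ} (h : Bin F D) {B B' : Finset ℕ}
    (hB : B ∈ F) (hB' : B' ∈ F) {x : ℕ} (h1 : x ∈ B) (h2 : x ∈ B') : B ⊆ B' ∨ B' ⊆ B := by
  rcases h.lmn B hB B' hB' with h3 | h3 | h3
  · exact Or.inl h3
  · exact Or.inr h3
  · exact absurd h2 (Finset.disjoint_left.1 h3 h1)

section

variable {r : Finset ℕ → ℤ} {E A C D Z : Finset ℕ} {F : Finset (Finset ℕ)}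

private theorem mem1 (h : Bin F D) {B : Finset ℕ} (hB : B ∈ F) (h1 : ¬ B ⊆ C ∨ B ⊆ A) :
    B ∈ newF F A C Z := by
  unfold newF
  rw [mem_erase]
  refine ⟨(h.ne B hB).ne_empty, ?_⟩
  rw [mem_union, mem_union, mem_union, mem_filter]
  exact Or.inl (Or.inl (Or.inl ⟨hB, h1⟩))

private theorem mem2 {B : Finset ℕ} (hB : B ∈ F) (h1 : B ⊆ C) (h2 : (B ∩ Z).Nonempty) :
    B ∩ Z ∈ newF F A C Z := by
  unfold newF
  rw [mem_erase]
  refine ⟨h2.ne_empty, ?_⟩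
  rw [mem_union, mem_union, mem_union]
  exact Or.inl (Or.inl (Or.inr (mem_image.2 ⟨B, mem_filter.2 ⟨hB, h1⟩, rfl⟩)))

private theorem mem3 {B : Finset ℕ} (hB : B ∈ F) (h1 : B ⊆ C) (h3 : Disjoint B A)
    (h2 : (B \ Z).Nonempty) : B \ Z ∈ newF F A C Z := by
  unfold newF
  rw [mem_erase]
  refine ⟨h2.ne_empty, ?_⟩
  rw [mem_union, mem_union, mem_union]
  exact Or.inl (Or.inr (mem_image.2 ⟨B, mem_filter.2 ⟨hB, h1, h3⟩, rfl⟩))

private theorem mem4 {B : Finset ℕ} (hB : B ∈ F) (h3 : A ⊆ B) (h1 : B ⊆ C)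
    (h2 : (B ∪ Z).Nonempty) : B ∪ Z ∈ newF F A C Z := by
  unfold newF
  rw [mem_erase]
  refine ⟨h2.ne_empty, ?_⟩
  rw [mem_union, mem_union, mem_union]
  exact Or.inr (mem_image.2 ⟨B, mem_filter.2 ⟨hB, h3, h1⟩, rfl⟩)

private theorem not_ZA (hA : A ∈ F) (hAC : A ⊆ C) (hZ : GoodZ r E F A C Z) : ¬ Z ⊆ A := by
  intro h1
  have h2 : Z = A := Subset.antisymm h1 hZ.AZ
  have h3 := hZ.lt A hA (Subset.refl A) hAC
  rw [h2] at h3
  exact lt_irrefl _ h3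

private theorem ex_ty (h : Bin F D) (hA : A ∈ F) (hC : C ∈ F) (hAC : A ⊆ C)
    (hZ : GoodZ r E F A C Z) {U : Finset ℕ} (hU : U ∈ newF F A C Z) : ∃ B, Ty F A C Z U B := by
  unfold newF at hU
  rw [mem_erase, mem_union, mem_union, mem_union, mem_filter, mem_image, mem_image, mem_image] at hU
  obtain ⟨hne, ((hU | ⟨B, hB, rfl⟩) | ⟨B, hB, rfl⟩) | ⟨B, hB, rfl⟩⟩ := hU
  · exact ⟨U, hU.1, Or.inl ⟨rfl, hU.2⟩⟩
  · rw [mem_filter] at hB
    by_cases h1 : B ∩ Z ⊆ A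
    · have h2 : B ∩ Z ∈ F := by
        rcases h.lmn B hB.1 A hA with h3 | h3 | h3
        · have h4 : B ∩ Z = B := inter_eq_left.2 (h3.trans hZ.AZ)
          rw [h4]
          exact hB.1
        · have h4 : B ∩ Z = A := Subset.antisymm h1 (subset_inter h3 hZ.AZ)
          rw [h4]
          exact hA
        · exfalso
          apply hne
          rw [eq_empty_iff_forall_notMem]
          intro x hx
          exact Finset.disjoint_left.1 h3 (mem_inter.1 hx).1 (h1 hx)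
      exact ⟨B ∩ Z, h2, Or.inl ⟨rfl, Or.inr h1⟩⟩
    · exact ⟨B, hB.1, Or.inr (Or.inl ⟨rfl, hB.2, h1⟩)⟩
  · rw [mem_filter] at hB
    exact ⟨B, hB.1, Or.inr (Or.inr (Or.inl ⟨rfl, hB.2.1, hB.2.2, nonempty_iff_ne_empty.2 hne⟩))⟩
  · rw [mem_filter] at hB
    by_cases h1 : B ⊆ Z
    · have h2 : B ∪ Z = C ∩ Z := by
        rw [union_eq_right.2 h1, inter_eq_right.2 hZ.ZC]
      refine ⟨C, hC, Or.inr (Or.inl ⟨h2, Subset.refl C, ?_⟩)⟩
      rw [inter_eq_right.2 hZ.ZC]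
      exact not_ZA hA hAC hZ
    · exact ⟨B, hB.1, Or.inr (Or.inr (Or.inr ⟨rfl, hB.2.1, hB.2.2, h1⟩))⟩

private theorem ty_ne (h : Bin F D) (hA : A ∈ F) (hZ : GoodZ r E F A C Z) {U B : Finset ℕ}
    (hU : Ty F A C Z U B) : U.Nonempty := by
  obtain ⟨hB, ⟨rfl, _⟩ | ⟨rfl, _, h1⟩ | ⟨rfl, _, _, h1⟩ | ⟨rfl, _⟩⟩ := hU
  · exact h.ne _ hB
  · rw [nonempty_iff_ne_empty]
    intro h2
    rw [h2] at h1
    exact h1 (empty_subset A)
  · exact h1
  · exact ((h.ne A hA).mono hZ.AZ).mono subset_union_right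

private theorem proj2 (hr : IsRk r) (h : Bin F D) (hD : D ⊆ E) (hA : A ∈ F) (hC : C ∈ F)
    (hAC : A ⊆ C) (hZ : GoodZ r E F A C Z) {U U' B B' : Finset ℕ} {t : ℤ}
    (hU : Ty F A C Z U B) (hU' : Ty F A C Z U' B') (he : U = U' → B = B')
    (ht : lam r E Z < t) (hUU : U ⊆ U')
    (H : ∀ V ∈ newF F A C Z, U ⊆ V → V ⊆ U' → t ≤ lam r E V) :
    B ⊆ B' ∧ ∀ B'' ∈ F, B ⊆ B'' → B'' ⊆ B' → t ≤ lam r E B'' := by
  have hCE : C ⊆ E := (h.sub C hC).trans hD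
  obtain ⟨a, ha⟩ := h.ne A hA
  have hZne : Z.Nonempty := ⟨a, hZ.AZ ha⟩
  have hZm : Z ∈ newF F A C Z := by
    have h1 : C ∩ Z = Z := inter_eq_right.2 hZ.ZC
    have h2 := mem2 (A := A) (Z := Z) hC (Subset.refl C) (by rw [h1]; exact hZne)
    rwa [h1] at h2
  have hno : U ⊆ Z → ¬ Z ⊆ U' := fun h1 h2 => absurd (H Z hZm h1 h2) (not_le.2 ht)
  have hUne : U.Nonempty := ty_ne h hA hZ hU
  have m1 : ∀ B'' ∈ F, (¬ B'' ⊆ C ∨ B'' ⊆ A) → U ⊆ B'' → B'' ⊆ U' → t ≤ lam r E B'' :=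
    fun B'' h1 h2 h3 h4 => H B'' (mem1 h h1 h2) h3 h4
  have m2 : ∀ B'' ∈ F, B'' ⊆ C → U ⊆ B'' ∩ Z → B'' ∩ Z ⊆ U' → t ≤ lam r E B'' :=
    fun B'' h1 h2 h3 h4 => (H _ (mem2 h1 h2 (hUne.mono h3)) h3 h4).trans
      (lam_inter_le hr hCE hZ.AZ hZ.ZC hZ.min h2)
  have m3 : ∀ B'' ∈ F, B'' ⊆ C → Disjoint B'' A → U ⊆ B'' \ Z → B'' \ Z ⊆ U' →
      t ≤ lam r E B'' :=
    fun B'' h1 h2 h5 h3 h4 => (H _ (mem3 h1 h2 h5 (hUne.mono h3)) h3 h4).trans
      (lam_diff_le hr hCE hZ.AZ hZ.ZC hZ.min h2 h5)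
  have m4 : ∀ B'' ∈ F, A ⊆ B'' → B'' ⊆ C → U ⊆ B'' ∪ Z → B'' ∪ Z ⊆ U' → t ≤ lam r E B'' :=
    fun B'' h1 h5 h2 h3 h4 => (H _ (mem4 h1 h5 h2 (hUne.mono h3)) h3 h4).trans
      (lam_union_le hr hCE hZ.AZ hZ.ZC hZ.min h2 h5)
  obtain ⟨x, hx⟩ := hUne
  have hx' := hUU hx
  obtain ⟨hB, hU⟩ := hU
  obtain ⟨hB', hU'⟩ := hU'
  rcases hU with ⟨rfl, h1 | h1⟩ | ⟨rfl, hBC, h1⟩ | ⟨rfl, hBC, hBA, h1⟩ | ⟨rfl, hAB, hBC, h1⟩
  · -- `U` is not contained in `C`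
    rcases hU' with ⟨rfl, -⟩ | ⟨rfl, h2, -⟩ | ⟨rfl, h2, -⟩ | ⟨rfl, -, h2, -⟩
    · exact ⟨hUU, fun B'' h3 h4 h5 => m1 B'' h3 (Or.inl fun h6 => h1 (h4.trans h6)) h4 h5⟩
    · exact absurd (hUU.trans (inter_subset_left.trans h2)) h1
    · exact absurd (hUU.trans (sdiff_subset.trans h2)) h1
    · exact absurd (hUU.trans (union_subset h2 hZ.ZC)) h1
  · -- `U` is contained in `A`
    rcases hU' with ⟨rfl, h2 | h2⟩ | ⟨rfl, h2, h3⟩ | ⟨rfl, -⟩ | ⟨rfl, -⟩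
    · exfalso
      rcases touch h hC hB' (hAC (h1 hx)) hx' with h3 | h3
      · exact hno (h1.trans hZ.AZ) (hZ.ZC.trans h3)
      · exact h2 h3
    · exact ⟨hUU, fun B'' h3 h4 h5 => m1 B'' h3 (Or.inr (h5.trans h2)) h4 h5⟩
    · have hxB := (mem_inter.1 hx').1
      have hAB : A ⊆ B' := by
        rcases touch h hA hB' (h1 hx) hxB with h4 | h4
        · exact h4
        · exact absurd (inter_subset_left.trans h4) h3
      refine ⟨h1.trans hAB, fun B'' h4 h5 h6 => ?_⟩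
      rcases touch h hA h4 (h1 hx) (h5 hx) with h7 | h7
      · exact m2 B'' h4 (h6.trans h2) (subset_inter h5 (h1.trans hZ.AZ))
          (inter_subset_inter h6 (Subset.refl Z))
      · exact m1 B'' h4 (Or.inr h7) h5 (subset_inter h6 (h7.trans hZ.AZ))
    · exact absurd (hZ.AZ (h1 hx)) (mem_sdiff.1 hx').2
    · exact absurd subset_union_right (hno (h1.trans hZ.AZ))
  · -- `U = B ∩ Z`
    obtain ⟨hxB, hxZ⟩ := mem_inter.1 hx
    rcases hU' with ⟨rfl, h2 | h2⟩ | ⟨rfl, h2, h3⟩ | ⟨rfl, -⟩ | ⟨rfl, -⟩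
    · exfalso
      rcases touch h hC hB' (hBC hxB) hx' with h3 | h3
      · exact hno inter_subset_right (hZ.ZC.trans h3)
      · exact h2 h3
    · exact absurd (hUU.trans h2) h1
    · have hBB : B ⊆ B' := by
        rcases touch h hB hB' hxB (mem_inter.1 hx').1 with h4 | h4
        · exact h4
        · exact (he (Subset.antisymm hUU (inter_subset_inter h4 (Subset.refl Z)))).subset
      exact ⟨hBB, fun B'' h4 h5 h6 => m2 B'' h4 (h6.trans h2)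
        (inter_subset_inter h5 (Subset.refl Z)) (inter_subset_inter h6 (Subset.refl Z))⟩
    · exact absurd hxZ (mem_sdiff.1 hx').2
    · exact absurd subset_union_right (hno inter_subset_right)
  · -- `U = B \ Z`
    obtain ⟨hxB, hxZ⟩ := mem_sdiff.1 hx
    have hxA : x ∉ A := fun h2 => hxZ (hZ.AZ h2)
    rcases hU' with ⟨rfl, h2 | h2⟩ | ⟨rfl, -⟩ | ⟨rfl, h2, h3, -⟩ | ⟨rfl, hAB', h2, h3⟩
    · have hCU : C ⊆ U' := by
        rcases touch h hC hB' (hBC hxB) hx' with h3 | h3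
        · exact h3
        · exact absurd h3 h2
      refine ⟨hBC.trans hCU, fun B'' h4 h5 h6 => ?_⟩
      by_cases h7 : B'' ⊆ C
      · rcases h.lmn B'' h4 A hA with h8 | h8 | h8
        · exact absurd (h8 (h5 hxB)) hxA
        · exact m4 B'' h4 h8 h7 ((sdiff_subset.trans h5).trans subset_union_left)
            ((union_subset h7 hZ.ZC).trans hCU)
        · exact m3 B'' h4 h7 h8 (sdiff_subset_sdiff h5 (Subset.refl Z)) (sdiff_subset.trans h6)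
      · exact m1 B'' h4 (Or.inl h7) (sdiff_subset.trans h5) h6
    · exact absurd (h2 hx') hxA
    · exact absurd (mem_inter.1 hx').2 hxZ
    · have hBB : B ⊆ B' := by
        rcases touch h hB hB' hxB (mem_sdiff.1 hx').1 with h4 | h4
        · exact h4
        · exact (he (Subset.antisymm hUU (sdiff_subset_sdiff h4 (Subset.refl Z)))).subset
      exact ⟨hBB, fun B'' h4 h5 h6 => m3 B'' h4 (h6.trans h2) (h3.mono_left h6)
        (sdiff_subset_sdiff h5 (Subset.refl Z)) (sdiff_subset_sdiff h6 (Subset.refl Z))⟩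
    · have hxB' : x ∈ B' := by
        rcases mem_union.1 hx' with h4 | h4
        · exact h4
        · exact absurd h4 hxZ
      have hBB : B ⊆ B' := by
        rcases touch h hB hB' hxB hxB' with h4 | h4
        · exact h4
        · exact absurd ha (Finset.disjoint_left.1 hBA (h4 (hAB' ha)))
      refine ⟨hBB, fun B'' h4 h5 h6 => ?_⟩
      rcases h.lmn B'' h4 A hA with h8 | h8 | h8
      · exact absurd (h8 (h5 hxB)) hxA
      · exact m4 B'' h4 h8 (h6.trans h2) ((sdiff_subset.trans h5).trans subset_union_left)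
          (union_subset_union h6 (Subset.refl Z))
      · exact m3 B'' h4 (h6.trans h2) h8 (sdiff_subset_sdiff h5 (Subset.refl Z))
          ((sdiff_subset.trans h6).trans subset_union_left)
  · -- `U = B ∪ Z`
    have haU : a ∈ U' := hUU (mem_union_left Z (hAB ha))
    rcases hU' with ⟨rfl, h2 | h2⟩ | ⟨rfl, -⟩ | ⟨rfl, -⟩ | ⟨rfl, hAB', h2, h3⟩
    · have hCU : C ⊆ U' := by
        rcases touch h hC hB' (hAC ha) haU with h3 | h3
        · exact h3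
        · exact absurd h3 h2
      refine ⟨hBC.trans hCU, fun B'' h4 h5 h6 => ?_⟩
      by_cases h7 : B'' ⊆ C
      · exact m4 B'' h4 (hAB.trans h5) h7 (union_subset_union h5 (Subset.refl Z))
          ((union_subset h7 hZ.ZC).trans hCU)
      · have hCB : C ⊆ B'' := by
          rcases touch h hC h4 (hAC ha) (h5 (hAB ha)) with h8 | h8
          · exact h8
          · exact absurd h8 h7
        exact m1 B'' h4 (Or.inl h7) ((union_subset hBC hZ.ZC).trans hCB) h6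
    · exact absurd ((subset_union_right.trans hUU).trans h2) (not_ZA hA hAC hZ)
    · exact absurd ((subset_union_left.trans hUU).trans inter_subset_right) h1
    · exact absurd (hZ.AZ ha) (mem_sdiff.1 haU).2
    · have hBB : B ⊆ B' := by
        rcases touch h hB hB' (hAB ha) (hAB' ha) with h4 | h4
        · exact h4
        · exact (he (Subset.antisymm hUU (union_subset_union h4 (Subset.refl Z)))).subset
      exact ⟨hBB, fun B'' h4 h5 h6 => m4 B'' h4 (hAB.trans h5) (h6.trans h2)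
        (union_subset_union h5 (Subset.refl Z)) (union_subset_union h6 (Subset.refl Z))⟩

private theorem one_only (hZ : GoodZ r E F A C Z) {U B : Finset ℕ} (hU : Ty F A C Z U B)
    (h1 : ¬ B ⊆ C ∨ B ⊆ A) : U = B := by
  obtain ⟨hB, ⟨rfl, _⟩ | ⟨rfl, h2, h3⟩ | ⟨rfl, h2, h3, h4⟩ | ⟨rfl, h2, h3, h4⟩⟩ := hU
  · rfl
  · rcases h1 with h1 | h1
    · exact absurd h2 h1
    · exact absurd (inter_subset_left.trans h1) h3
  · rcases h1 with h1 | h1
    · exact absurd h2 h1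
    · obtain ⟨x, hx⟩ := h4
      have h5 := (mem_sdiff.1 hx).1
      exact absurd (h1 h5) (Finset.disjoint_left.1 h3 h5)
  · rcases h1 with h1 | h1
    · exact absurd h3 h1
    · exact absurd (h1.trans hZ.AZ) h4

private theorem proj3 (hr : IsRk r) (h : Bin F D) (hD : D ⊆ E) (hA : A ∈ F) (hC : C ∈ F)
    (hZ : GoodZ r E F A C Z) {U U' V B : Finset ℕ}
    (hU : Ty F A C Z U B) (hU' : Ty F A C Z U' B) (hV : Ty F A C Z V B)
    (h1 : lam r E Z < lam r E U) (h2 : lam r E Z < lam r E U') (hne : U ≠ U') :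
    lam r E V < lam r E B := by
  have hCE : C ⊆ E := (h.sub C hC).trans hD
  obtain ⟨a, ha⟩ := h.ne A hA
  have hone : ¬ (¬ B ⊆ C ∨ B ⊆ A) := fun h3 =>
    hne ((one_only hZ hU h3).trans (one_only hZ hU' h3).symm)
  have hdis : Disjoint B A → ¬ A ⊆ B := fun h3 h4 => Finset.disjoint_left.1 h3 (h4 ha) ha
  have hcase1 : B ⊆ C → (B ∩ Z).Nonempty → (B \ Z).Nonempty → Disjoint B A →
      lam r E V < lam r E B := by
    intro h3 h4 h5 h6
    have h7 := hZ.red B hU.1 h3 h6 h4 h5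
    obtain ⟨-, ⟨-, h8⟩ | ⟨rfl, -⟩ | ⟨rfl, -⟩ | ⟨rfl, h8, -⟩⟩ := hV
    · exact absurd h8 hone
    · exact h7.1
    · exact h7.2
    · exact absurd h8 (hdis h6)
  have hcase2 : B ⊆ C → A ⊆ B → lam r E Z < lam r E (B ∩ Z) → lam r E Z < lam r E (B ∪ Z) →
      lam r E V < lam r E B := by
    intro h3 h4 h5 h6
    have h7 := lam_cap hr hCE hZ.ZC h3
    obtain ⟨-, ⟨-, h8⟩ | ⟨rfl, -⟩ | ⟨rfl, -, h8, -⟩ | ⟨rfl, -⟩⟩ := hV
    · exact absurd h8 hone
    · linarith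
    · exact absurd h4 (hdis h8)
    · linarith
  have hn2 : ∀ {W : Finset ℕ}, ¬ W ⊆ A → W.Nonempty := by
    intro W h3
    rw [nonempty_iff_ne_empty]
    rintro rfl
    exact h3 (empty_subset A)
  obtain ⟨-, ⟨-, h3⟩ | ⟨rfl, h3, h4⟩ | ⟨rfl, h3, h4, h5⟩ | ⟨rfl, h3, h4, h5⟩⟩ := hU
  · exact absurd h3 hone
  · obtain ⟨-, ⟨-, h6⟩ | ⟨rfl, -⟩ | ⟨rfl, h6, h7, h8⟩ | ⟨rfl, h6, h7, h8⟩⟩ := hU'
    · exact absurd h6 hone
    · exact absurd rfl hne
    · exact hcase1 h3 (hn2 h4) h8 h7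
    · exact hcase2 h3 h6 h1 h2
  · obtain ⟨-, ⟨-, h6⟩ | ⟨rfl, h6, h7⟩ | ⟨rfl, -⟩ | ⟨rfl, h6, h7, h8⟩⟩ := hU'
    · exact absurd h6 hone
    · exact hcase1 h3 (hn2 h7) h5 h4
    · exact absurd rfl hne
    · exact absurd h6 (hdis h4)
  · obtain ⟨-, ⟨-, h6⟩ | ⟨rfl, h6, h7⟩ | ⟨rfl, h6, h7, h8⟩ | ⟨rfl, -⟩⟩ := hU'
    · exact absurd h6 hone
    · exact hcase2 h4 h3 h2 h1
    · exact absurd h3 (hdis h7)
    · exact absurd rfl hne

end

theorem exists_proj {r : Finset ℕ → ℤ} {E A C D Z : Finset ℕ} {F : Finset (Finset ℕ)} (hr : IsRk r)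
    (h : Bin F D) (hD : D ⊆ E) (hA : A ∈ F) (hC : C ∈ F) (hAC : A ⊆ C)
    (hZ : GoodZ r E F A C Z) :
    ∃ π : Finset ℕ → Finset ℕ,
      (∀ U ∈ newF F A C Z, lam r E Z < lam r E U → π U ∈ F) ∧
      (∀ U ∈ newF F A C Z, ∀ U' ∈ newF F A C Z, ∀ t : ℤ, lam r E Z < t → U ⊆ U' →
        (∀ V ∈ newF F A C Z, U ⊆ V → V ⊆ U' → t ≤ lam r E V) →
        π U ⊆ π U' ∧ ∀ B ∈ F, π U ⊆ B → B ⊆ π U' → t ≤ lam r E B) ∧
      (∀ U ∈ newF F A C Z, ∀ U' ∈ newF F A C Z, lam r E Z < lam r E U → lam r E Z < lam r E U' →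
        U ≠ U' → π U = π U' →
        ∀ V ∈ newF F A C Z, lam r E Z < lam r E V → π V = π U → lam r E V < lam r E (π U)) ∧
      (∀ U ∈ newF F A C Z, lam r E Z < lam r E U → π U = A → U = A) ∧
      (∀ U ∈ newF F A C Z, lam r E Z < lam r E U → π U = C → U = C) := by
  classical
  obtain ⟨a, ha⟩ := h.ne A hA
  let π : Finset ℕ → Finset ℕ := fun U =>
    if h1 : ∃ B, Ty F A C Z U B then Classical.choose h1 else ∅
  have hπ : ∀ U ∈ newF F A C Z, Ty F A C Z U (π U) := by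
    intro U hU
    have h1 := ex_ty h hA hC hAC hZ hU
    have h2 : π U = Classical.choose h1 := dif_pos h1
    rw [h2]
    exact Classical.choose_spec h1
  refine ⟨π, ?_, ?_, ?_, ?_, ?_⟩
  · intro U hU _
    exact (hπ U hU).1
  · intro U hU U' hU' t ht hUU H
    exact proj2 hr h hD hA hC hAC hZ (hπ U hU) (hπ U' hU') (fun h1 => by rw [h1]) ht hUU H
  · intro U hU U' hU' h1 h2 hne he V hV h3 h4
    have h5 := hπ U' hU'
    rw [← he] at h5
    have h6 := hπ V hV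
    rw [h4] at h6
    exact proj3 hr h hD hA hC hZ (hπ U hU) h5 h6 h1 h2 hne
  · intro U hU h1 h2
    have h3 := hπ U hU
    rw [h2] at h3
    exact one_only hZ h3 (Or.inr (Subset.refl A))
  · intro U hU h1 h2
    have h3 := hπ U hU
    rw [h2] at h3
    obtain ⟨-, ⟨rfl, -⟩ | ⟨h4, -⟩ | ⟨-, -, h4, -⟩ | ⟨h4, -⟩⟩ := h3
    · rfl
    · rw [inter_eq_right.2 hZ.ZC] at h4
      rw [h4] at h1
      exact absurd h1 (lt_irrefl _)
    · exact absurd ha (Finset.disjoint_left.1 h4 (hAC ha))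
    · rw [h4, union_eq_left.2 hZ.ZC]

end Pool.Agent.BW
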