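import Pool.Agent.BW.Ind

set_option autoImplicit false

/-!
# Module Root: the output of the dynamic program

The relations of the first entry of the root of the decomposition: `adm_exists` for the whole ground set and
`ind_complete` show that there is an entry, `ind_sound` gives its properties. For `n = 0` the table is empty.
-/

namespace Pool.Agent.BW

open Finset Module
open Pool.Agent.G4 (IsRk lam dualR nor dif word prd)

private theorem root_range (n : ℕ) : (List.range n).toFinset = range n := by
  ext x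
  rw [List.mem_toFinset, List.mem_range, Finset.mem_range]

private theorem root_zero {K V : Type} [Field K] [Fintype K] [AddCommGroup V] [Module K V] {v : ℕ → V}
    {ρ : List ℕ → ℕ} {k : ℕ} (e : Fin (Fintype.card K) ≃ K) (R : List (List ℕ))
    (hR : R = rowsL (prmK e (3 * k + 1) (ncl K k)) ρ (List.range 0) k (rnd K k) (ncl K k)) :
    (∀ l ∈ R, VOK (Fintype.card K) 0 l) ∧
    ∀ G ⊆ range 0, (finrank K
        (KS K 0 G ⊔ Submodule.span K {w | ∃ l ∈ R, decV e 0 l = w} : Submodule K _) : ℤ) =
      rkV K v G + (finrank K (Submodule.span K {w | ∃ l ∈ R, decV e 0 l = w}) : ℤ) := by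
  have h0 : R = [] := by
    rw [hR]
    rfl
  rw [h0]
  refine ⟨fun l hl => absurd hl List.not_mem_nil, ?_⟩
  intro G hG
  have hG0 : G = ∅ := Finset.subset_empty.1 hG
  have h1 : rkV K v G = 0 := by
    rw [hG0]
    exact (isRk_rkV (K := K) v).1
  have h2 : ∀ T : Submodule K (Fin 0 → K), finrank K T = 0 := by
    intro T
    have h3 := Submodule.finrank_le T
    rw [Module.finrank_fin_fun] at h3
    omega
  rw [h1, h2, h2]
  rfl

private theorem root_pos {K V : Type} [Field K] [Fintype K] [AddCommGroup V] [Module K V] {v : ℕ → V}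
    {ρ : List ℕ → ℕ} {n k : ℕ} (e : Fin (Fintype.card K) ≃ K)
    (hρ : RkS ρ (List.range n) (rkV K v)) (hk : 1 ≤ k) (hn : 1 ≤ n)
    (hd : Dec (rkV K v) (range n) k (range n)) {Rel : Submodule K (Fin n → K)}
    (hr : ∀ F ⊆ range n, rkV K v F =
      (finrank K (KS K n F ⊔ Rel : Submodule K _) : ℤ) - finrank K Rel)
    (R : List (List ℕ))
    (hR : R = rowsL (prmK e (3 * k + 1) (ncl K k)) ρ (List.range n) k (rnd K k) (ncl K k)) :
    (∀ l ∈ R, VOK (Fintype.card K) n l) ∧
    ∀ G ⊆ range n, (finrank K
        (KS K n G ⊔ Submodule.span K {w | ∃ l ∈ R, decV e n l = w} : Submodule K _) : ℤ) =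
      rkV K v G + (finrank K (Submodule.span K {w | ∃ l ∈ R, decV e n l = w}) : ℤ) := by
  have hE : (List.range n).Nodup := List.nodup_range
  have hEF := root_range n
  have hrk := isRk_rkV (K := K) v
  have hl0 : lam (rkV K v) (range n) (range n) = 0 := by
    unfold lam
    rw [Finset.sdiff_self, hrk.1]
    ring
  have hne : List.range n ≠ [] := by
    intro h
    have h1 := congrArg List.length h
    rw [List.length_range, List.length_nil] at h1
    omega
  -- the root is a member of the decomposition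
  have hF := osFam_spec hrk hE hρ hk (by rw [hEF]; exact hd) (List.Sublist.refl _) hne
    (by rw [hEF, hl0]; positivity)
  have ht : List.range n ∈ osFam ρ (List.range n) k (List.range n) := by
    obtain ⟨B, hB, hBE⟩ := mem_famF.1 hF.bin.top
    have h1 : B = List.range n := can_ext hE (hF.sub B hB) (List.Sublist.refl _) hBE
    rw [h1] at hB
    exact hB
  -- there is an entry
  obtain ⟨σ, hσ⟩ := adm_exists (m := 3 * k + 1) (s := ncl K k)
    (clF K ρ (List.range n) k (List.range n)) (Finset.Subset.refl (range n)) hr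
    (by rw [hl0]; positivity)
  obtain ⟨en', hen', _⟩ := ind_complete e hρ hk hn hd hr _ ht σ (by rw [hEF]; exact hσ)
  obtain ⟨en, hen, hhd⟩ : ∃ en ∈ look (tb K e ρ n k) (List.range n),
      (look (tb K e ρ n k) (List.range n)).headD (0, ([], [])) = en := by
    obtain ⟨Q, hQ⟩ : ∃ Q, Q = look (tb K e ρ n k) (List.range n) := ⟨_, rfl⟩
    rw [← hQ] at hen' ⊢
    cases Q with
    | nil => exact absurd hen' List.not_mem_nil
    | cons a Q => exact ⟨a, List.mem_cons_self, rfl⟩
  have hRe : R = en.2.2 := by
    rw [hR, ← hhd]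
    rfl
  obtain ⟨h1, _, h3⟩ := ind_sound e hρ hk hn hd _ ht en hen
  rw [hRe]
  refine ⟨h1.rel, ?_⟩
  intro G hG
  exact h3.rk G (by rw [hEF]; exact hG)

theorem root {K V : Type} [Field K] [Fintype K] [AddCommGroup V] [Module K V] {v : ℕ → V}
    {ρ : List ℕ → ℕ} {n k : ℕ} (e : Fin (Fintype.card K) ≃ K)
    (hρ : RkS ρ (List.range n) (rkV K v)) (hk : 1 ≤ k)
    (hd : n = 0 ∨ Dec (rkV K v) (range n) k (range n)) {Rel : Submodule K (Fin n → K)}
    (hr : ∀ F ⊆ range n, rkV K v F =
      (finrank K (KS K n F ⊔ Rel : Submodule K _) : ℤ) - finrank K Rel)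
    (R : List (List ℕ))
    (hR : R = rowsL (prmK e (3 * k + 1) (ncl K k)) ρ (List.range n) k (rnd K k) (ncl K k)) :
    (∀ l ∈ R, VOK (Fintype.card K) n l) ∧
    ∀ G ⊆ range n, (finrank K
        (KS K n G ⊔ Submodule.span K {w | ∃ l ∈ R, decV e n l = w} : Submodule K _) : ℤ) =
      rkV K v G + (finrank K (Submodule.span K {w | ∃ l ∈ R, decV e n l = w}) : ℤ) := by
  rcases Nat.eq_zero_or_pos n with h0 | hn
  · subst h0
    exact root_zero e R hR
  · rcases hd with h | hd
    · omega
    · exact root_pos e hρ hk hn hd hr R hR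

end Pool.Agent.BW
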