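import Pool.Agent.BW.DimL

set_option autoImplicit false

/-!
# Module RowM: row space, column ranks, duality

`A : Matrix (Fin a) (Fin n) K`, `Row = Submodule.span K (Set.range A)` (rows), `crk A F`: the rank of
the columns in `F` (a finite set of natural numbers; only the elements `< n` matter).

* `crk_row`: the submatrix of the columns in `F` has rank `crk A F` (column rank) and also the
  dimension of the image of `Row` under the restriction to the coordinates in `F` (row rank, e.g.
  `Matrix.rank_eq_finrank_span_row`, `Matrix.rank_eq_finrank_span_cols`, or `Matrix.rank_transpose`);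
  the kernel of the restriction is `Row ⊓ KS (range n \ F)`.
* `crk_compl`: `finrank (KS G ⊔ Row) = |G| + finrank Row - finrank (KS G ⊓ Row)` (`ks_finrank`) and
  `crk_row` for `F = range n \ G`: `= |G| + crk (range n \ G)`; for `G = ∅`: `finrank Row = crk (range n)`.
* `indep_iff_crk`: the columns in `J` are linearly independent iff their rank is `|J|`
  (`linearIndependent_iff_card_eq_finrank_span`).
* `crk_congr`: two matrices with `finrank (KS G ⊔ Row) - finrank Row` equal to
  `|G| + f (range n \ G) - f (range n)` for the same `f` have the same column ranks: from `crk_compl`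
  with `G` and `G = range n`... (`crk (range n) = finrank Row`; `f ∅ = 0`).
-/

namespace Pool.Agent.BW

open Finset Module

variable {K : Type} [Field K] {a b n : ℕ}

/-- the rank of the columns in `F` -/
noncomputable def crk (A : Matrix (Fin a) (Fin n) K) (F : Finset ℕ) : ℤ :=
  (finrank K (Submodule.span K {w : Fin a → K | ∃ j : Fin n, (j : ℕ) ∈ F ∧ (fun i => A i j) = w}) : ℤ)

/-- the row space -/
def rowS (A : Matrix (Fin a) (Fin n) K) : Submodule K (Fin n → K) :=
  Submodule.span K (Set.range fun i => (A i : Fin n → K))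

private theorem map_ker {V W : Type} [AddCommGroup V] [Module K V] [FiniteDimensional K V] [AddCommGroup W] [Module K W]
    (f : V →ₗ[K] W) (R : Submodule K V) :
    finrank K (Submodule.map f R) + finrank K (R ⊓ LinearMap.ker f : Submodule K V) = finrank K R := by
  have h1 := LinearMap.finrank_range_add_finrank_ker (f ∘ₗ R.subtype)
  rw [LinearMap.range_comp, Submodule.range_subtype, LinearMap.ker_comp] at h1
  rw [← h1, ← Submodule.finrank_map_subtype_eq R (Submodule.comap R.subtype (LinearMap.ker f)),
    Submodule.map_comap_subtype]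

private theorem crk_cols (A : Matrix (Fin a) (Fin n) K) (F : Finset ℕ) :
    crk A F = (finrank K (Submodule.map (LinearMap.funLeft K K (fun j : {j : Fin n // (j : ℕ) ∈ F} => j.1))
      (rowS A)) : ℤ) := by
  have h1 : {w : Fin a → K | ∃ j : Fin n, (j : ℕ) ∈ F ∧ (fun i => A i j) = w} =
      Set.range (A.submatrix id (fun j : {j : Fin n // (j : ℕ) ∈ F} => j.1)).col := by
    ext w
    constructor
    · rintro ⟨j, hj, rfl⟩
      exact ⟨⟨j, hj⟩, rfl⟩
    · rintro ⟨⟨j, hj⟩, rfl⟩
      exact ⟨j, hj, rfl⟩
  have h2 : Submodule.map (LinearMap.funLeft K K (fun j : {j : Fin n // (j : ℕ) ∈ F} => j.1)) (rowS A) =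
      Submodule.span K (Set.range (A.submatrix id (fun j : {j : Fin n // (j : ℕ) ∈ F} => j.1)).row) := by
    unfold rowS
    rw [Submodule.map_span, ← Set.range_comp]
    rfl
  unfold crk
  rw [h1, h2, ← Matrix.rank_eq_finrank_span_cols, ← Matrix.rank_eq_finrank_span_row]

theorem crk_row (A : Matrix (Fin a) (Fin n) K) (F : Finset ℕ) (hF : F ⊆ range n) :
    crk A F = (finrank K (rowS A) : ℤ) -
      (finrank K (rowS A ⊓ KS K n (range n \ F) : Submodule K _) : ℤ) := by
  have h1 := map_ker (LinearMap.funLeft K K (fun j : {j : Fin n // (j : ℕ) ∈ F} => j.1)) (rowS A)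
  have h2 : LinearMap.ker (LinearMap.funLeft K K (fun j : {j : Fin n // (j : ℕ) ∈ F} => j.1)) =
      KS K n (range n \ F) := by
    ext x
    rw [LinearMap.mem_ker]
    constructor
    · intro h i hi
      have h3 : (i : ℕ) ∈ F := by
        by_contra hc
        exact hi (Finset.mem_sdiff.2 ⟨Finset.mem_range.2 i.2, hc⟩)
      exact congrFun h ⟨i, h3⟩
    · intro h
      funext j
      exact h j.1 (fun hc => (Finset.mem_sdiff.1 hc).2 j.2)
  rw [h2] at h1
  rw [crk_cols]
  omega

theorem crk_compl (A : Matrix (Fin a) (Fin n) K) (G : Finset ℕ) (hG : G ⊆ range n) :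
    (finrank K (KS K n G ⊔ rowS A : Submodule K _) : ℤ) =
      (G.card : ℤ) + crk A (range n \ G) := by
  have h1 := Submodule.finrank_sup_add_finrank_inf_eq (KS K n G) (rowS A)
  have h2 := crk_row A (range n \ G) Finset.sdiff_subset
  have h3 : range n \ (range n \ G) = G := Finset.sdiff_sdiff_eq_self hG
  rw [h3, inf_comm] at h2
  rw [ks_finrank hG] at h1
  omega

theorem crk_top (A : Matrix (Fin a) (Fin n) K) : crk A (range n) = (finrank K (rowS A) : ℤ) := by
  have h1 := crk_row A (range n) (Finset.Subset.refl _)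
  rw [Finset.sdiff_self, ks_empty, inf_bot_eq, finrank_bot] at h1
  rw [h1]
  simp

private theorem crk_empty (A : Matrix (Fin a) (Fin n) K) : crk A ∅ = 0 := by
  have h1 : {w : Fin a → K | ∃ j : Fin n, (j : ℕ) ∈ (∅ : Finset ℕ) ∧ (fun i => A i j) = w} = ∅ := by
    ext w
    constructor
    · rintro ⟨j, hj, _⟩
      exact absurd hj (Finset.notMem_empty _)
    · intro h
      exact absurd h (Set.notMem_empty _)
  unfold crk
  rw [h1, Submodule.span_empty, finrank_bot]
  rfl

theorem indep_iff_crk (A : Matrix (Fin a) (Fin n) K) (J : Finset (Fin n)) :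
    LinearIndependent K (fun j : J => fun i => A i j) ↔
      crk A (J.image fun j : Fin n => (j : ℕ)) = (J.card : ℤ) := by
  have h1 : {w : Fin a → K | ∃ j : Fin n, (j : ℕ) ∈ (J.image fun j : Fin n => (j : ℕ)) ∧ (fun i => A i j) = w} =
      Set.range (fun j : J => fun i => A i j) := by
    ext w
    constructor
    · rintro ⟨j, hj, rfl⟩
      obtain ⟨j', hj', h2⟩ := Finset.mem_image.1 hj
      have h3 : j' = j := Fin.ext h2
      exact ⟨⟨j, h3 ▸ hj'⟩, rfl⟩
    · rintro ⟨⟨j, hj⟩, rfl⟩
      exact ⟨j, Finset.mem_image.2 ⟨j, hj, rfl⟩, rfl⟩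
  rw [linearIndependent_iff_card_eq_finrank_span, Fintype.card_coe]
  unfold crk
  rw [h1, Nat.cast_inj]
  exact eq_comm

/-- if the quotient by the row space of `B` represents the dual of the matroid of `A`, then `B`
represents the matroid of `A` -/
theorem crk_eq_of_dual (A : Matrix (Fin a) (Fin n) K) (B : Matrix (Fin b) (Fin n) K)
    (h : ∀ G ⊆ range n, (finrank K (KS K n G ⊔ rowS B : Submodule K _) : ℤ) =
      ((finrank K (KS K n G ⊔ rowS A : Submodule K _) : ℤ) - finrank K (rowS A)) +
        finrank K (rowS B)) (F : Finset ℕ) (hF : F ⊆ range n) : crk B F = crk A F := by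
  have key : ∀ F ⊆ range n, crk B F = crk A F - crk A (range n) + crk B (range n) := by
    intro F hF
    have h1 := h (range n \ F) Finset.sdiff_subset
    rw [crk_compl B _ Finset.sdiff_subset, crk_compl A _ Finset.sdiff_subset, Finset.sdiff_sdiff_eq_self hF,
      ← crk_top, ← crk_top] at h1
    omega
  have h2 := key ∅ (Finset.empty_subset _)
  rw [crk_empty, crk_empty] at h2
  have h3 := key F hF
  omega

end Pool.Agent.BW
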