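import Pool.Agent.BW.Defs

set_option autoImplicit false

/-!
# Module Sub: submodularity of the connectivity function

`lam r E X = r X + r (E \ X) - r E`. Everything is elementary from `IsRk` (see
`Pool/Agent/G4/R1.lean` for `mono'`, `le_card`, `union_le`, `submod`, `lam_compl`, `lam_nonneg`).

* `lam_sub`: add `IsRk.sub` for `X, Y` and for `E \ X, E \ Y`
  (`(E \ X) ∪ (E \ Y) = E \ (X ∩ Y)`, `(E \ X) ∩ (E \ Y) = E \ (X ∪ Y)`).
* `lam_empty`, `lam_top`: `r ∅ = 0`.
* `lam_insert`: `r (insert e X) ≤ r X + 1`, `r (E \ insert e X) ≤ r (E \ X)`.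
* `lam_erase'`: for `e ∈ X`: `r (X.erase e) ≤ r X`, `E \ X.erase e = insert e (E \ X)`.
* `lam_le_card`: induction, or `r X ≤ |X|` and `r (E \ X) ≤ r E`.
* `indep_subset`: from `IsRk.union_le`: `r (A ∪ I) ≤ r (A ∪ J) + |I \ J|` and
  `r (A ∪ J) ≤ r A + |J|`.
* `rank_union_congr`: submodularity for `A ∪ S` and `B`: `(A ∪ S) ∩ B ⊇ A`.
-/

namespace Pool.Agent.BW

open Finset
open Pool.Agent.G4 (IsRk lam dualR)

variable {r : Finset ℕ → ℤ} {E X Y A B I J S : Finset ℕ} {e : ℕ}

theorem lam_sub (hr : IsRk r) (hX : X ⊆ E) (hY : Y ⊆ E) :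
    lam r E (X ∩ Y) + lam r E (X ∪ Y) ≤ lam r E X + lam r E Y := by
  unfold lam
  have h1 := hr.sub X Y
  have h2 := hr.sub (E \ X) (E \ Y)
  have e1 : (E \ X) ∪ (E \ Y) = E \ (X ∩ Y) := by
    ext x
    simp only [mem_sdiff, mem_union, mem_inter]
    tauto
  have e2 : (E \ X) ∩ (E \ Y) = E \ (X ∪ Y) := by
    ext x
    simp only [mem_sdiff, mem_union, mem_inter]
    tauto
  rw [e1, e2] at h2
  omega

theorem lam_empty (hr : IsRk r) : lam r E ∅ = 0 := by
  unfold lam
  rw [hr.empty, sdiff_empty]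
  omega

theorem lam_top (hr : IsRk r) : lam r E E = 0 := by
  unfold lam
  rw [Finset.sdiff_self, hr.empty]
  omega

theorem lam_insert (hr : IsRk r) (e : ℕ) : lam r E (insert e X) ≤ lam r E X + 1 := by
  unfold lam
  have h1 := hr.unit X e
  have h2 : r (E \ insert e X) ≤ r (E \ X) :=
    hr.mono' (sdiff_subset_sdiff (Subset.refl _) (subset_insert _ _))
  omega

theorem lam_erase' (hr : IsRk r) (hX : X ⊆ E) (he : e ∈ X) :
    lam r E (X.erase e) ≤ lam r E X + 1 := by
  unfold lam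
  have h1 : r (X.erase e) ≤ r X := hr.mono' (erase_subset _ _)
  have e1 : E \ X.erase e = insert e (E \ X) := by
    ext x
    simp only [mem_sdiff, mem_erase, mem_insert]
    constructor
    · rintro ⟨h1, h2⟩
      by_cases hx : x = e
      · exact Or.inl hx
      · exact Or.inr ⟨h1, fun h3 => h2 ⟨hx, h3⟩⟩
    · rintro (rfl | ⟨h1, h2⟩)
      · exact ⟨hX he, fun h3 => h3.1 rfl⟩
      · exact ⟨h1, fun h3 => h2 h3.2⟩
  have h2 := hr.unit (E \ X) e
  rw [e1]
  omega

theorem lam_le_card (hr : IsRk r) (X : Finset ℕ) : lam r E X ≤ (X.card : ℤ) := by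
  unfold lam
  have h1 := hr.le_card X
  have h2 : r (E \ X) ≤ r E := hr.mono' sdiff_subset
  omega

/-- subsets of independent sets are independent -/
theorem indep_subset (hr : IsRk r) (h : r (A ∪ I) = r A + (I.card : ℤ)) (hJ : J ⊆ I) :
    r (A ∪ J) = r A + (J.card : ℤ) := by
  have h1 := hr.union_le (A ∪ J) (I \ J)
  have h2 := hr.union_le A J
  rw [union_assoc, union_sdiff_of_subset hJ] at h1
  have h3 := card_sdiff_add_card_eq_card hJ
  omega

/-- a set spans the same after adding elements -/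
theorem rank_union_congr (hr : IsRk r) (hAB : A ⊆ B) (h : r A = r B) (S : Finset ℕ) :
    r (A ∪ S) = r (B ∪ S) := by
  have h1 : r (A ∪ S) ≤ r (B ∪ S) := hr.mono' (union_subset_union hAB (Subset.refl _))
  have h2 := hr.sub B (A ∪ S)
  have e1 : B ∪ (A ∪ S) = B ∪ S := by
    rw [← union_assoc, union_eq_left.2 hAB]
  have h3 : r A ≤ r (B ∩ (A ∪ S)) := hr.mono' (subset_inter hAB subset_union_left)
  rw [e1] at h2
  omega

end Pool.Agent.BW
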