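import Pool.Agent.BW.DpDefs
import Pool.Agent.BW.Can

set_option autoImplicit false

/-!
# Module Typ: the type of a node

`lst E F`: the finset `F` as a sublist of `E`. `clF ρ E k t F`: the class of the subset `F` of `t`.
-/

namespace Pool.Agent.BW

open Finset
open Pool.Agent.G4 (IsRk lam dualR nor dif word prd)

/-- the finset `F` as a list -/
def lst (E : List ℕ) (F : Finset ℕ) : List ℕ := E.filter fun e => decide (e ∈ F)

/-- the class of the subset `F` of the node `t` -/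
noncomputable def clF (K : Type) [Field K] (ρ : List ℕ → ℕ) (E : List ℕ) (k : ℕ) (t : List ℕ)
    (F : Finset ℕ) : ℕ :=
  clsN ρ E k (rnd K k) (ncl K k) t (lst E F)

private theorem sub_right {E X₁ X₂ F : Finset ℕ} (hE : X₁ ∪ X₂ ⊆ E) (hd : Disjoint X₁ X₂)
    (h : F ⊆ X₂) : F ⊆ E \ X₁ := by
  intro x hx
  rw [mem_sdiff]
  exact ⟨hE (mem_union_right _ (h hx)), fun h1 => disjoint_left.1 hd h1 (h hx)⟩

theorem eqv_union {r : Finset ℕ → ℤ} {E X₁ X₂ F₁ F₂ R₁ R₂ : Finset ℕ} (hE : X₁ ∪ X₂ ⊆ E)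
    (hd : Disjoint X₁ X₂) (h1 : F₁ ⊆ X₁) (h2 : F₂ ⊆ X₂) (h3 : R₁ ⊆ X₁) (h4 : R₂ ⊆ X₂)
    (h5 : Eqv r E X₁ F₁ R₁) (h6 : Eqv r E X₂ F₂ R₂) :
    Eqv r E (X₁ ∪ X₂) (F₁ ∪ F₂) (R₁ ∪ R₂) := by
  have hE' : X₂ ∪ X₁ ⊆ E := by rw [union_comm]; exact hE
  intro H hH
  have hH1 : H ⊆ E \ X₁ := hH.trans (sdiff_subset_sdiff (Subset.refl _) subset_union_left)
  have hH2 : H ⊆ E \ X₂ := hH.trans (sdiff_subset_sdiff (Subset.refl _) subset_union_right)
  have a1 := h5 (F₂ ∪ H) (union_subset (sub_right hE hd h2) hH1)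
  have a2 := h5 F₂ (sub_right hE hd h2)
  have a3 := h6 (R₁ ∪ H) (union_subset (sub_right hE' hd.symm h3) hH2)
  have a4 := h6 R₁ (sub_right hE' hd.symm h3)
  have e1 : F₁ ∪ (F₂ ∪ H) = F₁ ∪ F₂ ∪ H := (union_assoc _ _ _).symm
  have e2 : F₂ ∪ (R₁ ∪ H) = R₁ ∪ (F₂ ∪ H) := union_left_comm _ _ _
  have e3 : R₂ ∪ (R₁ ∪ H) = R₁ ∪ R₂ ∪ H := by rw [union_left_comm, union_assoc]
  have e4 : F₂ ∪ R₁ = R₁ ∪ F₂ := union_comm _ _
  have e5 : R₂ ∪ R₁ = R₁ ∪ R₂ := union_comm _ _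
  rw [e1] at a1
  rw [e2, e3] at a3
  rw [e4, e5] at a4
  omega

theorem defect_congr {r : Finset ℕ → ℤ} {E X₁ X₂ F₁ F₂ R₁ R₂ : Finset ℕ} (hE : X₁ ∪ X₂ ⊆ E)
    (hd : Disjoint X₁ X₂) (h1 : F₁ ⊆ X₁) (h2 : F₂ ⊆ X₂) (h3 : R₁ ⊆ X₁) (h4 : R₂ ⊆ X₂)
    (h5 : Eqv r E X₁ F₁ R₁) (h6 : Eqv r E X₂ F₂ R₂) :
    r F₁ + r F₂ - r (F₁ ∪ F₂) = r R₁ + r R₂ - r (R₁ ∪ R₂) := by
  have hE' : X₂ ∪ X₁ ⊆ E := by rw [union_comm]; exact hE
  have a2 := h5 F₂ (sub_right hE hd h2)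
  have a4 := h6 R₁ (sub_right hE' hd.symm h3)
  have e4 : F₂ ∪ R₁ = R₁ ∪ F₂ := union_comm _ _
  have e5 : R₂ ∪ R₁ = R₁ ∪ R₂ := union_comm _ _
  rw [e4, e5] at a4
  omega

private theorem lst_toF {E : List ℕ} {F : Finset ℕ} (h : F ⊆ E.toFinset) :
    (lst E F).toFinset = F := by
  ext x
  unfold lst
  rw [List.mem_toFinset, List.mem_filter]
  constructor
  · intro h1
    exact of_decide_eq_true h1.2
  · intro h1
    exact ⟨List.mem_toFinset.1 (h h1), decide_eq_true h1⟩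

private theorem lst_sub {E t : List ℕ} {F : Finset ℕ} (h : F ⊆ t.toFinset) : lst E F ⊆ t := by
  intro x hx
  unfold lst at hx
  rw [List.mem_filter] at hx
  exact List.mem_toFinset.1 (h (of_decide_eq_true hx.2))

private theorem toF_sub {E t : List ℕ} (ht : t.Sublist E) : t.toFinset ⊆ E.toFinset := by
  intro x hx
  rw [List.mem_toFinset] at hx ⊢
  exact ht.subset hx

private theorem defect_le {r : Finset ℕ → ℤ} (hr : IsRk r) {E X F₁ F₂ : Finset ℕ} (hX : X ⊆ E)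
    (h1 : F₁ ⊆ X) (h2 : F₂ ⊆ E \ X) : r F₁ + r F₂ - r (F₁ ∪ F₂) ≤ lam r E X := by
  have a1 := hr.submod h1 (X := F₂)
    (disjoint_left.2 fun x hx hx' => (mem_sdiff.1 (h2 hx)).2 hx')
  have a2 := hr.submod h2 (X := X) disjoint_sdiff
  have e1 : E \ X ∪ X = E := sdiff_union_of_subset hX
  have e2 : F₂ ∪ X = X ∪ F₂ := union_comm _ _
  rw [e1, e2] at a2
  unfold lam
  omega

private theorem union_le_add {r : Finset ℕ → ℤ} (hr : IsRk r) (A B : Finset ℕ) :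
    r (A ∪ B) ≤ r A + r B := by
  have h1 := hr.sub A B
  have h2 := hr.nonneg (A ∩ B)
  omega

variable {K V : Type} [Field K] [Finite K] [AddCommGroup V] [Module K V] {v : ℕ → V}
variable {E t : List ℕ} {p : List ℕ × List ℕ} {ρ : List ℕ → ℕ} {k : ℕ}

omit [Finite K] in
private theorem cast_def (hρ : RkS ρ E (rkV K v)) {F G : List ℕ} (hF : F ⊆ E) (hG : G ⊆ E) :
    ((ρ F + ρ G - ρ (F ++ G) : ℕ) : ℤ) =
      rkV K v F.toFinset + rkV K v G.toFinset - rkV K v (F.toFinset ∪ G.toFinset) := by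
  have h1 := hρ (F ++ G) (fun x hx => (List.mem_append.1 hx).elim (fun h => hF h) fun h => hG h)
  have h2 := hρ F (fun x hx => hF hx)
  have h3 := hρ G (fun x hx => hG hx)
  rw [List.toFinset_append] at h1
  have h4 := union_le_add (isRk_rkV (K := K) v) F.toFinset G.toFinset
  omega

theorem clF_lt (hE : E.Nodup) (hρ : RkS ρ E (rkV K v)) (hk : 1 ≤ k)
    (hd : Dec (rkV K v) E.toFinset k E.toFinset) (ht : t.Sublist E)
    (hl : lam (rkV K v) E.toFinset t.toFinset ≤ 3 * k + 1) (F : Finset ℕ) (hF : F ⊆ t.toFinset) :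
    clF K ρ E k t F < ncl K k :=
  lt_of_lt_of_le (clsN_rep hE hρ hk hd ht hl (lst_sub hF)).1 repN_length

private theorem getD_map {α β : Type} (f : α → β) (l : List α) {i : ℕ} (hi : i < l.length) (a : α)
    (b : β) : (l.map f).getD i b = f (l.getD i a) := by
  rw [List.getD_eq_getElem _ _ (by rw [List.length_map]; exact hi), List.getElem_map,
    List.getD_eq_getElem _ _ hi]

theorem typ_spec (hE : E.Nodup) (hρ : RkS ρ E (rkV K v)) (hk : 1 ≤ k)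
    (hd : Dec (rkV K v) E.toFinset k E.toFinset) (ht : t.Sublist E) (h1 : p.1.Sublist E)
    (h2 : p.2.Sublist E) (hdj : Disjoint p.1.toFinset p.2.toFinset)
    (hu : p.1.toFinset ∪ p.2.toFinset = t.toFinset)
    (hl : lam (rkV K v) E.toFinset t.toFinset ≤ 3 * k + 1)
    (hl₁ : lam (rkV K v) E.toFinset p.1.toFinset ≤ 3 * k + 1)
    (hl₂ : lam (rkV K v) E.toFinset p.2.toFinset ≤ 3 * k + 1) (F₁ F₂ : Finset ℕ)
    (hF₁ : F₁ ⊆ p.1.toFinset) (hF₂ : F₂ ⊆ p.2.toFinset) :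
    (lkT (typN ρ E k (rnd K k) (ncl K k) t p) (clF K ρ E k p.1 F₁) (clF K ρ E k p.2 F₂)).1 =
      clF K ρ E k t (F₁ ∪ F₂) ∧
    ((lkT (typN ρ E k (rnd K k) (ncl K k) t p)
      (clF K ρ E k p.1 F₁) (clF K ρ E k p.2 F₂)).2 : ℤ) =
      rkV K v F₁ + rkV K v F₂ - rkV K v (F₁ ∪ F₂) := by
  obtain ⟨c1, hc1⟩ : ∃ c, c = clF K ρ E k p.1 F₁ := ⟨_, rfl⟩
  obtain ⟨c2, hc2⟩ : ∃ c, c = clF K ρ E k p.2 F₂ := ⟨_, rfl⟩
  have b1 := clsN_rep hE hρ hk hd h1 hl₁ (F := lst E F₁) (lst_sub hF₁)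
  have b2 := clsN_rep hE hρ hk hd h2 hl₂ (F := lst E F₂) (lst_sub hF₂)
  have hF₁E : F₁ ⊆ E.toFinset := hF₁.trans (toF_sub h1)
  have hF₂E : F₂ ⊆ E.toFinset := hF₂.trans (toF_sub h2)
  rw [lst_toF hF₁E] at b1
  rw [lst_toF hF₂E] at b2
  change c1 = clsN ρ E k (rnd K k) (ncl K k) p.1 (lst E F₁) at hc1
  change c2 = clsN ρ E k (rnd K k) (ncl K k) p.2 (lst E F₂) at hc2
  have hr1 : clF K ρ E k p.1 F₁ = c1 := hc1.symm
  have hr2 : clF K ρ E k p.2 F₂ = c2 := hc2.symm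
  rw [← hc1] at b1
  rw [← hc2] at b2
  obtain ⟨R₁, hR₁⟩ : ∃ R, R = (repN ρ E k (rnd K k) (ncl K k) p.1).getD c1 [] := ⟨_, rfl⟩
  obtain ⟨R₂, hR₂⟩ : ∃ R, R = (repN ρ E k (rnd K k) (ncl K k) p.2).getD c2 [] := ⟨_, rfl⟩
  rw [← hR₁] at b1
  rw [← hR₂] at b2
  have m1 : R₁ ∈ repN ρ E k (rnd K k) (ncl K k) p.1 := by
    rw [hR₁, List.getD_eq_getElem _ _ b1.1]
    exact List.getElem_mem _
  have m2 : R₂ ∈ repN ρ E k (rnd K k) (ncl K k) p.2 := by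
    rw [hR₂, List.getD_eq_getElem _ _ b2.1]
    exact List.getElem_mem _
  have s1 := repN_sub hE hρ hk hd h1 hl₁ m1
  have s2 := repN_sub hE hρ hk hd h2 hl₂ m2
  have hlk : lkT (typN ρ E k (rnd K k) (ncl K k) t p) c1 c2 =
      (clsN ρ E k (rnd K k) (ncl K k) t (uni E R₁ R₂), ρ R₁ + ρ R₂ - ρ (R₁ ++ R₂)) := by
    unfold lkT typN
    rw [getD_map _ _ b1.1 [], ← hR₁, getD_map _ _ b2.1 [], ← hR₂]
  have hXE : p.1.toFinset ∪ p.2.toFinset ⊆ E.toFinset := by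
    rw [hu]
    exact toF_sub ht
  rw [hr1, hr2, hlk]
  constructor
  · show clsN ρ E k (rnd K k) (ncl K k) t (uni E R₁ R₂) =
      clsN ρ E k (rnd K k) (ncl K k) t (lst E (F₁ ∪ F₂))
    have hFu : F₁ ∪ F₂ ⊆ t.toFinset := by
      rw [← hu]
      exact union_subset_union hF₁ hF₂
    symm
    refine clsN_congr hE hρ hk hd ht hl (lst_sub hFu) ?_ ?_
    · intro x hx
      rw [mem_uni] at hx
      rw [← List.mem_toFinset, ← hu, mem_union]
      rcases hx.2 with h | h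
      · exact Or.inl (s1.2 (List.mem_toFinset.2 h))
      · exact Or.inr (s2.2 (List.mem_toFinset.2 h))
    · rw [lst_toF (hFu.trans (toF_sub ht)), toF_uni s1.1.subset s2.1.subset, ← hu]
      exact eqv_union hXE hdj hF₁ hF₂ s1.2 s2.2 b1.2 b2.2
  · show ((ρ R₁ + ρ R₂ - ρ (R₁ ++ R₂) : ℕ) : ℤ) = _
    rw [cast_def hρ s1.1.subset s2.1.subset]
    exact (defect_congr hXE hdj hF₁ hF₂ s1.2 s2.2 b1.2 b2.2).symm

theorem typ_ok (hE : E.Nodup) (hρ : RkS ρ E (rkV K v)) (hk : 1 ≤ k)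
    (hd : Dec (rkV K v) E.toFinset k E.toFinset) (ht : t.Sublist E) (h1 : p.1.Sublist E)
    (h2 : p.2.Sublist E) (hdj : Disjoint p.1.toFinset p.2.toFinset)
    (hu : p.1.toFinset ∪ p.2.toFinset = t.toFinset)
    (hl : lam (rkV K v) E.toFinset t.toFinset ≤ 3 * k + 1)
    (hl₁ : lam (rkV K v) E.toFinset p.1.toFinset ≤ 3 * k + 1)
    (hl₂ : lam (rkV K v) E.toFinset p.2.toFinset ≤ 3 * k + 1) (N a b : ℕ) (ha : a < N)
    (hb : b < N) :
    (typN ρ E k (rnd K k) (ncl K k) t p, (a, b)) ∈ okT (3 * k + 1) (ncl K k) N := by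
  refine ⟨⟨?_, ?_⟩, ha, hb⟩
  · show (typN ρ E k (rnd K k) (ncl K k) t p).length ≤ ncl K k
    unfold typN
    rw [List.length_map]
    exact repN_length
  · intro w hw
    change w ∈ typN ρ E k (rnd K k) (ncl K k) t p at hw
    unfold typN at hw
    obtain ⟨F₁, hF₁, rfl⟩ := List.mem_map.1 hw
    refine ⟨?_, ?_⟩
    · rw [List.length_map]
      exact repN_length
    · intro q hq
      obtain ⟨F₂, hF₂, rfl⟩ := List.mem_map.1 hq
      have s1 := repN_sub hE hρ hk hd h1 hl₁ hF₁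
      have s2 := repN_sub hE hρ hk hd h2 hl₂ hF₂
      refine ⟨?_, ?_⟩
      · refine lt_of_lt_of_le (clsN_rep hE hρ hk hd ht hl ?_).1 repN_length
        intro x hx
        rw [mem_uni] at hx
        rw [← List.mem_toFinset, ← hu, mem_union]
        rcases hx.2 with h | h
        · exact Or.inl (s1.2 (List.mem_toFinset.2 h))
        · exact Or.inr (s2.2 (List.mem_toFinset.2 h))
      · show ρ F₁ + ρ F₂ - ρ (F₁ ++ F₂) ≤ 3 * k + 1
        have hXE : p.1.toFinset ∪ p.2.toFinset ⊆ E.toFinset := by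
          rw [hu]
          exact toF_sub ht
        have h3 := cast_def hρ s1.1.subset s2.1.subset
        have h4 := defect_le (isRk_rkV (K := K) v) (toF_sub h1) s1.2 (sub_right hXE hdj s2.2)
        omega

end Pool.Agent.BW
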