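import Pool.Agent.BW.Alg
import Pool.Agent.G4.UPTab
import Pool.Agent.Helper47.TR.FPx

set_option autoImplicit false

/-!
# Module UA: polynomial time of the simple list functions
-/

namespace Pool.Agent.BW

open Turing Function N487b59b3 N68a2faeb Pool.Agent.Helper22 Pool.Agent.Helper49.Cons
open Pool.Agent.Helper6.WB
open Computability (encodeNat)
open Pool.Agent.G4 (nor dif word prd UP foldl_take_ind sz_le_length_mul sz_le_of_mem)

section

variable {α : Type} [N487b59b3 α]

/-- one step of the subtraction: borrow bit, rests, digits of the result -/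
private def subStep (s : AddSt) : AddSt :=
  ((!s.2.1.headD false && s.2.2.1.headD false) || (!s.2.1.headD false && s.1) ||
      (s.2.2.1.headD false && s.1),
    (s.2.1.tail, (s.2.2.1.tail,
      ((s.1 == (s.2.1.headD false == s.2.2.1.headD false)) :: s.2.2.2))))

private theorem val_head_tail (x : List Bool) : val x = (x.headD false).toNat + 2 * val x.tail := by
  cases x with
  | nil => rfl
  | cons b x => simp [Nat.bit_val]; ring

private theorem subStep_inv (s : AddSt) :
    (hor 0 (subStep s).2.2.2 : ℤ) + 2 ^ (subStep s).2.2.2.length *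
      ((val (subStep s).2.1 : ℤ) - val (subStep s).2.2.1 - ((subStep s).1.toNat : ℤ)) =
    (hor 0 s.2.2.2 : ℤ) + 2 ^ s.2.2.2.length *
      ((val s.2.1 : ℤ) - val s.2.2.1 - (s.1.toNat : ℤ)) := by
  obtain ⟨c, x, y, o⟩ := s
  simp only [subStep]
  rw [val_head_tail x, val_head_tail y, hor_cons, List.length_cons, pow_succ]
  generalize x.headD false = p
  generalize y.headD false = q
  cases c <;> cases p <;> cases q <;> simp <;> ring

private theorem subStep_iter (n : ℕ) (s : AddSt) :
    (hor 0 (subStep^[n] s).2.2.2 : ℤ) + 2 ^ (subStep^[n] s).2.2.2.length *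
      ((val (subStep^[n] s).2.1 : ℤ) - val (subStep^[n] s).2.2.1 -
        ((subStep^[n] s).1.toNat : ℤ)) =
    (hor 0 s.2.2.2 : ℤ) + 2 ^ s.2.2.2.length *
      ((val s.2.1 : ℤ) - val s.2.2.1 - (s.1.toNat : ℤ)) := by
  induction n with
  | zero => rfl
  | succ n ih => rw [Function.iterate_succ_apply', subStep_inv, ih]

private theorem subStep_iter' (n : ℕ) (s : AddSt) :
    (subStep^[n] s).2.1 = s.2.1.drop n ∧ (subStep^[n] s).2.2.1 = s.2.2.1.drop n ∧
      (subStep^[n] s).2.2.2.length = n + s.2.2.2.length := by
  induction n with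
  | zero => exact ⟨rfl, rfl, by simp⟩
  | succ n ih =>
    obtain ⟨h1, h2, h3⟩ := ih
    rw [Function.iterate_succ_apply']
    refine ⟨?_, ?_, ?_⟩
    · simp only [subStep]
      rw [h1, List.tail_drop]
    · simp only [subStep]
      rw [h2, List.tail_drop]
    · simp only [subStep, List.length_cons]
      omega

private theorem subStep_final (x y : List Bool) (n : ℕ) (hx : x.length ≤ n) (hy : y.length ≤ n)
    (hxy : val y ≤ val x) :
    hor 0 (subStep^[n] (false, (x, (y, [])))).2.2.2 = val x - val y := by
  have h1 := subStep_iter n (false, (x, (y, [])))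
  obtain ⟨h2, h3, h4⟩ := subStep_iter' n (false, (x, (y, [])))
  simp only [List.length_nil, add_zero] at h4
  have h5 : (subStep^[n] (false, (x, (y, [])))).2.1 = [] := by
    rw [h2]; exact List.drop_eq_nil_of_le hx
  have h6 : (subStep^[n] (false, (x, (y, [])))).2.2.1 = [] := by
    rw [h3]; exact List.drop_eq_nil_of_le hy
  have h7 := hor_lt (subStep^[n] (false, (x, (y, [])))).2.2.2
  rw [h4] at h7
  rw [h5, h6, h4] at h1
  have h9 : hor 0 ([] : List Bool) = 0 := rfl
  simp only [val_nil, h9, List.length_nil, pow_zero, one_mul, Bool.toNat_false] at h1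
  have h7' : (hor 0 (subStep^[n] (false, (x, (y, [])))).2.2.2 : ℤ) < 2 ^ n := by exact_mod_cast h7
  have hxy' : (val y : ℤ) ≤ val x := by exact_mod_cast hxy
  cases hb : (subStep^[n] (false, (x, (y, [])))).1 with
  | true =>
    rw [hb] at h1
    simp only [Bool.toNat_true] at h1
    push_cast at h1
    linarith
  | false =>
    rw [hb] at h1
    simp only [Bool.toNat_false] at h1
    push_cast at h1
    have h8 : (hor 0 (subStep^[n] (false, (x, (y, [])))).2.2.2 : ℤ) = val x - val y := by linarith
    omega

private theorem fp_subStep : FP subStep := by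
  unfold subStep
  fun_prop

private theorem fp_natSub_aux {f g : α → ℕ} (hf : FP f) (hg : FP g) :
    FP fun a => hor 0 (subStep^[(encodeNat (f a) ++ encodeNat (g a)).length]
      (false, (encodeNat (f a), (encodeNat (g a), [])))).2.2.2 := by
  have h1 : FP fun p : List Bool × AddSt => subStep^[p.1.length] p.2 := by
    refine FP.iterate fp_subStep (B := fun n => 10 * n + 20) (by fun_prop) ?_
    intro l a i hi
    obtain ⟨h2, h3, h4⟩ := subStep_iter' i a
    have h5 := sz_drop a.2.1 i
    have h6 := sz_drop a.2.2.1 i
    obtain ⟨c, x, y, o⟩ := a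
    rcases hq : subStep^[i] (c, x, y, o) with ⟨c', x', y', o'⟩
    rw [hq] at h2 h3 h4
    simp only at h2 h3 h4 h5 h6
    rw [← h2] at h5
    rw [← h3] at h6
    have h7 := length_le_sz l
    simp only [sz_pair, sz_bool, sz_bits] at *
    omega
  have h2 : FP fun a => (encodeNat (f a) ++ encodeNat (g a)) := ((FP.bits hf).append (FP.bits hg))
  have h3 := h1.comp (h2.pair (FP.pair (FP.const false) (FP.pair (FP.bits hf)
    (FP.pair (FP.bits hg) (FP.const ([] : List Bool))))))
  exact FP.canon h3.snd'.snd'.snd'

@[fun_prop]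
theorem fp_natSub {f g : α → ℕ} (hf : FP f) (hg : FP g) : FP fun x => f x - g x := by
  have h1 := FP.ite (Pool.Agent.Helper47.TR.FP.natLe hf hg) (FP.const (α := α) 0)
    (fp_natSub_aux hf hg)
  refine (congrArg FP (funext fun a => ?_)).mp h1
  by_cases h : f a ≤ g a
  · rw [if_pos (by simpa using h)]
    omega
  · rw [if_neg (by simpa using h), subStep_final _ _ _ (by simp) (by simp)
      (by rw [val_encodeNat, val_encodeNat]; omega), val_encodeNat, val_encodeNat]

@[fun_prop]
theorem fp_natLt {f g : α → ℕ} (hf : FP f) (hg : FP g) : FP fun x => decide (f x < g x) := by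
  have h1 := FP.not (Pool.Agent.Helper47.TR.FP.natLe hg hf)
  refine (congrArg FP (funext fun x => ?_)).mp h1
  rw [Bool.eq_iff_iff]
  simp

@[fun_prop]
theorem fp_uni {E A B : α → List ℕ} (hE : FP E) (hA : FP A) (hB : FP B) :
    FP fun x => uni (E x) (A x) (B x) := by
  unfold uni; fun_prop

@[fun_prop]
theorem fp_leB {A B : α → List ℕ} (hA : FP A) (hB : FP B) : FP fun x => leB (A x) (B x) := by
  unfold leB; fun_prop

@[fun_prop]
theorem fp_djB {A B : α → List ℕ} (hA : FP A) (hB : FP B) : FP fun x => djB (A x) (B x) := by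
  unfold djB; fun_prop

@[fun_prop]
theorem fp_rmv {A : α → List ℕ} {u : α → ℕ} (hA : FP A) (hu : FP u) :
    FP fun x => rmv (A x) (u x) := by
  unfold rmv; fun_prop

@[fun_prop]
theorem fp_heads {L : α → List (List ℕ)} (hL : FP L) : FP fun x => heads (L x) := by
  unfold heads; fun_prop

@[fun_prop]
theorem fp_subs (m : ℕ) {l : α → List ℕ} (hl : FP l) : FP fun x => subs m (l x) := by
  induction m generalizing l with
  | zero =>
    have h1 : FP fun _ : α => ([[]] : List (List ℕ)) := FP.const _
    exact h1
  | succ m ih =>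
    have h1 : FP fun x => subs m (l x).tail := ih (by fun_prop)
    have h2 : FP fun x => subs m (l x).tail ++ (subs m (l x).tail).map fun s => (l x).take 1 ++ s := by
      fun_prop
    exact h2

@[fun_prop]
theorem fp_mids {F : α → List (List ℕ)} {A C : α → List ℕ} (hF : FP F) (hA : FP A) (hC : FP C) :
    FP fun x => mids (F x) (A x) (C x) := by
  unfold mids; fun_prop

@[fun_prop]
theorem fp_ddp {l : α → List (List ℕ)} (hl : FP l) : FP fun x => ddp (l x) := by
  have h : FP fun l : List (List ℕ) => ddp l := by
    refine Pool.Agent.G4.FP.foldA (g := fun (_ : List (List ℕ)) (s : List (List ℕ)) x => if x ∈ s then s else s ++ [x])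
      (by fun_prop) (B := fun n => n * (2 * n + 1)) (by fun_prop) (by fun_prop) (FP.const [])
      fun l i hi => ?_
    have h1 := foldl_take_ind (l := l) (x := ([] : List (List ℕ)))
      (g := fun (s : List (List ℕ)) x => if x ∈ s then s else s ++ [x])
      (P := fun i s => s.length ≤ i ∧ ∀ x ∈ s, x ∈ l) ⟨le_rfl, by simp⟩ (by
        intro i s b hb hs
        split_ifs
        · exact ⟨hs.1.trans (Nat.le_succ i), hs.2⟩
        · refine ⟨by rw [List.length_append, List.length_singleton]; exact Nat.succ_le_succ hs.1, ?_⟩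
          intro x hx
          rcases List.mem_append.1 hx with hx | hx
          · exact hs.2 x hx
          · rw [List.mem_singleton.1 hx]
            exact hb) i hi
    refine (sz_le_length_mul (C := sz l) fun b hb => ?_).trans (Nat.mul_le_mul_right _ ?_)
    · have h2 := sz_le_of_mem (h1.2 b hb)
      omega
    · have h3 := length_le_sz l
      exact (h1.1.trans hi).trans h3
  exact h.comp hl

@[fun_prop]
theorem fp_newL {F : α → List (List ℕ)} {E A C Z : α → List ℕ} (hE : FP E) (hF : FP F)
    (hA : FP A) (hC : FP C) (hZ : FP Z) : FP fun x => newL (E x) (F x) (A x) (C x) (Z x) := by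
  unfold newL; fun_prop

@[fun_prop]
theorem fp_newFam {F : α → List (List ℕ)} {E A C Z : α → List ℕ} (hE : FP E) (hF : FP F)
    (hA : FP A) (hC : FP C) (hZ : FP Z) : FP fun x => newFam (E x) (F x) (A x) (C x) (Z x) := by
  unfold newFam; fun_prop

@[fun_prop]
theorem fp_fuel (m : ℕ) {E : α → List ℕ} (hE : FP E) : FP fun x => fuel m (E x) := by
  have h1 : FP fun x => un (E x).length ++ un (E x).length := by fun_prop
  have h2 : FP fun x => un ((un (E x).length ++ un (E x).length).length *
      (un (E x).length ++ un (E x).length).length) ++ un 1 :=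
    (FP.unMul h1 h1).append (FP.const _)
  have h3 : ∀ k : ℕ, FP fun x =>
      un ((((E x).length + (E x).length) * ((E x).length + (E x).length) + 1) ^ k) := by
    intro k
    induction k with
    | zero =>
      have h4 : FP fun _ : α => un 1 := FP.const _
      refine (congrArg FP (funext fun x => ?_)).mp h4
      rw [pow_zero]
    | succ k ih =>
      refine (congrArg FP (funext fun x => ?_)).mp (FP.unMul ih h2)
      rw [un_length, List.length_append, un_length, un_length, List.length_append, un_length, pow_succ]
  exact h3 (m + 1)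

@[fun_prop]
theorem fp_chl {F : α → List (List ℕ)} {E A : α → List ℕ} (hE : FP E) (hF : FP F) (hA : FP A) :
    FP fun x => chl (E x) (F x) (A x) := by
  unfold chl; fun_prop

end

end Pool.Agent.BW
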