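import Pool.Agent.BW.UA

set_option autoImplicit false

/-!
# Module UB: the rank functions are polynomial with an oracle
-/

namespace Pool.Agent.BW

open Turing Function N487b59b3 N68a2faeb Pool.Agent.Helper22 Pool.Agent.Helper49.Cons
open Pool.Agent.Helper6.WB
open Pool.Agent.G4 (nor dif word prd UP)

section

variable {α : Type} [N487b59b3 α] {E T : Oracle → α → List ℕ}

private theorem ub_greedy : UP fun X (q : List ℕ × List ℕ) =>
    q.2.foldl (fun I e => if X (word q.1 (I ++ [e])) then I ++ [e] else I) ([] : List ℕ) := by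
  have h1 : UP fun X (p : (List ℕ × List ℕ) × (List ℕ × ℕ)) =>
      if X (word p.1.1 (p.2.1 ++ [p.2.2])) then p.2.1 ++ [p.2.2] else p.2.1 :=
    UP.ite (UP.ask' (UP.of_FP (by fun_prop))) (UP.of_FP (by fun_prop)) (UP.of_FP (by fun_prop))
  refine UP.foldA (g := fun X (q : List ℕ × List ℕ) (T : List ℕ) (e : ℕ) =>
    if X (word q.1 (T ++ [e])) then T ++ [e] else T) (l := fun _ q => q.2) (x := fun _ _ => []) h1
    (B := fun n => n * (2 * n + 1)) (by fun_prop) (UP.of_FP FP.snd) (UP.const [])
    fun X q i hi => ?_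
  obtain ⟨E, l⟩ := q
  dsimp only at hi ⊢
  have h0 : sz l ≤ sz (E, l) := by
    rw [sz_pair]
    omega
  have h2 := Pool.Agent.G4.foldl_take_ind (P := fun i s => sz s ≤ i * (2 * sz (E, l) + 1))
    (g := fun (T : List ℕ) (e : ℕ) => if X (word E (T ++ [e])) then T ++ [e] else T) (l := l)
    (x := []) (by simp) (by
      intro i s e he hs
      have h3 := sz_mem_le he
      have h5 : (i + 1) * (2 * sz (E, l) + 1) = i * (2 * sz (E, l) + 1) + (2 * sz (E, l) + 1) := by
        ring
      split
      · rw [sz_append, sz_cons, sz_nil]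
        omega
      · omega) i hi
  exact h2.trans (Nat.mul_le_mul_right _ (hi.trans ((length_le_sz l).trans h0)))

theorem up_rkX (hE : UP E) (hT : UP T) : UP fun X x => rkX X (E X x) (T X x) := by
  have h1 : UP fun X x => (E X x, nor (E X x) (T X x)) :=
    UP.pair hE (UP.fp2 (h := nor) (by fun_prop) hE hT)
  exact UP.fp (g := fun l : List ℕ => l.length) (by fun_prop) (ub_greedy.comp h1)

theorem up_rkD (hE : UP E) (hT : UP T) : UP fun X x => rkD X (E X x) (T X x) := by
  have h1 : UP fun X x => (nor (E X x) (T X x)).length :=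
    UP.fp2 (h := fun a b => (nor a b).length) (by fun_prop) hE hT
  have h2 : UP fun X x => rkX X (E X x) (dif (E X x) (T X x)) :=
    up_rkX hE (UP.fp2 (h := dif) (by fun_prop) hE hT)
  exact UP.fp2 (h := fun a b => a - b) (by fun_prop)
    (UP.fp2 (h := fun a b => a + b) (by fun_prop) h1 h2) (up_rkX hE hE)

theorem up_lamL (hE : UP E) (hT : UP T) :
    UP fun X x => lamL (fun T => rkD X (E X x) T) (E X x) (T X x) := by
  have h2 : UP fun X x => rkD X (E X x) (dif (E X x) (T X x)) :=
    up_rkD hE (UP.fp2 (h := dif) (by fun_prop) hE hT)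
  exact UP.fp2 (h := fun a b => a - b) (by fun_prop)
    (UP.fp2 (h := fun a b => a + b) (by fun_prop) (up_rkD hE hT) h2) (up_rkD hE hE)

end

end Pool.Agent.BW
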