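import Pool.Agent.BW.UB

set_option autoImplicit false

/-!
# Module UC: matroid intersection is polynomial, breadth first search

Closure properties of `UP`; every path has at most `i + 1` elements after `i` rounds.
-/

namespace Pool.Agent.BW

open Turing Function N487b59b3 N68a2faeb Pool.Agent.Helper22 Pool.Agent.Helper49.Cons
open Pool.Agent.Helper6.WB
open Pool.Agent.G4 (nor dif word prd UP)

section

variable {α : Type} [N487b59b3 α] {E A B N I : Oracle → α → List ℕ} {u v : Oracle → α → ℕ}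

theorem up_freeB (hE : UP E) (hA : UP A) (hI : UP I) (hu : UP u) :
    UP fun X x => freeB (fun T => rkD X (E X x) T) (A X x) (I X x) (u X x) := by
  have h1 : UP fun X x => decide (u X x ∈ I X x) :=
    UP.fp2 (h := fun (a : ℕ) (l : List ℕ) => decide (a ∈ l)) (by fun_prop) hu hI
  have h0 : UP fun X x => A X x ++ I X x :=
    UP.fp2 (h := fun (a b : List ℕ) => a ++ b) (by fun_prop) hA hI
  have h2 : UP fun X x => rkD X (E X x) (A X x ++ I X x) := up_rkD hE h0
  have h3 : UP fun X x => rkD X (E X x) (u X x :: (A X x ++ I X x)) :=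
    up_rkD hE (UP.fp2 (h := fun (a : ℕ) (b : List ℕ) => a :: b) (by fun_prop) hu h0)
  have h4 : UP fun X x => decide (rkD X (E X x) (A X x ++ I X x) <
      rkD X (E X x) (u X x :: (A X x ++ I X x))) :=
    UP.fp2 (h := fun (a b : ℕ) => decide (a < b)) (by fun_prop) h2 h3
  exact (h1.not.and h4).congr fun X x => rfl

theorem up_edgeB (hE : UP E) (hA : UP A) (hB : UP B) (hI : UP I) (hu : UP u) (hv : UP v) :
    UP fun X x => edgeB (fun T => rkD X (E X x) T) (A X x) (B X x) (I X x) (u X x) (v X x) := by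
  have hmem : ∀ {w : Oracle → α → ℕ}, UP w → UP fun X x => decide (w X x ∈ I X x) := fun hw =>
    UP.fp2 (h := fun (a : ℕ) (l : List ℕ) => decide (a ∈ l)) (by fun_prop) hw hI
  have happ : ∀ {C D : Oracle → α → List ℕ}, UP C → UP D → UP fun X x => C X x ++ D X x :=
    fun hC hD => UP.fp2 (h := fun (a b : List ℕ) => a ++ b) (by fun_prop) hC hD
  have hrmv : ∀ {w : Oracle → α → ℕ}, UP w → UP fun X x => rmv (I X x) (w X x) := fun hw =>
    UP.fp2 (h := fun (l : List ℕ) (a : ℕ) => rmv l a) (by fun_prop) hI hw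
  have hcons : ∀ {w : Oracle → α → ℕ} {C : Oracle → α → List ℕ}, UP w → UP C →
      UP fun X x => w X x :: C X x := fun hw hC =>
    UP.fp2 (h := fun (a : ℕ) (b : List ℕ) => a :: b) (by fun_prop) hw hC
  have heq : ∀ {C D : Oracle → α → List ℕ}, UP C → UP D →
      UP fun X x => decide (rkD X (E X x) (C X x) = rkD X (E X x) (D X x)) := fun hC hD =>
    UP.fp2 (h := fun (a b : ℕ) => decide (a = b)) (by fun_prop) (up_rkD hE hC) (up_rkD hE hD)
  have h1 := (hmem hv).not.and (heq (hcons hv (happ hA (hrmv hu))) (happ hA hI))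
  have h2 := (hmem hv).and (heq (hcons hu (happ hB (hrmv hv))) (happ hB hI))
  refine (UP.ite (hmem hu) h1 h2).congr fun X x => ?_
  unfold edgeB
  by_cases h : u X x ∈ I X x
  · rw [if_pos h, if_pos (decide_eq_true h)]
  · rw [if_neg h, if_neg (by rw [decide_eq_true_eq]; exact h)]

private theorem uc_step (hE : UP E) (hA : UP A) (hB : UP B) (hN : UP N) (hI : UP I) :
    UP fun X (p : α × List (List ℕ)) => bfsStep (edgeB (fun T => rkD X (E X p.1) T) (A X p.1)
      (B X p.1) (I X p.1)) (N X p.1) p.2 := by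
  have hNp : UP fun X (p : α × List (List ℕ)) => N X p.1 :=
    hN.pre (f := fun p : α × List (List ℕ) => p.1) (by fun_prop)
  have h1 : UP fun X (p : α × List (List ℕ)) =>
      (N X p.1).filter fun v => !(p.2.any fun q => decide (q.headD 0 = v)) :=
    UP.filterA (h := fun _ (p : α × List (List ℕ)) (v : ℕ) =>
      !(p.2.any fun q => decide (q.headD 0 = v))) (UP.of_FP (by fun_prop)) hNp
  have h2 : UP fun X (t : ((α × List (List ℕ)) × ℕ) × List ℕ) =>
      edgeB (fun T => rkD X (E X t.1.1.1) T) (A X t.1.1.1) (B X t.1.1.1) (I X t.1.1.1)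
        (t.2.headD 0) t.1.2 :=
    up_edgeB (E := fun X (t : ((α × List (List ℕ)) × ℕ) × List ℕ) => E X t.1.1.1)
      (A := fun X t => A X t.1.1.1) (B := fun X t => B X t.1.1.1) (I := fun X t => I X t.1.1.1)
      (u := fun _ t => t.2.headD 0) (v := fun _ t => t.1.2)
      (hE.pre (f := fun t : ((α × List (List ℕ)) × ℕ) × List ℕ => t.1.1.1) (by fun_prop))
      (hA.pre (f := fun t : ((α × List (List ℕ)) × ℕ) × List ℕ => t.1.1.1) (by fun_prop))
      (hB.pre (f := fun t : ((α × List (List ℕ)) × ℕ) × List ℕ => t.1.1.1) (by fun_prop))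
      (hI.pre (f := fun t : ((α × List (List ℕ)) × ℕ) × List ℕ => t.1.1.1) (by fun_prop))
      (UP.of_FP (by fun_prop)) (UP.of_FP (by fun_prop))
  have h3 : UP fun X (s : (α × List (List ℕ)) × ℕ) => s.1.2.filter fun q =>
      edgeB (fun T => rkD X (E X s.1.1) T) (A X s.1.1) (B X s.1.1) (I X s.1.1) (q.headD 0) s.2 :=
    UP.filterA (h := fun X (s : (α × List (List ℕ)) × ℕ) (q : List ℕ) =>
      edgeB (fun T => rkD X (E X s.1.1) T) (A X s.1.1) (B X s.1.1) (I X s.1.1) (q.headD 0) s.2)
      h2 (UP.of_FP (f := fun s : (α × List (List ℕ)) × ℕ => s.1.2) (by fun_prop))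
  have h4 : UP fun X (s : (α × List (List ℕ)) × ℕ) => (s.1.2.filter fun q =>
      edgeB (fun T => rkD X (E X s.1.1) T) (A X s.1.1) (B X s.1.1) (I X s.1.1) (q.headD 0) s.2).take 1 :=
    UP.fp (g := fun l : List (List ℕ) => l.take 1) (by fun_prop) h3
  have h5 : UP fun X (s : (α × List (List ℕ)) × ℕ) => ((s.1.2.filter fun q =>
      edgeB (fun T => rkD X (E X s.1.1) T) (A X s.1.1) (B X s.1.1) (I X s.1.1) (q.headD 0)
        s.2).take 1).map fun q => s.2 :: q :=
    UP.mapA (h := fun _ (s : (α × List (List ℕ)) × ℕ) (q : List ℕ) => s.2 :: q)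
      (UP.of_FP (by fun_prop)) h4
  have h6 := UP.flatMap_ctx (h := fun X (s : α × List (List ℕ)) (v : ℕ) => ((s.2.filter fun q =>
      edgeB (fun T => rkD X (E X s.1) T) (A X s.1) (B X s.1) (I X s.1) (q.headD 0)
        v).take 1).map fun q => v :: q) h5 (c := fun _ (p : α × List (List ℕ)) => p) UP.id h1
  have h7 := UP.fp2 (h := fun (a b : List (List ℕ)) => a ++ b) (by fun_prop)
    (UP.of_FP (f := fun p : α × List (List ℕ) => p.2) (by fun_prop)) h6
  have h8 : FP fun p : List (List ℕ) × List ℕ => p.1.take p.2.length :=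
    FP.take (by fun_prop) (by fun_prop)
  have h9 := UP.fp2 (h := fun (a : List (List ℕ)) (n : List ℕ) => a.take n.length) h8 h7 hNp
  exact h9.congr fun X p => rfl

private theorem uc_inv (edge : ℕ → ℕ → Bool) (src : ℕ → Bool) (Nl : List ℕ) (i : ℕ) :
    ((bfsStep edge Nl)^[i] ((Nl.filter fun v => src v).map fun v => [v])).length ≤ Nl.length ∧
    ∀ p ∈ (bfsStep edge Nl)^[i] ((Nl.filter fun v => src v).map fun v => [v]),
      p.length ≤ i + 1 ∧ ∀ e ∈ p, e ∈ Nl := by
  refine Pool.Agent.G4.iterate_ind (P := fun (i : ℕ) (L : List (List ℕ)) => L.length ≤ Nl.length ∧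
    ∀ p ∈ L, p.length ≤ i + 1 ∧ ∀ e ∈ p, e ∈ Nl) ?_ ?_ i
  · refine ⟨?_, ?_⟩
    · rw [List.length_map]
      exact List.length_filter_le _ _
    · intro p hp
      rw [List.mem_map] at hp
      obtain ⟨v, hv, rfl⟩ := hp
      refine ⟨le_rfl, fun e he => ?_⟩
      rw [List.mem_singleton] at he
      rw [he]
      exact (List.mem_filter.mp hv).1
  · rintro i L ⟨_, h2⟩
    unfold bfsStep
    refine ⟨?_, ?_⟩
    · rw [List.length_take]
      exact min_le_left _ _
    · intro p hp
      have hp1 := List.mem_of_mem_take hp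
      rw [List.mem_append, List.mem_flatMap] at hp1
      rcases hp1 with hp1 | ⟨v, hv, hp1⟩
      · obtain ⟨h3, h4⟩ := h2 p hp1
        exact ⟨h3.trans (Nat.le_succ _), h4⟩
      · rw [List.mem_map] at hp1
        obtain ⟨q, hq, rfl⟩ := hp1
        have hq1 := (List.mem_filter.mp (List.mem_of_mem_take hq)).1
        obtain ⟨h3, h4⟩ := h2 q hq1
        refine ⟨by rw [List.length_cons]; omega, fun e he => ?_⟩
        rw [List.mem_cons] at he
        rcases he with rfl | he
        · exact (List.mem_filter.mp hv).1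
        · exact h4 e he

theorem up_reachL (hE : UP E) (hA : UP A) (hB : UP B) (hN : UP N) (hI : UP I) :
    UP fun X x => reachL (fun T => rkD X (E X x) T) (A X x) (B X x) (N X x) (I X x) := by
  obtain ⟨D, hD, hDm, hDle⟩ := hN.bound
  have hx : UP fun X x => ((N X x).filter fun v =>
      freeB (fun T => rkD X (E X x) T) (A X x) (I X x) v).map fun v => [v] := by
    have h1 : UP fun X (s : α × ℕ) => freeB (fun T => rkD X (E X s.1) T) (A X s.1) (I X s.1) s.2 :=
      up_freeB (E := fun X (s : α × ℕ) => E X s.1) (A := fun X s => A X s.1) (I := fun X s => I X s.1)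
        (u := fun _ s => s.2) (hE.pre (f := fun s : α × ℕ => s.1) (by fun_prop))
        (hA.pre (f := fun s : α × ℕ => s.1) (by fun_prop))
        (hI.pre (f := fun s : α × ℕ => s.1) (by fun_prop)) (UP.of_FP (by fun_prop))
    have h2 := UP.filterA (h := fun X (x : α) (v : ℕ) =>
      freeB (fun T => rkD X (E X x) T) (A X x) (I X x) v) h1 hN
    exact UP.fp (g := fun l : List ℕ => l.map fun v => [v]) (by fun_prop) h2
  have key := UP.iterA (f := fun X (x : α) (L : List (List ℕ)) =>
    bfsStep (edgeB (fun T => rkD X (E X x) T) (A X x) (B X x) (I X x)) (N X x) L)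
    (uc_step hE hA hB hN hI) (B := fun n => D n * (2 * ((D n + 1) * (2 * D n + 1)) + 1))
    (by fun_prop) (l := N) hN hx (by
      intro X a i hi
      obtain ⟨h1, h2⟩ := uc_inv (edgeB (fun T => rkD X (E X a) T) (A X a) (B X a) (I X a))
        (freeB (fun T => rkD X (E X a) T) (A X a) (I X a)) (N X a) i
      have hS := hDle X a
      have hL := length_le_sz (N X a)
      have h3 : ∀ q ∈ (bfsStep (edgeB (fun T => rkD X (E X a) T) (A X a) (B X a) (I X a)) (N X a))^[i]
          (((N X a).filter fun v => freeB (fun T => rkD X (E X a) T) (A X a) (I X a) v).map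
            fun v => [v]), sz q ≤ (D (sz a) + 1) * (2 * D (sz a) + 1) := by
        intro q hq
        obtain ⟨h4, h5⟩ := h2 q hq
        have h6 := Pool.Agent.G4.sz_le_length_mul (l := q) (C := sz (N X a)) fun e he => sz_mem_le (h5 e he)
        refine h6.trans (Nat.mul_le_mul ?_ ?_)
        · omega
        · omega
      have h7 := Pool.Agent.G4.sz_le_length_mul h3
      refine h7.trans (Nat.mul_le_mul ?_ le_rfl)
      omega)
  exact key.congr fun X x => rfl

end

end Pool.Agent.BW
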