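import Pool.Agent.BW.UC

set_option autoImplicit false

/-!
# Module UD: matroid intersection is polynomial

One augmentation is a filter of the ground set; the iteration of the augmentations and the cut are
polynomial with an oracle.
-/

namespace Pool.Agent.BW

open Turing Function N487b59b3 N68a2faeb Pool.Agent.Helper22 Pool.Agent.Helper49.Cons
open Pool.Agent.Helper6.WB
open Pool.Agent.G4 (nor dif word prd UP)

section

variable {α : Type} [N487b59b3 α] {E A B N I : Oracle → α → List ℕ}

private theorem up_pathTo (hE : UP E) (hB : UP B) (hI : UP I) {L : Oracle → α → List (List ℕ)}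
    (hL : UP L) :
    UP fun X x => pathTo (freeB (fun T => rkD X (E X x) T) (B X x) (I X x)) (L X x) := by
  have h1 : UP fun X (p : α × List ℕ) =>
      freeB (fun T => rkD X (E X p.1) T) (B X p.1) (I X p.1) (p.2.headD 0) :=
    up_freeB (α := α × List ℕ) (E := fun X p => E X p.1) (A := fun X p => B X p.1)
      (I := fun X p => I X p.1) (u := fun X p => p.2.headD 0) (hE.pre FP.fst) (hB.pre FP.fst)
      (hI.pre FP.fst) (UP.of_FP (by fun_prop))
  have h2 : UP fun X x => (L X x).filter fun p =>
      freeB (fun T => rkD X (E X x) T) (B X x) (I X x) (p.headD 0) :=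
    UP.filterA (h := fun X x p => freeB (fun T => rkD X (E X x) T) (B X x) (I X x) (p.headD 0))
      h1 hL
  have h3 : FP fun l : List (List ℕ) => l.headD [] := by fun_prop
  exact UP.fp h3 h2

theorem up_augStep (hE : UP E) (hA : UP A) (hB : UP B) (hN : UP N) (hI : UP I) :
    UP fun X x => augStep (fun T => rkD X (E X x) T) (A X x) (B X x) (N X x) (I X x) := by
  have h1 := up_pathTo hE hB hI (up_reachL hE hA hB hN hI)
  have h2 : FP fun q : List ℕ × (List ℕ × List ℕ) =>
      q.1.filter fun v => xor (decide (v ∈ q.2.1)) (decide (v ∈ q.2.2)) := by fun_prop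
  exact UP.fp h2 (hN.pair (hI.pair h1))

private theorem sz_augStep (ρ : List ℕ → ℕ) (A B N I : List ℕ) : sz (augStep ρ A B N I) ≤ sz N := by
  unfold augStep
  exact Pool.Agent.G4.sz_filter_le _ _

theorem up_linkI (hE : UP E) (hA : UP A) (hB : UP B) :
    UP fun X x => linkI (fun T => rkD X (E X x) T) (E X x) (A X x) (B X x) := by
  have hN : UP fun X x => dif (E X x) (A X x ++ B X x) := by
    have h0 : FP fun q : List ℕ × (List ℕ × List ℕ) => dif q.1 (q.2.1 ++ q.2.2) := by
      unfold dif
      fun_prop
    exact UP.fp h0 (hE.pair (hA.pair hB))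
  obtain ⟨D, hD, hDm, hDle⟩ := hN.bound
  have h1 : UP fun X (p : α × List ℕ) => augStep (fun T => rkD X (E X p.1) T) (A X p.1) (B X p.1)
      (dif (E X p.1) (A X p.1 ++ B X p.1)) p.2 :=
    up_augStep (α := α × List ℕ) (E := fun X p => E X p.1) (A := fun X p => A X p.1)
      (B := fun X p => B X p.1) (N := fun X p => dif (E X p.1) (A X p.1 ++ B X p.1))
      (I := fun X p => p.2) (hE.pre FP.fst) (hA.pre FP.fst) (hB.pre FP.fst) (hN.pre FP.fst)
      UP.snd
  have h2 := UP.iterA (f := fun X x s => augStep (fun T => rkD X (E X x) T) (A X x) (B X x)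
      (dif (E X x) (A X x ++ B X x)) s) h1 hD (l := fun X x => dif (E X x) (A X x ++ B X x))
      (x := fun _ _ => []) hN (UP.const []) (by
    intro X a i hi
    refine le_trans ?_ (hDle X a)
    refine Pool.Agent.G4.iterate_ind (P := fun _ s => sz s ≤ sz (dif (E X a) (A X a ++ B X a)))
      ?_ ?_ i
    · rw [sz_nil]
      exact Nat.zero_le _
    · intro i s _
      exact sz_augStep _ _ _ _ _)
  exact h2

theorem up_cutZ (hE : UP E) (hA : UP A) (hB : UP B) :
    UP fun X x => cutZ (fun T => rkD X (E X x) T) (E X x) (A X x) (B X x) := by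
  have hN : UP fun X x => dif (E X x) (A X x ++ B X x) := by
    have h0 : FP fun q : List ℕ × (List ℕ × List ℕ) => dif q.1 (q.2.1 ++ q.2.2) := by
      unfold dif
      fun_prop
    exact UP.fp h0 (hE.pair (hA.pair hB))
  have hR := up_reachL hE hA hB hN (up_linkI hE hA hB)
  have h0 : FP fun q : List ℕ × (List ℕ × List (List ℕ)) => dif q.1 (q.2.1 ++ heads q.2.2) := by
    unfold dif
    fun_prop
  exact UP.fp h0 (hE.pair (hB.pair hR))

end

end Pool.Agent.BW
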