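import Pool.Agent.BW.UD

set_option autoImplicit false

/-!
# Module UF: linking is polynomial
-/

namespace Pool.Agent.BW

open Turing Function N487b59b3 N68a2faeb Pool.Agent.Helper22 Pool.Agent.Helper49.Cons
open Pool.Agent.Helper6.WB
open Pool.Agent.G4 (nor dif word prd UP)

section

variable {α : Type} [N487b59b3 α] {E A C Z : Oracle → α → List ℕ}
  {F : Oracle → α → List (List ℕ)} {p : Oracle → α → List ℕ × List ℕ}

private theorem up_iteP {β : Type} [N487b59b3 β] {c : Oracle → α → Prop}
    {d : ∀ X x, Decidable (c X x)} {f g : Oracle → α → β}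
    (h : UP fun X x => @decide (c X x) (d X x)) (hf : UP f) (hg : UP g) :
    UP fun X x => @ite β (c X x) (d X x) (f X x) (g X x) :=
  (UP.ite h hf hg).congr fun X x => by by_cases hx : c X x <;> simp [hx]

private theorem up_le {a b : Oracle → α → ℕ} (ha : UP a) (hb : UP b) :
    UP fun X x => decide (a X x ≤ b X x) :=
  UP.fp2 (h := fun a b : ℕ => decide (a ≤ b))
    (Pool.Agent.Helper47.TR.FP.natLe FP.fst FP.snd) ha hb

private theorem up_lt {a b : Oracle → α → ℕ} (ha : UP a) (hb : UP b) :
    UP fun X x => decide (a X x < b X x) :=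
  UP.fp2 (h := fun a b : ℕ => decide (a < b)) (fp_natLt FP.fst FP.snd) ha hb

private theorem up_nor (hA : UP A) (hC : UP C) : UP fun X x => nor (A X x) (C X x) :=
  UP.fp2 (h := fun a b : List ℕ => nor a b) (by fun_prop) hA hC

private theorem up_dif (hA : UP A) (hC : UP C) : UP fun X x => dif (A X x) (C X x) :=
  UP.fp2 (h := fun a b : List ℕ => dif a b) (by fun_prop) hA hC

private theorem up_leB (hA : UP A) (hC : UP C) : UP fun X x => leB (A X x) (C X x) :=
  UP.fp2 (h := fun a b : List ℕ => leB a b) (by fun_prop) hA hC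

private theorem up_djB (hA : UP A) (hC : UP C) : UP fun X x => djB (A X x) (C X x) :=
  UP.fp2 (h := fun a b : List ℕ => djB a b) (by fun_prop) hA hC

private theorem up_uni (hE : UP E) (hA : UP A) (hC : UP C) :
    UP fun X x => uni (E X x) (A X x) (C X x) :=
  UP.fp (g := fun w : List ℕ × (List ℕ × List ℕ) => uni w.1 w.2.1 w.2.2) (by fun_prop)
    (hE.pair (hA.pair hC))

private theorem up_mids (hF : UP F) (hA : UP A) (hC : UP C) :
    UP fun X x => mids (F X x) (A X x) (C X x) :=
  UP.fp (g := fun w : List (List ℕ) × (List ℕ × List ℕ) => mids w.1 w.2.1 w.2.2) (by fun_prop)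
    (hF.pair (hA.pair hC))

theorem up_violB (hE : UP E) (hF : UP F) (hp : UP p) :
    UP fun X x => violB (fun T => rkD X (E X x) T) (E X x) (F X x) (p X x) := by
  have hE' : UP fun X (q : α × List ℕ) => E X q.1 := hE.pre FP.fst
  have h1' : UP fun X (q : α × List ℕ) => (p X q.1).1 := (hp.pre FP.fst).fst'
  have h2' : UP fun X (q : α × List ℕ) => (p X q.1).2 := (hp.pre FP.fst).snd'
  have h3 : UP fun X (q : α × List ℕ) => decide
      (lamL (fun T => rkD X (E X q.1) T) (E X q.1) (cutZ (fun T => rkD X (E X q.1) T) (E X q.1)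
        (p X q.1).1 (dif (E X q.1) (p X q.1).2)) <
      lamL (fun T => rkD X (E X q.1) T) (E X q.1) q.2) :=
    up_lt (up_lamL hE' (up_cutZ hE' h1' (up_dif hE' h2'))) (up_lamL hE' UP.snd)
  have h4 := UP.all_ctx (P := fun X (x : α) (B : List ℕ) => decide
      (lamL (fun T => rkD X (E X x) T) (E X x) (cutZ (fun T => rkD X (E X x) T) (E X x)
        (p X x).1 (dif (E X x) (p X x).2)) <
      lamL (fun T => rkD X (E X x) T) (E X x) B)) h3 (c := fun _ x => x)
      (l := fun X x => mids (F X x) (p X x).1 (p X x).2) UP.id (up_mids hF hp.fst' hp.snd')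
  exact UP.and (up_leB hp.fst' hp.snd') h4

private theorem up_badB {B : Oracle → α → List ℕ} (hE : UP E) (hA : UP A) (hC : UP C) (hZ : UP Z)
    (hB : UP B) :
    UP fun X x => badB (fun T => rkD X (E X x) T) (E X x) (A X x) (C X x) (Z X x) (B X x) := by
  unfold badB
  exact UP.and (UP.and (UP.and (up_leB hB hC) (up_djB hB hA))
      (UP.and (UP.not (up_djB hB hZ)) (UP.not (up_leB hB hZ))))
    (UP.or (up_le (up_lamL hE hB) (up_lamL hE (up_nor hB hZ)))
      (up_le (up_lamL hE hB) (up_lamL hE (up_dif hB hZ))))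

theorem up_fixStep (hE : UP E) (hF : UP F) (hA : UP A) (hC : UP C) (hZ : UP Z) :
    UP fun X x => fixStep (fun T => rkD X (E X x) T) (E X x) (F X x) (A X x) (C X x) (Z X x) := by
  have hL : UP fun X x => (F X x).filter fun B =>
      badB (fun T => rkD X (E X x) T) (E X x) (A X x) (C X x) (Z X x) B := by
    refine UP.filterA (h := fun X x B =>
      badB (fun T => rkD X (E X x) T) (E X x) (A X x) (C X x) (Z X x) B) ?_ hF
    exact up_badB (E := fun X (q : α × List ℕ) => E X q.1) (A := fun X q => A X q.1)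
      (C := fun X q => C X q.1) (Z := fun X q => Z X q.1) (B := fun _ q => q.2)
      (hE.pre FP.fst) (hA.pre FP.fst) (hC.pre FP.fst) (hZ.pre FP.fst) UP.snd
  have hH : UP fun X x => ((F X x).filter fun B =>
      badB (fun T => rkD X (E X x) T) (E X x) (A X x) (C X x) (Z X x) B).headD [] :=
    hL.fp (g := fun l : List (List ℕ) => l.headD []) (by fun_prop)
  unfold fixStep
  refine up_iteP ?_ hZ ?_
  · exact (hL.fp (g := fun l : List (List ℕ) => l.isEmpty) (by fun_prop)).congr fun X x =>
      Bool.decide_eq_true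
  · refine up_iteP ?_ ?_ ?_
    · exact up_le (up_lamL hE hH) (up_lamL hE (up_nor hH hZ))
    · exact up_uni hE hZ hH
    · exact up_dif hZ hH

private theorem sz_uni (E A B : List ℕ) : sz (uni E A B) ≤ sz E := by
  unfold uni
  exact Pool.Agent.G4.sz_filter_le _ _

private theorem sz_dif (A B : List ℕ) : sz (dif A B) ≤ sz A := by
  unfold dif
  exact Pool.Agent.G4.sz_filter_le _ _

private theorem sz_nor (A B : List ℕ) : sz (nor A B) ≤ sz A := by
  unfold nor
  exact Pool.Agent.G4.sz_filter_le _ _

private theorem sz_fixStep (ρ : List ℕ → ℕ) (E : List ℕ) (F : List (List ℕ)) (A C Z : List ℕ)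
    (h : sz Z ≤ sz E) : sz (fixStep ρ E F A C Z) ≤ sz E := by
  unfold fixStep
  split
  · exact h
  · split
    · exact sz_uni _ _ _
    · exact (sz_dif _ _).trans h

theorem up_goodCut (hE : UP E) (hF : UP F) (hA : UP A) (hC : UP C) :
    UP fun X x => goodCut (fun T => rkD X (E X x) T) (E X x) (F X x) (A X x) (C X x) := by
  obtain ⟨B, hB, hBm, hBle⟩ := hE.bound
  have hf : UP fun X (q : α × List ℕ) =>
      fixStep (fun T => rkD X (E X q.1) T) (E X q.1) (F X q.1) (A X q.1) (C X q.1) q.2 :=
    up_fixStep (E := fun X (q : α × List ℕ) => E X q.1) (F := fun X q => F X q.1)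
      (A := fun X q => A X q.1) (C := fun X q => C X q.1) (Z := fun _ q => q.2)
      (hE.pre FP.fst) (hF.pre FP.fst) (hA.pre FP.fst) (hC.pre FP.fst) UP.snd
  have hx : UP fun X x => cutZ (fun T => rkD X (E X x) T) (E X x) (A X x) (dif (E X x) (C X x)) :=
    up_cutZ hE hA (up_dif hE hC)
  exact Pool.Agent.G4.UP.iterA (f := fun X x Z =>
    fixStep (fun T => rkD X (E X x) T) (E X x) (F X x) (A X x) (C X x) Z) hf hB hF hx (by
      intro X a i _
      refine le_trans ?_ (hBle X a)
      refine Pool.Agent.G4.iterate_ind (P := fun _ s => sz s ≤ sz (E X a)) ?_ ?_ i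
      · unfold cutZ
        exact sz_dif _ _
      · intro _ s hs
        exact sz_fixStep _ _ _ _ _ _ hs)

private theorem up_newFam (hE : UP E) (hF : UP F) (hA : UP A) (hC : UP C) (hZ : UP Z) :
    UP fun X x => newFam (E X x) (F X x) (A X x) (C X x) (Z X x) :=
  UP.fp (g := fun w : List ℕ × (List (List ℕ) × (List ℕ × (List ℕ × List ℕ))) =>
    newFam w.1 w.2.1 w.2.2.1 w.2.2.2.1 w.2.2.2.2) (by fun_prop)
    (hE.pair (hF.pair (hA.pair (hC.pair hZ))))

theorem up_linkStep (hE : UP E) (hF : UP F) :
    UP fun X x => linkStep (fun T => rkD X (E X x) T) (E X x) (F X x) := by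
  have hP : UP fun X x => prd (F X x) (F X x) :=
    hF.fp (g := fun F : List (List ℕ) => prd F F) (by fun_prop)
  have hL : UP fun X x => (prd (F X x) (F X x)).filter fun p =>
      violB (fun T => rkD X (E X x) T) (E X x) (F X x) p := by
    refine UP.filterA (h := fun X x p =>
      violB (fun T => rkD X (E X x) T) (E X x) (F X x) p) ?_ hP
    exact up_violB (E := fun X (q : α × (List ℕ × List ℕ)) => E X q.1) (F := fun X q => F X q.1)
      (p := fun _ q => q.2) (hE.pre FP.fst) (hF.pre FP.fst) UP.snd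
  have hH : UP fun X x => ((prd (F X x) (F X x)).filter fun p =>
      violB (fun T => rkD X (E X x) T) (E X x) (F X x) p).headD ([], []) :=
    hL.fp (g := fun l : List (List ℕ × List ℕ) => l.headD ([], [])) (by fun_prop)
  unfold linkStep
  refine up_iteP ?_ hF ?_
  · exact (hL.fp (g := fun l : List (List ℕ × List ℕ) => l.isEmpty) (by fun_prop)).congr
      fun X x => Bool.decide_eq_true
  · exact up_newFam hE hF hH.fst' hH.snd' (up_goodCut hE hF hH.fst' hH.snd')

private theorem mem_ddp' (l : List (List ℕ)) : ∀ (s : List (List ℕ)) (x : List ℕ),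
    x ∈ l.foldl (fun s x => if x ∈ s then s else s ++ [x]) s → x ∈ s ∨ x ∈ l := by
  induction l with
  | nil =>
    intro s x h
    exact Or.inl h
  | cons a l ih =>
    intro s x h
    rw [List.foldl_cons] at h
    rcases ih _ _ h with h1 | h1
    · by_cases h2 : a ∈ s
      · rw [if_pos h2] at h1
        exact Or.inl h1
      · rw [if_neg h2, List.mem_append, List.mem_singleton] at h1
        rcases h1 with h1 | h1
        · exact Or.inl h1
        · exact Or.inr (by rw [h1]; exact List.mem_cons_self)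
    · exact Or.inr (List.mem_cons_of_mem _ h1)

private theorem mem_newFam {E : List ℕ} {F : List (List ℕ)} {A C Z b : List ℕ} {M : ℕ}
    (hE : sz E ≤ M) (hF : ∀ b ∈ F, sz b ≤ M) (h : b ∈ newFam E F A C Z) : sz b ≤ M := by
  unfold newFam at h
  have h1 := List.mem_of_mem_take h
  unfold ddp at h1
  have h2 : b ∈ (newL E F A C Z).filter fun B => !B.isEmpty := by
    rcases mem_ddp' _ _ _ h1 with h2 | h2
    · exact absurd h2 List.not_mem_nil
    · exact h2
  have h3 := (List.mem_filter.1 h2).1
  unfold newL at h3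
  rw [List.mem_append, List.mem_append, List.mem_append, List.mem_map, List.mem_map,
    List.mem_map] at h3
  rcases h3 with h3 | ⟨c, h3, rfl⟩ | ⟨c, h3, rfl⟩ | ⟨c, h3, rfl⟩
  · exact hF b (List.mem_filter.1 h3).1
  · exact (sz_nor _ _).trans (hF c (List.mem_filter.1 h3).1)
  · exact (sz_dif _ _).trans (hF c (List.mem_filter.1 h3).1)
  · exact (sz_uni _ _ _).trans hE

private theorem inv_linkStep (ρ : List ℕ → ℕ) {E : List ℕ} {M N : ℕ} (hE : sz E ≤ M)
    (hN : E.length + E.length ≤ N) (F : List (List ℕ))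
    (h : (∀ b ∈ F, sz b ≤ M) ∧ F.length ≤ N) :
    (∀ b ∈ linkStep ρ E F, sz b ≤ M) ∧ (linkStep ρ E F).length ≤ N := by
  unfold linkStep
  split
  · exact h
  · refine ⟨fun b hb => mem_newFam hE h.1 hb, ?_⟩
    unfold newFam
    exact (List.length_take_le _ _).trans hN

theorem up_linkL (m : ℕ) (hE : UP E) (hF : UP F) :
    UP fun X x => linkL (fun T => rkD X (E X x) T) (E X x) m (F X x) := by
  obtain ⟨B1, hB1, hBm1, hBle1⟩ := hE.bound
  obtain ⟨B2, hB2, hBm2, hBle2⟩ := hF.bound
  have hf : UP fun X (q : α × List (List ℕ)) =>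
      linkStep (fun T => rkD X (E X q.1) T) (E X q.1) q.2 :=
    up_linkStep (E := fun X (q : α × List (List ℕ)) => E X q.1) (F := fun _ q => q.2)
      (hE.pre FP.fst) UP.snd
  have hl : UP fun X x => fuel m (E X x) :=
    hE.fp (g := fun E : List ℕ => fuel m E) (by fun_prop)
  exact Pool.Agent.G4.UP.iterA (f := fun X x F =>
    linkStep (fun T => rkD X (E X x) T) (E X x) F) hf
    (B := fun n => (2 * B1 n + B2 n) * (2 * (B1 n + B2 n) + 1)) (by fun_prop) hl hF (by
      intro X a i _
      have h1 := hBle1 X a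
      have h2 := hBle2 X a
      have h3 : (E X a).length ≤ sz (E X a) := length_le_sz _
      have h4 : (F X a).length ≤ sz (F X a) := length_le_sz _
      have key := Pool.Agent.G4.iterate_ind
        (P := fun _ s => (∀ b ∈ s, sz b ≤ B1 (sz a) + B2 (sz a)) ∧
          s.length ≤ 2 * B1 (sz a) + B2 (sz a))
        (f := linkStep (fun T => rkD X (E X a) T) (E X a)) (x := F X a)
        ⟨fun b hb => by
          have h5 := sz_mem_le hb
          omega, by omega⟩
        (fun _ s hs => inv_linkStep _ (by omega) (by omega) s hs) i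
      exact (Pool.Agent.G4.sz_le_length_mul key.1).trans (Nat.mul_le_mul_right _ key.2))

end

end Pool.Agent.BW
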