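import Pool.Agent.BW.UE
import Pool.Agent.BW.UF

set_option autoImplicit false

/-!
# Module UG: complete families and classes are polynomial
-/

namespace Pool.Agent.BW

open Turing Function N487b59b3 N68a2faeb Pool.Agent.Helper22 Pool.Agent.Helper49.Cons
open Pool.Agent.Helper6.WB
open Pool.Agent.G4 (nor dif word prd UP)

private theorem ug_fm {q : Type} [N487b59b3 q] {E : Oracle → q → List ℕ}
    {F : Oracle → q → List (List ℕ)} {j : ℕ}
    (ih : ∀ {α : Type} [N487b59b3 α] {E C : Oracle → α → List ℕ}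
      {F : Oracle → α → List (List ℕ)}, UP E → UP F → UP C →
      UP fun X x => famL (fun T => rkD X (E X x) T) (E X x) (F X x) j (C X x))
    (hE : UP E) (hF : UP F) {p : Oracle → q → List ℕ × List ℕ} (hp : UP p) :
    UP fun X x => (famL (fun T => rkD X (E X x) T) (E X x) (F X x) j (p X x).1).flatMap fun G₁ =>
      (famL (fun T => rkD X (E X x) T) (E X x) (F X x) j (p X x).2).map fun G₂ => G₁ ++ G₂ := by
  have h1 : UP fun X x => famL (fun T => rkD X (E X x) T) (E X x) (F X x) j (p X x).1 :=
    ih hE hF hp.fst'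
  have h2 : UP fun X (s : q × List ℕ) => (famL (fun T => rkD X (E X s.1) T) (E X s.1) (F X s.1) j
      (p X s.1).2).map fun G₂ => s.2 ++ G₂ := by
    have h3 : UP fun X (s : q × List ℕ) => famL (fun T => rkD X (E X s.1) T) (E X s.1) (F X s.1) j
        (p X s.1).2 :=
      ih (hE.comp UP.fst) (hF.comp UP.fst) (hp.comp UP.fst).snd'
    exact UP.mapA (h := fun _ (s : q × List ℕ) (G₂ : List ℕ) => s.2 ++ G₂)
      (UP.of_FP (by fun_prop)) h3
  exact UP.flatMap_ctx (h := fun X (x : q) (G₁ : List ℕ) =>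
    (famL (fun T => rkD X (E X x) T) (E X x) (F X x) j (p X x).2).map fun G₂ => G₁ ++ G₂)
    h2 UP.id h1

theorem up_famL (j : ℕ) : ∀ {α : Type} [N487b59b3 α] {E C : Oracle → α → List ℕ}
    {F : Oracle → α → List (List ℕ)}, UP E → UP F → UP C →
    UP fun X x => famL (fun T => rkD X (E X x) T) (E X x) (F X x) j (C X x) := by
  induction j with
  | zero => intro α _ E C F _ _ _; exact UP.const [[]]
  | succ j ih =>
    intro α _ E C F hE hF hC
    have h1 := ih hE hF hC
    -- the sets of the second kind, for a member `A`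
    have h2 : UP fun X (s : α × List ℕ) => (chl (E X s.1) (F X s.1) s.2).flatMap fun p =>
        (famL (fun T => rkD X (E X s.1) T) (E X s.1) (F X s.1) j p.1).flatMap fun G₁ =>
          (famL (fun T => rkD X (E X s.1) T) (E X s.1) (F X s.1) j p.2).map fun G₂ => G₁ ++ G₂ := by
      have h3 : UP fun X (s : α × List ℕ) => chl (E X s.1) (F X s.1) s.2 :=
        UP.fp (g := fun t : List ℕ × (List (List ℕ) × List ℕ) => chl t.1 t.2.1 t.2.2)
          (by fun_prop) ((hE.comp UP.fst).pair ((hF.comp UP.fst).pair UP.snd))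
      exact UP.flatMap_ctx (h := fun X (s : α × List ℕ) (p : List ℕ × List ℕ) =>
        (famL (fun T => rkD X (E X s.1) T) (E X s.1) (F X s.1) j p.1).flatMap fun G₁ =>
          (famL (fun T => rkD X (E X s.1) T) (E X s.1) (F X s.1) j p.2).map fun G₂ => G₁ ++ G₂)
        (ug_fm (q := (α × List ℕ) × (List ℕ × List ℕ)) (E := fun X s => E X s.1.1)
          (F := fun X s => F X s.1.1) ih (hE.comp (UP.fst.comp UP.fst))
          (hF.comp (UP.fst.comp UP.fst)) UP.snd) UP.id h3
    have h4 : UP fun X (s : α × List ℕ) => (if s.2.length ≤ 1 then [[], s.2] else []) ++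
        (chl (E X s.1) (F X s.1) s.2).flatMap fun p =>
        (famL (fun T => rkD X (E X s.1) T) (E X s.1) (F X s.1) j p.1).flatMap fun G₁ =>
          (famL (fun T => rkD X (E X s.1) T) (E X s.1) (F X s.1) j p.2).map fun G₂ => G₁ ++ G₂ :=
      UP.fp2 (h := fun u v : List (List ℕ) => u ++ v) (by fun_prop)
        (UP.of_FP (f := fun s : α × List ℕ => if s.2.length ≤ 1 then [[], s.2] else [])
          (by fun_prop)) h2
    have h5 : UP fun X (s : (α × List ℕ) × List ℕ) => uni (E X s.1.1) s.2
        (linkI (fun T => rkD X (E X s.1.1) T) (E X s.1.1) s.1.2 (dif (E X s.1.1) (C X s.1.1))) := by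
      have h6 : UP fun X (s : (α × List ℕ) × List ℕ) => E X s.1.1 := hE.comp (UP.fst.comp UP.fst)
      have h7 : UP fun X (s : (α × List ℕ) × List ℕ) => dif (E X s.1.1) (C X s.1.1) :=
        UP.fp2 (h := fun a b : List ℕ => dif a b) (by fun_prop) h6 (hC.comp (UP.fst.comp UP.fst))
      have h8 := up_linkI h6 (UP.snd.comp UP.fst) h7
      exact UP.fp (g := fun t : List ℕ × (List ℕ × List ℕ) => uni t.1 t.2.1 t.2.2)
        (by fun_prop) (h6.pair (UP.snd.pair h8))
    have h9 := UP.mapA (h := fun X (s : α × List ℕ) (G : List ℕ) => uni (E X s.1) G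
        (linkI (fun T => rkD X (E X s.1) T) (E X s.1) s.2 (dif (E X s.1) (C X s.1)))) h5 h4
    have h10 : UP fun X x => (F X x).filter fun A => leB A (C X x) :=
      UP.filterA (h := fun X (x : α) (A : List ℕ) => leB A (C X x))
        (UP.fp2 (h := fun a b : List ℕ => leB a b) (by fun_prop) UP.snd (hC.comp UP.fst)) hF
    have h11 := UP.flatMap_ctx (h := fun X (x : α) (A : List ℕ) =>
      ((if A.length ≤ 1 then [[], A] else []) ++ (chl (E X x) (F X x) A).flatMap fun p =>
        (famL (fun T => rkD X (E X x) T) (E X x) (F X x) j p.1).flatMap fun G₁ =>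
          (famL (fun T => rkD X (E X x) T) (E X x) (F X x) j p.2).map fun G₂ => G₁ ++ G₂).map
        fun G => uni (E X x) G
          (linkI (fun T => rkD X (E X x) T) (E X x) A (dif (E X x) (C X x)))) h9 UP.id h10
    exact UP.fp2 (h := fun u v : List (List ℕ) => u ++ v) (by fun_prop) h1 h11

section

variable {α : Type} [N487b59b3 α] {E t F D : Oracle → α → List ℕ}
  {G L : Oracle → α → List (List ℕ)} {p : Oracle → α → List ℕ × List ℕ}

theorem up_famD (k c : ℕ) (hE : UP E) (hD : UP D) :
    UP fun X x => famD (fun T => rkD X (E X x) T) (E X x) k c (D X x) := by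
  have h1 := up_famL c hE (up_linkL (3 * k + 1) hE (up_osFam k hE hD)) hD
  exact UP.ite (c := fun X x => (D X x).isEmpty) (hD.fp (g := fun l : List ℕ => l.isEmpty)
    (by fun_prop)) (UP.const [[]]) h1

theorem up_sig (hE : UP E) (hG : UP G) (hF : UP F) :
    UP fun X x => sig (fun T => rkD X (E X x) T) (G X x) (F X x) := by
  have h1 : UP fun X (s : α × List ℕ) => rkD X (E X s.1) (F X s.1 ++ s.2) -
      rkD X (E X s.1) (F X s.1) := by
    have h2 : UP fun X (s : α × List ℕ) => F X s.1 ++ s.2 :=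
      UP.fp2 (h := fun u v : List ℕ => u ++ v) (by fun_prop) (hF.comp UP.fst) UP.snd
    exact UP.fp2 (h := fun a b : ℕ => a - b) (by fun_prop) (up_rkD (hE.comp UP.fst) h2)
      (up_rkD (hE.comp UP.fst) (hF.comp UP.fst))
  exact UP.mapA (h := fun X (x : α) (H : List ℕ) => rkD X (E X x) (F X x ++ H) -
    rkD X (E X x) (F X x)) h1 hG

theorem up_reps (hE : UP E) (hG : UP G) (hL : UP L) :
    UP fun X x => reps (fun T => rkD X (E X x) T) (G X x) (L X x) := by
  have h1 : UP fun X (s : α × (List (List ℕ) × List ℕ)) =>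
      if s.2.1.any fun F' => decide (sig (fun T => rkD X (E X s.1) T) (G X s.1) F' =
        sig (fun T => rkD X (E X s.1) T) (G X s.1) s.2.2) then s.2.1 else s.2.1 ++ [s.2.2] := by
    have h2 : UP fun X (s : α × (List (List ℕ) × List ℕ)) =>
        s.2.1.any fun F' => decide (sig (fun T => rkD X (E X s.1) T) (G X s.1) F' =
          sig (fun T => rkD X (E X s.1) T) (G X s.1) s.2.2) := by
      refine UP.anyA (h := fun X (s : α × (List (List ℕ) × List ℕ)) (F' : List ℕ) =>
        decide (sig (fun T => rkD X (E X s.1) T) (G X s.1) F' =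
          sig (fun T => rkD X (E X s.1) T) (G X s.1) s.2.2)) ?_ (UP.of_FP (by fun_prop))
      exact UP.fp2 (h := fun a b : List ℕ => decide (a = b)) (by fun_prop)
        (up_sig (hE.comp (UP.fst.comp UP.fst)) (hG.comp (UP.fst.comp UP.fst)) UP.snd)
        (up_sig (hE.comp (UP.fst.comp UP.fst)) (hG.comp (UP.fst.comp UP.fst))
          (UP.snd.comp (UP.snd.comp UP.fst)))
    exact UP.ite h2 (UP.of_FP (f := fun s : α × (List (List ℕ) × List ℕ) => s.2.1) (by fun_prop))
      (UP.of_FP (f := fun s : α × (List (List ℕ) × List ℕ) => s.2.1 ++ [s.2.2]) (by fun_prop))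
  obtain ⟨B, hB, hBm, hBle⟩ := hL.bound
  refine UP.foldA (g := fun X (x : α) (R : List (List ℕ)) (F : List ℕ) =>
    if R.any fun F' => decide (sig (fun T => rkD X (E X x) T) (G X x) F' =
        sig (fun T => rkD X (E X x) T) (G X x) F) then R else R ++ [F]) h1 hB hL (UP.const [])
    fun X a i hi => ?_
  have key : ∀ (P : List (List ℕ) → List ℕ → Bool) (l R : List (List ℕ)),
      (l.foldl (fun R F => if P R F then R else R ++ [F]) R).Sublist (R ++ l) := by
    intro P l
    induction l with
    | nil => intro R; rw [List.append_nil]; exact List.Sublist.refl _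
    | cons b l ih =>
      intro R
      rw [List.foldl_cons]
      refine (ih _).trans ?_
      split
      · exact List.Sublist.append_left (List.sublist_cons_self _ _) _
      · rw [List.append_assoc]
        exact List.Sublist.refl _
  have h3 := key (fun R F => R.any fun F' => decide (sig (fun T => rkD X (E X a) T) (G X a) F' =
    sig (fun T => rkD X (E X a) T) (G X a) F)) ((L X a).take i) []
  rw [List.nil_append] at h3
  exact (Pool.Agent.G4.sz_sublist (h3.trans (List.take_sublist _ _))).trans (hBle X a)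

theorem up_clsI (hE : UP E) (hG : UP G) (hL : UP L) (hF : UP F) :
    UP fun X x => clsI (fun T => rkD X (E X x) T) (G X x) (L X x) (F X x) := by
  have h1 : UP fun X (s : α × (List ℕ × ℕ)) => decide (sig (fun T => rkD X (E X s.1) T) (G X s.1)
      s.2.1 = sig (fun T => rkD X (E X s.1) T) (G X s.1) (F X s.1)) :=
    UP.fp2 (h := fun a b : List ℕ => decide (a = b)) (by fun_prop)
      (up_sig (hE.comp UP.fst) (hG.comp UP.fst) (UP.fst.comp UP.snd))
      (up_sig (hE.comp UP.fst) (hG.comp UP.fst) (hF.comp UP.fst))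
  have h2 : UP fun X x => (L X x).zip (List.range (L X x).length) :=
    hL.fp (g := fun l : List (List ℕ) => l.zip (List.range l.length)) (by fun_prop)
  have h3 := UP.filterA (h := fun X (x : α) (p : List ℕ × ℕ) =>
    decide (sig (fun T => rkD X (E X x) T) (G X x) p.1 =
      sig (fun T => rkD X (E X x) T) (G X x) (F X x))) h1 h2
  exact h3.fp (g := fun l : List (List ℕ × ℕ) => (l.headD ([], 0)).2) (by fun_prop)

private theorem ug_repN (k c s : ℕ) (hE : UP E) (ht : UP t) :
    UP fun X x => repN (fun T => rkD X (E X x) T) (E X x) k c s (t X x) := by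
  have h1 : UP fun X x => rgt (fun T => rkD X (E X x) T) (E X x) k c (t X x) :=
    up_famD (E := E) (D := fun X x => dif (E X x) (t X x)) k c hE
      (UP.fp2 (h := fun a b : List ℕ => dif a b) (by fun_prop) hE ht)
  have h2 := up_famD k c hE ht
  have h3 : FP fun l : List (List ℕ) => l.take s := by
    refine (congrArg FP (funext fun l => ?_)).mp (FP.take (f := fun l : List (List ℕ) => l)
      (g := fun _ => un s) FP.id (FP.const _))
    rw [un_length]
  exact (up_reps hE h1 h2).fp h3

private theorem ug_clsN (k c s : ℕ) (hE : UP E) (ht : UP t) (hF : UP F) :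
    UP fun X x => clsN (fun T => rkD X (E X x) T) (E X x) k c s (t X x) (F X x) := by
  have h1 : UP fun X x => rgt (fun T => rkD X (E X x) T) (E X x) k c (t X x) :=
    up_famD (E := E) (D := fun X x => dif (E X x) (t X x)) k c hE
      (UP.fp2 (h := fun a b : List ℕ => dif a b) (by fun_prop) hE ht)
  exact up_clsI hE h1 (ug_repN k c s hE ht) hF

theorem up_typN (k c s : ℕ) (hE : UP E) (ht : UP t) (hp : UP p) :
    UP fun X x => typN (fun T => rkD X (E X x) T) (E X x) k c s (t X x) (p X x) := by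
  have hE2 : UP fun X (u : (α × List ℕ) × List ℕ) => E X u.1.1 := hE.comp (UP.fst.comp UP.fst)
  have h1 : UP fun X (u : (α × List ℕ) × List ℕ) =>
      (clsN (fun T => rkD X (E X u.1.1) T) (E X u.1.1) k c s (t X u.1.1)
        (uni (E X u.1.1) u.1.2 u.2), rkD X (E X u.1.1) u.1.2 + rkD X (E X u.1.1) u.2 -
          rkD X (E X u.1.1) (u.1.2 ++ u.2)) := by
    have h2 : UP fun X (u : (α × List ℕ) × List ℕ) => uni (E X u.1.1) u.1.2 u.2 :=
      UP.fp (g := fun t : List ℕ × (List ℕ × List ℕ) => uni t.1 t.2.1 t.2.2)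
        (by fun_prop) (hE2.pair ((UP.snd.comp UP.fst).pair UP.snd))
    have h3 := ug_clsN k c s hE2 (ht.comp (UP.fst.comp UP.fst)) h2
    have h4 : UP fun X (u : (α × List ℕ) × List ℕ) => rkD X (E X u.1.1) u.1.2 :=
      up_rkD hE2 (UP.snd.comp UP.fst)
    have h5 : UP fun X (u : (α × List ℕ) × List ℕ) => rkD X (E X u.1.1) u.2 :=
      up_rkD hE2 UP.snd
    have h6 : UP fun X (u : (α × List ℕ) × List ℕ) => rkD X (E X u.1.1) (u.1.2 ++ u.2) :=
      up_rkD hE2 (UP.of_FP (f := fun u : (α × List ℕ) × List ℕ => u.1.2 ++ u.2) (by fun_prop))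
    have h7 : FP fun v : ℕ × (ℕ × ℕ) => v.1 + v.2.1 - v.2.2 :=
      fp_natSub (FP.natAdd (by fun_prop) (by fun_prop)) (by fun_prop)
    exact h3.pair ((h4.pair (h5.pair h6)).fp h7)
  have h8 : UP fun X (u : α × List ℕ) => repN (fun T => rkD X (E X u.1) T) (E X u.1) k c s
      (p X u.1).2 := ug_repN k c s (hE.comp UP.fst) (hp.comp UP.fst).snd'
  have h9 := UP.mapA (h := fun X (u : α × List ℕ) (F₂ : List ℕ) =>
    (clsN (fun T => rkD X (E X u.1) T) (E X u.1) k c s (t X u.1)
        (uni (E X u.1) u.2 F₂), rkD X (E X u.1) u.2 + rkD X (E X u.1) F₂ -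
          rkD X (E X u.1) (u.2 ++ F₂))) h1 h8
  exact UP.mapA (h := fun X (x : α) (F₁ : List ℕ) =>
    (repN (fun T => rkD X (E X x) T) (E X x) k c s (p X x).2).map fun F₂ =>
      (clsN (fun T => rkD X (E X x) T) (E X x) k c s (t X x)
        (uni (E X x) F₁ F₂), rkD X (E X x) F₁ + rkD X (E X x) F₂ -
          rkD X (E X x) (F₁ ++ F₂))) h9 (ug_repN k c s hE hp.fst')

theorem up_typL (k c s : ℕ) (hE : UP E) (ht : UP t) :
    UP fun X x => typL (fun T => rkD X (E X x) T) (E X x) k c s (t X x) := by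
  exact UP.pair (ug_clsN k c s hE ht (UP.const [])) (UP.pair (ug_clsN k c s hE ht ht) (up_rkD hE ht))

end

end Pool.Agent.BW
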