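import Pool.Agent.BW.UG

set_option autoImplicit false

/-!
# Module UH: linear combinations and entries are polynomial

`PrmOK P q`: the tables of `P` are polynomial and the values of the operations are `< q`.

`fp_lcL`: fold over `c.zip vs` with `G4.FP.foldA`: the state is a list of length at most `E.length` with
entries `< q` (initially `zer`), so its size is at most `E.length * C` for a constant `C`
(`List.zipWith` does not increase the length). `fp_unitL`, `fp_mkE` (`G4.FP.mapA`, `G4.FP.flatMapA`,
`FP.take`), `fp_pick` (`List.range P.nst` is a constant list), `fp_look`.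
`sz_lcL`: the size bound of a linear combination.
-/

namespace Pool.Agent.BW

open Turing Function N487b59b3 N68a2faeb Pool.Agent.Helper22 Pool.Agent.Helper49.Cons
open Pool.Agent.Helper6.WB
open Pool.Agent.G4 (nor dif word prd UP)

/-- the tables are polynomial -/
structure PrmOK (P : Prm) (q : ℕ) : Prop where
  add : FP fun p : ℕ × ℕ => P.add p.1 p.2
  mul : FP fun p : ℕ × ℕ => P.mul p.1 p.2
  mrg : FP P.mrg
  lef : FP P.lef
  addLt : ∀ i j, P.add i j < q
  mulLt : ∀ i j, P.mul i j < q
  zer : P.zer < q
  one : P.one < q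

variable {P : Prm} {q : ℕ}

private theorem uh_len (P : Prm) (l : List (ℕ × List ℕ)) (s : List ℕ) :
    (l.foldl (fun s p => List.zipWith (fun a b => P.add a (P.mul p.1 b)) s p.2) s).length ≤
      s.length := by
  induction l generalizing s with
  | nil => exact le_rfl
  | cons p l ih =>
    rw [List.foldl_cons]
    refine (ih _).trans ?_
    rw [List.length_zipWith]
    exact min_le_left _ _

private theorem uh_lt (hP : PrmOK P q) (l : List (ℕ × List ℕ)) (s : List ℕ)
    (hs : ∀ a ∈ s, a < q) :
    ∀ a ∈ l.foldl (fun s p => List.zipWith (fun a b => P.add a (P.mul p.1 b)) s p.2) s, a < q := by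
  induction l generalizing s with
  | nil => exact hs
  | cons p l ih =>
    rw [List.foldl_cons]
    refine ih _ ?_
    intro a ha
    rw [← List.map_uncurry_zip_eq_zipWith, List.mem_map] at ha
    obtain ⟨⟨b, c⟩, -, rfl⟩ := ha
    exact hP.addLt _ _

theorem lcL_length (P : Prm) (E c : List ℕ) (vs : List (List ℕ)) :
    (lcL P E c vs).length ≤ E.length := by
  unfold lcL
  refine (uh_len P _ _).trans ?_
  rw [List.length_map]

theorem lcL_lt (hP : PrmOK P q) (E c : List ℕ) (vs : List (List ℕ)) :
    ∀ a ∈ lcL P E c vs, a < q := by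
  unfold lcL
  refine uh_lt hP _ _ ?_
  intro a ha
  rw [List.mem_map] at ha
  obtain ⟨-, -, rfl⟩ := ha
  exact hP.zer

section

variable {α : Type} [N487b59b3 α]

theorem fp_lcL (hP : PrmOK P q) {E c : α → List ℕ} {vs : α → List (List ℕ)} (hE : FP E)
    (hc : FP c) (hv : FP vs) : FP fun x => lcL P (E x) (c x) (vs x) := by
  obtain ⟨C, hC⟩ : ∃ C : ℕ, ∀ a < q, sz a ≤ C :=
    ⟨(Finset.range q).sup fun a => sz a, fun a ha =>
      Finset.le_sup (f := fun a => sz a) (Finset.mem_range.2 ha)⟩
  have h : FP fun t : List ℕ × (List ℕ × List (List ℕ)) => lcL P t.1 t.2.1 t.2.2 := by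
    unfold lcL
    refine G4.FP.foldA (g := fun (_ : List ℕ × (List ℕ × List (List ℕ))) (s : List ℕ)
      (p : ℕ × List ℕ) => List.zipWith (fun a b => P.add a (P.mul p.1 b)) s p.2) ?_
      (B := fun n => n * (2 * C + 1)) (by fun_prop) (by fun_prop) (by fun_prop) fun t i _ => ?_
    · refine G4.FP.zipWithA (h := fun (p : (List ℕ × (List ℕ × List (List ℕ))) ×
        (List ℕ × (ℕ × List ℕ))) (a b : ℕ) => P.add a (P.mul p.2.2.1 b)) ?_ (by fun_prop)
        (by fun_prop)
      have h1 : FP fun p : ((List ℕ × (List ℕ × List (List ℕ))) ×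
          (List ℕ × (ℕ × List ℕ))) × (ℕ × ℕ) => P.mul p.1.2.2.1 p.2.2 :=
        hP.mul.comp (f := fun p : ((List ℕ × (List ℕ × List (List ℕ))) ×
          (List ℕ × (ℕ × List ℕ))) × (ℕ × ℕ) => (p.1.2.2.1, p.2.2)) (by fun_prop)
      exact hP.add.comp (f := fun p : ((List ℕ × (List ℕ × List (List ℕ))) ×
          (List ℕ × (ℕ × List ℕ))) × (ℕ × ℕ) => (p.2.1, P.mul p.1.2.2.1 p.2.2))
        (by fun_prop)
    · obtain ⟨E', c', v'⟩ := t
      have h2 := uh_len P ((c'.zip v').take i) (E'.map fun _ => P.zer)
      have h3 := uh_lt hP ((c'.zip v').take i) (E'.map fun _ => P.zer) (by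
        intro a ha
        rw [List.mem_map] at ha
        obtain ⟨-, -, rfl⟩ := ha
        exact hP.zer)
      rw [List.length_map] at h2
      refine (G4.sz_le_length_mul (C := C) fun a ha => hC a (h3 a ha)).trans ?_
      refine Nat.mul_le_mul_right _ (h2.trans ?_)
      have h4 := length_le_sz E'
      rw [sz_pair]
      omega
  exact h.comp (f := fun x => (E x, (c x, vs x))) (by fun_prop)

theorem fp_unitL (P : Prm) {E t : α → List ℕ} (hE : FP E) (ht : FP t) :
    FP fun x => unitL P (E x) (t x) := by
  unfold unitL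
  fun_prop

theorem fp_mkE (hP : PrmOK P q) {E : α → List ℕ} {vs rl : α → List (List ℕ)} {o : α → Outc}
    (hE : FP E) (hv : FP vs) (hr : FP rl) (ho : FP o) :
    FP fun x => mkE P (E x) (vs x) (rl x) (o x) := by
  have h1 : FP fun p : α × List ℕ => lcL P (E p.1) p.2 (vs p.1) :=
    fp_lcL hP (by fun_prop) (by fun_prop) (by fun_prop)
  have h2 : FP fun x => (o x).2.2.map fun c => lcL P (E x) c (vs x) :=
    G4.FP.mapA (h := fun x c => lcL P (E x) c (vs x)) h1 (by fun_prop)
  have h3 : FP fun x => (o x).2.1.map fun c => lcL P (E x) c (vs x) :=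
    G4.FP.mapA (h := fun x c => lcL P (E x) c (vs x)) h1 (by fun_prop)
  have h4 : FP fun x => (E x).flatMap fun _ => List.range P.cap :=
    G4.FP.flatMapA (h := fun _ _ => List.range P.cap) (FP.const _) hE
  have h5 : FP fun x => (rl x ++ (o x).2.1.map fun c => lcL P (E x) c (vs x)).take
      ((E x).flatMap fun _ => List.range P.cap).length :=
    FP.take (by fun_prop) h4
  unfold mkE
  fun_prop

theorem fp_pick (P : Prm) {l : α → List Entry} (hl : FP l) : FP fun x => pick P (l x) := by
  unfold pick
  exact G4.FP.flatMapA (h := fun x c => ((l x).filter fun e => decide (e.1 = c)).take 1)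
    (by fun_prop) (FP.const _)

theorem fp_look {tab : α → List (List ℕ × List Entry)} {t : α → List ℕ} (htab : FP tab)
    (ht : FP t) : FP fun x => look (tab x) (t x) := by
  unfold look
  fun_prop

end

end Pool.Agent.BW
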