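import Pool.Agent.BW.UH

set_option autoImplicit false

/-!
# Module UI: the whole algorithm is polynomial

`entr`: `UP.ite`, `UP.mapA`, `UP.flatMap_ctx`, `up_typN`, `up_typL`, `fp_mkE`, `fp_pick`, `fp_look`,
`PrmOK.mrg`, `PrmOK.lef`.
`tabl = F.reverse.foldl (fun tab t => tab ++ [(t, entr ..)]) []`: `UP.foldA`. Size bound for every
oracle and every state: each step adds one pair `(t, entr ..)` with `t ∈ F`; `entr` has at most `P.nst`
entries (`pick`: at most one for each `c < P.nst`); each entry is made by `mkE`: its code is `< P.nst`;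
its interface vectors are `lcL ..` (length at most `|E|`, entries `< q`), their number is the length of
`o.2.2` for an outcome `o` of `P.mrg` or `P.lef`; the number of relations is at most
`|E| * P.cap` (`take`), and each relation is `lcL ..` or a relation of an entry in the table (by
induction a list of length at most `|E|` with entries `< q`).
The number of the interface vectors: hypothesis `hm`: all outcomes have at most `m` of them.
`algB P k c s X a = rowsL P (rkD X E) E k c s`, `E = List.range a.length` (`FP.range`: see how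
`alg` in `Pool/Agent/G4/AlgUP.lean` treats `List.range a.length`).
-/

namespace Pool.Agent.BW

open Turing Function N487b59b3 N68a2faeb Pool.Agent.Helper22 Pool.Agent.Helper49.Cons
open Pool.Agent.Helper6.WB
open Pool.Agent.G4 (nor dif word prd UP)

variable {P : Prm} {q : ℕ}

private theorem ui_flatMapA {α β δ : Type} [N487b59b3 α] [N487b59b3 β] [N487b59b3 δ] [Inhabited β]
    {h : Oracle → α → β → List δ} {l : Oracle → α → List β}
    (hh : UP fun X (p : α × β) => h X p.1 p.2) (hl : UP l) :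
    UP fun X x => (l X x).flatMap fun b => h X x b :=
  Pool.Agent.G4.UP.flatMap_ctx (h := h) hh Pool.Agent.G4.UP.id hl

/-- vectors of bounded size -/
private def uiV (q : ℕ) (E v : List ℕ) : Prop := v.length ≤ E.length ∧ ∀ a ∈ v, a < q

/-- entries of bounded size -/
private def uiE (P : Prm) (q m : ℕ) (E : List ℕ) (e : Entry) : Prop :=
  e.1 < P.nst ∧ (e.2.1.length ≤ m ∧ ∀ v ∈ e.2.1, uiV q E v) ∧
    (e.2.2.length ≤ E.length * P.cap ∧ ∀ v ∈ e.2.2, uiV q E v)

private theorem ui_lcL (hP : PrmOK P q) (E c : List ℕ) (vs : List (List ℕ)) :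
    uiV q E (lcL P E c vs) := ⟨lcL_length P E c vs, lcL_lt hP E c vs⟩

private theorem ui_mkE (hP : PrmOK P q) {m : ℕ} (E : List ℕ) (vs rl : List (List ℕ)) (o : Outc)
    (ho : o.2.2.length ≤ m) (hrl : ∀ v ∈ rl, uiV q E v) :
    ((mkE P E vs rl o).2.1.length ≤ m ∧ ∀ v ∈ (mkE P E vs rl o).2.1, uiV q E v) ∧
    ((mkE P E vs rl o).2.2.length ≤ E.length * P.cap ∧
      ∀ v ∈ (mkE P E vs rl o).2.2, uiV q E v) := by
  unfold mkE
  dsimp only
  refine ⟨⟨?_, ?_⟩, ?_, ?_⟩
  · rw [List.length_map]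
    exact ho
  · intro v hv
    rw [List.mem_map] at hv
    obtain ⟨c, _, rfl⟩ := hv
    exact ui_lcL hP E c vs
  · refine (List.length_take_le _ _).trans (le_of_eq ?_)
    rw [List.length_flatMap]
    simp only [List.length_range, List.map_const', List.sum_replicate, smul_eq_mul]
  · intro v hv
    have h1 := List.mem_of_mem_take hv
    rcases List.mem_append.1 h1 with h1 | h1
    · exact hrl v h1
    · rw [List.mem_map] at h1
      obtain ⟨c, _, rfl⟩ := h1
      exact ui_lcL hP E c vs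

private theorem ui_pick (P : Prm) (l : List Entry) :
    (pick P l).length ≤ P.nst ∧ ∀ e ∈ pick P l, e ∈ l ∧ e.1 < P.nst := by
  unfold pick
  constructor
  · rw [List.length_flatMap]
    have h1 : ∀ (r : List ℕ), (r.map fun c =>
        ((l.filter fun e => decide (e.1 = c)).take 1).length).sum ≤ r.length := by
      intro r
      induction r with
      | nil => simp
      | cons a r ih =>
        rw [List.map_cons, List.sum_cons, List.length_cons]
        have h2 := List.length_take_le 1 (l.filter fun e => decide (e.1 = a))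
        omega
    refine (h1 _).trans (le_of_eq ?_)
    rw [List.length_range]
  · intro e he
    rw [List.mem_flatMap] at he
    obtain ⟨c, hc, he⟩ := he
    have h1 := List.mem_filter.1 (List.mem_of_mem_take he)
    have h2 : e.1 = c := by simpa using h1.2
    refine ⟨h1.1, ?_⟩
    rw [h2]
    exact List.mem_range.1 hc

private theorem ui_look (tab : List (List ℕ × List Entry)) (t : List ℕ) (e : Entry)
    (he : e ∈ look tab t) : ∃ p ∈ tab, e ∈ p.2 := by
  unfold look at he
  cases h : (tab.filter fun p => decide (p.1 = t)) with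
  | nil =>
    rw [h] at he
    simp at he
  | cons p r =>
    rw [h, List.headD_cons] at he
    have h1 : p ∈ tab.filter fun p => decide (p.1 = t) := by rw [h]; simp
    exact ⟨p, (List.mem_filter.1 h1).1, he⟩

private theorem ui_entr (hP : PrmOK P q) (m : ℕ) (hm₁ : ∀ x, ∀ o ∈ P.mrg x, o.2.2.length ≤ m)
    (hm₂ : ∀ x, ∀ o ∈ P.lef x, o.2.2.length ≤ m) (ρ : List ℕ → ℕ) (E : List ℕ) (k c s : ℕ)
    (F : List (List ℕ)) (tab : List (List ℕ × List Entry)) (t : List ℕ)
    (htab : ∀ p ∈ tab, ∀ e ∈ p.2, uiE P q m E e) :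
    (entr P ρ E k c s F tab t).length ≤ P.nst ∧ ∀ e ∈ entr P ρ E k c s F tab t, uiE P q m E e := by
  unfold entr
  refine ⟨(ui_pick P _).1, fun e he => ?_⟩
  obtain ⟨h1, h2⟩ := (ui_pick P _).2 e he
  refine ⟨h2, ?_⟩
  split at h1
  · rw [List.mem_map] at h1
    obtain ⟨o, ho, rfl⟩ := h1
    exact ui_mkE hP E _ _ o (hm₂ _ o ho) (by simp)
  · rw [List.mem_flatMap] at h1
    obtain ⟨p, hp, h1⟩ := h1
    rw [List.mem_flatMap] at h1
    obtain ⟨e₁, he₁, h1⟩ := h1
    rw [List.mem_flatMap] at h1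
    obtain ⟨e₂, he₂, h1⟩ := h1
    rw [List.mem_map] at h1
    obtain ⟨o, ho, rfl⟩ := h1
    refine ui_mkE hP E _ _ o (hm₁ _ o ho) fun v hv => ?_
    obtain ⟨p₁, hp₁, h₁⟩ := ui_look tab _ e₁ he₁
    obtain ⟨p₂, hp₂, h₂⟩ := ui_look tab _ e₂ he₂
    rcases List.mem_append.1 hv with hv | hv
    · exact (htab p₁ hp₁ e₁ h₁).2.2.2 v hv
    · exact (htab p₂ hp₂ e₂ h₂).2.2.2 v hv

private theorem ui_szV {E v : List ℕ} (h : uiV q E v) {n : ℕ} (hn : E.length ≤ n) :
    sz v ≤ n * (2 * q + 1) :=
  (Pool.Agent.G4.sz_le_length_mul (C := q) fun b hb =>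
    (Pool.Agent.G4.sz_nat_le b).trans (h.2 b hb).le).trans
    (Nat.mul_le_mul_right _ (h.1.trans hn))

private theorem ui_szVs {E : List ℕ} {l : List (List ℕ)} (h : ∀ v ∈ l, uiV q E v) {n r : ℕ}
    (hn : E.length ≤ n) (hr : l.length ≤ r) : sz l ≤ r * (2 * (n * (2 * q + 1)) + 1) :=
  (Pool.Agent.G4.sz_le_length_mul fun b hb => ui_szV (h b hb) hn).trans
    (Nat.mul_le_mul_right _ hr)

private theorem ui_szE {m : ℕ} {E : List ℕ} {e : Entry} (h : uiE P q m E e) {n : ℕ}
    (hn : E.length ≤ n) :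
    sz e ≤ 2 * P.nst + 1 + (2 * (m * (2 * (n * (2 * q + 1)) + 1)) + 1 +
      (n * P.cap) * (2 * (n * (2 * q + 1)) + 1)) := by
  obtain ⟨a, b, c⟩ := e
  have h1 : sz a ≤ P.nst := (Pool.Agent.G4.sz_nat_le a).trans h.1.le
  have h2 := ui_szVs h.2.1.2 hn h.2.1.1
  have h3 := ui_szVs h.2.2.2 hn (h.2.2.1.trans (Nat.mul_le_mul_right _ hn))
  dsimp only at h2 h3
  rw [sz_pair, sz_pair]
  omega

section

variable {α : Type} [N487b59b3 α] {E t : Oracle → α → List ℕ}
  {F : Oracle → α → List (List ℕ)} {tab : Oracle → α → List (List ℕ × List Entry)}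

theorem up_entr (hP : PrmOK P q) (k c s : ℕ) (hE : UP E) (hF : UP F) (htab : UP tab) (ht : UP t) :
    UP fun X x => entr P (fun T => rkD X (E X x) T) (E X x) k c s (F X x) (tab X x) (t X x) := by
  have hc : UP fun X x => decide ((t X x).length ≤ 1) :=
    ht.fp (g := fun l : List ℕ => decide (l.length ≤ 1)) (by fun_prop)
  have h1 : UP fun X x => (P.lef (typL (fun T => rkD X (E X x) T) (E X x) k c s (t X x))).map
      fun o => mkE P (E X x) [unitL P (E X x) (t X x)] [] o := by
    refine Pool.Agent.G4.UP.mapA (h := fun X x o => mkE P (E X x) [unitL P (E X x) (t X x)] [] o)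
      ?_ ((up_typL k c s hE ht).fp hP.lef)
    have h2 : FP fun w : (List ℕ × List ℕ) × Outc => mkE P w.1.1 [unitL P w.1.1 w.1.2] [] w.2 :=
      fp_mkE hP (by fun_prop) (FP.cons (fp_unitL P (by fun_prop) (by fun_prop)) (FP.const []))
        (FP.const []) (by fun_prop)
    have h4 := (((hE.pre (FP.fst (α := α) (β := Outc))).pair
      (ht.pre (FP.fst (α := α) (β := Outc)))).pair Pool.Agent.G4.UP.snd).fp h2
    exact h4
  have h2 : UP fun X x => ((chl (E X x) (F X x) (t X x)).take 1).flatMap fun p =>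
      (look (tab X x) p.1).flatMap fun e₁ => (look (tab X x) p.2).flatMap fun e₂ =>
        (P.mrg (typN (fun T => rkD X (E X x) T) (E X x) k c s (t X x) p, (e₁.1, e₂.1))).map
          fun o => mkE P (E X x) (e₁.2.1 ++ e₂.2.1) (e₁.2.2 ++ e₂.2.2) o := by
    have l1 : UP fun X x => (chl (E X x) (F X x) (t X x)).take 1 := by
      have h3 : FP fun w : (List ℕ × List (List ℕ)) × List ℕ =>
        (chl w.1.1 w.1.2 w.2).take 1 := by fun_prop
      have h4 := ((hE.pair hF).pair ht).fp h3
      exact h4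
    refine ui_flatMapA (h := fun X x (p : List ℕ × List ℕ) =>
      (look (tab X x) p.1).flatMap fun e₁ => (look (tab X x) p.2).flatMap fun e₂ =>
        (P.mrg (typN (fun T => rkD X (E X x) T) (E X x) k c s (t X x) p, (e₁.1, e₂.1))).map
          fun o => mkE P (E X x) (e₁.2.1 ++ e₂.2.1) (e₁.2.2 ++ e₂.2.2) o) ?_ l1
    have l2 : UP fun X (w : α × (List ℕ × List ℕ)) => look (tab X w.1) w.2.1 := by
      have h3 : FP fun w : List (List ℕ × List Entry) × (List ℕ × List ℕ) => look w.1 w.2.1 :=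
        fp_look (by fun_prop) (by fun_prop)
      have h4 := ((htab.pre (FP.fst (α := α) (β := List ℕ × List ℕ))).pair
        Pool.Agent.G4.UP.snd).fp h3
      exact h4
    refine ui_flatMapA (h := fun X (w : α × (List ℕ × List ℕ)) (e₁ : Entry) =>
      (look (tab X w.1) w.2.2).flatMap fun e₂ =>
        (P.mrg (typN (fun T => rkD X (E X w.1) T) (E X w.1) k c s (t X w.1) w.2,
          (e₁.1, e₂.1))).map
          fun o => mkE P (E X w.1) (e₁.2.1 ++ e₂.2.1) (e₁.2.2 ++ e₂.2.2) o) ?_ l2
    have l3 : UP fun X (w : (α × (List ℕ × List ℕ)) × Entry) => look (tab X w.1.1) w.1.2.2 := by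
      have h3 : FP fun w : List (List ℕ × List Entry) × ((List ℕ × List ℕ) × Entry) =>
        look w.1 w.2.1.2 := fp_look (by fun_prop) (by fun_prop)
      have h4 := ((htab.pre (f := fun w : (α × (List ℕ × List ℕ)) × Entry => w.1.1)
        (by fun_prop)).pair
        (Pool.Agent.G4.UP.of_FP (f := fun w : (α × (List ℕ × List ℕ)) × Entry => (w.1.2, w.2))
          (by fun_prop))).fp h3
      exact h4
    refine ui_flatMapA (h := fun X (w : (α × (List ℕ × List ℕ)) × Entry) (e₂ : Entry) =>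
        (P.mrg (typN (fun T => rkD X (E X w.1.1) T) (E X w.1.1) k c s (t X w.1.1) w.1.2,
          (w.2.1, e₂.1))).map
          fun o => mkE P (E X w.1.1) (w.2.2.1 ++ e₂.2.1) (w.2.2.2 ++ e₂.2.2) o) ?_ l3
    have l4 : UP fun X (w : ((α × (List ℕ × List ℕ)) × Entry) × Entry) =>
        P.mrg (typN (fun T => rkD X (E X w.1.1.1) T) (E X w.1.1.1) k c s (t X w.1.1.1) w.1.1.2,
          (w.1.2.1, w.2.1)) := by
      have h3 := up_typN (α := ((α × (List ℕ × List ℕ)) × Entry) × Entry)
        (E := fun X w => E X w.1.1.1) (t := fun X w => t X w.1.1.1) (p := fun _ w => w.1.1.2) k c s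
        (hE.pre (by fun_prop)) (ht.pre (by fun_prop)) (Pool.Agent.G4.UP.of_FP (by fun_prop))
      refine Pool.Agent.G4.UP.fp hP.mrg (h3.pair
        (Pool.Agent.G4.UP.of_FP (f := fun w : ((α × (List ℕ × List ℕ)) × Entry) × Entry =>
          (w.1.2.1, w.2.1)) (by fun_prop)))
    refine Pool.Agent.G4.UP.mapA (h := fun X (w : ((α × (List ℕ × List ℕ)) × Entry) × Entry)
      (o : Outc) => mkE P (E X w.1.1.1) (w.1.2.2.1 ++ w.2.2.1) (w.1.2.2.2 ++ w.2.2.2) o) ?_ l4
    have h3 : FP fun w : List ℕ × ((Entry × Entry) × Outc) =>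
        mkE P w.1 (w.2.1.1.2.1 ++ w.2.1.2.2.1) (w.2.1.1.2.2 ++ w.2.1.2.2.2) w.2.2 :=
      fp_mkE hP (by fun_prop) (by fun_prop) (by fun_prop) (by fun_prop)
    have h4 := ((hE.pre (f := fun w : (((α × (List ℕ × List ℕ)) × Entry) × Entry) × Outc =>
        w.1.1.1.1) (by fun_prop)).pair
        (Pool.Agent.G4.UP.of_FP (f := fun w : (((α × (List ℕ × List ℕ)) × Entry) × Entry) × Outc =>
          ((w.1.1.2, w.1.2), w.2)) (by fun_prop))).fp h3
    exact h4
  have h3 := (hc.ite h1 h2).fp (g := fun l : List Entry => pick P l) (fp_pick P FP.id)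
  refine h3.congr fun X x => ?_
  unfold entr
  simp only [decide_eq_true_eq]

theorem up_tabl (hP : PrmOK P q) (m : ℕ) (hm₁ : ∀ x, ∀ o ∈ P.mrg x, o.2.2.length ≤ m)
    (hm₂ : ∀ x, ∀ o ∈ P.lef x, o.2.2.length ≤ m) (k c s : ℕ) (hE : UP E) (hF : UP F) :
    UP fun X x => tabl P (fun T => rkD X (E X x) T) (E X x) k c s (F X x) := by
  obtain ⟨BE, hBE, _, hBEle⟩ := hE.bound
  obtain ⟨BF, hBF, _, hBFle⟩ := hF.bound
  have h1 : UP fun X (p : α × (List (List ℕ × List Entry) × List ℕ)) =>
      p.2.1 ++ [(p.2.2, entr P (fun T => rkD X (E X p.1) T) (E X p.1) k c s (F X p.1) p.2.1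
        p.2.2)] := by
    have h2 := up_entr (α := α × (List (List ℕ × List Entry) × List ℕ)) (E := fun X p => E X p.1)
      (F := fun X p => F X p.1) (tab := fun _ p => p.2.1) (t := fun _ p => p.2.2) hP k c s
      (hE.pre (by fun_prop)) (hF.pre (by fun_prop)) (Pool.Agent.G4.UP.of_FP (by fun_prop))
      (Pool.Agent.G4.UP.of_FP (by fun_prop))
    have h3 : FP fun w : (List (List ℕ × List Entry) × List ℕ) × List Entry =>
        w.1.1 ++ [(w.1.2, w.2)] := by fun_prop
    have h4 := ((Pool.Agent.G4.UP.snd (α := α)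
      (β := List (List ℕ × List Entry) × List ℕ)).pair h2).fp h3
    exact h4
  have hl : UP fun X x => (F X x).reverse := hF.fp (g := fun l : List (List ℕ) => l.reverse)
    (by fun_prop)
  unfold tabl
  refine Pool.Agent.G4.UP.foldA (g := fun X x (tab : List (List ℕ × List Entry)) (t : List ℕ) =>
    tab ++ [(t, entr P (fun T => rkD X (E X x) T) (E X x) k c s (F X x) tab t)])
    (l := fun X x => (F X x).reverse) (x := fun _ _ => []) h1
    (B := fun n => BF n * (2 * (2 * BF n + 1 + P.nst * (2 * (2 * P.nst + 1 +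
      (2 * (m * (2 * (BE n * (2 * q + 1)) + 1)) + 1 +
      (BE n * P.cap) * (2 * (BE n * (2 * q + 1)) + 1))) + 1)) + 1)) (by fun_prop) hl
    (Pool.Agent.G4.UP.const []) fun X x i hi => ?_
  have key := Pool.Agent.G4.foldl_take_ind (P := fun i (tab : List (List ℕ × List Entry)) =>
      tab.length ≤ i ∧ ∀ p ∈ tab, p.1 ∈ (F X x).reverse ∧ p.2.length ≤ P.nst ∧
        ∀ e ∈ p.2, uiE P q m (E X x) e)
    (g := fun (tab : List (List ℕ × List Entry)) (t : List ℕ) =>
    tab ++ [(t, entr P (fun T => rkD X (E X x) T) (E X x) k c s (F X x) tab t)])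
    (l := (F X x).reverse) (x := []) (by simp) (by
      rintro i tab t ht ⟨h2, h3⟩
      refine ⟨?_, fun p hp => ?_⟩
      · rw [List.length_append, List.length_singleton]
        omega
      · rcases List.mem_append.1 hp with hp | hp
        · exact h3 p hp
        · rw [List.mem_singleton] at hp
          subst hp
          exact ⟨ht, ui_entr hP m hm₁ hm₂ _ _ k c s _ tab t fun p hp e he => (h3 p hp).2.2 e he⟩)
    i hi
  obtain ⟨h2, h3⟩ := key
  have hEn : (E X x).length ≤ BE (sz x) := (length_le_sz _).trans (hBEle X x)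
  have hFn : (F X x).length ≤ BF (sz x) := (length_le_sz _).trans (hBFle X x)
  refine (Pool.Agent.G4.sz_le_length_mul (C := 2 * BF (sz x) + 1 + P.nst * (2 * (2 * P.nst + 1 +
      (2 * (m * (2 * (BE (sz x) * (2 * q + 1)) + 1)) + 1 +
      (BE (sz x) * P.cap) * (2 * (BE (sz x) * (2 * q + 1)) + 1))) + 1)) ?_).trans
    (Nat.mul_le_mul_right _ ?_)
  · rintro ⟨t, L⟩ hp
    obtain ⟨h4, h5, h6⟩ := h3 _ hp
    have h7 : sz t ≤ BF (sz x) := (sz_mem_le (List.mem_reverse.1 h4)).trans (hBFle X x)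
    have h8 := (Pool.Agent.G4.sz_le_length_mul fun e he => ui_szE (h6 e he) hEn).trans
      (Nat.mul_le_mul_right _ h5)
    dsimp only at h8
    rw [sz_pair]
    omega
  · rw [List.length_reverse] at hi
    exact h2.trans (hi.trans hFn)

end

theorem up_algB (hP : PrmOK P q) (m : ℕ) (hm₁ : ∀ x, ∀ o ∈ P.mrg x, o.2.2.length ≤ m)
    (hm₂ : ∀ x, ∀ o ∈ P.lef x, o.2.2.length ≤ m) (k c s : ℕ) : UP (algB P k c s) := by
  have hE : UP fun _ (a : List Bool) => List.range a.length :=
    Pool.Agent.G4.UP.of_FP (by fun_prop)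
  have hF := up_osFam k hE hE
  have hT := up_tabl hP m hm₁ hm₂ k c s hE hF
  have h3 : FP fun w : List (List ℕ × List Entry) × List ℕ =>
      ((look w.1 w.2).headD (0, ([], []))).2.2 := by
    have h4 : FP fun w : List (List ℕ × List Entry) × List ℕ => look w.1 w.2 :=
      fp_look (by fun_prop) (by fun_prop)
    fun_prop
  exact ((hT.pair hE).fp h3).congr fun X a => rfl

end Pool.Agent.BW
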