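import Pool.Agent.BW.UI
import Pool.Agent.BW.UT

set_option autoImplicit false

/-! # Module UJ: the algorithm with the constants of the field is polynomial -/

namespace Pool.Agent.BW

open Turing Function N487b59b3 N68a2faeb Pool.Agent.Helper22 Pool.Agent.Helper49.Cons
open Pool.Agent.Helper6.WB
open Pool.Agent.G4 (nor dif word prd UP)

variable {K : Type} [Field K] [Fintype K] (e : Fin (Fintype.card K) ≃ K)

theorem prmOK (m s : ℕ) : PrmOK (prmK e m s) (Fintype.card K) := by
  refine ⟨prm_add e m s, prm_mul e m s, prm_mrg e m s, prm_lef e m s, prm_add_lt e m s, prm_mul_lt e m s, ?_, ?_⟩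
  · exact (e.symm 0).2
  · exact (e.symm 1).2

theorem up_alg (m s k c : ℕ) : UP (algB (prmK e m s) k c s) := by
  refine up_algB (prmOK e m s) m (fun x o ho => ?_) (fun x o ho => ?_) k c s
  · have h : o ∈ mrgK e m s x := ho
    unfold mrgK at h
    split_ifs at h
    · unfold outs at h
      rw [List.mem_map] at h
      obtain ⟨g, _, rfl⟩ := h
      show (cofC e g).length ≤ m
      unfold cofC
      rw [List.length_ofFn]
    · exact absurd h List.not_mem_nil
  · have h : o ∈ lefK e m s x := ho
    unfold lefK at h
    split_ifs at h
    · unfold lefO at h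
      split_ifs at h
      · rw [List.mem_singleton] at h
        rw [h]
        show (List.ofFn fun _ : Fin m => [cod e 0]).length ≤ m
        rw [List.length_ofFn]
      · rw [List.mem_map] at h
        obtain ⟨g, _, rfl⟩ := h
        show (List.ofFn fun i : Fin m => [cod e (g (Pi.single i 1))]).length ≤ m
        rw [List.length_ofFn]
    · exact absurd h List.not_mem_nil

end Pool.Agent.BW
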